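import Mathlib

/-!
# Nim-values of subtraction games

Basic definitions for one-pile subtraction games and a criterion that identifies the nim-sequence with
an explicitly given ultimately periodic sequence after a finite check.
-/

set_option autoImplicit false

namespace Pool.Agent.V11155.Subtraction

/-- The nim-value (Sprague-Grundy value) of a pile of size `n` in the subtraction game with
subtraction set `S`: the least natural number which is not the nim-value of a position `n - s`
with `s ∈ S`, `0 < s ≤ n`. -/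
noncomputable def nim (S : Finset ℕ) (n : ℕ) : ℕ :=
  sInf {k : ℕ | ∀ s, (h : s ∈ S ∧ 0 < s ∧ s ≤ n) → nim S (n - s) ≠ k}
termination_by n
decreasing_by omega

/-- The number `p ≥ 1` satisfies `a (n + p) = a n` for all large `n`. -/
def UltPer (a : ℕ → ℕ) (p : ℕ) : Prop :=
  0 < p ∧ ∃ n₀, ∀ n, n₀ ≤ n → a (n + p) = a n

/-- A Boolean test of the mex condition at `n` for a candidate sequence `g`. -/
def mexOk (S : List ℕ) (g : ℕ → ℕ) (n : ℕ) : Bool :=
  S.all (fun s => decide (s = 0) || decide (n < s) || decide (g (n - s) ≠ g n)) &&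
  (List.range (g n)).all (fun k =>
    S.any (fun s => decide (0 < s) && decide (s ≤ n) && decide (g (n - s) = k)))

theorem mexOk_iff (S : List ℕ) (g : ℕ → ℕ) (n : ℕ) :
    mexOk S g n = true ↔
      (∀ s ∈ S, 0 < s → s ≤ n → g (n - s) ≠ g n) ∧
      (∀ k < g n, ∃ s ∈ S, 0 < s ∧ s ≤ n ∧ g (n - s) = k) := by
  unfold mexOk
  simp only [Bool.and_eq_true, List.all_eq_true, Bool.or_eq_true, decide_eq_true_eq,
    List.mem_range, List.any_eq_true]
  constructor
  · rintro ⟨h1, h2⟩
    refine ⟨fun s hs h0 hn => ?_, fun k hk => ?_⟩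
    · rcases h1 s hs with (h | h) | h
      · omega
      · omega
      · exact h
    · obtain ⟨s, hs, ⟨h0, hn⟩, hg⟩ := h2 k hk
      exact ⟨s, hs, h0, hn, hg⟩
  · rintro ⟨h1, h2⟩
    refine ⟨fun s hs => ?_, fun k hk => ?_⟩
    · by_cases h0 : s = 0
      · exact Or.inl (Or.inl h0)
      by_cases hn : n < s
      · exact Or.inl (Or.inr hn)
      exact Or.inr (h1 s hs (by omega) (by omega))
    · obtain ⟨s, hs, h0, hn, hg⟩ := h2 k hk
      exact ⟨s, hs, ⟨h0, hn⟩, hg⟩

/-- A sequence which satisfies the mex condition everywhere is the nim-sequence. -/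
theorem nim_eq_of_forall (S : Finset ℕ) (g : ℕ → ℕ)
    (h : ∀ n, (∀ s ∈ S, 0 < s → s ≤ n → g (n - s) ≠ g n) ∧
      (∀ k < g n, ∃ s ∈ S, 0 < s ∧ s ≤ n ∧ g (n - s) = k)) (n : ℕ) :
    nim S n = g n := by
  induction n using Nat.strong_induction_on with
  | _ n ih =>
    rw [nim]
    obtain ⟨h1, h2⟩ := h n
    have hmem : g n ∈ {k : ℕ | ∀ s, (h : s ∈ S ∧ 0 < s ∧ s ≤ n) → nim S (n - s) ≠ k} := by
      intro s hs
      rw [ih (n - s) (by omega)]
      exact h1 s hs.1 hs.2.1 hs.2.2
    refine le_antisymm (Nat.sInf_le hmem) (le_csInf ⟨_, hmem⟩ ?_)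
    intro k hk
    by_contra hlt
    push Not at hlt
    obtain ⟨s, hs, h0, hn, hg⟩ := h2 k hlt
    exact hk s ⟨hs, h0, hn⟩ (by rw [ih (n - s) (by omega)]; exact hg)

/-- Criterion: a candidate sequence `g` which has period `p` from `n₀` on and which passes the
finite test for `n < N`, where `N ≥ n₀ + p + max S`, is the nim-sequence. -/
theorem nim_eq_of_test (S : List ℕ) (g : ℕ → ℕ) (n₀ p M N : ℕ) (hp : 0 < p)
    (hM : ∀ s ∈ S, s ≤ M) (hN : n₀ + p + M ≤ N)
    (hper : ∀ n, n₀ ≤ n → g (n + p) = g n)
    (htest : (List.range N).all (mexOk S g) = true) (n : ℕ) :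
    nim S.toFinset n = g n := by
  refine nim_eq_of_forall _ _ ?_ n
  intro n
  have key : ∀ n, mexOk S g n = true := by
    intro n
    induction n using Nat.strong_induction_on with
    | _ n ih =>
      by_cases hn : n < N
      · exact (List.all_eq_true.1 htest) n (List.mem_range.2 hn)
      · have h3 := (mexOk_iff S g (n - p)).1 (ih (n - p) (by omega))
        rw [mexOk_iff]
        have e1 : g n = g (n - p) := by
          have := hper (n - p) (by omega)
          rwa [show n - p + p = n by omega] at this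
        have e2 : ∀ s ∈ S, g (n - s) = g (n - p - s) := by
          intro s hs
          have hs' := hM s hs
          have := hper (n - p - s) (by omega)
          rwa [show n - p - s + p = n - s by omega] at this
        refine ⟨fun s hs h0 hle => ?_, fun k hk => ?_⟩
        · rw [e1, e2 s hs]
          exact h3.1 s hs h0 (by have := hM s hs; omega)
        · rw [e1] at hk
          obtain ⟨s, hs, h0, hle, hg⟩ := h3.2 k hk
          exact ⟨s, hs, h0, by omega, by rw [e2 s hs]; exact hg⟩
  have := (mexOk_iff S g n).1 (key n)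
  refine ⟨fun s hs => this.1 s (by simpa using hs), fun k hk => ?_⟩
  obtain ⟨s, hs, h⟩ := this.2 k hk
  exact ⟨s, by simpa using hs, h⟩

/-- If `a` has period `q` from `n₀` on and also the ultimate period `p`, then `a (n + p) = a n` for
all `n ≥ n₀`. -/
theorem UltPer.from_start {a : ℕ → ℕ} {p q n₀ : ℕ} (hq : 0 < q)
    (hper : ∀ n, n₀ ≤ n → a (n + q) = a n) (h : UltPer a p) :
    ∀ n, n₀ ≤ n → a (n + p) = a n := by
  have hk : ∀ k n, n₀ ≤ n → a (n + k * q) = a n := by
    intro k
    induction k with
    | zero => intro n _; simp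
    | succ k ih =>
      intro n hn
      rw [Nat.succ_mul, ← Nat.add_assoc, hper _ (by omega), ih n hn]
  obtain ⟨-, n₁, h₁⟩ := h
  intro n hn
  have hle : n₁ ≤ n + n₁ * q := by nlinarith
  have := h₁ (n + n₁ * q) hle
  rw [hk n₁ n hn] at this
  rw [← hk n₁ (n + p) (by omega)]
  rw [← this]
  congr 1
  ring

end Pool.Agent.V11155.Subtraction
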