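import Pool.Agent.V11155.PlanarTri

/-!
A box of lattice points with winning and losing points, monotone in the last coordinate, either
has a short trade or its winning and losing points are separated by an affine function.
-/

namespace Pool.Agent.V11155.Planar

open Finset

/-- Algebraic Farkas lemma over the rationals (Bartl's induction). -/
theorem farkas_lin {U : Type*} [AddCommGroup U] [Module ℚ U] :
    ∀ (m : ℕ) (ℓ : Fin m → (U →ₗ[ℚ] ℚ)) (f : U →ₗ[ℚ] ℚ),
      (∀ x, (∀ i, ℓ i x ≤ 0) → f x ≤ 0) →
      ∃ w : Fin m → ℚ, (∀ i, 0 ≤ w i) ∧ ∀ x, f x = ∑ i, w i * ℓ i x := by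
  intro m
  induction m with
  | zero =>
    intro ℓ f h
    refine ⟨fun i => 0, fun i => le_refl _, fun x => ?_⟩
    have h1 := h x (fun i => i.elim0)
    have h2 := h (-x) (fun i => i.elim0)
    rw [map_neg] at h2
    simp
    linarith
  | succ m ih =>
    intro ℓ f h
    by_cases hA : ∀ x, (∀ i : Fin m, ℓ i.castSucc x ≤ 0) → f x ≤ 0
    · obtain ⟨w, hw, hf⟩ := ih (fun i => ℓ i.castSucc) f hA
      refine ⟨Fin.snoc w 0, ?_, ?_⟩
      · intro i
        refine Fin.lastCases ?_ (fun j => ?_) i
        · simp
        · simpa using hw j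
      · intro x
        rw [Fin.sum_univ_castSucc]
        simp [hf x]
    · push Not at hA
      obtain ⟨x0, hx0, hfx0⟩ := hA
      have hlast : 0 < ℓ (Fin.last m) x0 := by
        by_contra hneg
        push Not at hneg
        have : f x0 ≤ 0 := h x0 (fun i => by
          refine Fin.lastCases ?_ (fun j => ?_) i
          · exact hneg
          · exact hx0 j)
        linarith
      set t : ℚ := ℓ (Fin.last m) x0 with ht
      obtain ⟨w, hw, hf⟩ := ih
        (fun i => ℓ i.castSucc - (ℓ i.castSucc x0 / t) • ℓ (Fin.last m))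
        (f - (f x0 / t) • ℓ (Fin.last m)) (by
          intro x hx
          have key : f (x - (ℓ (Fin.last m) x / t) • x0) ≤ 0 := by
            apply h
            intro i
            refine Fin.lastCases ?_ (fun j => ?_) i
            · rw [map_sub, map_smul, smul_eq_mul, ← ht, div_mul_cancel₀ _ hlast.ne', sub_self]
            · have := hx j
              simp only [LinearMap.sub_apply, LinearMap.smul_apply, smul_eq_mul] at this
              rw [map_sub, map_smul, smul_eq_mul]
              have e : ℓ (Fin.last m) x / t * ℓ j.castSucc x0 =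
                ℓ j.castSucc x0 / t * ℓ (Fin.last m) x := by ring
              rw [e]
              exact this
          rw [map_sub, map_smul, smul_eq_mul] at key
          simp only [LinearMap.sub_apply, LinearMap.smul_apply, smul_eq_mul]
          have e : ℓ (Fin.last m) x / t * f x0 = f x0 / t * ℓ (Fin.last m) x := by ring
          rw [e] at key
          exact key)
      refine ⟨Fin.snoc w (f x0 / t - ∑ i, w i * (ℓ i.castSucc x0 / t)), ?_, ?_⟩
      · intro i
        refine Fin.lastCases ?_ (fun j => ?_) i
        · simp only [Fin.snoc_last]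
          have h1 : 0 < f x0 / t := div_pos hfx0 hlast
          have h2 : ∑ i, w i * (ℓ i.castSucc x0 / t) ≤ 0 := by
            apply Finset.sum_nonpos
            intro i _
            apply mul_nonpos_of_nonneg_of_nonpos (hw i)
            exact div_nonpos_of_nonpos_of_nonneg (hx0 i) hlast.le
          linarith
        · simpa using hw j
      · intro x
        have hx := hf x
        simp only [LinearMap.sub_apply, LinearMap.smul_apply, smul_eq_mul] at hx
        rw [Fin.sum_univ_castSucc]
        simp only [Fin.snoc_castSucc, Fin.snoc_last]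
        have e : ∑ i, w i * (ℓ i.castSucc x - ℓ i.castSucc x0 / t * ℓ (Fin.last m) x)
            = ∑ i, w i * ℓ i.castSucc x - (∑ i, w i * (ℓ i.castSucc x0 / t)) * ℓ (Fin.last m) x := by
          rw [Finset.sum_mul, ← Finset.sum_sub_distrib]
          refine Finset.sum_congr rfl fun i _ => ?_
          ring
        rw [e] at hx
        linarith

/-- The linear functional with given coefficients. -/
def lin5 (c : Fin 5 → ℚ) : (Fin 5 → ℚ) →ₗ[ℚ] ℚ where
  toFun x := ∑ j, c j * x j
  map_add' x y := by
    rw [← Finset.sum_add_distrib]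
    refine Finset.sum_congr rfl fun j _ => ?_
    simp only [Pi.add_apply]
    ring
  map_smul' r x := by
    simp only [Pi.smul_apply, smul_eq_mul, RingHom.id_apply]
    rw [Finset.mul_sum]
    refine Finset.sum_congr rfl fun j _ => ?_
    ring

lemma lin5_apply (c x : Fin 5 → ℚ) : lin5 c x = ∑ j, c j * x j := rfl

/-- Gordan's alternative for points in space with signs. -/
lemma gordan {ι : Type} [Fintype ι] (ε X Y Z : ι → ℚ) :
    (∃ f0 f1 f2 f3 : ℚ, ∀ i, 0 < ε i * (f0 + f1 * X i + f2 * Y i + f3 * Z i)) ∨
    ∃ t : ι → ℚ, (∀ i, 0 ≤ t i) ∧ ∑ i, t i = 1 ∧ ∑ i, t i * ε i = 0 ∧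
      ∑ i, t i * (ε i * X i) = 0 ∧ ∑ i, t i * (ε i * Y i) = 0 ∧ ∑ i, t i * (ε i * Z i) = 0 := by
  classical
  let e := Fintype.equivFin ι
  let co : ι → Fin 5 → ℚ := fun i => ![-(ε i), -(ε i * X i), -(ε i * Y i), -(ε i * Z i), 1]
  by_cases h : ∀ x : Fin 5 → ℚ, (∀ i, lin5 (co (e.symm i)) x ≤ 0) → lin5 ![0, 0, 0, 0, 1] x ≤ 0
  · right
    obtain ⟨w, hw, hf⟩ := farkas_lin (Fintype.card ι) (fun i => lin5 (co (e.symm i)))
      (lin5 ![0, 0, 0, 0, 1]) h
    have hsum : ∀ g : ι → ℚ, ∑ i, w i * g (e.symm i) = ∑ i, w (e i) * g i := by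
      intro g
      rw [← e.sum_comp]
      simp
    refine ⟨fun i => w (e i), fun i => hw _, ?_, ?_, ?_, ?_, ?_⟩
    · have := hf ![0, 0, 0, 0, 1]
      simp only [lin5_apply, Fin.sum_univ_five, co] at this
      simp at this
      rw [← e.sum_comp] at this
      exact this.symm
    · have := hf ![1, 0, 0, 0, 0]
      simp only [lin5_apply, Fin.sum_univ_five, co] at this
      simp at this
      rw [hsum ε] at this
      exact this
    · have := hf ![0, 1, 0, 0, 0]
      simp only [lin5_apply, Fin.sum_univ_five, co] at this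
      simp at this
      rw [hsum (fun i => ε i * X i)] at this
      exact this
    · have := hf ![0, 0, 1, 0, 0]
      simp only [lin5_apply, Fin.sum_univ_five, co] at this
      simp at this
      rw [hsum (fun i => ε i * Y i)] at this
      exact this
    · have := hf ![0, 0, 0, 1, 0]
      simp only [lin5_apply, Fin.sum_univ_five, co] at this
      simp at this
      rw [hsum (fun i => ε i * Z i)] at this
      exact this
  · left
    push Not at h
    obtain ⟨x, hx, hpos⟩ := h
    refine ⟨x 0, x 1, x 2, x 3, fun i => ?_⟩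
    have h1 := hx (e i)
    simp only [lin5_apply, Fin.sum_univ_five, co, Equiv.symm_apply_apply] at h1 hpos
    simp at h1 hpos
    linarith

end Pool.Agent.V11155.Planar
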