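import Mathlib

/-!
Short trades in a box `[0,a] × [0,b] × [0,c]` of lattice points split into winning and losing
points, with winning monotone in the last coordinate: a crossing of the hulls of the two sets,
given by one of the planar circuits (2,1), (2,2), (3,1), (1,2), (1,3), produces a trade of
length two or three.
-/

namespace Pool.Agent.V11155.Planar

/-- A box of lattice points with a set of winning points, monotone in the last coordinate. -/
structure Sys where
  a : ℤ
  b : ℤ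
  c : ℤ
  win : ℤ → ℤ → ℤ → Prop
  mono : ∀ x y z z', 0 ≤ z → z ≤ z' → z' ≤ c → win x y z → win x y z'

/-- A winning point of the box. -/
def W (S : Sys) (x y z : ℤ) : Prop :=
  (0 ≤ x ∧ x ≤ S.a) ∧ (0 ≤ y ∧ y ≤ S.b) ∧ (0 ≤ z ∧ z ≤ S.c) ∧ S.win x y z

/-- A losing point of the box. -/
def L (S : Sys) (x y z : ℤ) : Prop :=
  (0 ≤ x ∧ x ≤ S.a) ∧ (0 ≤ y ∧ y ≤ S.b) ∧ (0 ≤ z ∧ z ≤ S.c) ∧ ¬ S.win x y z

/-- The system with winning and losing exchanged and the last coordinate reversed. -/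
def dual (S : Sys) : Sys where
  a := S.a
  b := S.b
  c := S.c
  win x y z := ¬ S.win x y (S.c - z)
  mono x y z z' h0 h1 h2 h h' := h (S.mono x y (S.c - z') (S.c - z) (by linarith) (by linarith)
    (by linarith) h')

lemma W_dual (S : Sys) (x y z : ℤ) : W (dual S) x y z ↔ L S x y (S.c - z) := by
  unfold W L dual
  simp only
  constructor
  · rintro ⟨h1, h2, h3, h4⟩
    exact ⟨h1, h2, ⟨by linarith [h3.2], by linarith [h3.1]⟩, h4⟩
  · rintro ⟨h1, h2, h3, h4⟩
    exact ⟨h1, h2, ⟨by linarith [h3.2], by linarith [h3.1]⟩, h4⟩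

lemma L_dual (S : Sys) (x y z : ℤ) : L (dual S) x y z ↔ W S x y (S.c - z) := by
  unfold W L dual
  simp only [not_not]
  constructor
  · rintro ⟨h1, h2, h3, h4⟩
    exact ⟨h1, h2, ⟨by linarith [h3.2], by linarith [h3.1]⟩, h4⟩
  · rintro ⟨h1, h2, h3, h4⟩
    exact ⟨h1, h2, ⟨by linarith [h3.2], by linarith [h3.1]⟩, h4⟩

/-- There is a trade of length two. -/
def Two (S : Sys) : Prop :=
  ∃ x1 y1 z1 x2 y2 z2 u1 v1 w1 u2 v2 w2 : ℤ, W S x1 y1 z1 ∧ W S x2 y2 z2 ∧ L S u1 v1 w1 ∧
    L S u2 v2 w2 ∧ x1 + x2 = u1 + u2 ∧ y1 + y2 = v1 + v2 ∧ z1 + z2 ≤ w1 + w2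

/-- There is a trade of length three. -/
def Three (S : Sys) : Prop :=
  ∃ x1 y1 z1 x2 y2 z2 x3 y3 z3 u1 v1 w1 u2 v2 w2 u3 v3 w3 : ℤ,
    W S x1 y1 z1 ∧ W S x2 y2 z2 ∧ W S x3 y3 z3 ∧ L S u1 v1 w1 ∧ L S u2 v2 w2 ∧ L S u3 v3 w3 ∧
    x1 + x2 + x3 = u1 + u2 + u3 ∧ y1 + y2 + y3 = v1 + v2 + v3 ∧ z1 + z2 + z3 ≤ w1 + w2 + w3

/-- There is a short trade. -/
def Short (S : Sys) : Prop := Two S ∨ Three S

lemma short_dual (S : Sys) (h : Short (dual S)) : Short S := by
  rcases h with ⟨x1, y1, z1, x2, y2, z2, u1, v1, w1, u2, v2, w2, h1, h2, h3, h4, e1, e2, e3⟩ |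
    ⟨x1, y1, z1, x2, y2, z2, x3, y3, z3, u1, v1, w1, u2, v2, w2, u3, v3, w3, h1, h2, h3, h4, h5,
      h6, e1, e2, e3⟩
  · rw [W_dual] at h1 h2
    rw [L_dual] at h3 h4
    exact Or.inl ⟨u1, v1, _, u2, v2, _, x1, y1, _, x2, y2, _, h3, h4, h1, h2, e1.symm, e2.symm,
      by linarith⟩
  · rw [W_dual] at h1 h2 h3
    rw [L_dual] at h4 h5 h6
    exact Or.inr ⟨u1, v1, _, u2, v2, _, u3, v3, _, x1, y1, _, x2, y2, _, x3, y3, _, h4, h5, h6,
      h1, h2, h3, e1.symm, e2.symm, by linarith⟩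

/-- A winning point is not below a losing point of the same column. -/
lemma col (S : Sys) {x y z z' : ℤ} (h1 : W S x y z) (h2 : L S x y z') : z' < z := by
  by_contra h
  push Not at h
  exact h2.2.2.2 (S.mono x y z z' h1.2.2.1.1 h h2.2.2.1.2 h1.2.2.2)

/-- A point of the box is winning or losing. -/
lemma W_or_L (S : Sys) {x y z : ℤ} (hx : 0 ≤ x ∧ x ≤ S.a) (hy : 0 ≤ y ∧ y ≤ S.b)
    (hz : 0 ≤ z ∧ z ≤ S.c) : W S x y z ∨ L S x y z := by
  by_cases h : S.win x y z
  · exact Or.inl ⟨hx, hy, hz, h⟩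
  · exact Or.inr ⟨hx, hy, hz, h⟩

/-- Bounds for a weighted mean of two numbers. -/
lemma mean2 {n α β p q r lo hi : ℤ} (hn : 0 < n) (hα : 0 ≤ α) (hβ : 0 ≤ β) (hs : α + β = n)
    (hr : n * r = α * p + β * q) (hp : lo ≤ p ∧ p ≤ hi) (hq : lo ≤ q ∧ q ≤ hi) :
    lo ≤ r ∧ r ≤ hi := by
  have h1 : α * lo ≤ α * p := mul_le_mul_of_nonneg_left hp.1 hα
  have h2 : β * lo ≤ β * q := mul_le_mul_of_nonneg_left hq.1 hβ
  have h3 : α * p ≤ α * hi := mul_le_mul_of_nonneg_left hp.2 hα
  have h4 : β * q ≤ β * hi := mul_le_mul_of_nonneg_left hq.2 hβ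
  constructor
  · by_contra h
    push Not at h
    have : n * r < n * lo := mul_lt_mul_of_pos_left h hn
    rw [← hs] at this hr
    nlinarith
  · by_contra h
    push Not at h
    have : n * hi < n * r := mul_lt_mul_of_pos_left h hn
    rw [← hs] at this hr
    nlinarith

/-- Bounds for a weighted mean of three numbers. -/
lemma mean3 {n α β γ p q s r lo hi : ℤ} (hn : 0 < n) (hα : 0 ≤ α) (hβ : 0 ≤ β) (hγ : 0 ≤ γ)
    (hs : α + β + γ = n) (hr : n * r = α * p + β * q + γ * s) (hp : lo ≤ p ∧ p ≤ hi)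
    (hq : lo ≤ q ∧ q ≤ hi) (hs' : lo ≤ s ∧ s ≤ hi) : lo ≤ r ∧ r ≤ hi := by
  have h1 : α * lo ≤ α * p := mul_le_mul_of_nonneg_left hp.1 hα
  have h2 : β * lo ≤ β * q := mul_le_mul_of_nonneg_left hq.1 hβ
  have h3 : α * p ≤ α * hi := mul_le_mul_of_nonneg_left hp.2 hα
  have h4 : β * q ≤ β * hi := mul_le_mul_of_nonneg_left hq.2 hβ
  have h5 : γ * lo ≤ γ * s := mul_le_mul_of_nonneg_left hs'.1 hγ
  have h6 : γ * s ≤ γ * hi := mul_le_mul_of_nonneg_left hs'.2 hγ
  constructor
  · by_contra h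
    push Not at h
    have : n * r < n * lo := mul_lt_mul_of_pos_left h hn
    rw [← hs] at this hr
    nlinarith
  · by_contra h
    push Not at h
    have : n * hi < n * r := mul_lt_mul_of_pos_left h hn
    rw [← hs] at this hr
    nlinarith

/-- Floor division. -/
lemma floor_spec (n e : ℤ) (hn : 0 < n) : n * (e / n) ≤ e ∧ e < n * (e / n) + n := by
  have h1 := Int.mul_ediv_add_emod e n
  have h2 := Int.emod_nonneg e hn.ne'
  have h3 := Int.emod_lt_of_pos e hn
  constructor <;> linarith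

lemma le_of_mul_lt {n u v : ℤ} (hn : 0 < n) (h : n * u < n * v + n) : u ≤ v := by
  by_contra h2
  push Not at h2
  have h3 : v + 1 ≤ u := h2
  have : n * (v + 1) ≤ n * u := mul_le_mul_of_nonneg_left h3 hn.le
  nlinarith

lemma floor_bounds {n e c : ℤ} (hn : 0 < n) (h0 : 0 ≤ e) (h1 : e ≤ n * c) :
    0 ≤ e / n ∧ e / n ≤ c := by
  refine ⟨Int.ediv_nonneg h0 hn.le, ?_⟩
  obtain ⟨h2, _⟩ := floor_spec n e hn
  apply le_of_mul_lt hn
  linarith

/-- The circuit (2,1). -/
lemma seg : ∀ n : ℕ, ∀ (S : Sys) (α β x1 y1 h1 x2 y2 h2 u v k : ℤ), 0 < α → 0 < β →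
    α + β ≤ n → W S x1 y1 h1 → W S x2 y2 h2 → L S u v k →
    α * x1 + β * x2 = (α + β) * u → α * y1 + β * y2 = (α + β) * v →
    α * h1 + β * h2 ≤ (α + β) * k → Two S := by
  intro n
  induction n with
  | zero =>
    intro S α β x1 y1 h1 x2 y2 h2 u v k ha hb hs
    push_cast at hs
    omega
  | succ n ih =>
    intro S α β x1 y1 h1 x2 y2 h2 u v k ha hb hs w1 w2 l hx hy hz
    have hn : 0 < α + β := by linarith
    -- the reflected point
    have ex : (α + β) * (x1 + x2 - u) = β * x1 + α * x2 := by linear_combination hx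
    have ey : (α + β) * (y1 + y2 - v) = β * y1 + α * y2 := by linear_combination hy
    have bx := mean2 hn hb.le ha.le (by ring) ex w1.1 w2.1
    have by' := mean2 hn hb.le ha.le (by ring) ey w1.2.1 w2.2.1
    have hh1 := w1.2.2.1
    have hh2 := w2.2.2.1
    have e0 : 0 ≤ β * h1 + α * h2 :=
      add_nonneg (mul_nonneg hb.le hh1.1) (mul_nonneg ha.le hh2.1)
    have e1 : β * h1 + α * h2 ≤ (α + β) * S.c := by
      have a1 := mul_le_mul_of_nonneg_left hh1.2 hb.le
      have a2 := mul_le_mul_of_nonneg_left hh2.2 ha.le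
      linarith
    have bz := floor_bounds hn e0 e1
    obtain ⟨f1, f2⟩ := floor_spec (α + β) (β * h1 + α * h2) hn
    set z := (β * h1 + α * h2) / (α + β) with hzdef
    rcases W_or_L S bx by' bz with hw | hl
    · -- the reflected point wins: a shorter segment
      rcases lt_trichotomy α β with hlt | heq | hgt
      · -- the losing point is between the second point and the reflected one
        refine ih S α (β - α) (x1 + x2 - u) (y1 + y2 - v) z x2 y2 h2 u v k ha (by linarith)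
          (by push_cast at hs; linarith) hw w2 l ?_ ?_ ?_
        · linear_combination hx
        · linear_combination hy
        · -- heights
          have g1 : (α + β) * (α * z + (β - α) * h2) ≤ (α + β) * ((α + (β - α)) * k) := by
            have g2 : α * ((α + β) * z) ≤ α * (β * h1 + α * h2) :=
              mul_le_mul_of_nonneg_left f1 ha.le
            have g3 : β * (α * h1 + β * h2) ≤ β * ((α + β) * k) :=
              mul_le_mul_of_nonneg_left hz hb.le
            nlinarith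
          exact le_of_mul_le_mul_left g1 hn
      · exfalso
        subst heq
        have ex2 : x1 + x2 - u = u := by
          have : α * (x1 + x2 - u - u) = 0 := by linear_combination hx
          rcases mul_eq_zero.1 this with h' | h'
          · linarith
          · linarith
        have ey2 : y1 + y2 - v = v := by
          have : α * (y1 + y2 - v - v) = 0 := by linear_combination hy
          rcases mul_eq_zero.1 this with h' | h'
          · linarith
          · linarith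
        rw [ex2, ey2] at hw
        have := col S hw l
        have g1 : (α + α) * z ≤ (α + α) * k := by linarith
        have g2 := le_of_mul_le_mul_left g1 hn
        linarith
      · refine ih S (α - β) β x1 y1 h1 (x1 + x2 - u) (y1 + y2 - v) z u v k (by linarith) hb
          (by push_cast at hs; linarith) w1 hw l ?_ ?_ ?_
        · linear_combination hx
        · linear_combination hy
        · have g1 : (α + β) * ((α - β) * h1 + β * z) ≤ (α + β) * ((α - β + β) * k) := by
            have g2 : β * ((α + β) * z) ≤ β * (β * h1 + α * h2) :=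
              mul_le_mul_of_nonneg_left f1 hb.le
            have g3 : α * (α * h1 + β * h2) ≤ α * ((α + β) * k) :=
              mul_le_mul_of_nonneg_left hz ha.le
            nlinarith
          exact le_of_mul_le_mul_left g1 hn
    · -- the reflected point loses: a trade
      refine ⟨x1, y1, h1, x2, y2, h2, u, v, k, x1 + x2 - u, y1 + y2 - v, z, w1, w2, l, hl,
        by ring, by ring, ?_⟩
      have g1 : (α + β) * (h1 + h2 - k) < (α + β) * z + (α + β) := by nlinarith
      have := le_of_mul_lt hn g1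
      linarith

/-- The circuit (1,2). -/
lemma seg' (S : Sys) (α β x1 y1 k1 x2 y2 k2 u v h : ℤ) (ha : 0 < α) (hb : 0 < β)
    (l1 : L S x1 y1 k1) (l2 : L S x2 y2 k2) (w : W S u v h)
    (hx : α * x1 + β * x2 = (α + β) * u) (hy : α * y1 + β * y2 = (α + β) * v)
    (hz : (α + β) * h ≤ α * k1 + β * k2) : Short S := by
  apply short_dual
  left
  refine seg (α + β).toNat (dual S) α β x1 y1 (S.c - k1) x2 y2 (S.c - k2) u v (S.c - h) ha hb
    ?_ ?_ ?_ ?_ hx hy ?_
  · rw [Int.toNat_of_nonneg (by linarith)]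
  · rw [W_dual]; simpa using l1
  · rw [W_dual]; simpa using l2
  · rw [L_dual]; simpa using w
  · nlinarith

/-- One reduction step for the circuit (2,2), when the weight of the second losing point is
minimal. -/
lemma quad_step (n : ℕ)
    (ih : ∀ (S : Sys) (α₁ α₂ β₁ β₂ x1 y1 h1 x2 y2 h2 u1 v1 k1 u2 v2 k2 : ℤ),
      0 < α₁ → 0 < α₂ → 0 < β₁ → 0 < β₂ → α₁ + α₂ = β₁ + β₂ → α₁ + α₂ ≤ n →
      W S x1 y1 h1 → W S x2 y2 h2 → L S u1 v1 k1 → L S u2 v2 k2 →
      α₁ * x1 + α₂ * x2 = β₁ * u1 + β₂ * u2 → α₁ * y1 + α₂ * y2 = β₁ * v1 + β₂ * v2 →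
      α₁ * h1 + α₂ * h2 ≤ β₁ * k1 + β₂ * k2 → Short S)
    (S : Sys) (α₁ α₂ β₁ β₂ x1 y1 h1 x2 y2 h2 u1 v1 k1 u2 v2 k2 : ℤ)
    (ha1 : 0 < α₁) (ha2 : 0 < α₂) (hb1 : 0 < β₁) (hb2 : 0 < β₂) (hab : α₁ + α₂ = β₁ + β₂)
    (hs : α₁ + α₂ ≤ n + 1) (m1 : β₂ ≤ α₁) (m2 : β₂ ≤ α₂)
    (w1 : W S x1 y1 h1) (w2 : W S x2 y2 h2) (l1 : L S u1 v1 k1) (l2 : L S u2 v2 k2)
    (hx : α₁ * x1 + α₂ * x2 = β₁ * u1 + β₂ * u2) (hy : α₁ * y1 + α₂ * y2 = β₁ * v1 + β₂ * v2)
    (hz : α₁ * h1 + α₂ * h2 ≤ β₁ * k1 + β₂ * k2) : Short S := by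
  have ex : β₁ * (x1 + x2 - u1) = (α₂ - β₂) * x1 + (α₁ - β₂) * x2 + β₂ * u2 := by
    have : β₁ = α₁ + α₂ - β₂ := by linarith
    subst this
    linear_combination hx
  have ey : β₁ * (y1 + y2 - v1) = (α₂ - β₂) * y1 + (α₁ - β₂) * y2 + β₂ * v2 := by
    have : β₁ = α₁ + α₂ - β₂ := by linarith
    subst this
    linear_combination hy
  have bx := mean3 hb1 (sub_nonneg.2 m2) (sub_nonneg.2 m1) hb2.le (by linarith) ex w1.1 w2.1 l2.1
  have by' := mean3 hb1 (sub_nonneg.2 m2) (sub_nonneg.2 m1) hb2.le (by linarith) ey w1.2.1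
    w2.2.1 l2.2.1
  have hh1 := w1.2.2.1
  have hh2 := w2.2.2.1
  have hh3 := l2.2.2.1
  have e0 : 0 ≤ (α₂ - β₂) * h1 + (α₁ - β₂) * h2 + β₂ * k2 :=
    add_nonneg (add_nonneg (mul_nonneg (sub_nonneg.2 m2) hh1.1)
      (mul_nonneg (sub_nonneg.2 m1) hh2.1)) (mul_nonneg hb2.le hh3.1)
  have e1 : (α₂ - β₂) * h1 + (α₁ - β₂) * h2 + β₂ * k2 ≤ β₁ * S.c := by
    have a1 := mul_le_mul_of_nonneg_left hh1.2 (sub_nonneg.2 m2)
    have a2 := mul_le_mul_of_nonneg_left hh2.2 (sub_nonneg.2 m1)
    have a3 := mul_le_mul_of_nonneg_left hh3.2 hb2.le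
    have : β₁ * S.c = (α₂ - β₂) * S.c + (α₁ - β₂) * S.c + β₂ * S.c := by
      have : β₁ = α₁ + α₂ - β₂ := by linarith
      subst this
      ring
    linarith
  have bz := floor_bounds hb1 e0 e1
  obtain ⟨f1, f2⟩ := floor_spec β₁ ((α₂ - β₂) * h1 + (α₁ - β₂) * h2 + β₂ * k2) hb1
  set z := ((α₂ - β₂) * h1 + (α₁ - β₂) * h2 + β₂ * k2) / β₁ with hzdef
  rcases W_or_L S bx by' bz with hw | hl
  · -- the new point wins
    rcases le_total α₁ α₂ with h12 | h12
    · -- replace the first winning point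
      have kx : α₁ * (x1 + x2 - u1) + (α₂ - α₁) * x2 = (α₂ - β₂) * u1 + β₂ * u2 := by
        have : β₁ = α₁ + α₂ - β₂ := by linarith
        subst this
        linear_combination hx
      have ky : α₁ * (y1 + y2 - v1) + (α₂ - α₁) * y2 = (α₂ - β₂) * v1 + β₂ * v2 := by
        have : β₁ = α₁ + α₂ - β₂ := by linarith
        subst this
        linear_combination hy
      have kz : α₁ * z + (α₂ - α₁) * h2 ≤ (α₂ - β₂) * k1 + β₂ * k2 := by
        have g1 : β₁ * (α₁ * z + (α₂ - α₁) * h2) ≤ β₁ * ((α₂ - β₂) * k1 + β₂ * k2) := by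
          have g2 := mul_le_mul_of_nonneg_left f1 ha1.le
          have g3 := mul_le_mul_of_nonneg_left hz (sub_nonneg.2 m2)
          have : β₁ = α₁ + α₂ - β₂ := by linarith
          subst this
          nlinarith
        exact le_of_mul_le_mul_left g1 hb1
      rcases eq_or_lt_of_le h12 with q1 | q1
      · rcases eq_or_lt_of_le m2 with q2 | q2
        · -- the new point is the second losing point
          exfalso
          have r1 : x1 + x2 - u1 = u2 := by
            have : α₁ * (x1 + x2 - u1 - u2) = 0 := by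
              rw [← q1, q2, ← q1] at kx
              linear_combination kx
            rcases mul_eq_zero.1 this with h' | h'
            · linarith
            · linarith
          have r2 : y1 + y2 - v1 = v2 := by
            have : α₁ * (y1 + y2 - v1 - v2) = 0 := by
              rw [← q1, q2, ← q1] at ky
              linear_combination ky
            rcases mul_eq_zero.1 this with h' | h'
            · linarith
            · linarith
          rw [r1, r2] at hw
          have h3 := col S hw l2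
          have h4 : α₁ * z ≤ α₁ * k2 := by
            rw [← q1, q2, ← q1] at kz
            linarith
          have h5 := le_of_mul_le_mul_left h4 ha1
          linarith
        · refine seg' S (α₂ - β₂) β₂ u1 v1 k1 u2 v2 k2 (x1 + x2 - u1) (y1 + y2 - v1) z
            (by linarith) hb2 l1 l2 hw ?_ ?_ ?_
          · rw [← q1] at kx ⊢
            linear_combination -kx
          · rw [← q1] at ky ⊢
            linear_combination -ky
          · rw [← q1] at kz ⊢
            linarith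
      · rcases eq_or_lt_of_le m2 with q2 | q2
        · left
          refine seg (α₂).toNat S α₁ (α₂ - α₁) (x1 + x2 - u1) (y1 + y2 - v1) z x2 y2 h2 u2 v2 k2
            ha1 (by linarith) ?_ hw w2 l2 ?_ ?_ ?_
          · rw [Int.toNat_of_nonneg ha2.le]; linarith
          · rw [q2] at kx
            linear_combination kx
          · rw [q2] at ky
            linear_combination ky
          · rw [q2] at kz
            linarith
        · exact ih S α₁ (α₂ - α₁) (α₂ - β₂) β₂ _ _ z x2 y2 h2 u1 v1 k1 u2 v2 k2 ha1 (by linarith)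
            (by linarith) hb2 (by linarith) (by linarith) hw w2 l1 l2 kx ky kz
    · have kx : α₂ * (x1 + x2 - u1) + (α₁ - α₂) * x1 = (α₁ - β₂) * u1 + β₂ * u2 := by
        have : β₁ = α₁ + α₂ - β₂ := by linarith
        subst this
        linear_combination hx
      have ky : α₂ * (y1 + y2 - v1) + (α₁ - α₂) * y1 = (α₁ - β₂) * v1 + β₂ * v2 := by
        have : β₁ = α₁ + α₂ - β₂ := by linarith
        subst this
        linear_combination hy
      have kz : α₂ * z + (α₁ - α₂) * h1 ≤ (α₁ - β₂) * k1 + β₂ * k2 := by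
        have g1 : β₁ * (α₂ * z + (α₁ - α₂) * h1) ≤ β₁ * ((α₁ - β₂) * k1 + β₂ * k2) := by
          have g2 := mul_le_mul_of_nonneg_left f1 ha2.le
          have g3 := mul_le_mul_of_nonneg_left hz (sub_nonneg.2 m1)
          have : β₁ = α₁ + α₂ - β₂ := by linarith
          subst this
          nlinarith
        exact le_of_mul_le_mul_left g1 hb1
      rcases eq_or_lt_of_le h12 with q1 | q1
      · rcases eq_or_lt_of_le m1 with q2 | q2
        · exfalso
          have r1 : x1 + x2 - u1 = u2 := by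
            have : α₂ * (x1 + x2 - u1 - u2) = 0 := by
              rw [← q1, q2, ← q1] at kx
              linear_combination kx
            rcases mul_eq_zero.1 this with h' | h'
            · linarith
            · linarith
          have r2 : y1 + y2 - v1 = v2 := by
            have : α₂ * (y1 + y2 - v1 - v2) = 0 := by
              rw [← q1, q2, ← q1] at ky
              linear_combination ky
            rcases mul_eq_zero.1 this with h' | h'
            · linarith
            · linarith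
          rw [r1, r2] at hw
          have h3 := col S hw l2
          have h4 : α₂ * z ≤ α₂ * k2 := by
            rw [← q1, q2, ← q1] at kz
            linarith
          have h5 := le_of_mul_le_mul_left h4 ha2
          linarith
        · refine seg' S (α₁ - β₂) β₂ u1 v1 k1 u2 v2 k2 (x1 + x2 - u1) (y1 + y2 - v1) z
            (by linarith) hb2 l1 l2 hw ?_ ?_ ?_
          · rw [← q1] at kx ⊢
            linear_combination -kx
          · rw [← q1] at ky ⊢
            linear_combination -ky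
          · rw [← q1] at kz ⊢
            linarith
      · rcases eq_or_lt_of_le m1 with q2 | q2
        · left
          refine seg (α₁).toNat S α₂ (α₁ - α₂) (x1 + x2 - u1) (y1 + y2 - v1) z x1 y1 h1 u2 v2 k2
            ha2 (by linarith) ?_ hw w1 l2 ?_ ?_ ?_
          · rw [Int.toNat_of_nonneg ha1.le]; linarith
          · rw [q2] at kx
            linear_combination kx
          · rw [q2] at ky
            linear_combination ky
          · rw [q2] at kz
            linarith
        · exact ih S α₂ (α₁ - α₂) (α₁ - β₂) β₂ _ _ z x1 y1 h1 u1 v1 k1 u2 v2 k2 ha2 (by linarith)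
            (by linarith) hb2 (by linarith) (by linarith) hw w1 l1 l2 kx ky kz
  · left
    refine ⟨x1, y1, h1, x2, y2, h2, u1, v1, k1, x1 + x2 - u1, y1 + y2 - v1, z, w1, w2, l1, hl,
      by ring, by ring, ?_⟩
    have g1 : β₁ * (h1 + h2 - k1) < β₁ * z + β₁ := by
      have : β₁ = α₁ + α₂ - β₂ := by linarith
      subst this
      nlinarith
    have := le_of_mul_lt hb1 g1
    linarith

/-- The circuit (2,2). -/
lemma quad : ∀ (n : ℕ) (S : Sys) (α₁ α₂ β₁ β₂ x1 y1 h1 x2 y2 h2 u1 v1 k1 u2 v2 k2 : ℤ),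
      0 < α₁ → 0 < α₂ → 0 < β₁ → 0 < β₂ → α₁ + α₂ = β₁ + β₂ → α₁ + α₂ ≤ n →
      W S x1 y1 h1 → W S x2 y2 h2 → L S u1 v1 k1 → L S u2 v2 k2 →
      α₁ * x1 + α₂ * x2 = β₁ * u1 + β₂ * u2 → α₁ * y1 + α₂ * y2 = β₁ * v1 + β₂ * v2 →
      α₁ * h1 + α₂ * h2 ≤ β₁ * k1 + β₂ * k2 → Short S := by
  intro n
  induction n with
  | zero =>
    intro S α₁ α₂ β₁ β₂ x1 y1 h1 x2 y2 h2 u1 v1 k1 u2 v2 k2 ha1 ha2 hb1 hb2 hab hs
    push_cast at hs
    omega
  | succ n ih =>
    intro S α₁ α₂ β₁ β₂ x1 y1 h1 x2 y2 h2 u1 v1 k1 u2 v2 k2 ha1 ha2 hb1 hb2 hab hs w1 w2 l1 l2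
      hx hy hz
    push_cast at hs
    have hcase : (β₂ ≤ α₁ ∧ β₂ ≤ α₂) ∨ (β₁ ≤ α₁ ∧ β₁ ≤ α₂) ∨ (α₂ ≤ β₁ ∧ α₂ ≤ β₂) ∨
        (α₁ ≤ β₁ ∧ α₁ ≤ β₂) := by omega
    have dw1 : W (dual S) u1 v1 (S.c - k1) := by rw [W_dual]; simpa using l1
    have dw2 : W (dual S) u2 v2 (S.c - k2) := by rw [W_dual]; simpa using l2
    have dl1 : L (dual S) x1 y1 (S.c - h1) := by rw [L_dual]; simpa using w1
    have dl2 : L (dual S) x2 y2 (S.c - h2) := by rw [L_dual]; simpa using w2
    have dz : β₁ * (S.c - k1) + β₂ * (S.c - k2) ≤ α₁ * (S.c - h1) + α₂ * (S.c - h2) := by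
      have : (α₁ + α₂) * S.c = (β₁ + β₂) * S.c := by rw [hab]
      nlinarith
    rcases hcase with ⟨m1, m2⟩ | ⟨m1, m2⟩ | ⟨m1, m2⟩ | ⟨m1, m2⟩
    · exact quad_step n ih S α₁ α₂ β₁ β₂ x1 y1 h1 x2 y2 h2 u1 v1 k1 u2 v2 k2 ha1 ha2 hb1 hb2 hab
        hs m1 m2 w1 w2 l1 l2 hx hy hz
    · exact quad_step n ih S α₁ α₂ β₂ β₁ x1 y1 h1 x2 y2 h2 u2 v2 k2 u1 v1 k1 ha1 ha2 hb2 hb1
        (by linarith) hs m1 m2 w1 w2 l2 l1 (by linarith) (by linarith) (by linarith)
    · exact short_dual S (quad_step n ih (dual S) β₁ β₂ α₁ α₂ u1 v1 _ u2 v2 _ x1 y1 _ x2 y2 _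
        hb1 hb2 ha1 ha2 (by linarith) (by linarith) m1 m2 dw1 dw2 dl1 dl2 (by linarith)
        (by linarith) dz)
    · exact short_dual S (quad_step n ih (dual S) β₁ β₂ α₂ α₁ u1 v1 _ u2 v2 _ x2 y2 _ x1 y1 _
        hb1 hb2 ha2 ha1 (by linarith) (by linarith) m1 m2 dw1 dw2 dl2 dl1 (by linarith)
        (by linarith) (by linarith))

/-- Twice the signed area of a triangle. -/
def det (x1 y1 x2 y2 x3 y3 : ℤ) : ℤ := (x2 - x1) * (y3 - y1) - (x3 - x1) * (y2 - y1)

/-- The circuit (2,1) with weights which may vanish. -/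
lemma edge (S : Sys) {D β γ x2 y2 h2 x3 y3 h3 u v k : ℤ} (hD : 0 < D) (hb : 0 ≤ β) (hc : 0 ≤ γ)
    (hs : β + γ = D) (w2 : W S x2 y2 h2) (w3 : W S x3 y3 h3) (l : L S u v k)
    (hx : D * u = β * x2 + γ * x3) (hy : D * v = β * y2 + γ * y3)
    (hz : β * h2 + γ * h3 ≤ D * k) : Short S := by
  rcases eq_or_lt_of_le hb with q | q
  · exfalso
    rw [← q] at hs hx hy hz
    have e : γ = D := by linarith
    subst e
    have e1 : u = x3 := by
      have : γ * (u - x3) = 0 := by linear_combination hx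
      rcases mul_eq_zero.1 this with h' | h'
      · linarith
      · linarith
    have e2 : v = y3 := by
      have : γ * (v - y3) = 0 := by linear_combination hy
      rcases mul_eq_zero.1 this with h' | h'
      · linarith
      · linarith
    rw [e1, e2] at l
    have h1 := col S w3 l
    have h2 : h3 ≤ k := le_of_mul_le_mul_left (by linarith) hD
    linarith
  · rcases eq_or_lt_of_le hc with r | r
    · exfalso
      rw [← r] at hs hx hy hz
      have e : β = D := by linarith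
      subst e
      have e1 : u = x2 := by
        have : β * (u - x2) = 0 := by linear_combination hx
        rcases mul_eq_zero.1 this with h' | h'
        · linarith
        · linarith
      have e2 : v = y2 := by
        have : β * (v - y2) = 0 := by linear_combination hy
        rcases mul_eq_zero.1 this with h' | h'
        · linarith
        · linarith
      rw [e1, e2] at l
      have h1 := col S w2 l
      have h2' : h2 ≤ k := le_of_mul_le_mul_left (by linarith) hD
      linarith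
    · left
      refine seg (β + γ).toNat S β γ x2 y2 h2 x3 y3 h3 u v k q r ?_ w2 w3 l ?_ ?_ ?_
      · rw [Int.toNat_of_nonneg (by linarith)]
      · rw [hs]; linarith
      · rw [hs]; linarith
      · rw [hs]; linarith

lemma ratio_trans {p q r P Q R : ℤ} (hQ : 0 < Q) (hP : 0 < P) (hR : 0 < R)
    (h1 : p * Q ≤ q * P) (h2 : q * R ≤ r * Q) : p * R ≤ r * P := by
  have a1 : p * Q * R ≤ q * P * R := mul_le_mul_of_nonneg_right h1 hR.le
  have a2 : q * R * P ≤ r * Q * P := mul_le_mul_of_nonneg_right h2 hP.le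
  have a3 : Q * (p * R) ≤ Q * (r * P) := by nlinarith
  exact le_of_mul_le_mul_left a3 hQ

/-- A step of the closure argument: subtract the vertex `q`. -/
lemma stepB (S : Sys) (x1 y1 h1 x2 y2 h2 x3 y3 h3 u v k r s κ xq yq hq δa δb δc : ℤ)
    (hD : 0 < det x1 y1 x2 y2 x3 y3)
    (w1 : W S x1 y1 h1) (w2 : W S x2 y2 h2) (w3 : W S x3 y3 h3) (wq : W S xq yq hq)
    (l : L S u v k) (lr : L S r s κ)
    (qa : det xq yq x2 y2 x3 y3 = δa) (qb : det x1 y1 xq yq x3 y3 = δb)
    (qc : det x1 y1 x2 y2 xq yq = δc)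
    (qh : δa * h1 + δb * h2 + δc * h3 = det x1 y1 x2 y2 x3 y3 * hq)
    (pa : 0 ≤ det r s x2 y2 x3 y3 + det u v x2 y2 x3 y3 - δa)
    (pb : 0 ≤ det x1 y1 r s x3 y3 + det x1 y1 u v x3 y3 - δb)
    (pc : 0 ≤ det x1 y1 x2 y2 r s + det x1 y1 x2 y2 u v - δc)
    (hE : det r s x2 y2 x3 y3 * h1 + det x1 y1 r s x3 y3 * h2 + det x1 y1 x2 y2 r s * h3
      ≤ det x1 y1 x2 y2 x3 y3 * κ)
    (hE' : det u v x2 y2 x3 y3 * h1 + det x1 y1 u v x3 y3 * h2 + det x1 y1 x2 y2 u v * h3
      ≤ det x1 y1 x2 y2 x3 y3 * k) :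
    Short S ∨ ∃ r' s' κ' : ℤ, L S r' s' κ' ∧
      det r' s' x2 y2 x3 y3 = det r s x2 y2 x3 y3 + det u v x2 y2 x3 y3 - δa ∧
      det x1 y1 r' s' x3 y3 = det x1 y1 r s x3 y3 + det x1 y1 u v x3 y3 - δb ∧
      det x1 y1 x2 y2 r' s' = det x1 y1 x2 y2 r s + det x1 y1 x2 y2 u v - δc ∧
      det r' s' x2 y2 x3 y3 * h1 + det x1 y1 r' s' x3 y3 * h2 + det x1 y1 x2 y2 r' s' * h3
      ≤ det x1 y1 x2 y2 x3 y3 * κ' := by
  have ea : det (r + u - xq) (s + v - yq) x2 y2 x3 y3
      = det r s x2 y2 x3 y3 + det u v x2 y2 x3 y3 - δa := by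
    rw [← qa]; unfold det; ring
  have eb : det x1 y1 (r + u - xq) (s + v - yq) x3 y3
      = det x1 y1 r s x3 y3 + det x1 y1 u v x3 y3 - δb := by
    rw [← qb]; unfold det; ring
  have ec : det x1 y1 x2 y2 (r + u - xq) (s + v - yq)
      = det x1 y1 x2 y2 r s + det x1 y1 x2 y2 u v - δc := by
    rw [← qc]; unfold det; ring
  rw [← ea] at pa
  rw [← eb] at pb
  rw [← ec] at pc
  have esum : det (r + u - xq) (s + v - yq) x2 y2 x3 y3
      + det x1 y1 (r + u - xq) (s + v - yq) x3 y3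
      + det x1 y1 x2 y2 (r + u - xq) (s + v - yq) = det x1 y1 x2 y2 x3 y3 := by
    unfold det; ring
  have ex : det x1 y1 x2 y2 x3 y3 * (r + u - xq)
      = det (r + u - xq) (s + v - yq) x2 y2 x3 y3 * x1
      + det x1 y1 (r + u - xq) (s + v - yq) x3 y3 * x2
      + det x1 y1 x2 y2 (r + u - xq) (s + v - yq) * x3 := by
    unfold det; ring
  have ey : det x1 y1 x2 y2 x3 y3 * (s + v - yq)
      = det (r + u - xq) (s + v - yq) x2 y2 x3 y3 * y1
      + det x1 y1 (r + u - xq) (s + v - yq) x3 y3 * y2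
      + det x1 y1 x2 y2 (r + u - xq) (s + v - yq) * y3 := by
    unfold det; ring
  have bx := mean3 hD pa pb pc esum ex w1.1 w2.1 w3.1
  have by' := mean3 hD pa pb pc esum ey w1.2.1 w2.2.1 w3.2.1
  have hh1 := w1.2.2.1
  have hh2 := w2.2.2.1
  have hh3 := w3.2.2.1
  generalize hA : det (r + u - xq) (s + v - yq) x2 y2 x3 y3 = A at *
  generalize hB : det x1 y1 (r + u - xq) (s + v - yq) x3 y3 = B at *
  generalize hC : det x1 y1 x2 y2 (r + u - xq) (s + v - yq) = C at *
  generalize hDD : det x1 y1 x2 y2 x3 y3 = D at *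
  have e0 : 0 ≤ A * h1 + B * h2 + C * h3 :=
    add_nonneg (add_nonneg (mul_nonneg pa hh1.1) (mul_nonneg pb hh2.1)) (mul_nonneg pc hh3.1)
  have e1 : A * h1 + B * h2 + C * h3 ≤ D * S.c := by
    have a1 := mul_le_mul_of_nonneg_left hh1.2 pa
    have a2 := mul_le_mul_of_nonneg_left hh2.2 pb
    have a3 := mul_le_mul_of_nonneg_left hh3.2 pc
    rw [← esum]
    linarith
  obtain ⟨f1, f2⟩ := floor_spec D (A * h1 + B * h2 + C * h3 + D - 1) hD
  set z := (A * h1 + B * h2 + C * h3 + D - 1) / D with hz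
  have bz : 0 ≤ z ∧ z ≤ S.c := by
    constructor
    · exact Int.ediv_nonneg (by linarith) hD.le
    · apply le_of_mul_lt hD
      linarith
  have g1 : A * h1 + B * h2 + C * h3 ≤ D * z := by linarith
  have g2 : D * z < A * h1 + B * h2 + C * h3 + D := by linarith
  rcases W_or_L S bx by' bz with hw | hl
  · left; left
    refine ⟨xq, yq, hq, _, _, z, r, s, κ, u, v, k, wq, hw, lr, l, by ring, by ring, ?_⟩
    have g3 : D * z < D * (κ + k - hq) + D := by
      rw [ea, eb, ec] at g2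
      nlinarith
    have := le_of_mul_lt hD g3
    linarith
  · right
    exact ⟨_, _, z, hl, hA.trans ea, hB.trans eb, hC.trans ec, by rw [hA, hB, hC]; exact g1⟩

end Pool.Agent.V11155.Planar
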