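import Pool.Agent.V11155.Planar

/-!
The circuit (3,1): a losing point over a triangle of winning points produces a short trade.
-/

namespace Pool.Agent.V11155.Planar

/-- The case of the closure argument in which the complementary point is a lattice point of the
triangle. -/
lemma stepA (n : ℕ) (S : Sys)
    (ih : ∀ (x1 y1 h1 x2 y2 h2 x3 y3 h3 u v k : ℤ), 0 < det x1 y1 x2 y2 x3 y3 →
      det x1 y1 x2 y2 x3 y3 ≤ n → 0 ≤ det u v x2 y2 x3 y3 → 0 ≤ det x1 y1 u v x3 y3 →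
      0 ≤ det x1 y1 x2 y2 u v → W S x1 y1 h1 → W S x2 y2 h2 → W S x3 y3 h3 → L S u v k →
      det u v x2 y2 x3 y3 * h1 + det x1 y1 u v x3 y3 * h2 + det x1 y1 x2 y2 u v * h3
        ≤ det x1 y1 x2 y2 x3 y3 * k → Short S)
    (x1 y1 h1 x2 y2 h2 x3 y3 h3 u v k r s κ : ℤ)
    (hD : 0 < det x1 y1 x2 y2 x3 y3) (hn : det x1 y1 x2 y2 x3 y3 ≤ n + 1)
    (w1 : W S x1 y1 h1) (w2 : W S x2 y2 h2) (w3 : W S x3 y3 h3)
    (l : L S u v k) (lr : L S r s κ)
    (ha : 0 < det u v x2 y2 x3 y3) (hb : 0 < det x1 y1 u v x3 y3) (hc : 0 < det x1 y1 x2 y2 u v)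
    (_hra : 0 ≤ det r s x2 y2 x3 y3) (_hrb : 0 ≤ det x1 y1 r s x3 y3)
    (_hrc : 0 ≤ det x1 y1 x2 y2 r s)
    (pa : det r s x2 y2 x3 y3 + det u v x2 y2 x3 y3 < det x1 y1 x2 y2 x3 y3)
    (pb : det x1 y1 r s x3 y3 + det x1 y1 u v x3 y3 < det x1 y1 x2 y2 x3 y3)
    (pc : det x1 y1 x2 y2 r s + det x1 y1 x2 y2 u v < det x1 y1 x2 y2 x3 y3)
    (hE : det r s x2 y2 x3 y3 * h1 + det x1 y1 r s x3 y3 * h2 + det x1 y1 x2 y2 r s * h3
      ≤ det x1 y1 x2 y2 x3 y3 * κ)
    (hE' : det u v x2 y2 x3 y3 * h1 + det x1 y1 u v x3 y3 * h2 + det x1 y1 x2 y2 u v * h3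
      ≤ det x1 y1 x2 y2 x3 y3 * k) : Short S := by
  have ea : det (x1 + x2 + x3 - r - u) (y1 + y2 + y3 - s - v) x2 y2 x3 y3
      = det x1 y1 x2 y2 x3 y3 - det r s x2 y2 x3 y3 - det u v x2 y2 x3 y3 := by
    unfold det; ring
  have eb : det x1 y1 (x1 + x2 + x3 - r - u) (y1 + y2 + y3 - s - v) x3 y3
      = det x1 y1 x2 y2 x3 y3 - det x1 y1 r s x3 y3 - det x1 y1 u v x3 y3 := by
    unfold det; ring
  have ec : det x1 y1 x2 y2 (x1 + x2 + x3 - r - u) (y1 + y2 + y3 - s - v)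
      = det x1 y1 x2 y2 x3 y3 - det x1 y1 x2 y2 r s - det x1 y1 x2 y2 u v := by
    unfold det; ring
  have esum : det (x1 + x2 + x3 - r - u) (y1 + y2 + y3 - s - v) x2 y2 x3 y3
      + det x1 y1 (x1 + x2 + x3 - r - u) (y1 + y2 + y3 - s - v) x3 y3
      + det x1 y1 x2 y2 (x1 + x2 + x3 - r - u) (y1 + y2 + y3 - s - v)
      = det x1 y1 x2 y2 x3 y3 := by
    unfold det; ring
  have ex : det x1 y1 x2 y2 x3 y3 * (x1 + x2 + x3 - r - u)
      = det (x1 + x2 + x3 - r - u) (y1 + y2 + y3 - s - v) x2 y2 x3 y3 * x1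
      + det x1 y1 (x1 + x2 + x3 - r - u) (y1 + y2 + y3 - s - v) x3 y3 * x2
      + det x1 y1 x2 y2 (x1 + x2 + x3 - r - u) (y1 + y2 + y3 - s - v) * x3 := by
    unfold det; ring
  have ey : det x1 y1 x2 y2 x3 y3 * (y1 + y2 + y3 - s - v)
      = det (x1 + x2 + x3 - r - u) (y1 + y2 + y3 - s - v) x2 y2 x3 y3 * y1
      + det x1 y1 (x1 + x2 + x3 - r - u) (y1 + y2 + y3 - s - v) x3 y3 * y2
      + det x1 y1 x2 y2 (x1 + x2 + x3 - r - u) (y1 + y2 + y3 - s - v) * y3 := by
    unfold det; ring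
  -- identities for the smaller triangles
  have i1b : det x1 y1 x2 y2 x3 y3 * det (x1 + x2 + x3 - r - u) (y1 + y2 + y3 - s - v) u v x3 y3
      = det x1 y1 u v x3 y3 * det (x1 + x2 + x3 - r - u) (y1 + y2 + y3 - s - v) x2 y2 x3 y3
      - det u v x2 y2 x3 y3 * det x1 y1 (x1 + x2 + x3 - r - u) (y1 + y2 + y3 - s - v) x3 y3 := by
    unfold det; ring
  have i1c : det x1 y1 x2 y2 x3 y3 * det (x1 + x2 + x3 - r - u) (y1 + y2 + y3 - s - v) x2 y2 u v
      = det x1 y1 x2 y2 u v * det (x1 + x2 + x3 - r - u) (y1 + y2 + y3 - s - v) x2 y2 x3 y3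
      - det u v x2 y2 x3 y3 * det x1 y1 x2 y2 (x1 + x2 + x3 - r - u) (y1 + y2 + y3 - s - v) := by
    unfold det; ring
  have i2a : det x1 y1 x2 y2 x3 y3 * det u v (x1 + x2 + x3 - r - u) (y1 + y2 + y3 - s - v) x3 y3
      = det u v x2 y2 x3 y3 * det x1 y1 (x1 + x2 + x3 - r - u) (y1 + y2 + y3 - s - v) x3 y3
      - det x1 y1 u v x3 y3 * det (x1 + x2 + x3 - r - u) (y1 + y2 + y3 - s - v) x2 y2 x3 y3 := by
    unfold det; ring
  have i2c : det x1 y1 x2 y2 x3 y3 * det x1 y1 (x1 + x2 + x3 - r - u) (y1 + y2 + y3 - s - v) u v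
      = det x1 y1 x2 y2 u v * det x1 y1 (x1 + x2 + x3 - r - u) (y1 + y2 + y3 - s - v) x3 y3
      - det x1 y1 u v x3 y3 * det x1 y1 x2 y2 (x1 + x2 + x3 - r - u) (y1 + y2 + y3 - s - v) := by
    unfold det; ring
  have i3a : det x1 y1 x2 y2 x3 y3 * det u v x2 y2 (x1 + x2 + x3 - r - u) (y1 + y2 + y3 - s - v)
      = det u v x2 y2 x3 y3 * det x1 y1 x2 y2 (x1 + x2 + x3 - r - u) (y1 + y2 + y3 - s - v)
      - det x1 y1 x2 y2 u v * det (x1 + x2 + x3 - r - u) (y1 + y2 + y3 - s - v) x2 y2 x3 y3 := by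
    unfold det; ring
  have i3b : det x1 y1 x2 y2 x3 y3 * det x1 y1 u v (x1 + x2 + x3 - r - u) (y1 + y2 + y3 - s - v)
      = det x1 y1 u v x3 y3 * det x1 y1 x2 y2 (x1 + x2 + x3 - r - u) (y1 + y2 + y3 - s - v)
      - det x1 y1 x2 y2 u v * det x1 y1 (x1 + x2 + x3 - r - u) (y1 + y2 + y3 - s - v) x3 y3 := by
    unfold det; ring
  have xsum : r + u + (x1 + x2 + x3 - r - u) = x1 + x2 + x3 := by ring
  have ysum : s + v + (y1 + y2 + y3 - s - v) = y1 + y2 + y3 := by ring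
  generalize x1 + x2 + x3 - r - u = X at *
  generalize y1 + y2 + y3 - s - v = Y at *
  have hA : 0 < det X Y x2 y2 x3 y3 := by linarith
  have hB : 0 < det x1 y1 X Y x3 y3 := by linarith
  have hC : 0 < det x1 y1 x2 y2 X Y := by linarith
  have bx := mean3 hD hA.le hB.le hC.le esum ex w1.1 w2.1 w3.1
  have by' := mean3 hD hA.le hB.le hC.le esum ey w1.2.1 w2.2.1 w3.2.1
  have hh1 := w1.2.2.1
  have hh2 := w2.2.2.1
  have hh3 := w3.2.2.1
  have e0 : 0 ≤ det X Y x2 y2 x3 y3 * h1 + det x1 y1 X Y x3 y3 * h2 + det x1 y1 x2 y2 X Y * h3 :=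
    add_nonneg (add_nonneg (mul_nonneg hA.le hh1.1) (mul_nonneg hB.le hh2.1))
      (mul_nonneg hC.le hh3.1)
  have e1 : det X Y x2 y2 x3 y3 * h1 + det x1 y1 X Y x3 y3 * h2 + det x1 y1 x2 y2 X Y * h3
      ≤ det x1 y1 x2 y2 x3 y3 * S.c := by
    have a1 := mul_le_mul_of_nonneg_left hh1.2 hA.le
    have a2 := mul_le_mul_of_nonneg_left hh2.2 hB.le
    have a3 := mul_le_mul_of_nonneg_left hh3.2 hC.le
    rw [← esum]
    linarith
  have bz := floor_bounds hD e0 e1
  obtain ⟨f1, f2⟩ := floor_spec (det x1 y1 x2 y2 x3 y3)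
    (det X Y x2 y2 x3 y3 * h1 + det x1 y1 X Y x3 y3 * h2 + det x1 y1 x2 y2 X Y * h3) hD
  set z := (det X Y x2 y2 x3 y3 * h1 + det x1 y1 X Y x3 y3 * h2 + det x1 y1 x2 y2 X Y * h3)
    / det x1 y1 x2 y2 x3 y3 with hz
  rcases W_or_L S bx by' bz with hw | hl
  · -- the complementary point wins: a smaller triangle
    have key1 : det u v x2 y2 x3 y3 * det x1 y1 X Y x3 y3
          ≤ det x1 y1 u v x3 y3 * det X Y x2 y2 x3 y3 →
        det u v x2 y2 x3 y3 * det x1 y1 x2 y2 X Y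
          ≤ det x1 y1 x2 y2 u v * det X Y x2 y2 x3 y3 → Short S := by
      intro q1 q2
      have r1 : 0 ≤ det X Y u v x3 y3 := by
        have : 0 ≤ det x1 y1 x2 y2 x3 y3 * det X Y u v x3 y3 := by rw [i1b]; linarith
        exact nonneg_of_mul_nonneg_right this hD
      have r2 : 0 ≤ det X Y x2 y2 u v := by
        have : 0 ≤ det x1 y1 x2 y2 x3 y3 * det X Y x2 y2 u v := by rw [i1c]; linarith
        exact nonneg_of_mul_nonneg_right this hD
      refine ih X Y z x2 y2 h2 x3 y3 h3 u v k hA (by linarith) ha.le r1 r2 hw w2 w3 l ?_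
      have g1 : det x1 y1 x2 y2 x3 y3 * (det u v x2 y2 x3 y3 * z + det X Y u v x3 y3 * h2
          + det X Y x2 y2 u v * h3)
          ≤ det x1 y1 x2 y2 x3 y3 * (det X Y x2 y2 x3 y3 * k) := by
        have t1 := mul_le_mul_of_nonneg_left f1 ha.le
        have t2 := mul_le_mul_of_nonneg_left hE' hA.le
        have t3 : det x1 y1 x2 y2 x3 y3 * (det u v x2 y2 x3 y3 * z + det X Y u v x3 y3 * h2
          + det X Y x2 y2 u v * h3) = det u v x2 y2 x3 y3 * (det x1 y1 x2 y2 x3 y3 * z)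
          + (det x1 y1 x2 y2 x3 y3 * det X Y u v x3 y3) * h2
          + (det x1 y1 x2 y2 x3 y3 * det X Y x2 y2 u v) * h3 := by ring
        rw [t3, i1b, i1c]
        linarith
      exact le_of_mul_le_mul_left g1 hD
    have key2 : det x1 y1 u v x3 y3 * det X Y x2 y2 x3 y3
          ≤ det u v x2 y2 x3 y3 * det x1 y1 X Y x3 y3 →
        det x1 y1 u v x3 y3 * det x1 y1 x2 y2 X Y
          ≤ det x1 y1 x2 y2 u v * det x1 y1 X Y x3 y3 → Short S := by
      intro q1 q2
      have r1 : 0 ≤ det u v X Y x3 y3 := by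
        have : 0 ≤ det x1 y1 x2 y2 x3 y3 * det u v X Y x3 y3 := by rw [i2a]; linarith
        exact nonneg_of_mul_nonneg_right this hD
      have r2 : 0 ≤ det x1 y1 X Y u v := by
        have : 0 ≤ det x1 y1 x2 y2 x3 y3 * det x1 y1 X Y u v := by rw [i2c]; linarith
        exact nonneg_of_mul_nonneg_right this hD
      refine ih x1 y1 h1 X Y z x3 y3 h3 u v k hB (by linarith) r1 hb.le r2 w1 hw w3 l ?_
      have g1 : det x1 y1 x2 y2 x3 y3 * (det u v X Y x3 y3 * h1 + det x1 y1 u v x3 y3 * z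
          + det x1 y1 X Y u v * h3)
          ≤ det x1 y1 x2 y2 x3 y3 * (det x1 y1 X Y x3 y3 * k) := by
        have t1 := mul_le_mul_of_nonneg_left f1 hb.le
        have t2 := mul_le_mul_of_nonneg_left hE' hB.le
        have t3 : det x1 y1 x2 y2 x3 y3 * (det u v X Y x3 y3 * h1 + det x1 y1 u v x3 y3 * z
          + det x1 y1 X Y u v * h3) = det x1 y1 u v x3 y3 * (det x1 y1 x2 y2 x3 y3 * z)
          + (det x1 y1 x2 y2 x3 y3 * det u v X Y x3 y3) * h1
          + (det x1 y1 x2 y2 x3 y3 * det x1 y1 X Y u v) * h3 := by ring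
        rw [t3, i2a, i2c]
        linarith
      exact le_of_mul_le_mul_left g1 hD
    have key3 : det x1 y1 x2 y2 u v * det X Y x2 y2 x3 y3
          ≤ det u v x2 y2 x3 y3 * det x1 y1 x2 y2 X Y →
        det x1 y1 x2 y2 u v * det x1 y1 X Y x3 y3
          ≤ det x1 y1 u v x3 y3 * det x1 y1 x2 y2 X Y → Short S := by
      intro q1 q2
      have r1 : 0 ≤ det u v x2 y2 X Y := by
        have : 0 ≤ det x1 y1 x2 y2 x3 y3 * det u v x2 y2 X Y := by rw [i3a]; linarith
        exact nonneg_of_mul_nonneg_right this hD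
      have r2 : 0 ≤ det x1 y1 u v X Y := by
        have : 0 ≤ det x1 y1 x2 y2 x3 y3 * det x1 y1 u v X Y := by rw [i3b]; linarith
        exact nonneg_of_mul_nonneg_right this hD
      refine ih x1 y1 h1 x2 y2 h2 X Y z u v k hC (by linarith) r1 r2 hc.le w1 w2 hw l ?_
      have g1 : det x1 y1 x2 y2 x3 y3 * (det u v x2 y2 X Y * h1 + det x1 y1 u v X Y * h2
          + det x1 y1 x2 y2 u v * z)
          ≤ det x1 y1 x2 y2 x3 y3 * (det x1 y1 x2 y2 X Y * k) := by
        have t1 := mul_le_mul_of_nonneg_left f1 hc.le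
        have t2 := mul_le_mul_of_nonneg_left hE' hC.le
        have t3 : det x1 y1 x2 y2 x3 y3 * (det u v x2 y2 X Y * h1 + det x1 y1 u v X Y * h2
          + det x1 y1 x2 y2 u v * z) = det x1 y1 x2 y2 u v * (det x1 y1 x2 y2 x3 y3 * z)
          + (det x1 y1 x2 y2 x3 y3 * det u v x2 y2 X Y) * h1
          + (det x1 y1 x2 y2 x3 y3 * det x1 y1 u v X Y) * h2 := by ring
        rw [t3, i3a, i3b]
        linarith
      exact le_of_mul_le_mul_left g1 hD
    rcases le_total (det u v x2 y2 x3 y3 * det x1 y1 X Y x3 y3)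
      (det x1 y1 u v x3 y3 * det X Y x2 y2 x3 y3) with q1 | q1
    · rcases le_total (det u v x2 y2 x3 y3 * det x1 y1 x2 y2 X Y)
        (det x1 y1 x2 y2 u v * det X Y x2 y2 x3 y3) with q2 | q2
      · exact key1 q1 q2
      · exact key3 q2 (ratio_trans hA hC hB q2 q1)
    · rcases le_total (det x1 y1 u v x3 y3 * det x1 y1 x2 y2 X Y)
        (det x1 y1 x2 y2 u v * det x1 y1 X Y x3 y3) with q2 | q2
      · exact key2 q1 q2
      · exact key3 (ratio_trans hB hC hA q2 q1) q2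
  · -- the complementary point loses: a trade of length three
    right
    refine ⟨x1, y1, h1, x2, y2, h2, x3, y3, h3, r, s, κ, u, v, k, X, Y, z, w1, w2, w3, lr, l, hl,
      xsum.symm, ysum.symm, ?_⟩
    have g3 : det x1 y1 x2 y2 x3 y3 * (h1 + h2 + h3 - κ - k)
        < det x1 y1 x2 y2 x3 y3 * z + det x1 y1 x2 y2 x3 y3 := by
      rw [ea, eb, ec] at f2
      nlinarith
    have := le_of_mul_lt hD g3
    linarith

/-- The circuit (3,1). -/
lemma tri : ∀ (n : ℕ) (S : Sys) (x1 y1 h1 x2 y2 h2 x3 y3 h3 u v k : ℤ),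
      0 < det x1 y1 x2 y2 x3 y3 →
      det x1 y1 x2 y2 x3 y3 ≤ n → 0 ≤ det u v x2 y2 x3 y3 → 0 ≤ det x1 y1 u v x3 y3 →
      0 ≤ det x1 y1 x2 y2 u v → W S x1 y1 h1 → W S x2 y2 h2 → W S x3 y3 h3 → L S u v k →
      det u v x2 y2 x3 y3 * h1 + det x1 y1 u v x3 y3 * h2 + det x1 y1 x2 y2 u v * h3
        ≤ det x1 y1 x2 y2 x3 y3 * k → Short S := by
  intro n
  induction n with
  | zero =>
    intro S x1 y1 h1 x2 y2 h2 x3 y3 h3 u v k hD hn
    push_cast at hn
    omega
  | succ n ih =>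
    intro S x1 y1 h1 x2 y2 h2 x3 y3 h3 u v k hD hn ha hb hc w1 w2 w3 l hE
    push_cast at hn
    have fsum : det u v x2 y2 x3 y3 + det x1 y1 u v x3 y3 + det x1 y1 x2 y2 u v
        = det x1 y1 x2 y2 x3 y3 := by unfold det; ring
    have fx : det x1 y1 x2 y2 x3 y3 * u = det u v x2 y2 x3 y3 * x1 + det x1 y1 u v x3 y3 * x2
        + det x1 y1 x2 y2 u v * x3 := by unfold det; ring
    have fy : det x1 y1 x2 y2 x3 y3 * v = det u v x2 y2 x3 y3 * y1 + det x1 y1 u v x3 y3 * y2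
        + det x1 y1 x2 y2 u v * y3 := by unfold det; ring
    rcases eq_or_lt_of_le ha with qa | qa
    · rw [← qa] at fsum fx fy hE
      exact edge S hD hb hc (by linarith) w2 w3 l (by linarith) (by linarith) (by linarith)
    rcases eq_or_lt_of_le hb with qb | qb
    · rw [← qb] at fsum fx fy hE
      exact edge S hD ha hc (by linarith) w1 w3 l (by linarith) (by linarith) (by linarith)
    rcases eq_or_lt_of_le hc with qc | qc
    · rw [← qc] at fsum fx fy hE
      exact edge S hD ha hb (by linarith) w1 w2 l (by linarith) (by linarith) (by linarith)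
    -- the closure argument
    have inner : ∀ m : ℕ, Short S ∨ ∃ r s κ i j o : ℤ, L S r s κ ∧
        det r s x2 y2 x3 y3 = (m + 1) * det u v x2 y2 x3 y3 - i * det x1 y1 x2 y2 x3 y3 ∧
        det x1 y1 r s x3 y3 = (m + 1) * det x1 y1 u v x3 y3 - j * det x1 y1 x2 y2 x3 y3 ∧
        det x1 y1 x2 y2 r s = (m + 1) * det x1 y1 x2 y2 u v - o * det x1 y1 x2 y2 x3 y3 ∧
        0 ≤ det r s x2 y2 x3 y3 ∧ 0 ≤ det x1 y1 r s x3 y3 ∧ 0 ≤ det x1 y1 x2 y2 r s ∧
        det r s x2 y2 x3 y3 * h1 + det x1 y1 r s x3 y3 * h2 + det x1 y1 x2 y2 r s * h3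
          ≤ det x1 y1 x2 y2 x3 y3 * κ := by
      intro m
      induction m with
      | zero =>
        right
        refine ⟨u, v, k, 0, 0, 0, l, ?_, ?_, ?_, ha, hb, hc, hE⟩ <;> (push_cast; ring)
      | succ m ihm =>
        rcases ihm with h | ⟨r, s, κ, i, j, o, lr, e1, e2, e3, p1, p2, p3, hEr⟩
        · exact Or.inl h
        have z11 : det x1 y1 x1 y1 x3 y3 = 0 := by unfold det; ring
        have z12 : det x1 y1 x2 y2 x1 y1 = 0 := by unfold det; ring
        have z21 : det x2 y2 x2 y2 x3 y3 = 0 := by unfold det; ring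
        have z22 : det x1 y1 x2 y2 x2 y2 = 0 := by unfold det; ring
        have z31 : det x3 y3 x2 y2 x3 y3 = 0 := by unfold det; ring
        have z32 : det x1 y1 x3 y3 x3 y3 = 0 := by unfold det; ring
        by_cases pa : det x1 y1 x2 y2 x3 y3 ≤ det r s x2 y2 x3 y3 + det u v x2 y2 x3 y3
        · rcases stepB S x1 y1 h1 x2 y2 h2 x3 y3 h3 u v k r s κ x1 y1 h1
            (det x1 y1 x2 y2 x3 y3) 0 0 hD w1 w2 w3 w1 l lr rfl z11 z12 (by ring)
            (by linarith) (by linarith) (by linarith) hEr hE with h | ⟨r', s', κ', lr', g1, g2,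
              g3, g4⟩
          · exact Or.inl h
          · right
            refine ⟨r', s', κ', i + 1, j, o, lr', ?_, ?_, ?_, ?_, ?_, ?_, g4⟩
            · rw [g1, e1]; push_cast; ring
            · rw [g2, e2]; push_cast; ring
            · rw [g3, e3]; push_cast; ring
            · rw [g1]; linarith
            · rw [g2]; linarith
            · rw [g3]; linarith
        by_cases pb : det x1 y1 x2 y2 x3 y3 ≤ det x1 y1 r s x3 y3 + det x1 y1 u v x3 y3
        · rcases stepB S x1 y1 h1 x2 y2 h2 x3 y3 h3 u v k r s κ x2 y2 h2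
            0 (det x1 y1 x2 y2 x3 y3) 0 hD w1 w2 w3 w2 l lr z21 rfl z22 (by ring)
            (by linarith) (by linarith) (by linarith) hEr hE with h | ⟨r', s', κ', lr', g1, g2,
              g3, g4⟩
          · exact Or.inl h
          · right
            refine ⟨r', s', κ', i, j + 1, o, lr', ?_, ?_, ?_, ?_, ?_, ?_, g4⟩
            · rw [g1, e1]; push_cast; ring
            · rw [g2, e2]; push_cast; ring
            · rw [g3, e3]; push_cast; ring
            · rw [g1]; linarith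
            · rw [g2]; linarith
            · rw [g3]; linarith
        by_cases pc : det x1 y1 x2 y2 x3 y3 ≤ det x1 y1 x2 y2 r s + det x1 y1 x2 y2 u v
        · rcases stepB S x1 y1 h1 x2 y2 h2 x3 y3 h3 u v k r s κ x3 y3 h3
            0 0 (det x1 y1 x2 y2 x3 y3) hD w1 w2 w3 w3 l lr z31 z32 rfl (by ring)
            (by linarith) (by linarith) (by linarith) hEr hE with h | ⟨r', s', κ', lr', g1, g2,
              g3, g4⟩
          · exact Or.inl h
          · right
            refine ⟨r', s', κ', i, j, o + 1, lr', ?_, ?_, ?_, ?_, ?_, ?_, g4⟩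
            · rw [g1, e1]; push_cast; ring
            · rw [g2, e2]; push_cast; ring
            · rw [g3, e3]; push_cast; ring
            · rw [g1]; linarith
            · rw [g2]; linarith
            · rw [g3]; linarith
        left
        exact stepA n S (ih S) x1 y1 h1 x2 y2 h2 x3 y3 h3 u v k r s κ hD hn w1 w2 w3 l lr qa qb
          qc p1 p2 p3 (not_le.1 pa) (not_le.1 pb) (not_le.1 pc) hEr hE
    obtain ⟨D, hDD⟩ := Int.eq_ofNat_of_zero_le hD.le
    have hD1 : 1 ≤ D := by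
      rw [hDD] at hD
      exact_mod_cast hD
    rcases inner (D - 1) with h | ⟨r, s, κ, i, j, o, lr, e1, e2, e3, p1, p2, p3, hEr⟩
    · exact h
    exfalso
    have hcast : ((D - 1 : ℕ) : ℤ) + 1 = det x1 y1 x2 y2 x3 y3 := by
      rw [hDD]
      push_cast [hD1]
      ring
    rw [hcast] at e1 e2 e3
    have rsum : det r s x2 y2 x3 y3 + det x1 y1 r s x3 y3 + det x1 y1 x2 y2 r s
        = det x1 y1 x2 y2 x3 y3 := by unfold det; ring
    have rx : det x1 y1 x2 y2 x3 y3 * r = det r s x2 y2 x3 y3 * x1 + det x1 y1 r s x3 y3 * x2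
        + det x1 y1 x2 y2 r s * x3 := by unfold det; ring
    have ry : det x1 y1 x2 y2 x3 y3 * s = det r s x2 y2 x3 y3 * y1 + det x1 y1 r s x3 y3 * y2
        + det x1 y1 x2 y2 r s * y3 := by unfold det; ring
    generalize det r s x2 y2 x3 y3 = A at *
    generalize det x1 y1 r s x3 y3 = B at *
    generalize det x1 y1 x2 y2 r s = C at *
    generalize det x1 y1 x2 y2 x3 y3 = E at *
    have d1 : E ∣ A := ⟨det u v x2 y2 x3 y3 - i, by rw [e1]; ring⟩
    have d2 : E ∣ B := ⟨det x1 y1 u v x3 y3 - j, by rw [e2]; ring⟩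
    have d3 : E ∣ C := ⟨det x1 y1 x2 y2 u v - o, by rw [e3]; ring⟩
    obtain ⟨a', ha'⟩ := d1
    obtain ⟨b', hb'⟩ := d2
    obtain ⟨c', hc'⟩ := d3
    have na : 0 ≤ a' := by
      rw [ha'] at p1
      exact nonneg_of_mul_nonneg_right p1 hD
    have nb : 0 ≤ b' := by
      rw [hb'] at p2
      exact nonneg_of_mul_nonneg_right p2 hD
    have nc : 0 ≤ c' := by
      rw [hc'] at p3
      exact nonneg_of_mul_nonneg_right p3 hD
    have hsum1 : a' + b' + c' = 1 := by
      have : E * (a' + b' + c' - 1) = 0 := by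
        rw [ha', hb', hc'] at rsum
        linear_combination rsum
      rcases mul_eq_zero.1 this with h' | h'
      · linarith
      · linarith
    have hcase : (a' = 1 ∧ b' = 0 ∧ c' = 0) ∨ (a' = 0 ∧ b' = 1 ∧ c' = 0) ∨
        (a' = 0 ∧ b' = 0 ∧ c' = 1) := by omega
    have fin : ∀ xq yq hq : ℤ, W S xq yq hq → E * r = E * xq → E * s = E * yq →
        E * hq ≤ E * κ → False := by
      intro xq yq hq wq t1 t2 t3
      have t4 : r = xq := mul_left_cancel₀ hD.ne' t1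
      have t5 : s = yq := mul_left_cancel₀ hD.ne' t2
      rw [t4, t5] at lr
      have t6 := col S wq lr
      have t7 := le_of_mul_le_mul_left t3 hD
      linarith
    rcases hcase with ⟨rfl, rfl, rfl⟩ | ⟨rfl, rfl, rfl⟩ | ⟨rfl, rfl, rfl⟩
    · rw [ha', hb', hc'] at rx ry hEr
      exact fin x1 y1 h1 w1 (by linarith) (by linarith) (by linarith)
    · rw [ha', hb', hc'] at rx ry hEr
      exact fin x2 y2 h2 w2 (by linarith) (by linarith) (by linarith)
    · rw [ha', hb', hc'] at rx ry hEr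
      exact fin x3 y3 h3 w3 (by linarith) (by linarith) (by linarith)

end Pool.Agent.V11155.Planar
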