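import Mathlib
import Pool.Agent.V11155.Planar
import Pool.Agent.V11155.PlanarTri
import Pool.Agent.V11155.Circuits

/-!
Minimal relations between the winning and the losing points of a box.
-/

namespace Pool.Agent.V11155.Planar

open Finset

/-- A nonnegative nonzero relation. -/
structure Rel {ι : Type} [Fintype ι] (ε X Y Z : ι → ℚ) (t : ι → ℚ) : Prop where
  nn : ∀ i, 0 ≤ t i
  ne : ∃ i, t i ≠ 0
  r0 : ∑ i, t i * ε i = 0
  r1 : ∑ i, t i * (ε i * X i) = 0
  r2 : ∑ i, t i * (ε i * Y i) = 0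
  r3 : ∑ i, t i * (ε i * Z i) ≤ 0

lemma keymin_aux {ι : Type} [Fintype ι] [DecidableEq ι] {ε X Y Z : ι → ℚ} {t : ι → ℚ}
    (ht : Rel ε X Y Z t)
    (hmin : ∀ t', Rel ε X Y Z t' → (univ.filter fun i => t i ≠ 0).card ≤
      (univ.filter fun i => t' i ≠ 0).card)
    (s : ι → ℚ) (hs : ∀ i, t i = 0 → s i = 0) (i0 : ι) (h0 : t i0 ≠ 0) (hs0 : s i0 = 0)
    (r0 : ∑ i, s i * ε i = 0) (r1 : ∑ i, s i * (ε i * X i) = 0)
    (r2 : ∑ i, s i * (ε i * Y i) = 0) (r3 : ∑ i, s i * (ε i * Z i) ≤ 0) : ∀ i, s i = 0 := by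
  by_contra hne
  push Not at hne
  by_cases hnn : ∀ i, 0 ≤ s i
  · have h1 := hmin s ⟨hnn, hne, r0, r1, r2, r3⟩
    have h2 : (univ.filter fun i => s i ≠ 0) ⊂ (univ.filter fun i => t i ≠ 0) := by
      rw [Finset.ssubset_iff_of_subset]
      · exact ⟨i0, by simp [h0], by simp [hs0]⟩
      · intro i hi
        simp only [mem_filter, mem_univ, true_and] at hi ⊢
        exact fun h => hi (hs i h)
    have h3 := Finset.card_lt_card h2
    omega
  · push Not at hnn
    obtain ⟨j0, hj0⟩ := hnn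
    obtain ⟨j, hj, hjmin⟩ := Finset.exists_min_image (univ.filter fun i => s i < 0)
      (fun i => t i / (-(s i))) ⟨j0, by simp [hj0]⟩
    simp only [mem_filter, mem_univ, true_and] at hj hjmin
    set θ : ℚ := t j / (-(s j)) with hθ
    have hθ0 : 0 ≤ θ := div_nonneg (ht.nn j) (by linarith)
    have hθj : t j + θ * s j = 0 := by
      rw [hθ]
      have : s j ≠ 0 := hj.ne
      field_simp
      ring
    have key : Rel ε X Y Z (fun i => t i + θ * s i) := by
      refine ⟨?_, ⟨i0, ?_⟩, ?_, ?_, ?_, ?_⟩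
      · intro i
        by_cases hi : s i < 0
        · have h1 := hjmin i hi
          rw [le_div_iff₀ (by linarith)] at h1
          linarith
        · push Not at hi
          exact add_nonneg (ht.nn i) (mul_nonneg hθ0 hi)
      · simp only [hs0, mul_zero, add_zero]
        exact h0
      · have : ∑ i, (t i + θ * s i) * ε i = ∑ i, t i * ε i + θ * ∑ i, s i * ε i := by
          rw [Finset.mul_sum, ← Finset.sum_add_distrib]
          exact Finset.sum_congr rfl fun i _ => by ring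
        rw [this, ht.r0, r0]; ring
      · have : ∑ i, (t i + θ * s i) * (ε i * X i) =
            ∑ i, t i * (ε i * X i) + θ * ∑ i, s i * (ε i * X i) := by
          rw [Finset.mul_sum, ← Finset.sum_add_distrib]
          exact Finset.sum_congr rfl fun i _ => by ring
        rw [this, ht.r1, r1]; ring
      · have : ∑ i, (t i + θ * s i) * (ε i * Y i) =
            ∑ i, t i * (ε i * Y i) + θ * ∑ i, s i * (ε i * Y i) := by
          rw [Finset.mul_sum, ← Finset.sum_add_distrib]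
          exact Finset.sum_congr rfl fun i _ => by ring
        rw [this, ht.r2, r2]; ring
      · have : ∑ i, (t i + θ * s i) * (ε i * Z i) =
            ∑ i, t i * (ε i * Z i) + θ * ∑ i, s i * (ε i * Z i) := by
          rw [Finset.mul_sum, ← Finset.sum_add_distrib]
          exact Finset.sum_congr rfl fun i _ => by ring
        rw [this]
        have h1 := ht.r3
        have h2 : θ * ∑ i, s i * (ε i * Z i) ≤ 0 := mul_nonpos_of_nonneg_of_nonpos hθ0 r3
        linarith
    have h1 := hmin _ key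
    have h2 : (univ.filter fun i => t i + θ * s i ≠ 0) ⊂ (univ.filter fun i => t i ≠ 0) := by
      rw [Finset.ssubset_iff_of_subset]
      · refine ⟨j, ?_, ?_⟩
        · simp only [mem_filter, mem_univ, true_and]
          exact fun h => hj.ne (hs j h)
        · simp [hθj]
      · intro i hi
        simp only [mem_filter, mem_univ, true_and] at hi ⊢
        intro h
        apply hi
        rw [h, hs i h]
        ring
    have h3 := Finset.card_lt_card h2
    omega

lemma keymin {ι : Type} [Fintype ι] [DecidableEq ι] {ε X Y Z : ι → ℚ} {t : ι → ℚ}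
    (ht : Rel ε X Y Z t)
    (hmin : ∀ t', Rel ε X Y Z t' → (univ.filter fun i => t i ≠ 0).card ≤
      (univ.filter fun i => t' i ≠ 0).card)
    (s : ι → ℚ) (hs : ∀ i, t i = 0 → s i = 0) (i0 : ι) (h0 : t i0 ≠ 0) (hs0 : s i0 = 0)
    (r0 : ∑ i, s i * ε i = 0) (r1 : ∑ i, s i * (ε i * X i) = 0)
    (r2 : ∑ i, s i * (ε i * Y i) = 0) : ∀ i, s i = 0 := by
  rcases le_total (∑ i, s i * (ε i * Z i)) 0 with r3 | r3
  · exact keymin_aux ht hmin s hs i0 h0 hs0 r0 r1 r2 r3
  · have hneg : ∀ g : ι → ℚ, ∑ i, (-(s i)) * g i = -∑ i, s i * g i := by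
      intro g
      rw [← Finset.sum_neg_distrib]
      exact Finset.sum_congr rfl fun i _ => by ring
    have := keymin_aux ht hmin (fun i => -(s i)) (fun i hi => by simp [hs i hi]) i0 h0
      (by simp [hs0]) (by rw [hneg, r0]; ring) (by rw [hneg (fun i => ε i * X i), r1]; ring)
      (by rw [hneg (fun i => ε i * Y i), r2]; ring)
      (by rw [hneg (fun i => ε i * Z i)]; linarith)
    intro i
    have h := this i
    simp only [neg_eq_zero] at h
    exact h

lemma exists_min {ι : Type} [Fintype ι] [DecidableEq ι] {ε X Y Z : ι → ℚ} {t : ι → ℚ}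
    (ht : Rel ε X Y Z t) : ∃ t, Rel ε X Y Z t ∧
      ∀ t', Rel ε X Y Z t' → (univ.filter fun i => t i ≠ 0).card ≤
      (univ.filter fun i => t' i ≠ 0).card := by
  classical
  have hex : ∃ n : ℕ, ∃ t, Rel ε X Y Z t ∧ (univ.filter fun i => t i ≠ 0).card = n :=
    ⟨_, t, ht, rfl⟩
  obtain ⟨t', h1, h2⟩ := Nat.find_spec hex
  refine ⟨t', h1, fun t'' h3 => ?_⟩
  rw [h2]
  exact Nat.find_min' hex ⟨t'', h3, rfl⟩

/-- The support of a minimal relation has at most four elements. -/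
lemma card_le_four {ι : Type} [Fintype ι] [DecidableEq ι] {ε X Y Z : ι → ℚ} {t : ι → ℚ}
    (ht : Rel ε X Y Z t)
    (hmin : ∀ t', Rel ε X Y Z t' → (univ.filter fun i => t i ≠ 0).card ≤
      (univ.filter fun i => t' i ≠ 0).card) : (univ.filter fun i => t i ≠ 0).card ≤ 4 := by
  by_contra hcon
  push Not at hcon
  obtain ⟨i0, hi0⟩ := ht.ne
  set F := (univ.filter fun i => t i ≠ 0).erase i0 with hF
  have hFc : 4 ≤ F.card := by
    rw [hF, Finset.card_erase_of_mem (by simp [hi0])]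
    omega
  let v : F → (Fin 3 → ℚ) := fun i => ![ε i, ε i * X i, ε i * Y i]
  have hdep : ¬ LinearIndependent ℚ v := by
    intro h
    have := h.fintype_card_le_finrank
    simp at this
    omega
  rw [Fintype.not_linearIndependent_iff] at hdep
  obtain ⟨g, hg, ⟨j, hj⟩⟩ := hdep
  let s : ι → ℚ := fun i => if h : i ∈ F then g ⟨i, h⟩ else 0
  have hsum : ∀ G : ι → ℚ, ∑ i, s i * G i = ∑ i : F, g i * G i := by
    intro G
    rw [← Finset.sum_subset (Finset.subset_univ F)]
    · rw [← Finset.sum_coe_sort F]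
      refine Finset.sum_congr rfl fun i _ => ?_
      simp only [s, i.2, dif_pos]
    · intro i _ hi
      simp only [s, hi, dif_neg, not_false_iff, zero_mul]
  have h0 := congrFun hg 0
  have h1 := congrFun hg 1
  have h2 := congrFun hg 2
  simp [v] at h0 h1 h2
  have hs := keymin ht hmin s ?_ i0 hi0 ?_ ?_ ?_ ?_
  · apply hj
    have := hs j
    simp only [s, j.2, dif_pos] at this
    exact this
  · intro i hi
    have : i ∉ F := by
      rw [hF]
      simp [hi]
    simp only [s, this, dif_neg, not_false_iff]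
  · have : i0 ∉ F := by
      rw [hF]
      simp
    simp only [s, this, dif_neg, not_false_iff]
  · rw [hsum]; exact h0
  · rw [hsum (fun i => ε i * X i)]; exact h1
  · rw [hsum (fun i => ε i * Y i)]; exact h2

/-- Clearing denominators. -/
lemma clear4 (q1 q2 q3 q4 : ℚ) : ∃ (d a1 a2 a3 a4 : ℤ), 0 < d ∧ (d : ℚ) * q1 = a1 ∧
    (d : ℚ) * q2 = a2 ∧ (d : ℚ) * q3 = a3 ∧ (d : ℚ) * q4 = a4 := by
  have key : ∀ q : ℚ, (q.den : ℚ) * q = q.num := fun q => by
    rw [mul_comm]; exact Rat.mul_den_eq_num q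
  refine ⟨(q1.den * q2.den * q3.den * q4.den : ℕ), q1.num * (q2.den * q3.den * q4.den),
    q2.num * (q1.den * q3.den * q4.den), q3.num * (q1.den * q2.den * q4.den),
    q4.num * (q1.den * q2.den * q3.den), ?_, ?_, ?_, ?_, ?_⟩
  · have h1 := q1.den_pos
    have h2 := q2.den_pos
    have h3 := q3.den_pos
    have h4 := q4.den_pos
    exact_mod_cast Nat.mul_pos (Nat.mul_pos (Nat.mul_pos h1 h2) h3) h4
  · push_cast
    rw [← key q1]; ring
  · push_cast
    rw [← key q2]; ring
  · push_cast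
    rw [← key q3]; ring
  · push_cast
    rw [← key q4]; ring

/-- Three points of the support of a minimal relation with the same sign, and one more point in
the support: the three points are not collinear. -/
lemma det_ne {ι : Type} [Fintype ι] [DecidableEq ι] {ε : ι → ℚ} {X Y : ι → ℤ} {Z : ι → ℚ}
    {t : ι → ℚ}
    (ht : Rel ε (fun i => (X i : ℚ)) (fun i => (Y i : ℚ)) Z t)
    (hmin : ∀ t', Rel ε (fun i => (X i : ℚ)) (fun i => (Y i : ℚ)) Z t' →
      (univ.filter fun i => t i ≠ 0).card ≤ (univ.filter fun i => t' i ≠ 0).card)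
    (i0 i1 i2 i3 : ι) (h0 : t i0 ≠ 0) (h1 : t i1 ≠ 0) (h2 : t i2 ≠ 0) (h3 : t i3 ≠ 0)
    (n01 : i0 ≠ i1) (n02 : i0 ≠ i2) (n03 : i0 ≠ i3) (n12 : i1 ≠ i2) (n13 : i1 ≠ i3)
    (n23 : i2 ≠ i3) (e12 : ε i1 = ε i2) (e13 : ε i1 = ε i3) :
    det (X i1) (Y i1) (X i2) (Y i2) (X i3) (Y i3) ≠ 0 := by
  have key : ∀ s1 s2 s3 : ℚ, s1 + s2 + s3 = 0 → s1 * X i1 + s2 * X i2 + s3 * X i3 = 0 →
      s1 * Y i1 + s2 * Y i2 + s3 * Y i3 = 0 → s1 = 0 ∧ s2 = 0 ∧ s3 = 0 := by
    intro s1 s2 s3 q0 q1 q2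
    let s : ι → ℚ := fun i => (if i = i1 then s1 else 0) + (if i = i2 then s2 else 0) +
      (if i = i3 then s3 else 0)
    have hsum : ∀ G : ι → ℚ, ∑ i, s i * G i = s1 * G i1 + s2 * G i2 + s3 * G i3 := by
      intro G
      simp only [s, add_mul, Finset.sum_add_distrib, ite_mul, zero_mul]
      simp
    have hs := keymin ht hmin s ?_ i0 h0 ?_ ?_ ?_ ?_
    · refine ⟨?_, ?_, ?_⟩
      · have := hs i1
        simpa [s, n12, n13] using this
      · have := hs i2
        simpa [s, n12.symm, n23] using this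
      · have := hs i3
        simpa [s, n13.symm, n23.symm] using this
    · intro i hi
      have a1 : i ≠ i1 := fun h => h1 (h ▸ hi)
      have a2 : i ≠ i2 := fun h => h2 (h ▸ hi)
      have a3 : i ≠ i3 := fun h => h3 (h ▸ hi)
      simp [s, a1, a2, a3]
    · simp [s, n01, n02, n03]
    · rw [hsum, ← e12, ← e13]
      linear_combination (ε i1) * q0
    · rw [hsum (fun i => ε i * X i), ← e12, ← e13]
      linear_combination (ε i1) * q1
    · rw [hsum (fun i => ε i * Y i), ← e12, ← e13]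
      linear_combination (ε i1) * q2
  intro hdet
  have hdet' : ((X i2 : ℚ) - X i1) * (Y i3 - Y i1) - (X i3 - X i1) * (Y i2 - Y i1) = 0 := by
    have := congrArg (fun z : ℤ => (z : ℚ)) hdet
    simp only [det] at this
    push_cast at this
    exact this
  obtain ⟨a1, a2, a3⟩ := key (X i2 - X i3) (X i3 - X i1) (X i1 - X i2) (by ring) (by ring)
    (by linear_combination -hdet')
  obtain ⟨b1, b2, b3⟩ := key (Y i2 - Y i3) (Y i3 - Y i1) (Y i1 - Y i2) (by ring)
    (by linear_combination hdet') (by ring)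
  obtain ⟨c1, c2, c3⟩ := key 1 (-1) 0 (by ring) (by linear_combination a3)
    (by linear_combination b3)
  norm_num at c1

/-- The circuit (3,1) with weights. -/
lemma tri' (S : Sys) (a1 a2 a3 x1 y1 h1 x2 y2 h2 x3 y3 h3 u v k : ℤ) (p1 : 0 < a1) (p2 : 0 < a2)
    (p3 : 0 < a3) (hdet : det x1 y1 x2 y2 x3 y3 ≠ 0) (w1 : W S x1 y1 h1) (w2 : W S x2 y2 h2)
    (w3 : W S x3 y3 h3) (l : L S u v k) (hx : a1 * x1 + a2 * x2 + a3 * x3 = (a1 + a2 + a3) * u)
    (hy : a1 * y1 + a2 * y2 + a3 * y3 = (a1 + a2 + a3) * v)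
    (hz : a1 * h1 + a2 * h2 + a3 * h3 ≤ (a1 + a2 + a3) * k) : Short S := by
  have main : ∀ (a1 a2 a3 x1 y1 h1 x2 y2 h2 x3 y3 h3 : ℤ), 0 < a1 → 0 < a2 → 0 < a3 →
      0 < det x1 y1 x2 y2 x3 y3 → W S x1 y1 h1 → W S x2 y2 h2 → W S x3 y3 h3 →
      a1 * x1 + a2 * x2 + a3 * x3 = (a1 + a2 + a3) * u →
      a1 * y1 + a2 * y2 + a3 * y3 = (a1 + a2 + a3) * v →
      a1 * h1 + a2 * h2 + a3 * h3 ≤ (a1 + a2 + a3) * k → Short S := by
    clear hx hy hz w1 w2 w3 hdet p1 p2 p3 x1 y1 h1 x2 y2 h2 x3 y3 h3 a1 a2 a3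
    intro a1 a2 a3 x1 y1 h1 x2 y2 h2 x3 y3 h3 p1 p2 p3 hdet w1 w2 w3 hx hy hz
    have hA : 0 < a1 + a2 + a3 := by linarith
    have e1 : (a1 + a2 + a3) * det u v x2 y2 x3 y3 = a1 * det x1 y1 x2 y2 x3 y3 := by
      simp only [det]
      linear_combination (y3 - y2) * hx + (x2 - x3) * hy
    have e2 : (a1 + a2 + a3) * det x1 y1 u v x3 y3 = a2 * det x1 y1 x2 y2 x3 y3 := by
      simp only [det]
      linear_combination (y1 - y3) * hx + (x3 - x1) * hy
    have e3 : (a1 + a2 + a3) * det x1 y1 x2 y2 u v = a3 * det x1 y1 x2 y2 x3 y3 := by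
      simp only [det]
      linear_combination (y2 - y1) * hx + (x1 - x2) * hy
    have pos : ∀ a E : ℤ, 0 < a → (a1 + a2 + a3) * E = a * det x1 y1 x2 y2 x3 y3 → 0 ≤ E := by
      intro a E ha hE
      have g1 : 0 < a * det x1 y1 x2 y2 x3 y3 := mul_pos ha hdet
      by_contra hcon
      push Not at hcon
      have g2 : (a1 + a2 + a3) * E < 0 := mul_neg_of_pos_of_neg hA hcon
      linarith
    refine tri (det x1 y1 x2 y2 x3 y3).toNat S x1 y1 h1 x2 y2 h2 x3 y3 h3 u v k hdet
      (by rw [Int.toNat_of_nonneg hdet.le]) (pos a1 _ p1 e1) (pos a2 _ p2 e2) (pos a3 _ p3 e3)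
      w1 w2 w3 l ?_
    have g1 : (a1 + a2 + a3) * (det u v x2 y2 x3 y3 * h1 + det x1 y1 u v x3 y3 * h2 +
        det x1 y1 x2 y2 u v * h3) = det x1 y1 x2 y2 x3 y3 * (a1 * h1 + a2 * h2 + a3 * h3) := by
      linear_combination h1 * e1 + h2 * e2 + h3 * e3
    have g2 : det x1 y1 x2 y2 x3 y3 * (a1 * h1 + a2 * h2 + a3 * h3) ≤
        det x1 y1 x2 y2 x3 y3 * ((a1 + a2 + a3) * k) := mul_le_mul_of_nonneg_left hz hdet.le
    have g3 : (a1 + a2 + a3) * (det u v x2 y2 x3 y3 * h1 + det x1 y1 u v x3 y3 * h2 +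
        det x1 y1 x2 y2 u v * h3) ≤ (a1 + a2 + a3) * (det x1 y1 x2 y2 x3 y3 * k) := by
      rw [g1]
      linarith
    exact le_of_mul_le_mul_left g3 hA
  rcases lt_or_gt_of_ne hdet with h | h
  · refine main a2 a1 a3 x2 y2 h2 x1 y1 h1 x3 y3 h3 p2 p1 p3 ?_ w2 w1 w3 ?_ ?_ ?_
    · have : det x2 y2 x1 y1 x3 y3 = - det x1 y1 x2 y2 x3 y3 := by
        simp only [det]; ring
      rw [this]
      linarith
    · linarith
    · linarith
    · linarith
  · exact main a1 a2 a3 x1 y1 h1 x2 y2 h2 x3 y3 h3 p1 p2 p3 h w1 w2 w3 hx hy hz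

/-- A relation between winning and losing points gives a short trade. -/
lemma short_of_rel (S : Sys) {ι : Type} [Fintype ι] [DecidableEq ι] (X Y Z : ι → ℤ) (ε : ι → ℚ)
    (hε : ∀ i, (ε i = 1 ∧ W S (X i) (Y i) (Z i)) ∨ (ε i = -1 ∧ L S (X i) (Y i) (Z i)))
    (t₀ : ι → ℚ)
    (ht₀ : Rel ε (fun i => (X i : ℚ)) (fun i => (Y i : ℚ)) (fun i => (Z i : ℚ)) t₀) :
    Short S := by
  obtain ⟨t, ht, hmin⟩ := exists_min ht₀
  have hcard := card_le_four ht hmin
  set P := univ.filter fun i => t i ≠ 0 ∧ ε i = 1 with hP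
  set N := univ.filter fun i => t i ≠ 0 ∧ ε i = -1 with hN
  have hsum : ∀ g : ι → ℚ, ∑ i, t i * (ε i * g i) = ∑ i ∈ P, t i * g i - ∑ i ∈ N, t i * g i := by
    intro g
    rw [hP, hN, Finset.sum_filter, Finset.sum_filter, ← Finset.sum_sub_distrib]
    refine Finset.sum_congr rfl fun i _ => ?_
    by_cases h0 : t i = 0
    · simp [h0]
    · rcases hε i with ⟨h1, _⟩ | ⟨h1, _⟩
      · rw [if_pos ⟨h0, h1⟩, if_neg (by rw [h1]; norm_num), h1]; ring
      · rw [if_neg (by rw [h1]; norm_num), if_pos ⟨h0, h1⟩, h1]; ring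
  have hPW : ∀ i ∈ P, 0 < t i ∧ ε i = 1 ∧ W S (X i) (Y i) (Z i) := by
    intro i hi
    rw [hP] at hi
    simp only [mem_filter, mem_univ, true_and] at hi
    refine ⟨lt_of_le_of_ne (ht.nn i) (Ne.symm hi.1), hi.2, ?_⟩
    rcases hε i with h | h
    · exact h.2
    · have := hi.2.symm.trans h.1
      norm_num at this
  have hNL : ∀ i ∈ N, 0 < t i ∧ ε i = -1 ∧ L S (X i) (Y i) (Z i) := by
    intro i hi
    rw [hN] at hi
    simp only [mem_filter, mem_univ, true_and] at hi
    refine ⟨lt_of_le_of_ne (ht.nn i) (Ne.symm hi.1), hi.2, ?_⟩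
    rcases hε i with h | h
    · have := hi.2.symm.trans h.1
      norm_num at this
    · exact h.2
  have hdisj : Disjoint P N := by
    rw [Finset.disjoint_left]
    intro i h1 h2
    have := (hPW i h1).2.1.symm.trans (hNL i h2).2.1
    norm_num at this
  have hunion : P ∪ N = univ.filter fun i => t i ≠ 0 := by
    ext i
    rw [hP, hN]
    simp only [mem_union, mem_filter, mem_univ, true_and]
    rcases hε i with h | h
    · simp only [h.1]
      norm_num
    · simp only [h.1]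
      norm_num
  have hPN : P.card + N.card ≤ 4 := by
    rw [← Finset.card_union_of_disjoint hdisj, hunion]
    exact hcard
  have E0 : ∑ i ∈ P, t i - ∑ i ∈ N, t i = 0 := by
    have := hsum (fun _ => 1)
    simp only [mul_one] at this
    rw [← this]
    exact ht.r0
  have E1 : ∑ i ∈ P, t i * X i - ∑ i ∈ N, t i * X i = 0 := by
    rw [← hsum (fun i => (X i : ℚ))]
    exact ht.r1
  have E2 : ∑ i ∈ P, t i * Y i - ∑ i ∈ N, t i * Y i = 0 := by
    rw [← hsum (fun i => (Y i : ℚ))]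
    exact ht.r2
  have E3 : ∑ i ∈ P, t i * Z i - ∑ i ∈ N, t i * Z i ≤ 0 := by
    rw [← hsum (fun i => (Z i : ℚ))]
    exact ht.r3
  obtain ⟨j, hj⟩ := ht.ne
  have hPne : P.Nonempty := by
    by_contra hcon
    rw [Finset.not_nonempty_iff_eq_empty] at hcon
    rw [hcon, Finset.sum_empty] at E0
    have hjN : j ∈ N := by
      have : j ∈ P ∪ N := by rw [hunion]; simp [hj]
      rw [hcon] at this
      simpa using this
    have := Finset.sum_pos (f := t) (fun i hi => (hNL i hi).1) ⟨j, hjN⟩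
    linarith
  have hNne : N.Nonempty := by
    by_contra hcon
    rw [Finset.not_nonempty_iff_eq_empty] at hcon
    rw [hcon, Finset.sum_empty] at E0
    have := Finset.sum_pos (f := t) (fun i hi => (hPW i hi).1) hPne
    linarith
  have hP1 := hPne.card_pos
  have hN1 := hNne.card_pos
  have memP : ∀ i, i ∈ P → t i ≠ 0 := fun i hi => (hPW i hi).1.ne'
  have memN : ∀ i, i ∈ N → t i ≠ 0 := fun i hi => (hNL i hi).1.ne'
  have nPN : ∀ i j, i ∈ P → j ∈ N → i ≠ j := by
    intro i j hi hj' h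
    subst h
    exact (Finset.disjoint_left.1 hdisj) hi hj'
  have hc : (P.card = 1 ∧ N.card = 1) ∨ (P.card = 2 ∧ N.card = 1) ∨ (P.card = 1 ∧ N.card = 2) ∨
      (P.card = 2 ∧ N.card = 2) ∨ (P.card = 3 ∧ N.card = 1) ∨ (P.card = 1 ∧ N.card = 3) := by
    omega
  clear_value P N
  rcases hc with ⟨c1, c2⟩ | ⟨c1, c2⟩ | ⟨c1, c2⟩ | ⟨c1, c2⟩ | ⟨c1, c2⟩ | ⟨c1, c2⟩
  · -- (1,1)
    exfalso
    obtain ⟨p, rfl⟩ := Finset.card_eq_one.1 c1
    obtain ⟨n, rfl⟩ := Finset.card_eq_one.1 c2
    simp only [Finset.sum_singleton] at E0 E1 E2 E3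
    obtain ⟨tp, -, wp⟩ := hPW p (by simp)
    obtain ⟨tn, -, ln⟩ := hNL n (by simp)
    have e : t n = t p := by linarith
    rw [e] at E1 E2 E3
    have ex : X p = X n := by
      have : t p * ((X p : ℚ) - X n) = 0 := by linear_combination E1
      rcases mul_eq_zero.1 this with h | h
      · exact absurd h tp.ne'
      · have : (X p : ℚ) = X n := by linarith
        exact_mod_cast this
    have ey : Y p = Y n := by
      have : t p * ((Y p : ℚ) - Y n) = 0 := by linear_combination E2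
      rcases mul_eq_zero.1 this with h | h
      · exact absurd h tp.ne'
      · have : (Y p : ℚ) = Y n := by linarith
        exact_mod_cast this
    have ez : Z p ≤ Z n := by
      have h1 : t p * (Z p : ℚ) ≤ t p * (Z n : ℚ) := by linarith
      have := le_of_mul_le_mul_left h1 tp
      exact_mod_cast this
    rw [← ex, ← ey] at ln
    have := col S wp ln
    linarith
  · -- (2,1)
    obtain ⟨p, q, hpq, rfl⟩ := Finset.card_eq_two.1 c1
    obtain ⟨n, rfl⟩ := Finset.card_eq_one.1 c2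
    simp only [Finset.sum_singleton, Finset.sum_pair hpq] at E0 E1 E2 E3
    obtain ⟨tp, -, wp⟩ := hPW p (by simp)
    obtain ⟨tq, -, wq⟩ := hPW q (by simp)
    obtain ⟨tn, -, ln⟩ := hNL n (by simp)
    obtain ⟨d, a1, a2, a3, _, hd, d1, d2, d3, _⟩ := clear4 (t p) (t q) (t n) 0
    have hdq : (0 : ℚ) < d := by exact_mod_cast hd
    have F0 : a1 + a2 = a3 := by
      have : (a1 : ℚ) + a2 = a3 := by
        rw [← d1, ← d2, ← d3]; linear_combination (d : ℚ) * E0
      exact_mod_cast this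
    have F1 : a1 * X p + a2 * X q = a3 * X n := by
      have : (a1 : ℚ) * X p + a2 * X q = a3 * X n := by
        rw [← d1, ← d2, ← d3]; linear_combination (d : ℚ) * E1
      exact_mod_cast this
    have F2 : a1 * Y p + a2 * Y q = a3 * Y n := by
      have : (a1 : ℚ) * Y p + a2 * Y q = a3 * Y n := by
        rw [← d1, ← d2, ← d3]; linear_combination (d : ℚ) * E2
      exact_mod_cast this
    have F3 : a1 * Z p + a2 * Z q ≤ a3 * Z n := by
      have : (a1 : ℚ) * Z p + a2 * Z q ≤ a3 * Z n := by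
        rw [← d1, ← d2, ← d3]
        have := mul_le_mul_of_nonneg_left E3 hdq.le
        linarith
      exact_mod_cast this
    have P1 : 0 < a1 := by
      have : (0 : ℚ) < a1 := by rw [← d1]; exact mul_pos hdq tp
      exact_mod_cast this
    have P2 : 0 < a2 := by
      have : (0 : ℚ) < a2 := by rw [← d2]; exact mul_pos hdq tq
      exact_mod_cast this
    exact Or.inl (seg (a1 + a2).toNat S a1 a2 _ _ _ _ _ _ _ _ _ P1 P2
      (by rw [Int.toNat_of_nonneg (by linarith)]) wp wq ln (by rw [F0]; exact F1)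
      (by rw [F0]; exact F2) (by rw [F0]; exact F3))
  · -- (1,2)
    obtain ⟨p, rfl⟩ := Finset.card_eq_one.1 c1
    obtain ⟨n, m, hnm, rfl⟩ := Finset.card_eq_two.1 c2
    simp only [Finset.sum_singleton, Finset.sum_pair hnm] at E0 E1 E2 E3
    obtain ⟨tp, -, wp⟩ := hPW p (by simp)
    obtain ⟨tn, -, ln⟩ := hNL n (by simp)
    obtain ⟨tm, -, lm⟩ := hNL m (by simp)
    obtain ⟨d, a1, a2, a3, _, hd, d1, d2, d3, _⟩ := clear4 (t n) (t m) (t p) 0
    have hdq : (0 : ℚ) < d := by exact_mod_cast hd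
    have F0 : a1 + a2 = a3 := by
      have : (a1 : ℚ) + a2 = a3 := by
        rw [← d1, ← d2, ← d3]; linear_combination -(d : ℚ) * E0
      exact_mod_cast this
    have F1 : a1 * X n + a2 * X m = a3 * X p := by
      have : (a1 : ℚ) * X n + a2 * X m = a3 * X p := by
        rw [← d1, ← d2, ← d3]; linear_combination -(d : ℚ) * E1
      exact_mod_cast this
    have F2 : a1 * Y n + a2 * Y m = a3 * Y p := by
      have : (a1 : ℚ) * Y n + a2 * Y m = a3 * Y p := by
        rw [← d1, ← d2, ← d3]; linear_combination -(d : ℚ) * E2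
      exact_mod_cast this
    have F3 : a3 * Z p ≤ a1 * Z n + a2 * Z m := by
      have : (a3 : ℚ) * Z p ≤ a1 * Z n + a2 * Z m := by
        rw [← d1, ← d2, ← d3]
        have := mul_le_mul_of_nonneg_left E3 hdq.le
        linarith
      exact_mod_cast this
    have P1 : 0 < a1 := by
      have : (0 : ℚ) < a1 := by rw [← d1]; exact mul_pos hdq tn
      exact_mod_cast this
    have P2 : 0 < a2 := by
      have : (0 : ℚ) < a2 := by rw [← d2]; exact mul_pos hdq tm
      exact_mod_cast this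
    exact seg' S a1 a2 _ _ _ _ _ _ _ _ _ P1 P2 ln lm wp (by rw [F0]; exact F1)
      (by rw [F0]; exact F2) (by rw [F0]; exact F3)
  · -- (2,2)
    obtain ⟨p, q, hpq, rfl⟩ := Finset.card_eq_two.1 c1
    obtain ⟨n, m, hnm, rfl⟩ := Finset.card_eq_two.1 c2
    simp only [Finset.sum_pair hpq, Finset.sum_pair hnm] at E0 E1 E2 E3
    obtain ⟨tp, -, wp⟩ := hPW p (by simp)
    obtain ⟨tq, -, wq⟩ := hPW q (by simp)
    obtain ⟨tn, -, ln⟩ := hNL n (by simp)
    obtain ⟨tm, -, lm⟩ := hNL m (by simp)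
    obtain ⟨d, a1, a2, b1, b2, hd, d1, d2, d3, d4⟩ := clear4 (t p) (t q) (t n) (t m)
    have hdq : (0 : ℚ) < d := by exact_mod_cast hd
    have F0 : a1 + a2 = b1 + b2 := by
      have : (a1 : ℚ) + a2 = b1 + b2 := by
        rw [← d1, ← d2, ← d3, ← d4]; linear_combination (d : ℚ) * E0
      exact_mod_cast this
    have F1 : a1 * X p + a2 * X q = b1 * X n + b2 * X m := by
      have : (a1 : ℚ) * X p + a2 * X q = b1 * X n + b2 * X m := by
        rw [← d1, ← d2, ← d3, ← d4]; linear_combination (d : ℚ) * E1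
      exact_mod_cast this
    have F2 : a1 * Y p + a2 * Y q = b1 * Y n + b2 * Y m := by
      have : (a1 : ℚ) * Y p + a2 * Y q = b1 * Y n + b2 * Y m := by
        rw [← d1, ← d2, ← d3, ← d4]; linear_combination (d : ℚ) * E2
      exact_mod_cast this
    have F3 : a1 * Z p + a2 * Z q ≤ b1 * Z n + b2 * Z m := by
      have : (a1 : ℚ) * Z p + a2 * Z q ≤ b1 * Z n + b2 * Z m := by
        rw [← d1, ← d2, ← d3, ← d4]
        have := mul_le_mul_of_nonneg_left E3 hdq.le
        linarith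
      exact_mod_cast this
    have P1 : 0 < a1 := by
      have : (0 : ℚ) < a1 := by rw [← d1]; exact mul_pos hdq tp
      exact_mod_cast this
    have P2 : 0 < a2 := by
      have : (0 : ℚ) < a2 := by rw [← d2]; exact mul_pos hdq tq
      exact_mod_cast this
    have P3 : 0 < b1 := by
      have : (0 : ℚ) < b1 := by rw [← d3]; exact mul_pos hdq tn
      exact_mod_cast this
    have P4 : 0 < b2 := by
      have : (0 : ℚ) < b2 := by rw [← d4]; exact mul_pos hdq tm
      exact_mod_cast this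
    exact quad (a1 + a2).toNat S a1 a2 b1 b2 _ _ _ _ _ _ _ _ _ _ _ _ P1 P2 P3 P4 F0
      (by rw [Int.toNat_of_nonneg (by linarith)]) wp wq ln lm F1 F2 F3
  · -- (3,1)
    obtain ⟨p, q, r, hpq, hpr, hqr, rfl⟩ := Finset.card_eq_three.1 c1
    obtain ⟨n, rfl⟩ := Finset.card_eq_one.1 c2
    have s3 : ∀ g : ι → ℚ, ∑ i ∈ ({p, q, r} : Finset ι), g i = g p + g q + g r := by
      intro g
      rw [Finset.sum_insert (by simp [hpq, hpr]), Finset.sum_pair hqr]
      ring
    simp only [Finset.sum_singleton, s3] at E0 E1 E2 E3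
    obtain ⟨tp, ep, wp⟩ := hPW p (by simp)
    obtain ⟨tq, eq, wq⟩ := hPW q (by simp)
    obtain ⟨tr, er, wr⟩ := hPW r (by simp)
    obtain ⟨tn, en, ln⟩ := hNL n (by simp)
    have hdet := det_ne ht hmin n p q r tn.ne' tp.ne' tq.ne' tr.ne'
      (nPN p n (by simp) (by simp)).symm (nPN q n (by simp) (by simp)).symm
      (nPN r n (by simp) (by simp)).symm hpq hpr hqr (by rw [ep, eq]) (by rw [ep, er])
    obtain ⟨d, a1, a2, a3, a4, hd, d1, d2, d3, d4⟩ := clear4 (t p) (t q) (t r) (t n)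
    have hdq : (0 : ℚ) < d := by exact_mod_cast hd
    have F0 : a1 + a2 + a3 = a4 := by
      have : (a1 : ℚ) + a2 + a3 = a4 := by
        rw [← d1, ← d2, ← d3, ← d4]; linear_combination (d : ℚ) * E0
      exact_mod_cast this
    have F1 : a1 * X p + a2 * X q + a3 * X r = a4 * X n := by
      have : (a1 : ℚ) * X p + a2 * X q + a3 * X r = a4 * X n := by
        rw [← d1, ← d2, ← d3, ← d4]; linear_combination (d : ℚ) * E1
      exact_mod_cast this
    have F2 : a1 * Y p + a2 * Y q + a3 * Y r = a4 * Y n := by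
      have : (a1 : ℚ) * Y p + a2 * Y q + a3 * Y r = a4 * Y n := by
        rw [← d1, ← d2, ← d3, ← d4]; linear_combination (d : ℚ) * E2
      exact_mod_cast this
    have F3 : a1 * Z p + a2 * Z q + a3 * Z r ≤ a4 * Z n := by
      have : (a1 : ℚ) * Z p + a2 * Z q + a3 * Z r ≤ a4 * Z n := by
        rw [← d1, ← d2, ← d3, ← d4]
        have := mul_le_mul_of_nonneg_left E3 hdq.le
        linarith
      exact_mod_cast this
    have P1 : 0 < a1 := by
      have : (0 : ℚ) < a1 := by rw [← d1]; exact mul_pos hdq tp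
      exact_mod_cast this
    have P2 : 0 < a2 := by
      have : (0 : ℚ) < a2 := by rw [← d2]; exact mul_pos hdq tq
      exact_mod_cast this
    have P3 : 0 < a3 := by
      have : (0 : ℚ) < a3 := by rw [← d3]; exact mul_pos hdq tr
      exact_mod_cast this
    exact tri' S a1 a2 a3 _ _ _ _ _ _ _ _ _ _ _ _ P1 P2 P3 hdet wp wq wr ln
      (by rw [F0]; exact F1) (by rw [F0]; exact F2) (by rw [F0]; exact F3)
  · -- (1,3)
    obtain ⟨n, rfl⟩ := Finset.card_eq_one.1 c1
    obtain ⟨p, q, r, hpq, hpr, hqr, rfl⟩ := Finset.card_eq_three.1 c2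
    have s3 : ∀ g : ι → ℚ, ∑ i ∈ ({p, q, r} : Finset ι), g i = g p + g q + g r := by
      intro g
      rw [Finset.sum_insert (by simp [hpq, hpr]), Finset.sum_pair hqr]
      ring
    simp only [Finset.sum_singleton, s3] at E0 E1 E2 E3
    obtain ⟨tp, ep, lp⟩ := hNL p (by simp)
    obtain ⟨tq, eq, lq⟩ := hNL q (by simp)
    obtain ⟨tr, er, lr⟩ := hNL r (by simp)
    obtain ⟨tn, en, wn⟩ := hPW n (by simp)
    have hdet := det_ne ht hmin n p q r tn.ne' tp.ne' tq.ne' tr.ne'
      (nPN n p (by simp) (by simp)) (nPN n q (by simp) (by simp))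
      (nPN n r (by simp) (by simp)) hpq hpr hqr (by rw [ep, eq]) (by rw [ep, er])
    obtain ⟨d, a1, a2, a3, a4, hd, d1, d2, d3, d4⟩ := clear4 (t p) (t q) (t r) (t n)
    have hdq : (0 : ℚ) < d := by exact_mod_cast hd
    have F0 : a1 + a2 + a3 = a4 := by
      have : (a1 : ℚ) + a2 + a3 = a4 := by
        rw [← d1, ← d2, ← d3, ← d4]; linear_combination -(d : ℚ) * E0
      exact_mod_cast this
    have F1 : a1 * X p + a2 * X q + a3 * X r = a4 * X n := by
      have : (a1 : ℚ) * X p + a2 * X q + a3 * X r = a4 * X n := by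
        rw [← d1, ← d2, ← d3, ← d4]; linear_combination -(d : ℚ) * E1
      exact_mod_cast this
    have F2 : a1 * Y p + a2 * Y q + a3 * Y r = a4 * Y n := by
      have : (a1 : ℚ) * Y p + a2 * Y q + a3 * Y r = a4 * Y n := by
        rw [← d1, ← d2, ← d3, ← d4]; linear_combination -(d : ℚ) * E2
      exact_mod_cast this
    have F3 : a4 * Z n ≤ a1 * Z p + a2 * Z q + a3 * Z r := by
      have : (a4 : ℚ) * Z n ≤ a1 * Z p + a2 * Z q + a3 * Z r := by
        rw [← d1, ← d2, ← d3, ← d4]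
        have := mul_le_mul_of_nonneg_left E3 hdq.le
        linarith
      exact_mod_cast this
    have P1 : 0 < a1 := by
      have : (0 : ℚ) < a1 := by rw [← d1]; exact mul_pos hdq tp
      exact_mod_cast this
    have P2 : 0 < a2 := by
      have : (0 : ℚ) < a2 := by rw [← d2]; exact mul_pos hdq tq
      exact_mod_cast this
    have P3 : 0 < a3 := by
      have : (0 : ℚ) < a3 := by rw [← d3]; exact mul_pos hdq tr
      exact_mod_cast this
    have F4 : (a1 + a2 + a3) * Z n ≤ a1 * Z p + a2 * Z q + a3 * Z r := by rw [F0]; exact F3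
    apply short_dual
    refine tri' (dual S) a1 a2 a3 (X p) (Y p) (S.c - Z p) (X q) (Y q) (S.c - Z q) (X r) (Y r)
      (S.c - Z r) (X n) (Y n) (S.c - Z n) P1 P2 P3 hdet ?_ ?_ ?_ ?_
      (by rw [F0]; exact F1) (by rw [F0]; exact F2) (by nlinarith)
    · rw [W_dual]; simpa using lp
    · rw [W_dual]; simpa using lq
    · rw [W_dual]; simpa using lr
    · rw [L_dual]; simpa using wn

/-- A box without short trades is separated by a plane. -/
theorem separation (S : Sys) (h : ¬ Short S) : ∃ f0 f1 f2 f3 : ℚ, ∀ x y z : ℤ,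
    (W S x y z → 0 < f0 + f1 * x + f2 * y + f3 * z) ∧
    (L S x y z → f0 + f1 * x + f2 * y + f3 * z < 0) := by
  classical
  let B : Finset (ℤ × ℤ × ℤ) := Finset.Icc 0 S.a ×ˢ Finset.Icc 0 S.b ×ˢ Finset.Icc 0 S.c
  have hB : ∀ x y z : ℤ, (x, y, z) ∈ B ↔ (0 ≤ x ∧ x ≤ S.a) ∧ (0 ≤ y ∧ y ≤ S.b) ∧
      (0 ≤ z ∧ z ≤ S.c) := by
    intro x y z
    simp only [B, Finset.mem_product, Finset.mem_Icc]
  let X : B → ℤ := fun p => p.1.1
  let Y : B → ℤ := fun p => p.1.2.1
  let Z : B → ℤ := fun p => p.1.2.2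
  let ε : B → ℚ := fun p => if S.win p.1.1 p.1.2.1 p.1.2.2 then 1 else -1
  have hε : ∀ i, (ε i = 1 ∧ W S (X i) (Y i) (Z i)) ∨ (ε i = -1 ∧ L S (X i) (Y i) (Z i)) := by
    rintro ⟨⟨x, y, z⟩, hp⟩
    have hb := (hB x y z).1 hp
    by_cases hw : S.win x y z
    · left
      exact ⟨by simp only [ε, hw, if_true], hb.1, hb.2.1, hb.2.2, hw⟩
    · right
      exact ⟨by simp only [ε, hw, if_false], hb.1, hb.2.1, hb.2.2, hw⟩
  rcases gordan ε (fun i => (X i : ℚ)) (fun i => (Y i : ℚ)) (fun i => (Z i : ℚ)) with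
    ⟨f0, f1, f2, f3, hf⟩ | ⟨t, h1, h2, h3, h4, h5, h6⟩
  · refine ⟨f0, f1, f2, f3, fun x y z => ⟨fun hw => ?_, fun hl => ?_⟩⟩
    · have hm : (x, y, z) ∈ B := (hB x y z).2 ⟨hw.1, hw.2.1, hw.2.2.1⟩
      have := hf ⟨(x, y, z), hm⟩
      simp only [ε, X, Y, Z, hw.2.2.2, if_true] at this
      linarith
    · have hm : (x, y, z) ∈ B := (hB x y z).2 ⟨hl.1, hl.2.1, hl.2.2.1⟩
      have := hf ⟨(x, y, z), hm⟩
      simp only [ε, X, Y, Z, hl.2.2.2, if_false] at this
      linarith
  · exfalso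
    apply h
    refine short_of_rel S X Y Z ε hε t ⟨h1, ?_, h3, h4, h5, h6.le⟩
    by_contra hcon
    push Not at hcon
    simp only [hcon, Finset.sum_const_zero] at h2
    norm_num at h2

end Pool.Agent.V11155.Planar
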