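import Pool.Agent.V11155.TradeGames
import Pool.Agent.V11155.Relations

/-!
Games with at most three types: from short trades of type vectors to trades of coalitions, and
from a separating plane to weights.
-/

namespace Pool.Agent.V11155.Arrange

open Finset Pool.Agent.V11155.TradeGames Pool.Agent.V11155.Planar

lemma mod_inj {n M c a b : ℕ} (hc : c ≤ n) (ha : a ∈ Ico M (M + c)) (hb : b ∈ Ico M (M + c))
    (h : a % n = b % n) : a = b := by
  rw [Finset.mem_Ico] at ha hb
  have h1 := Nat.div_add_mod a n
  have h2 := Nat.div_add_mod b n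
  rcases lt_trichotomy (a / n) (b / n) with h3 | h3 | h3
  · exfalso
    have h4 : n * (a / n + 1) ≤ n * (b / n) := Nat.mul_le_mul_left n h3
    rw [mul_add] at h4
    omega
  · rw [← h1, ← h2, h3, h]
  · exfalso
    have h4 : n * (b / n + 1) ≤ n * (a / n) := Nat.mul_le_mul_left n h3
    rw [mul_add] at h4
    omega

/-- Subsets of given sizes of a finite set such that the number of subsets containing a given
element depends only on the sum of the sizes. -/
lemma arrange {N : Type} [DecidableEq N] (A : Finset N) : ∃ g : ℕ → N → ℕ, ∀ (k : ℕ)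
    (c : Fin k → ℕ), (∀ i, c i ≤ A.card) → ∃ S : Fin k → Finset N,
      (∀ i, S i ⊆ A ∧ (S i).card = c i) ∧
      ∀ p, (univ.filter fun i => p ∈ S i).card = g (∑ i, c i) p := by
  classical
  set n := A.card with hn
  let φ : N → ℕ := fun p => if h : p ∈ A then (A.equivFin ⟨p, h⟩).val else 0
  have hφ : ∀ p (h : p ∈ A), φ p = (A.equivFin ⟨p, h⟩).val := fun p h => by simp [φ, h]
  have hinj : ∀ p ∈ A, ∀ q ∈ A, φ p = φ q → p = q := by
    intro p hp q hq h
    rw [hφ p hp, hφ q hq] at h
    have := A.equivFin.injective (Fin.ext h)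
    exact congrArg Subtype.val this
  have hsurj : ∀ m < n, ∃ p ∈ A, φ p = m := by
    intro m hm
    refine ⟨(A.equivFin.symm ⟨m, hm⟩).1, (A.equivFin.symm ⟨m, hm⟩).2, ?_⟩
    rw [hφ _ (A.equivFin.symm ⟨m, hm⟩).2]
    simp
  let g : ℕ → N → ℕ := fun M p =>
    if p ∈ A then ((range M).filter fun m => m % n = φ p).card else 0
  refine ⟨g, ?_⟩
  intro k
  induction k with
  | zero =>
    intro c _
    refine ⟨fun i => i.elim0, fun i => i.elim0, fun p => ?_⟩
    simp [g]
  | succ k ih =>
    intro c hc
    obtain ⟨S', h1, h2⟩ := ih (fun i => c i.castSucc) (fun i => hc _)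
    set M := ∑ i : Fin k, c i.castSucc with hM
    set cl := c (Fin.last k) with hcl
    have hcln : cl ≤ n := hc _
    let L : Finset N := A.filter fun p => ∃ m ∈ Ico M (M + cl), m % n = φ p
    have hL : ∀ p, p ∈ L ↔ p ∈ A ∧ ∃ m ∈ Ico M (M + cl), m % n = φ p := fun p => by
      simp only [L, Finset.mem_filter]
    have hLc : L.card = cl := by
      have e1 : L.image φ = (Ico M (M + cl)).image (fun m => m % n) := by
        ext x
        simp only [Finset.mem_image]
        constructor
        · rintro ⟨p, hp, rfl⟩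
          obtain ⟨_, m, hm, hmp⟩ := (hL p).1 hp
          exact ⟨m, hm, hmp⟩
        · rintro ⟨m, hm, rfl⟩
          have hn0 : 0 < n := by
            rw [Finset.mem_Ico] at hm
            omega
          obtain ⟨p, hpA, hp⟩ := hsurj (m % n) (Nat.mod_lt _ hn0)
          exact ⟨p, (hL p).2 ⟨hpA, m, hm, hp.symm⟩, hp⟩
      have e2 : (L.image φ).card = L.card := by
        apply Finset.card_image_of_injOn
        intro p hp q hq h
        exact hinj p ((hL p).1 hp).1 q ((hL q).1 hq).1 h
      have e3 : ((Ico M (M + cl)).image (fun m => m % n)).card = cl := by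
        rw [Finset.card_image_of_injOn]
        · simp
        · intro a ha b hb h
          exact mod_inj hcln ha hb h
      rw [← e2, e1, e3]
    refine ⟨Fin.snoc S' L, ?_, ?_⟩
    · intro i
      refine Fin.lastCases ?_ (fun j => ?_) i
      · rw [Fin.snoc_last]
        exact ⟨Finset.filter_subset _ _, hLc⟩
      · rw [Fin.snoc_castSucc]
        exact h1 j
    · intro p
      have e1 : (univ.filter fun i => p ∈ (Fin.snoc S' L : Fin (k + 1) → Finset N) i).card =
          (univ.filter fun i => p ∈ S' i).card + if p ∈ L then 1 else 0 := by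
        rw [Finset.card_filter, Finset.card_filter, Fin.sum_univ_castSucc]
        simp only [Fin.snoc_castSucc, Fin.snoc_last]
      rw [e1, h2, Fin.sum_univ_castSucc, ← hM, ← hcl]
      by_cases hp : p ∈ A
      · simp only [g, hp, if_true]
        have e2 : (range (M + cl)).filter (fun m => m % n = φ p) =
            (range M).filter (fun m => m % n = φ p) ∪
            (Ico M (M + cl)).filter (fun m => m % n = φ p) := by
          rw [← Finset.filter_union]
          congr 1
          ext x
          simp only [Finset.mem_range, Finset.mem_union, Finset.mem_Ico]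
          omega
        have e3 : Disjoint ((range M).filter (fun m => m % n = φ p))
            ((Ico M (M + cl)).filter (fun m => m % n = φ p)) := by
          rw [Finset.disjoint_left]
          intro x hx hx'
          simp only [Finset.mem_filter, Finset.mem_range, Finset.mem_Ico] at hx hx'
          omega
        rw [e2, Finset.card_union_of_disjoint e3]
        congr 1
        by_cases hpL : p ∈ L
        · rw [if_pos hpL]
          obtain ⟨_, m, hm, hmp⟩ := (hL p).1 hpL
          symm
          rw [Finset.card_eq_one]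
          refine ⟨m, ?_⟩
          ext x
          simp only [Finset.mem_filter, Finset.mem_singleton]
          constructor
          · rintro ⟨hx, hxp⟩
            exact mod_inj hcln hx hm (hxp.trans hmp.symm)
          · rintro rfl
            exact ⟨hm, hmp⟩
        · rw [if_neg hpL]
          symm
          rw [Finset.card_eq_zero, Finset.filter_eq_empty_iff]
          intro m hm hmp
          exact hpL ((hL p).2 ⟨hp, m, hm, hmp⟩)
      · have hpL : p ∉ L := fun h => hp ((hL p).1 h).1
        simp only [g, hp, hpL, if_false]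

variable {N : Type} [Fintype N] [DecidableEq N]

/-- A game is weighted. -/
def Weighted (G : SimpleGame N) : Prop :=
  ∃ (w : N → ℝ) (q : ℝ), (∀ i, 0 ≤ w i) ∧ ∀ S : Finset N, G.win S ↔ q ≤ ∑ i ∈ S, w i

/-- Weighted games are trade robust. -/
lemma tradeRobust_of_weighted (G : SimpleGame N) (h : Weighted G) (k : ℕ) : TradeRobust G k := by
  obtain ⟨w, q, _, hw⟩ := h
  intro j hj _ X Y hX hY hc
  have swap : ∀ Z : Fin j → Finset N, ∑ i, ∑ p ∈ Z i, w p =
      ∑ p, ((univ.filter fun i => p ∈ Z i).card : ℝ) * w p := by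
    intro Z
    have e1 : ∀ i, ∑ p ∈ Z i, w p = ∑ p, if p ∈ Z i then w p else 0 := by
      intro i
      rw [← Finset.sum_filter]
      congr 1
      ext p
      simp
    simp_rw [e1]
    rw [Finset.sum_comm]
    refine Finset.sum_congr rfl fun p _ => ?_
    rw [← Finset.sum_filter, Finset.sum_const, nsmul_eq_mul]
  have h1 : ∑ i, ∑ p ∈ X i, w p = ∑ i, ∑ p ∈ Y i, w p := by
    rw [swap, swap]
    refine Finset.sum_congr rfl fun p _ => ?_
    rw [hc p]
  have h2 : ∑ i : Fin j, ∑ p ∈ Y i, w p < ∑ i : Fin j, ∑ p ∈ X i, w p := by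
    apply Finset.sum_lt_sum_of_nonempty
    · exact ⟨⟨0, hj⟩, Finset.mem_univ _⟩
    · intro i _
      have a1 := (hw (X i)).1 (hX i)
      have a2 : ¬ q ≤ ∑ p ∈ Y i, w p := fun h => hY i ((hw (Y i)).2 h)
      push Not at a2
      linarith
  linarith

/-- The number of members of a class in a coalition. -/
def cnt (cls : N → Fin 3) (S : Finset N) (c : Fin 3) : ℕ := (S.filter fun p => cls p = c).card

/-- With at most three types the players can be coloured by three colours such that players
of the same colour are equally desirable. -/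
lemma exists_cls (G : SimpleGame N) (h : numTypes G ≤ 3) : ∃ cls : N → Fin 3,
    ∀ i j, cls i = cls j → Des G i j ∧ Des G j i := by
  classical
  set 𝒞 : Set (Set N) := {C : Set N | ∃ i : N, C = {j : N | Des G i j ∧ Des G j i}} with h𝒞
  have hfin : 𝒞.Finite := Set.toFinite _
  have : Fintype 𝒞 := hfin.fintype
  have hcard : Fintype.card 𝒞 ≤ Fintype.card (Fin 3) := by
    have h1 : 𝒞.ncard ≤ 3 := h
    rw [Fintype.card_fin]
    rwa [← Nat.card_coe_set_eq, Nat.card_eq_fintype_card] at h1
  obtain ⟨f⟩ := Function.Embedding.nonempty_of_card_le hcard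
  let C : N → 𝒞 := fun i => ⟨{j : N | Des G i j ∧ Des G j i}, i, rfl⟩
  refine ⟨fun i => f (C i), fun i j hij => ?_⟩
  have h1 : C i = C j := f.injective hij
  have h2 : ({k : N | Des G i k ∧ Des G k i} : Set N) = {k : N | Des G j k ∧ Des G k j} :=
    congrArg Subtype.val h1
  have h3 : j ∈ ({k : N | Des G j k ∧ Des G k j} : Set N) := ⟨des_refl G j, des_refl G j⟩
  rw [← h2] at h3
  exact h3

/-- Whether a coalition wins depends only on its numbers of members of each class. -/
lemma win_of_cnt (G : SimpleGame N) (cls : N → Fin 3)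
    (hcls : ∀ i j, cls i = cls j → Des G i j ∧ Des G j i) :
    ∀ (n : ℕ) (S T : Finset N), (S \ T).card = n → (∀ c, cnt cls S c = cnt cls T c) →
      G.win S → G.win T := by
  intro n
  induction n with
  | zero =>
    intro S T hn hc hw
    rw [Finset.card_eq_zero, Finset.sdiff_eq_empty_iff_subset] at hn
    exact G.mono S T hn hw
  | succ n ih =>
    intro S T hn hc hw
    have hne : (S \ T).Nonempty := by
      rw [← Finset.card_pos, hn]
      omega
    obtain ⟨i, hi⟩ := hne
    rw [Finset.mem_sdiff] at hi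
    -- a player of the same class in `T` but not in `S`
    have hj : ∃ j, j ∈ T ∧ j ∉ S ∧ cls j = cls i := by
      by_contra hcon
      push Not at hcon
      have hsub : (T.filter fun p => cls p = cls i) ⊂ (S.filter fun p => cls p = cls i) := by
        rw [Finset.ssubset_iff_of_subset]
        · refine ⟨i, ?_, ?_⟩
          · simp [hi.1]
          · simp [hi.2]
        · intro j hj
          simp only [Finset.mem_filter] at hj ⊢
          refine ⟨?_, hj.2⟩
          by_contra hjS
          exact hcon j hj.1 hjS hj.2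
      have h1 := Finset.card_lt_card hsub
      have h2 := hc (cls i)
      unfold cnt at h2
      omega
    obtain ⟨j, hjT, hjS, hji⟩ := hj
    have hij : i ≠ j := fun h => hjS (h ▸ hi.1)
    set S' := insert j (S.erase i) with hS'
    have hw' : G.win S' := by
      have hd := (hcls i j hji.symm).2
      have h1 : i ∉ S.erase i := by simp
      have h2 : j ∉ S.erase i := by simp [hjS]
      refine hd (S.erase i) h2 h1 ?_
      rw [Finset.insert_erase hi.1]
      exact hw
    refine ih S' T ?_ ?_ hw'
    · have e : S' \ T = (S \ T).erase i := by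
        ext x
        simp only [hS', Finset.mem_sdiff, Finset.mem_insert, Finset.mem_erase]
        constructor
        · rintro ⟨h1 | ⟨h1, h2⟩, h3⟩
          · rw [h1] at h3
            exact absurd hjT h3
          · exact ⟨h1, h2, h3⟩
        · rintro ⟨h1, h2, h3⟩
          exact ⟨Or.inr ⟨h1, h2⟩, h3⟩
      rw [e, Finset.card_erase_of_mem (by rw [Finset.mem_sdiff]; exact hi), hn]
      omega
    · intro c
      rw [← hc c]
      unfold cnt
      by_cases hci : cls i = c
      · have e : (S'.filter fun p => cls p = c) =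
            insert j ((S.filter fun p => cls p = c).erase i) := by
          ext x
          simp only [hS', Finset.mem_filter, Finset.mem_insert, Finset.mem_erase]
          constructor
          · rintro ⟨h1 | ⟨h1, h2⟩, h3⟩
            · exact Or.inl h1
            · exact Or.inr ⟨h1, h2, h3⟩
          · rintro (h1 | ⟨h1, h2, h3⟩)
            · exact ⟨Or.inl h1, by rw [h1, hji, hci]⟩
            · exact ⟨Or.inr ⟨h1, h2⟩, h3⟩
        rw [e, Finset.card_insert_of_notMem (by simp [hjS]), Finset.card_erase_of_mem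
          (by simp [hi.1, hci])]
        have : 0 < (S.filter fun p => cls p = c).card :=
          Finset.card_pos.2 ⟨i, by simp [hi.1, hci]⟩
        omega
      · have e : (S'.filter fun p => cls p = c) = S.filter fun p => cls p = c := by
          ext x
          simp only [hS', Finset.mem_filter, Finset.mem_insert, Finset.mem_erase]
          constructor
          · rintro ⟨h1 | ⟨h1, h2⟩, h3⟩
            · exfalso
              rw [h1, hji] at h3
              exact hci h3
            · exact ⟨h2, h3⟩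
          · rintro ⟨h1, h2⟩
            refine ⟨Or.inr ⟨?_, h1⟩, h2⟩
            intro h
            rw [h] at h2
            exact hci h2
        rw [e]

/-- Whether a coalition wins depends only on its numbers of members of each class. -/
lemma win_iff_cnt (G : SimpleGame N) (cls : N → Fin 3)
    (hcls : ∀ i j, cls i = cls j → Des G i j ∧ Des G j i) (S T : Finset N)
    (h : ∀ c, cnt cls S c = cnt cls T c) : G.win S ↔ G.win T :=
  ⟨win_of_cnt G cls hcls _ S T rfl h, win_of_cnt G cls hcls _ T S rfl fun c => (h c).symm⟩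

/-- The box of class counts of a game. -/
def sys (G : SimpleGame N) (cls : N → Fin 3) : Sys where
  a := cnt cls univ 0
  b := cnt cls univ 1
  c := cnt cls univ 2
  win x y z := ∃ S : Finset N, (cnt cls S 0 : ℤ) = x ∧ (cnt cls S 1 : ℤ) = y ∧
    (cnt cls S 2 : ℤ) = z ∧ G.win S
  mono x y z z' h0 h1 h2 h := by
    obtain ⟨S, e0, e1, e2, hw⟩ := h
    have hsub : (S.filter fun p => cls p = 2) ⊆ (univ.filter fun p => cls p = 2) :=
      Finset.filter_subset_filter _ (Finset.subset_univ S)
    have g1 : (S.filter fun p => cls p = 2).card ≤ z'.toNat := by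
      have : ((S.filter fun p => cls p = 2).card : ℤ) ≤ z' := by
        unfold cnt at e2
        rw [e2]
        exact h1
      omega
    have g2 : z'.toNat ≤ (univ.filter fun p => cls p = 2).card := by
      unfold cnt at h2
      omega
    obtain ⟨U, u1, u2, u3⟩ := Finset.exists_subsuperset_card_eq hsub g1 g2
    have hU : ∀ p ∈ U, cls p = 2 := fun p hp => by
      have := u2 hp
      simpa using this
    refine ⟨S ∪ U, ?_, ?_, ?_, G.mono S _ Finset.subset_union_left hw⟩
    · rw [← e0]
      unfold cnt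
      congr 2
      ext p
      simp only [Finset.mem_filter, Finset.mem_union]
      constructor
      · rintro ⟨h3 | h3, h4⟩
        · exact ⟨h3, h4⟩
        · rw [hU p h3] at h4
          exact absurd h4 (by decide)
      · rintro ⟨h3, h4⟩
        exact ⟨Or.inl h3, h4⟩
    · rw [← e1]
      unfold cnt
      congr 2
      ext p
      simp only [Finset.mem_filter, Finset.mem_union]
      constructor
      · rintro ⟨h3 | h3, h4⟩
        · exact ⟨h3, h4⟩
        · rw [hU p h3] at h4
          exact absurd h4 (by decide)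
      · rintro ⟨h3, h4⟩
        exact ⟨Or.inl h3, h4⟩
    · have e : ((S ∪ U).filter fun p => cls p = 2) = U := by
        ext p
        simp only [Finset.mem_filter, Finset.mem_union]
        constructor
        · rintro ⟨h3 | h3, h4⟩
          · exact u1 (by simp [h3, h4])
          · exact h3
        · intro h3
          exact ⟨Or.inr h3, hU p h3⟩
      unfold cnt
      rw [e, u3, Int.toNat_of_nonneg (by linarith)]

/-- A sequence of type vectors is realized by coalitions such that the number of coalitions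
containing a given player depends only on the sums of the vectors. -/
lemma realize (cls : N → Fin 3) : ∃ g : (Fin 3 → ℕ) → N → ℕ, ∀ (k : ℕ) (c : Fin k → Fin 3 → ℕ),
    (∀ i e, c i e ≤ cnt cls univ e) → ∃ S : Fin k → Finset N,
      (∀ i e, cnt cls (S i) e = c i e) ∧
      ∀ p, (univ.filter fun i => p ∈ S i).card = g (fun e => ∑ i, c i e) p := by
  choose g hg using fun e : Fin 3 => arrange (univ.filter fun p => cls p = e)
  refine ⟨fun s p => g (cls p) (s (cls p)) p, fun k c hc => ?_⟩
  choose S hS1 hS2 using fun e : Fin 3 => hg e k (fun i => c i e) (fun i => hc i e)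
  refine ⟨fun i => univ.filter fun p => p ∈ S (cls p) i, fun i e => ?_, fun p => ?_⟩
  · rw [← (hS1 e i).2]
    unfold cnt
    congr 1
    ext p
    simp only [Finset.mem_filter, Finset.mem_univ, true_and]
    constructor
    · rintro ⟨h1, h2⟩
      rwa [h2] at h1
    · intro h1
      have h2 := (hS1 e i).1 h1
      simp only [Finset.mem_filter, Finset.mem_univ, true_and] at h2
      rw [h2]
      exact ⟨h1, rfl⟩
  · have := hS2 (cls p) p
    simp only [Finset.mem_filter, Finset.mem_univ, true_and]
    exact this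

/-- A trade of type vectors gives a trade of coalitions. -/
lemma not_tr (G : SimpleGame N) (cls : N → Fin 3)
    (hcls : ∀ i j, cls i = cls j → Des G i j ∧ Des G j i) (m k : ℕ) (hk : 0 < k) (hkm : k ≤ m)
    (x y z u v w : Fin k → ℤ) (hw : ∀ i, W (sys G cls) (x i) (y i) (z i))
    (hl : ∀ i, L (sys G cls) (u i) (v i) (w i)) (e0 : ∑ i, x i = ∑ i, u i)
    (e1 : ∑ i, y i = ∑ i, v i) (e2 : ∑ i, z i = ∑ i, w i) : ¬ TradeRobust G m := by
  intro htr
  obtain ⟨g, hg⟩ := realize cls
  let c : Fin k → Fin 3 → ℕ := fun i => ![(x i).toNat, (y i).toNat, (z i).toNat]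
  let d : Fin k → Fin 3 → ℕ := fun i => ![(u i).toNat, (v i).toNat, (w i).toNat]
  have hc : ∀ i e, c i e ≤ cnt cls univ e := by
    intro i e
    obtain ⟨⟨a1, a2⟩, ⟨b1, b2⟩, ⟨c1, c2⟩, _⟩ := hw i
    simp only [sys] at a2 b2 c2
    fin_cases e
    · simp only [c]
      simp
      omega
    · simp only [c]
      simp
      omega
    · simp only [c]
      simp
      omega
  have hd : ∀ i e, d i e ≤ cnt cls univ e := by
    intro i e
    obtain ⟨⟨a1, a2⟩, ⟨b1, b2⟩, ⟨c1, c2⟩, _⟩ := hl i
    simp only [sys] at a2 b2 c2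
    fin_cases e
    · simp only [d]
      simp
      omega
    · simp only [d]
      simp
      omega
    · simp only [d]
      simp
      omega
  obtain ⟨S, hS1, hS2⟩ := hg k c hc
  obtain ⟨T, hT1, hT2⟩ := hg k d hd
  have toNat_sum : ∀ f f' : Fin k → ℤ, (∀ i, 0 ≤ f i) → (∀ i, 0 ≤ f' i) →
      ∑ i, f i = ∑ i, f' i → ∑ i, (f i).toNat = ∑ i, (f' i).toNat := by
    intro f f' h h' he
    have h1 : ∀ f : Fin k → ℤ, (∀ i, 0 ≤ f i) → ((∑ i, (f i).toNat : ℕ) : ℤ) = ∑ i, f i := by
      intro f hf
      push_cast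
      refine Finset.sum_congr rfl fun i _ => ?_
      rw [Int.toNat_of_nonneg (hf i)]
    have : ((∑ i, (f i).toNat : ℕ) : ℤ) = ((∑ i, (f' i).toNat : ℕ) : ℤ) := by
      rw [h1 f h, h1 f' h', he]
    exact_mod_cast this
  have hsum : (fun e => ∑ i, c i e) = fun e => ∑ i, d i e := by
    funext e
    fin_cases e
    · exact toNat_sum x u (fun i => (hw i).1.1) (fun i => (hl i).1.1) e0
    · exact toNat_sum y v (fun i => (hw i).2.1.1) (fun i => (hl i).2.1.1) e1
    · exact toNat_sum z w (fun i => (hw i).2.2.1.1) (fun i => (hl i).2.2.1.1) e2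
  refine htr k hk hkm S T ?_ ?_ ?_
  · intro i
    obtain ⟨⟨a1, a2⟩, ⟨b1, b2⟩, ⟨c1, c2⟩, R, r0, r1, r2, hR⟩ := hw i
    refine (win_iff_cnt G cls hcls R (S i) ?_).1 hR
    intro e
    rw [hS1 i e]
    fin_cases e
    · simp only [c]
      simp
      omega
    · simp only [c]
      simp
      omega
    · simp only [c]
      simp
      omega
  · intro i hwin
    obtain ⟨⟨a1, a2⟩, ⟨b1, b2⟩, ⟨c1, c2⟩, hn⟩ := hl i
    apply hn
    refine ⟨T i, ?_, ?_, ?_, hwin⟩
    · rw [hT1 i 0]
      simp only [d]
      simp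
      omega
    · rw [hT1 i 1]
      simp only [d]
      simp
      omega
    · rw [hT1 i 2]
      simp only [d]
      simp
      omega
  · intro p
    rw [hS2 p, hT2 p, hsum]

/-- Raising a winning point. -/
lemma W_raise (S : Sys) {x y z z' : ℤ} (h : W S x y z) (h1 : z ≤ z') (h2 : z' ≤ S.c) :
    W S x y z' :=
  ⟨h.1, h.2.1, ⟨h.2.2.1.1.trans h1, h2⟩, S.mono x y z z' h.2.2.1.1 h1 h2 h.2.2.2⟩

lemma raise2 {c z1 z2 R : ℤ} (h1 : z1 ≤ c) (h2 : z2 ≤ c) (h : z1 + z2 ≤ R) (hR : R ≤ c + c) :
    ∃ z1' z2', z1 ≤ z1' ∧ z1' ≤ c ∧ z2 ≤ z2' ∧ z2' ≤ c ∧ z1' + z2' = R := by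
  refine ⟨min c (R - z2), R - min c (R - z2), ?_, ?_, ?_, ?_, ?_⟩ <;> omega

lemma raise3 {c z1 z2 z3 R : ℤ} (h1 : z1 ≤ c) (h2 : z2 ≤ c) (h3 : z3 ≤ c)
    (h : z1 + z2 + z3 ≤ R) (hR : R ≤ c + c + c) :
    ∃ z1' z2' z3', z1 ≤ z1' ∧ z1' ≤ c ∧ z2 ≤ z2' ∧ z2' ≤ c ∧ z3 ≤ z3' ∧ z3' ≤ c ∧
      z1' + z2' + z3' = R := by
  obtain ⟨a, b, p1, p2, p3, p4, p5⟩ := raise2 (c := c) (z1 := z2) (z2 := z3)
    (R := R - min c (R - z2 - z3)) h2 h3 (by omega) (by omega)
  exact ⟨min c (R - z2 - z3), a, b, by omega, by omega, p1, p2, p3, p4, by omega⟩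

/-- A short trade contradicts 3-trade robustness. -/
lemma not_tr_of_short (G : SimpleGame N) (cls : N → Fin 3)
    (hcls : ∀ i j, cls i = cls j → Des G i j ∧ Des G j i) (h : Short (sys G cls)) :
    ¬ TradeRobust G 3 := by
  rcases h with ⟨x1, y1, z1, x2, y2, z2, u1, v1, w1, u2, v2, w2, h1, h2, h3, h4, e0, e1, e2⟩ |
    ⟨x1, y1, z1, x2, y2, z2, x3, y3, z3, u1, v1, w1, u2, v2, w2, u3, v3, w3, h1, h2, h3, h4, h5,
      h6, e0, e1, e2⟩
  · obtain ⟨a, b, p1, p2, p3, p4, p5⟩ := raise2 h1.2.2.1.2 h2.2.2.1.2 e2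
      (add_le_add h3.2.2.1.2 h4.2.2.1.2)
    refine not_tr G cls hcls 3 2 (by norm_num) (by norm_num) ![x1, x2] ![y1, y2] ![a, b]
      ![u1, u2] ![v1, v2] ![w1, w2] ?_ ?_ ?_ ?_ ?_
    · intro i
      fin_cases i
      · exact W_raise _ h1 p1 p2
      · exact W_raise _ h2 p3 p4
    · intro i
      fin_cases i
      · exact h3
      · exact h4
    · simpa [Fin.sum_univ_two] using e0
    · simpa [Fin.sum_univ_two] using e1
    · simpa [Fin.sum_univ_two] using p5
  · obtain ⟨a, b, c, p1, p2, p3, p4, p5, p6, p7⟩ := raise3 h1.2.2.1.2 h2.2.2.1.2 h3.2.2.1.2 e2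
      (add_le_add (add_le_add h4.2.2.1.2 h5.2.2.1.2) h6.2.2.1.2)
    refine not_tr G cls hcls 3 3 (by norm_num) (by norm_num) ![x1, x2, x3] ![y1, y2, y3]
      ![a, b, c] ![u1, u2, u3] ![v1, v2, v3] ![w1, w2, w3] ?_ ?_ ?_ ?_ ?_
    · intro i
      fin_cases i
      · exact W_raise _ h1 p1 p2
      · exact W_raise _ h2 p3 p4
      · exact W_raise _ h3 p5 p6
    · intro i
      fin_cases i
      · exact h4
      · exact h5
      · exact h6
    · simpa [Fin.sum_univ_three] using e0
    · simpa [Fin.sum_univ_three] using e1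
    · simpa [Fin.sum_univ_three] using p7

omit [Fintype N] [DecidableEq N] in
/-- The sum of class weights over a coalition. -/
lemma sum_cls (cls : N → Fin 3) (f : Fin 3 → ℝ) (S : Finset N) :
    ∑ p ∈ S, f (cls p) = f 0 * cnt cls S 0 + f 1 * cnt cls S 1 + f 2 * cnt cls S 2 := by
  rw [← Finset.sum_fiberwise_of_maps_to (g := cls) (t := univ) (fun _ _ => Finset.mem_univ _),
    Fin.sum_univ_three]
  have h : ∀ e : Fin 3, ∑ p ∈ S.filter (fun p => cls p = e), f (cls p) = f e * cnt cls S e := by
    intro e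
    rw [Finset.sum_congr rfl (g := fun _ => f e)]
    · rw [Finset.sum_const, nsmul_eq_mul, mul_comm]
      rfl
    · intro p hp
      simp only [Finset.mem_filter] at hp
      rw [hp.2]
  rw [h, h, h]

/-- A game with at most three types is weighted if it is 3-trade robust. -/
theorem weighted_of_tr (G : SimpleGame N) (ht : numTypes G ≤ 3) (h3 : TradeRobust G 3) :
    Weighted G := by
  classical
  obtain ⟨cls, hcls⟩ := exists_cls G ht
  have hns : ¬ Short (sys G cls) := fun h => not_tr_of_short G cls hcls h h3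
  obtain ⟨f0, f1, f2, f3, hf⟩ := separation (sys G cls) hns
  let f : Fin 3 → ℝ := ![(f1 : ℝ), (f2 : ℝ), (f3 : ℝ)]
  have hcnt : ∀ (S : Finset N) (e : Fin 3), cnt cls S e ≤ cnt cls univ e := fun S e =>
    Finset.card_le_card (Finset.filter_subset_filter _ (Finset.subset_univ S))
  -- the linear function on coalitions
  have hsep : ∀ S : Finset N, (G.win S → 0 < (f0 : ℝ) + ∑ p ∈ S, f (cls p)) ∧
      (¬ G.win S → (f0 : ℝ) + ∑ p ∈ S, f (cls p) < 0) := by
    intro S
    have hbox : (0 ≤ (cnt cls S 0 : ℤ) ∧ (cnt cls S 0 : ℤ) ≤ (sys G cls).a) ∧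
        (0 ≤ (cnt cls S 1 : ℤ) ∧ (cnt cls S 1 : ℤ) ≤ (sys G cls).b) ∧
        (0 ≤ (cnt cls S 2 : ℤ) ∧ (cnt cls S 2 : ℤ) ≤ (sys G cls).c) := by
      have h0 := hcnt S 0
      have h1 := hcnt S 1
      have h2 := hcnt S 2
      simp only [sys]
      omega
    have hval : (f0 : ℝ) + ∑ p ∈ S, f (cls p) =
        ((f0 + f1 * (cnt cls S 0 : ℤ) + f2 * (cnt cls S 1 : ℤ) + f3 * (cnt cls S 2 : ℤ) : ℚ) :
          ℝ) := by
      have c0 : f 0 = (f1 : ℝ) := rfl
      have c1 : f 1 = (f2 : ℝ) := rfl
      have c2 : f 2 = (f3 : ℝ) := rfl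
      rw [sum_cls, c0, c1, c2]
      push_cast
      ring
    rw [hval]
    constructor
    · intro hw
      have := (hf _ _ _).1 ⟨hbox.1, hbox.2.1, hbox.2.2, S, rfl, rfl, rfl, hw⟩
      exact_mod_cast this
    · intro hl
      have hL : L (sys G cls) (cnt cls S 0 : ℤ) (cnt cls S 1 : ℤ) (cnt cls S 2 : ℤ) := by
        refine ⟨hbox.1, hbox.2.1, hbox.2.2, ?_⟩
        rintro ⟨R, r0, r1, r2, hR⟩
        apply hl
        refine (win_iff_cnt G cls hcls R S ?_).1 hR
        intro e
        fin_cases e
        · exact_mod_cast r0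
        · exact_mod_cast r1
        · exact_mod_cast r2
      have := (hf _ _ _).2 hL
      exact_mod_cast this
  refine ⟨fun p => max (f (cls p)) 0, -(f0 : ℝ), fun p => le_max_right _ _, fun S => ?_⟩
  constructor
  · intro hw
    have h1 := (hsep S).1 hw
    have h2 : ∑ p ∈ S, f (cls p) ≤ ∑ p ∈ S, max (f (cls p)) 0 :=
      Finset.sum_le_sum fun p _ => le_max_left _ _
    linarith
  · intro hq
    by_contra hl
    set S' := S.filter fun p => 0 ≤ f (cls p) with hS'
    have hl' : ¬ G.win S' := fun h => hl (G.mono S' S (Finset.filter_subset _ _) h)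
    have h1 := (hsep S').2 hl'
    have h2 : ∑ p ∈ S, max (f (cls p)) 0 = ∑ p ∈ S', f (cls p) := by
      rw [hS', Finset.sum_filter]
      refine Finset.sum_congr rfl fun p _ => ?_
      by_cases h : 0 ≤ f (cls p)
      · rw [if_pos h, max_eq_left h]
      · rw [if_neg h, max_eq_right (by linarith)]
    linarith

end Pool.Agent.V11155.Arrange
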