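import Mathlib

/-!
# Short partizan games under normal and misère play

Basic definitions (games, sums, outcomes, dicotic games) and the representation of the positions of a
closed set of sums by vectors of natural numbers.
-/

set_option autoImplicit false

namespace Pool.Agent.V11155.Partizan

/-- A short partizan game: it has `m` Left options and `n` Right options, each of which is such a
game. -/
inductive Game : Type
  | mk (m n : ℕ) (L : Fin m → Game) (R : Fin n → Game) : Game

namespace Game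

/-- The set of Left options. -/
def leftOpts : Game → Set Game
  | mk _ _ L _ => Set.range L

/-- The set of Right options. -/
def rightOpts : Game → Set Game
  | mk _ _ _ R => Set.range R

/-- The game `0` without options. -/
def zero : Game := mk 0 0 Fin.elim0 Fin.elim0

/-- The game `* = {0 | 0}`. -/
def star : Game := mk 1 1 (fun _ => zero) (fun _ => zero)

/-- The game in which the roles of Left and Right are exchanged. -/
def neg : Game → Game
  | mk m n L R => mk n m (fun j => neg (R j)) (fun i => neg (L i))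

/-- Auxiliary definition for the sum `mk m n L R + H`: here `ihL i` is the function `K ↦ L i + K` and
`ihR j` is the function `K ↦ R j + K`. -/
def addAux (m n : ℕ) (ihL : Fin m → Game → Game) (ihR : Fin n → Game → Game) : Game → Game
  | mk m' n' L' R' => mk (m + m') (n + n')
      (Fin.append (fun i => ihL i (mk m' n' L' R')) (fun i => addAux m n ihL ihR (L' i)))
      (Fin.append (fun j => ihR j (mk m' n' L' R')) (fun j => addAux m n ihL ihR (R' j)))

/-- The disjunctive sum of two games: the Left options of `G + H` are the games `G' + H` and `G + H'`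
with `G'` a Left option of `G` and `H'` a Left option of `H`, and similarly for Right (see
`leftOpts_add` and `rightOpts_add`). -/
def add : Game → Game → Game
  | mk m n L R => addAux m n (fun i => add (L i)) (fun j => add (R j))

/-- `(first mis G).1` means that Left, moving first, wins `G`, and `(first mis G).2` means that Right,
moving first, wins `G`; play is misère (a player unable to move wins) if `mis` holds and normal (a player
unable to move loses) otherwise. -/
def first (mis : Prop) : Game → Prop × Prop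
  | mk m n L R => ((m = 0 ∧ mis) ∨ ∃ i, ¬ (first mis (L i)).2, (n = 0 ∧ mis) ∨ ∃ j, ¬ (first mis (R j)).1)

/-- A game is dicotic if at each of its subpositions either both players have an option or neither
has. -/
def Dicotic : Game → Prop
  | mk m n L R => (m = 0 ↔ n = 0) ∧ (∀ i, Dicotic (L i)) ∧ ∀ j, Dicotic (R j)

end Game

open Game

/-- The four outcome classes. -/
inductive Outcome : Type
  | L | R | N | P

open Classical in
/-- The outcome class of a game, under misère play if `mis` holds and under normal play otherwise. -/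
noncomputable def outcome (mis : Prop) (G : Game) : Outcome :=
  if (first mis G).1 then (if (first mis G).2 then Outcome.N else Outcome.L)
  else (if (first mis G).2 then Outcome.R else Outcome.P)

/-- The normal-play outcome. -/
noncomputable def oPlus (G : Game) : Outcome := outcome False G

/-- The misère-play outcome. -/
noncomputable def oMinus (G : Game) : Outcome := outcome True G

/-- A set of games is closed if it is closed under disjunctive sums and under taking options. -/
structure IsClosedSet (A : Set Game) : Prop where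
  add_mem : ∀ G ∈ A, ∀ H ∈ A, add G H ∈ A
  left_mem : ∀ G ∈ A, ∀ G' ∈ leftOpts G, G' ∈ A
  right_mem : ∀ G ∈ A, ∀ G' ∈ rightOpts G, G' ∈ A

/-! ### Basic facts -/

theorem outcome_eq_iff (p q : Prop) (G H : Game) :
    outcome p G = outcome q H ↔
      (((first p G).1 ↔ (first q H).1) ∧ ((first p G).2 ↔ (first q H).2)) := by
  classical
  unfold outcome
  by_cases h1 : (first p G).1 <;> by_cases h2 : (first p G).2 <;> by_cases h3 : (first q H).1 <;>
    by_cases h4 : (first q H).2 <;> simp [h1, h2, h3, h4]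

theorem first_left (mis : Prop) (G : Game) :
    (first mis G).1 ↔ ((leftOpts G = ∅ ∧ mis) ∨ ∃ K ∈ leftOpts G, ¬ (first mis K).2) := by
  obtain ⟨m, n, L, R⟩ := G
  simp only [first, leftOpts]
  constructor
  · rintro (⟨h, hm⟩ | ⟨i, hi⟩)
    · subst h
      exact Or.inl ⟨Set.range_eq_empty L, hm⟩
    · exact Or.inr ⟨L i, ⟨i, rfl⟩, hi⟩
  · rintro (⟨h, hm⟩ | ⟨_, ⟨i, rfl⟩, hi⟩)
    · left
      rw [Set.range_eq_empty_iff] at h
      refine ⟨?_, hm⟩
      by_contra hn
      exact h.elim ⟨0, Nat.pos_of_ne_zero hn⟩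
    · exact Or.inr ⟨i, hi⟩

theorem first_right (mis : Prop) (G : Game) :
    (first mis G).2 ↔ ((rightOpts G = ∅ ∧ mis) ∨ ∃ K ∈ rightOpts G, ¬ (first mis K).1) := by
  obtain ⟨m, n, L, R⟩ := G
  simp only [first, rightOpts]
  constructor
  · rintro (⟨h, hm⟩ | ⟨i, hi⟩)
    · subst h
      exact Or.inl ⟨Set.range_eq_empty R, hm⟩
    · exact Or.inr ⟨R i, ⟨i, rfl⟩, hi⟩
  · rintro (⟨h, hm⟩ | ⟨_, ⟨i, rfl⟩, hi⟩)
    · left
      rw [Set.range_eq_empty_iff] at h
      refine ⟨?_, hm⟩
      by_contra hn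
      exact h.elim ⟨0, Nat.pos_of_ne_zero hn⟩
    · exact Or.inr ⟨i, hi⟩

theorem leftOpts_addAux (m n : ℕ) (ihL : Fin m → Game → Game) (ihR : Fin n → Game → Game) (H : Game) :
    leftOpts (addAux m n ihL ihR H) =
      Set.range (fun i => ihL i H) ∪ (fun H' => addAux m n ihL ihR H') '' leftOpts H := by
  obtain ⟨m', n', L', R'⟩ := H
  rw [addAux, leftOpts, leftOpts]
  ext K
  simp only [Set.mem_range, Set.mem_union, Set.mem_image, exists_exists_eq_and]
  constructor
  · rintro ⟨i, rfl⟩
    refine Fin.addCases (fun i => ?_) (fun j => ?_) i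
    · left; exact ⟨i, by rw [Fin.append_left]⟩
    · right; exact ⟨j, by rw [Fin.append_right]⟩
  · rintro (⟨i, rfl⟩ | ⟨j, rfl⟩)
    · exact ⟨Fin.castAdd m' i, by rw [Fin.append_left]⟩
    · exact ⟨Fin.natAdd m j, by rw [Fin.append_right]⟩

theorem rightOpts_addAux (m n : ℕ) (ihL : Fin m → Game → Game) (ihR : Fin n → Game → Game)
    (H : Game) :
    rightOpts (addAux m n ihL ihR H) =
      Set.range (fun i => ihR i H) ∪ (fun H' => addAux m n ihL ihR H') '' rightOpts H := by
  obtain ⟨m', n', L', R'⟩ := H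
  rw [addAux, rightOpts, rightOpts]
  ext K
  simp only [Set.mem_range, Set.mem_union, Set.mem_image, exists_exists_eq_and]
  constructor
  · rintro ⟨i, rfl⟩
    refine Fin.addCases (fun i => ?_) (fun j => ?_) i
    · left; exact ⟨i, by rw [Fin.append_left]⟩
    · right; exact ⟨j, by rw [Fin.append_right]⟩
  · rintro (⟨i, rfl⟩ | ⟨j, rfl⟩)
    · exact ⟨Fin.castAdd n' i, by rw [Fin.append_left]⟩
    · exact ⟨Fin.natAdd n j, by rw [Fin.append_right]⟩

theorem leftOpts_add (G H : Game) :
    leftOpts (add G H) = (fun X => add X H) '' leftOpts G ∪ (fun X => add G X) '' leftOpts H := by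
  obtain ⟨m, n, L, R⟩ := G
  rw [add, leftOpts_addAux, leftOpts]
  congr 1
  rw [← Set.range_comp]
  rfl

theorem rightOpts_add (G H : Game) :
    rightOpts (add G H) = (fun X => add X H) '' rightOpts G ∪ (fun X => add G X) '' rightOpts H := by
  obtain ⟨m, n, L, R⟩ := G
  rw [add, rightOpts_addAux, rightOpts]
  congr 1
  rw [← Set.range_comp]
  rfl

theorem mem_leftOpts_add {G H K : Game} :
    K ∈ leftOpts (add G H) ↔
      (∃ G' ∈ leftOpts G, K = add G' H) ∨ ∃ H' ∈ leftOpts H, K = add G H' := by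
  rw [leftOpts_add]
  simp only [Set.mem_union, Set.mem_image, eq_comm (a := K)]

theorem mem_rightOpts_add {G H K : Game} :
    K ∈ rightOpts (add G H) ↔
      (∃ G' ∈ rightOpts G, K = add G' H) ∨ ∃ H' ∈ rightOpts H, K = add G H' := by
  rw [rightOpts_add]
  simp only [Set.mem_union, Set.mem_image, eq_comm (a := K)]

/-- Induction over the options. -/
theorem game_induction {C : Game → Prop}
    (h : ∀ G, (∀ G' ∈ leftOpts G, C G') → (∀ G' ∈ rightOpts G, C G') → C G) (G : Game) : C G := by
  induction G with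
  | mk m n L R ihL ihR =>
    apply h
    · rintro _ ⟨i, rfl⟩
      exact ihL i
    · rintro _ ⟨i, rfl⟩
      exact ihR i

theorem dicotic_iff (G : Game) :
    Dicotic G ↔ ((leftOpts G = ∅ ↔ rightOpts G = ∅) ∧ (∀ K ∈ leftOpts G, Dicotic K) ∧
      ∀ K ∈ rightOpts G, Dicotic K) := by
  obtain ⟨m, n, L, R⟩ := G
  have e : ∀ (k : ℕ) (f : Fin k → Game), Set.range f = ∅ ↔ k = 0 := by
    intro k f
    rw [Set.range_eq_empty_iff]
    constructor
    · intro h
      by_contra hn
      exact h.elim ⟨0, Nat.pos_of_ne_zero hn⟩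
    · rintro rfl
      infer_instance
  simp only [Dicotic, leftOpts, rightOpts, e, Set.forall_mem_range]

/-! ### Representation by positions of an abstract game -/

section Rep

variable {V : Type} (lm rm : V → V → Prop)

/-- The game `G` is the game tree of the position `v`, where `lm v w` and `rm v w` say that Left and
Right can move from `v` to `w`. -/
def Rep : Game → V → Prop
  | mk _ _ L R, v => ((∀ i, ∃ w, lm v w ∧ Rep (L i) w) ∧ (∀ w, lm v w → ∃ i, Rep (L i) w)) ∧
      ((∀ j, ∃ w, rm v w ∧ Rep (R j) w) ∧ (∀ w, rm v w → ∃ j, Rep (R j) w))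

variable {lm rm}

theorem rep_iff {G : Game} {v : V} : Rep lm rm G v ↔
    ((∀ K ∈ leftOpts G, ∃ w, lm v w ∧ Rep lm rm K w) ∧
      (∀ w, lm v w → ∃ K ∈ leftOpts G, Rep lm rm K w)) ∧
    ((∀ K ∈ rightOpts G, ∃ w, rm v w ∧ Rep lm rm K w) ∧
      (∀ w, rm v w → ∃ K ∈ rightOpts G, Rep lm rm K w)) := by
  obtain ⟨m, n, L, R⟩ := G
  simp only [Rep, leftOpts, rightOpts, Set.forall_mem_range, Set.exists_range_iff]

/-- Outcomes can be computed from the abstract game. -/
theorem Rep.first {mis : Prop} {lf rf : V → Prop}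
    (hl : ∀ v, lf v ↔ (((∀ w, ¬ lm v w) ∧ mis) ∨ ∃ w, lm v w ∧ ¬ rf w))
    (hr : ∀ v, rf v ↔ (((∀ w, ¬ rm v w) ∧ mis) ∨ ∃ w, rm v w ∧ ¬ lf w)) (G : Game) :
    ∀ v, Rep lm rm G v → (((first mis G).1 ↔ lf v) ∧ ((first mis G).2 ↔ rf v)) := by
  induction G using game_induction with
  | h G ihL ihR =>
    intro v hv
    rw [rep_iff] at hv
    obtain ⟨⟨h1, h2⟩, h3, h4⟩ := hv
    constructor
    · rw [first_left, hl]
      constructor
      · rintro (⟨he, hm⟩ | ⟨K, hK, hf⟩)
        · left
          refine ⟨fun w hw => ?_, hm⟩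
          obtain ⟨K, hK, -⟩ := h2 w hw
          rw [he] at hK
          exact hK
        · obtain ⟨w, hw, hr'⟩ := h1 K hK
          exact Or.inr ⟨w, hw, fun h => hf (((ihL K hK w hr').2).2 h)⟩
      · rintro (⟨he, hm⟩ | ⟨w, hw, hf⟩)
        · left
          refine ⟨?_, hm⟩
          rw [Set.eq_empty_iff_forall_notMem]
          intro K hK
          obtain ⟨w, hw, -⟩ := h1 K hK
          exact he w hw
        · obtain ⟨K, hK, hr'⟩ := h2 w hw
          exact Or.inr ⟨K, hK, fun h => hf (((ihL K hK w hr').2).1 h)⟩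
    · rw [first_right, hr]
      constructor
      · rintro (⟨he, hm⟩ | ⟨K, hK, hf⟩)
        · left
          refine ⟨fun w hw => ?_, hm⟩
          obtain ⟨K, hK, -⟩ := h4 w hw
          rw [he] at hK
          exact hK
        · obtain ⟨w, hw, hr'⟩ := h3 K hK
          exact Or.inr ⟨w, hw, fun h => hf (((ihR K hK w hr').1).2 h)⟩
      · rintro (⟨he, hm⟩ | ⟨w, hw, hf⟩)
        · left
          refine ⟨?_, hm⟩
          rw [Set.eq_empty_iff_forall_notMem]
          intro K hK
          obtain ⟨w, hw, -⟩ := h3 K hK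
          exact he w hw
        · obtain ⟨K, hK, hr'⟩ := h4 w hw
          exact Or.inr ⟨K, hK, fun h => hf (((ihR K hK w hr').1).1 h)⟩

theorem Rep.dicotic (h : ∀ v, (∀ w, ¬ lm v w) ↔ (∀ w, ¬ rm v w)) (G : Game) :
    ∀ v, Rep lm rm G v → Dicotic G := by
  induction G using game_induction with
  | h G ihL ihR =>
    intro v hv
    rw [rep_iff] at hv
    obtain ⟨⟨h1, h2⟩, h3, h4⟩ := hv
    rw [dicotic_iff]
    refine ⟨?_, ?_, ?_⟩
    · have e1 : leftOpts G = ∅ ↔ ∀ w, ¬ lm v w := by
        constructor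
        · intro he w hw
          obtain ⟨K, hK, -⟩ := h2 w hw
          rw [he] at hK; exact hK
        · intro he
          rw [Set.eq_empty_iff_forall_notMem]
          intro K hK
          obtain ⟨w, hw, -⟩ := h1 K hK
          exact he w hw
      have e2 : rightOpts G = ∅ ↔ ∀ w, ¬ rm v w := by
        constructor
        · intro he w hw
          obtain ⟨K, hK, -⟩ := h4 w hw
          rw [he] at hK; exact hK
        · intro he
          rw [Set.eq_empty_iff_forall_notMem]
          intro K hK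
          obtain ⟨w, hw, -⟩ := h3 K hK
          exact he w hw
      rw [e1, e2]
      exact h v
    · intro K hK
      obtain ⟨w, -, hw⟩ := h1 K hK
      exact ihL K hK w hw
    · intro K hK
      obtain ⟨w, -, hw⟩ := h3 K hK
      exact ihR K hK w hw

/-- Sums are represented by sums. -/
theorem Rep.add [Add V]
    (hl : ∀ v w x, lm (v + w) x ↔ (∃ v', lm v v' ∧ x = v' + w) ∨ ∃ w', lm w w' ∧ x = v + w')
    (hr : ∀ v w x, rm (v + w) x ↔ (∃ v', rm v v' ∧ x = v' + w) ∨ ∃ w', rm w w' ∧ x = v + w')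
    (G : Game) : ∀ v, Rep lm rm G v → ∀ (H : Game) (w : V), Rep lm rm H w →
      Rep lm rm (Game.add G H) (v + w) := by
  induction G using game_induction with
  | h G ihL ihR =>
    intro v hv H
    induction H using game_induction with
    | h H ihL' ihR' =>
      intro w hw
      have hv' := hv
      have hw' := hw
      rw [rep_iff] at hv' hw'
      obtain ⟨⟨h1, h2⟩, h3, h4⟩ := hv'
      obtain ⟨⟨k1, k2⟩, k3, k4⟩ := hw'
      rw [rep_iff]
      refine ⟨⟨?_, ?_⟩, ?_, ?_⟩
      · intro K hK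
        rcases mem_leftOpts_add.1 hK with ⟨G', hG', rfl⟩ | ⟨H', hH', rfl⟩
        · obtain ⟨v', hv1, hv2⟩ := h1 G' hG'
          exact ⟨v' + w, (hl v w _).2 (Or.inl ⟨v', hv1, rfl⟩), ihL G' hG' v' hv2 H w hw⟩
        · obtain ⟨w', hw1, hw2⟩ := k1 H' hH'
          exact ⟨v + w', (hl v w _).2 (Or.inr ⟨w', hw1, rfl⟩), ihL' H' hH' w' hw2⟩
      · intro x hx
        rcases (hl v w x).1 hx with ⟨v', hv1, rfl⟩ | ⟨w', hw1, rfl⟩
        · obtain ⟨G', hG', hv2⟩ := h2 v' hv1
          exact ⟨Game.add G' H, mem_leftOpts_add.2 (Or.inl ⟨G', hG', rfl⟩), ihL G' hG' v' hv2 H w hw⟩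
        · obtain ⟨H', hH', hw2⟩ := k2 w' hw1
          exact ⟨Game.add G H', mem_leftOpts_add.2 (Or.inr ⟨H', hH', rfl⟩), ihL' H' hH' w' hw2⟩
      · intro K hK
        rcases mem_rightOpts_add.1 hK with ⟨G', hG', rfl⟩ | ⟨H', hH', rfl⟩
        · obtain ⟨v', hv1, hv2⟩ := h3 G' hG'
          exact ⟨v' + w, (hr v w _).2 (Or.inl ⟨v', hv1, rfl⟩), ihR G' hG' v' hv2 H w hw⟩
        · obtain ⟨w', hw1, hw2⟩ := k3 H' hH'
          exact ⟨v + w', (hr v w _).2 (Or.inr ⟨w', hw1, rfl⟩), ihR' H' hH' w' hw2⟩
      · intro x hx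
        rcases (hr v w x).1 hx with ⟨v', hv1, rfl⟩ | ⟨w', hw1, rfl⟩
        · obtain ⟨G', hG', hv2⟩ := h4 v' hv1
          exact ⟨Game.add G' H, mem_rightOpts_add.2 (Or.inl ⟨G', hG', rfl⟩), ihR G' hG' v' hv2 H w hw⟩
        · obtain ⟨H', hH', hw2⟩ := k4 w' hw1
          exact ⟨Game.add G H', mem_rightOpts_add.2 (Or.inr ⟨H', hH', rfl⟩), ihR' H' hH' w' hw2⟩

/-- Exchanging the roles of Left and Right. -/
theorem Rep.neg (f : V → V) (hl : ∀ v y, lm (f v) y ↔ ∃ w, rm v w ∧ y = f w)
    (hr : ∀ v y, rm (f v) y ↔ ∃ w, lm v w ∧ y = f w) (G : Game) :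
    ∀ v, Rep lm rm G v → Rep lm rm (Game.neg G) (f v) := by
  induction G with
  | mk m n L R ihL ihR =>
    rintro v ⟨⟨h1, h2⟩, h3, h4⟩
    refine ⟨⟨?_, ?_⟩, ?_, ?_⟩
    · intro j
      obtain ⟨w, hw, hr'⟩ := h3 j
      exact ⟨f w, (hl v _).2 ⟨w, hw, rfl⟩, ihR j w hr'⟩
    · intro y hy
      obtain ⟨w, hw, rfl⟩ := (hl v y).1 hy
      obtain ⟨j, hj⟩ := h4 w hw
      exact ⟨j, ihR j w hj⟩
    · intro i
      obtain ⟨w, hw, hr'⟩ := h1 i
      exact ⟨f w, (hr v _).2 ⟨w, hw, rfl⟩, ihL i w hr'⟩
    · intro y hy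
      obtain ⟨w, hw, rfl⟩ := (hr v y).1 hy
      obtain ⟨i, hi⟩ := h2 w hw
      exact ⟨i, ihL i w hi⟩

end Rep

theorem leftOpts_neg (G : Game) : leftOpts (neg G) = neg '' rightOpts G := by
  obtain ⟨m, n, L, R⟩ := G
  rw [neg, leftOpts, rightOpts, ← Set.range_comp]
  rfl

theorem rightOpts_neg (G : Game) : rightOpts (neg G) = neg '' leftOpts G := by
  obtain ⟨m, n, L, R⟩ := G
  rw [neg, leftOpts, rightOpts, ← Set.range_comp]
  rfl

theorem dicotic_neg (G : Game) (h : Dicotic G) : Dicotic (neg G) := by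
  induction G with
  | mk m n L R ihL ihR =>
    obtain ⟨h1, h2, h3⟩ := h
    exact ⟨h1.symm, fun j => ihR j (h3 j), fun i => ihL i (h2 i)⟩

/-! ### Vectors of multiplicities -/

section Vec

variable {k : ℕ}

/-- A move in a sum of generators: a copy of the generator `i` is replaced by one of the sums in
`o i`. -/
def Move (o : Fin k → List (Fin k → ℕ)) (v x : Fin k → ℕ) : Prop :=
  ∃ i, 1 ≤ v i ∧ ∃ c ∈ o i, x + Pi.single i 1 = v + c

theorem move_add (o : Fin k → List (Fin k → ℕ)) (v w x : Fin k → ℕ) :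
    Move o (v + w) x ↔ (∃ v', Move o v v' ∧ x = v' + w) ∨ ∃ w', Move o w w' ∧ x = v + w' := by
  constructor
  · rintro ⟨i, hi, c, hc, h⟩
    have aux : ∀ u : Fin k → ℕ, 1 ≤ u i → ∃ u' : Fin k → ℕ, u' + Pi.single i 1 = u + c := by
      intro u hu
      refine ⟨fun j => u j + c j - (Pi.single i 1 : Fin k → ℕ) j, ?_⟩
      funext j
      simp only [Pi.add_apply]
      by_cases hj : j = i
      · subst hj
        simp only [Pi.single_eq_same]
        omega
      · simp only [Pi.single_eq_of_ne hj]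
        omega
    rw [Pi.add_apply] at hi
    by_cases h1 : 1 ≤ v i
    · obtain ⟨v', hv'⟩ := aux v h1
      refine Or.inl ⟨v', ⟨i, h1, c, hc, hv'⟩, ?_⟩
      have : x + Pi.single i 1 = (v' + w) + Pi.single i 1 := by
        rw [h, add_right_comm v' w, hv', add_right_comm]
      exact add_right_cancel this
    · have h2 : 1 ≤ w i := by omega
      obtain ⟨w', hw'⟩ := aux w h2
      refine Or.inr ⟨w', ⟨i, h2, c, hc, hw'⟩, ?_⟩
      have : x + Pi.single i 1 = (v + w') + Pi.single i 1 := by
        rw [h, add_assoc v w', hw', add_assoc]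
      exact add_right_cancel this
  · rintro (⟨v', ⟨i, hi, c, hc, h⟩, rfl⟩ | ⟨w', ⟨i, hi, c, hc, h⟩, rfl⟩)
    · refine ⟨i, by rw [Pi.add_apply]; omega, c, hc, ?_⟩
      rw [add_right_comm, h, add_right_comm]
    · refine ⟨i, by rw [Pi.add_apply]; omega, c, hc, ?_⟩
      rw [add_assoc, h, add_assoc]

end Vec

end Pool.Agent.V11155.Partizan
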