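import Pool.Agent.V11155.PetrieStar

/-!
# Petrie schemes of regular star-polytopes: exact computations in `ℤ[φ]`
-/

namespace Pool.Agent.V11155.Petrie

open Real

/-- The real number `a + b φ`. -/
noncomputable def val (a : ℤ × ℤ) : ℝ := a.1 + a.2 * goldenRatio

/-- Multiplication in `ℤ[φ]`. -/
def mulφ (a b : ℤ × ℤ) : ℤ × ℤ :=
  (a.1 * b.1 + a.2 * b.2, a.1 * b.2 + a.2 * b.1 + a.2 * b.2)

theorem val_mul (a b : ℤ × ℤ) : val (mulφ a b) = val a * val b := by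
  have h := Real.goldenRatio_sq
  simp only [val, mulφ]
  push_cast
  linear_combination (-(a.2 : ℝ) * b.2) * h

theorem val_add (a b : ℤ × ℤ) : val (a + b) = val a + val b := by
  simp only [val, Prod.fst_add, Prod.snd_add]
  push_cast
  ring

theorem val_zero : val 0 = 0 := by simp [val]

theorem val_one : val (1, 0) = 1 := by simp [val]

theorem val_neg_one : val (-1, 0) = -1 := by simp [val]

theorem val_inj {a b : ℤ × ℤ} (h : val a = val b) : a = b := by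
  simp only [val] at h
  have hirr := Real.goldenRatio_irrational
  by_cases h2 : a.2 = b.2
  · rw [h2] at h
    have h3 : (a.1 : ℝ) = b.1 := by linarith
    exact Prod.ext (by exact_mod_cast h3) h2
  · exfalso
    apply hirr
    refine ⟨((b.1 - a.1 : ℤ) : ℚ) / ((a.2 - b.2 : ℤ) : ℚ), ?_⟩
    have hne : ((a.2 : ℝ) - b.2) ≠ 0 := by
      intro h3
      apply h2
      have : (a.2 : ℝ) = b.2 := by linarith
      exact_mod_cast this
    push_cast
    rw [div_eq_iff hne]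
    linarith

theorem val_three : val (1, 0) = 2 * Real.cos (Real.pi / 3) := by
  rw [Real.cos_pi_div_three, val_one]; norm_num

theorem val_five : val (0, 1) = 2 * Real.cos (Real.pi / 5) := by
  rw [Real.cos_pi_div_five]
  simp only [val, Real.goldenRatio]
  push_cast
  ring

theorem val_five_half : val (-1, 1) = 2 * Real.cos (Real.pi / (5 / 2)) := by
  have h1 : Real.pi / (5 / 2) = 2 * (Real.pi / 5) := by ring
  have h5 : (√5 : ℝ) ^ 2 = 5 := Real.sq_sqrt (by norm_num)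
  rw [h1, Real.cos_two_mul, Real.cos_pi_div_five]
  simp only [val, Real.goldenRatio]
  push_cast
  linear_combination (-1 / 4 : ℝ) * h5

/-- A sum over `Fin n`, by recursion. -/
def sumFin : (n : ℕ) → (Fin n → ℤ × ℤ) → ℤ × ℤ
  | 0, _ => 0
  | n + 1, f => f 0 + sumFin n (fun i => f i.succ)

theorem val_sumFin (n : ℕ) (f : Fin n → ℤ × ℤ) : val (sumFin n f) = ∑ i, val (f i) := by
  induction n with
  | zero => simp [sumFin, val_zero]
  | succ n ih => rw [sumFin, val_add, ih, Fin.sum_univ_succ]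

/-- Matrix product. -/
def mulM {n : ℕ} (A B : Fin n → Fin n → ℤ × ℤ) : Fin n → Fin n → ℤ × ℤ :=
  fun i k => sumFin n (fun j => mulφ (A i j) (B j k))

/-- The identity matrix. -/
def idM {n : ℕ} : Fin n → Fin n → ℤ × ℤ := fun i j => if i = j then (1, 0) else 0

/-- `g` acts as the matrix `A`. -/
def Acts {n : ℕ} (g : Equiv.Perm (Fin n → ℝ)) (A : Fin n → Fin n → ℤ × ℤ) : Prop :=
  ∀ x i, g x i = ∑ j, val (A i j) * x j

theorem acts_mul {n : ℕ} {g h : Equiv.Perm (Fin n → ℝ)} {A B C : Fin n → Fin n → ℤ × ℤ}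
    (hg : Acts g A) (hh : Acts h B) (hC : ∀ i k, mulM A B i k = C i k) : Acts (g * h) C := by
  intro x i
  rw [Equiv.Perm.mul_apply, hg]
  have h1 : ∀ k, val (C i k) = ∑ j, val (A i j) * val (B j k) := by
    intro k
    rw [← hC, mulM, val_sumFin]
    exact Finset.sum_congr rfl (fun j _ => val_mul _ _)
  have h2 : ∀ j, h x j = ∑ k, val (B j k) * x k := fun j => hh x j
  simp only [h1, h2, Finset.mul_sum, Finset.sum_mul]
  rw [Finset.sum_comm]
  exact Finset.sum_congr rfl (fun j _ => Finset.sum_congr rfl (fun k _ => by ring))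

theorem acts_one (n : ℕ) : Acts (1 : Equiv.Perm (Fin n → ℝ)) idM := by
  intro x i
  have h : ∀ j : Fin n, val (idM i j) * x j = if i = j then x j else 0 := by
    intro j
    simp only [idM]
    split_ifs
    · rw [val_one, one_mul]
    · rw [val_zero, zero_mul]
  rw [Finset.sum_congr rfl (fun j _ => h j)]
  simp

theorem acts_pow {n : ℕ} {g : Equiv.Perm (Fin n → ℝ)} {a b c : ℕ}
    {A B C : Fin n → Fin n → ℤ × ℤ} (hc : c = a + b)
    (hg : Acts (g ^ a) A) (hh : Acts (g ^ b) B) (hC : ∀ i k, mulM A B i k = C i k) :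
    Acts (g ^ c) C := by
  rw [hc, pow_add]
  exact acts_mul hg hh hC

/-- The matrix of the `i`-th reflection. -/
def reflM {n : ℕ} (m : ℕ → ℤ × ℤ) (i : Fin n) : Fin n → Fin n → ℤ × ℤ := fun k l =>
  if k = i then
    (if (i : ℕ) = l then (-1, 0) else if (l : ℕ) = i + 1 then m i
      else if (i : ℕ) = l + 1 then m l else 0)
  else if k = l then (1, 0) else 0

theorem acts_refl {n : ℕ} {q : ℕ → ℝ} {m : ℕ → ℤ × ℤ}
    (hm : ∀ i, i + 1 < n → val (m i) = 2 * Real.cos (Real.pi / q i)) (i : Fin n) :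
    Acts (refl n q i) (reflM m i) := by
  intro x k
  rw [refl_apply, reflFun]
  by_cases hk : k = i
  · subst hk
    rw [Function.update_self]
    have h : ∀ l : Fin n, val (reflM m k k l) * x l =
        (if k = l then x l else 0) - 2 * (gram q k l * x l) := by
      intro l
      simp only [reflM, gram, if_true]
      by_cases h1 : (k : ℕ) = l
      · have h1' : k = l := Fin.ext h1
        rw [if_pos h1, if_pos h1', if_pos h1, val_neg_one]; ring
      · have h1' : ¬ k = l := fun h => h1 (by rw [h])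
        rw [if_neg h1, if_neg h1', if_neg h1]
        by_cases h2 : (l : ℕ) = k + 1
        · rw [if_pos h2, if_pos h2, hm k (by omega)]; ring
        · rw [if_neg h2, if_neg h2]
          by_cases h3 : (k : ℕ) = l + 1
          · rw [if_pos h3, if_pos h3, hm l (by omega)]; ring
          · rw [if_neg h3, if_neg h3, val_zero]; ring
    rw [Finset.sum_congr rfl (fun l _ => h l), Finset.sum_sub_distrib, ← Finset.mul_sum]
    simp
  · rw [Function.update_of_ne hk]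
    have h : ∀ l : Fin n, val (reflM m i k l) * x l = if k = l then x l else 0 := by
      intro l
      simp only [reflM, if_neg hk]
      split_ifs
      · rw [val_one, one_mul]
      · rw [val_zero, zero_mul]
    rw [Finset.sum_congr rfl (fun l _ => h l)]
    simp

theorem acts_step {n : ℕ} {q : ℕ → ℝ} {m : ℕ → ℤ × ℤ}
    (hm : ∀ i, i + 1 < n → val (m i) = 2 * Real.cos (Real.pi / q i)) {k : ℕ} (hk : k < n)
    {A C : Fin n → Fin n → ℤ × ℤ} (hA : Acts (cox n q k) A)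
    (hC : ∀ i l, mulM A (reflM m ⟨k, hk⟩) i l = C i l) : Acts (cox n q (k + 1)) C := by
  rw [cox, dif_pos hk]
  exact acts_mul hA (acts_refl hm ⟨k, hk⟩) hC

theorem acts_ident {n : ℕ} {g : Equiv.Perm (Fin n → ℝ)} {A : Fin n → Fin n → ℤ × ℤ}
    (hA : ∀ i k, A i k = idM i k) (hg : Acts g A) : g = 1 := by
  ext x i
  rw [hg x i, acts_one n x i]
  exact Finset.sum_congr rfl (fun j _ => by rw [hA])

theorem allAcoptic_cert {n : ℕ} {q : ℕ → ℝ} {h : ℕ} (hn : 0 < n) (hh : 0 < h)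
    (hone : cox n q n ^ h = 1) {L : List ℕ}
    (hL : ∀ d ∈ List.range h, d ∣ h → ∃ l ∈ L, d ∣ l)
    (hcert : ∀ l ∈ L, ∃ A : Fin n → Fin n → ℤ × ℤ, Acts (cox n q n ^ l) A ∧
      ∀ i, ∃ j, A i j ≠ idM i j) : AllAcoptic (cosetPoly n q) := by
  refine allAcoptic_coset n q hn h hh hone ?_
  intro d hd hdh i hmem
  obtain ⟨l, hl, c, rfl⟩ := hL d (List.mem_range.2 hdh) hd
  obtain ⟨A, hA, hne⟩ := hcert _ hl
  obtain ⟨j, hj⟩ := hne i
  apply hj
  have h1 : cox n q n ^ (d * c) ∈ grp n q {j | j ≠ i} := by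
    rw [pow_mul]
    exact pow_mem hmem c
  have h2 := fix_coord n q h1 (Pi.single j 1)
  rw [hA] at h2
  have h3 : ∑ k, val (A i k) * (Pi.single j 1 : Fin n → ℝ) k = val (A i j) := by
    rw [Finset.sum_eq_single j]
    · simp
    · intro b _ hb
      simp [hb]
    · intro hb
      exact absurd (Finset.mem_univ _) hb
  rw [h3] at h2
  apply val_inj
  rw [h2]
  simp only [idM]
  by_cases hij : i = j
  · subst hij
    simp [val_one]
  · have : ¬ i = j := hij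
    simp [hij, val_zero]

theorem star_0 : AllAcoptic (cosetPoly 3 (fun i => ([5/2, 5] : List ℝ).getD i 2)) := by
  have hm : ∀ i, i + 1 < 3 → val (([(-1, 1), (0, 1)] : List (ℤ × ℤ)).getD i 0) =
      2 * Real.cos (Real.pi / ([5/2, 5] : List ℝ).getD i 2) := by
    intro i hi
    have hi' : i < 2 := by omega
    interval_cases i
    · exact val_five_half
    · exact val_five
  have p0 := acts_one 3
  have p1 := acts_step (q := fun i => ([5/2, 5] : List ℝ).getD i 2)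
    (m := fun i => ([(-1, 1), (0, 1)] : List (ℤ × ℤ)).getD i 0) hm (k := 0) (by omega) p0
    (C := ![![(-1, 0), (-1, 1), (0, 0)], ![(0, 0), (1, 0), (0, 0)], ![(0, 0), (0, 0), (1, 0)]]) (by decide)
  have p2 := acts_step (q := fun i => ([5/2, 5] : List ℝ).getD i 2)
    (m := fun i => ([(-1, 1), (0, 1)] : List (ℤ × ℤ)).getD i 0) hm (k := 1) (by omega) p1
    (C := ![![(1, -1), (1, -1), (1, 0)], ![(-1, 1), (-1, 0), (0, 1)], ![(0, 0), (0, 0), (1, 0)]]) (by decide)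
  have p3 := acts_step (q := fun i => ([5/2, 5] : List ℝ).getD i 2)
    (m := fun i => ([(-1, 1), (0, 1)] : List (ℤ × ℤ)).getD i 0) hm (k := 2) (by omega) p2
    (C := ![![(1, -1), (1, 0), (-1, 0)], ![(-1, 1), (0, 1), (0, -1)], ![(0, 0), (0, 1), (-1, 0)]]) (by decide)
  have a1 := (pow_one (cox 3 (fun i => ([5/2, 5] : List ℝ).getD i 2) 3)).symm ▸ p3
  have a2 := acts_pow (c := 2) (by omega) a1 a1
    (C := ![![(1, 0), (1, -1), (0, 0)], ![(-1, 1), (-1, 1), (0, -1)], ![(1, 0), (1, 0), (0, -1)]]) (by decide)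
  have a3 := acts_pow (c := 3) (by omega) a2 a1
    (C := ![![(-1, 0), (0, 0), (0, 0)], ![(0, 0), (-1, 0), (0, 0)], ![(0, 0), (0, 0), (-1, 0)]]) (by decide)
  have a6 := acts_pow (c := 6) (by omega) a3 a3
    (C := ![![(1, 0), (0, 0), (0, 0)], ![(0, 0), (1, 0), (0, 0)], ![(0, 0), (0, 0), (1, 0)]]) (by decide)
  refine allAcoptic_cert (h := 6) (by omega) (by omega) (acts_ident (by decide) a6)
    (L := [2, 3]) (by decide) ?_
  intro l hl
  simp only [List.mem_cons, List.not_mem_nil, or_false] at hl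
  rcases hl with rfl | rfl
  · exact ⟨_, a2, by decide⟩
  · exact ⟨_, a3, by decide⟩

theorem star_1 : AllAcoptic (cosetPoly 3 (fun i => ([5, 5/2] : List ℝ).getD i 2)) := by
  have hm : ∀ i, i + 1 < 3 → val (([(0, 1), (-1, 1)] : List (ℤ × ℤ)).getD i 0) =
      2 * Real.cos (Real.pi / ([5, 5/2] : List ℝ).getD i 2) := by
    intro i hi
    have hi' : i < 2 := by omega
    interval_cases i
    · exact val_five
    · exact val_five_half
  have p0 := acts_one 3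
  have p1 := acts_step (q := fun i => ([5, 5/2] : List ℝ).getD i 2)
    (m := fun i => ([(0, 1), (-1, 1)] : List (ℤ × ℤ)).getD i 0) hm (k := 0) (by omega) p0
    (C := ![![(-1, 0), (0, 1), (0, 0)], ![(0, 0), (1, 0), (0, 0)], ![(0, 0), (0, 0), (1, 0)]]) (by decide)
  have p2 := acts_step (q := fun i => ([5, 5/2] : List ℝ).getD i 2)
    (m := fun i => ([(0, 1), (-1, 1)] : List (ℤ × ℤ)).getD i 0) hm (k := 1) (by omega) p1
    (C := ![![(0, 1), (0, -1), (1, 0)], ![(0, 1), (-1, 0), (-1, 1)], ![(0, 0), (0, 0), (1, 0)]]) (by decide)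
  have p3 := acts_step (q := fun i => ([5, 5/2] : List ℝ).getD i 2)
    (m := fun i => ([(0, 1), (-1, 1)] : List (ℤ × ℤ)).getD i 0) hm (k := 2) (by omega) p2
    (C := ![![(0, 1), (-1, 0), (-1, 0)], ![(0, 1), (1, -1), (1, -1)], ![(0, 0), (-1, 1), (-1, 0)]]) (by decide)
  have a1 := (pow_one (cox 3 (fun i => ([5, 5/2] : List ℝ).getD i 2) 3)).symm ▸ p3
  have a2 := acts_pow (c := 2) (by omega) a1 a1
    (C := ![![(1, 0), (0, -1), (0, 0)], ![(0, 1), (0, -1), (1, -1)], ![(1, 0), (-1, 0), (-1, 1)]]) (by decide)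
  have a3 := acts_pow (c := 3) (by omega) a2 a1
    (C := ![![(-1, 0), (0, 0), (0, 0)], ![(0, 0), (-1, 0), (0, 0)], ![(0, 0), (0, 0), (-1, 0)]]) (by decide)
  have a6 := acts_pow (c := 6) (by omega) a3 a3
    (C := ![![(1, 0), (0, 0), (0, 0)], ![(0, 0), (1, 0), (0, 0)], ![(0, 0), (0, 0), (1, 0)]]) (by decide)
  refine allAcoptic_cert (h := 6) (by omega) (by omega) (acts_ident (by decide) a6)
    (L := [2, 3]) (by decide) ?_
  intro l hl
  simp only [List.mem_cons, List.not_mem_nil, or_false] at hl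
  rcases hl with rfl | rfl
  · exact ⟨_, a2, by decide⟩
  · exact ⟨_, a3, by decide⟩

theorem star_2 : AllAcoptic (cosetPoly 3 (fun i => ([5/2, 3] : List ℝ).getD i 2)) := by
  have hm : ∀ i, i + 1 < 3 → val (([(-1, 1), (1, 0)] : List (ℤ × ℤ)).getD i 0) =
      2 * Real.cos (Real.pi / ([5/2, 3] : List ℝ).getD i 2) := by
    intro i hi
    have hi' : i < 2 := by omega
    interval_cases i
    · exact val_five_half
    · exact val_three
  have p0 := acts_one 3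
  have p1 := acts_step (q := fun i => ([5/2, 3] : List ℝ).getD i 2)
    (m := fun i => ([(-1, 1), (1, 0)] : List (ℤ × ℤ)).getD i 0) hm (k := 0) (by omega) p0
    (C := ![![(-1, 0), (-1, 1), (0, 0)], ![(0, 0), (1, 0), (0, 0)], ![(0, 0), (0, 0), (1, 0)]]) (by decide)
  have p2 := acts_step (q := fun i => ([5/2, 3] : List ℝ).getD i 2)
    (m := fun i => ([(-1, 1), (1, 0)] : List (ℤ × ℤ)).getD i 0) hm (k := 1) (by omega) p1
    (C := ![![(1, -1), (1, -1), (-1, 1)], ![(-1, 1), (-1, 0), (1, 0)], ![(0, 0), (0, 0), (1, 0)]]) (by decide)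
  have p3 := acts_step (q := fun i => ([5/2, 3] : List ℝ).getD i 2)
    (m := fun i => ([(-1, 1), (1, 0)] : List (ℤ × ℤ)).getD i 0) hm (k := 2) (by omega) p2
    (C := ![![(1, -1), (0, 0), (1, -1)], ![(-1, 1), (0, 0), (-1, 0)], ![(0, 0), (1, 0), (-1, 0)]]) (by decide)
  have a1 := (pow_one (cox 3 (fun i => ([5/2, 3] : List ℝ).getD i 2) 3)).symm ▸ p3
  have a2 := acts_pow (c := 2) (by omega) a1 a1
    (C := ![![(2, -1), (1, -1), (1, 0)], ![(-2, 1), (-1, 0), (-1, 1)], ![(-1, 1), (-1, 0), (0, 0)]]) (by decide)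
  have a4 := acts_pow (c := 4) (by omega) a2 a2
    (C := ![![(1, 0), (1, -1), (0, 0)], ![(-1, 1), (-1, 1), (-1, 0)], ![(-1, 1), (-1, 1), (0, 0)]]) (by decide)
  have a5 := acts_pow (c := 5) (by omega) a4 a1
    (C := ![![(-1, 0), (0, 0), (0, 0)], ![(0, 0), (-1, 0), (0, 0)], ![(0, 0), (0, 0), (-1, 0)]]) (by decide)
  have a10 := acts_pow (c := 10) (by omega) a5 a5
    (C := ![![(1, 0), (0, 0), (0, 0)], ![(0, 0), (1, 0), (0, 0)], ![(0, 0), (0, 0), (1, 0)]]) (by decide)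
  refine allAcoptic_cert (h := 10) (by omega) (by omega) (acts_ident (by decide) a10)
    (L := [2, 5]) (by decide) ?_
  intro l hl
  simp only [List.mem_cons, List.not_mem_nil, or_false] at hl
  rcases hl with rfl | rfl
  · exact ⟨_, a2, by decide⟩
  · exact ⟨_, a5, by decide⟩

theorem star_3 : AllAcoptic (cosetPoly 3 (fun i => ([3, 5/2] : List ℝ).getD i 2)) := by
  have hm : ∀ i, i + 1 < 3 → val (([(1, 0), (-1, 1)] : List (ℤ × ℤ)).getD i 0) =
      2 * Real.cos (Real.pi / ([3, 5/2] : List ℝ).getD i 2) := by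
    intro i hi
    have hi' : i < 2 := by omega
    interval_cases i
    · exact val_three
    · exact val_five_half
  have p0 := acts_one 3
  have p1 := acts_step (q := fun i => ([3, 5/2] : List ℝ).getD i 2)
    (m := fun i => ([(1, 0), (-1, 1)] : List (ℤ × ℤ)).getD i 0) hm (k := 0) (by omega) p0
    (C := ![![(-1, 0), (1, 0), (0, 0)], ![(0, 0), (1, 0), (0, 0)], ![(0, 0), (0, 0), (1, 0)]]) (by decide)
  have p2 := acts_step (q := fun i => ([3, 5/2] : List ℝ).getD i 2)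
    (m := fun i => ([(1, 0), (-1, 1)] : List (ℤ × ℤ)).getD i 0) hm (k := 1) (by omega) p1
    (C := ![![(0, 0), (-1, 0), (-1, 1)], ![(1, 0), (-1, 0), (-1, 1)], ![(0, 0), (0, 0), (1, 0)]]) (by decide)
  have p3 := acts_step (q := fun i => ([3, 5/2] : List ℝ).getD i 2)
    (m := fun i => ([(1, 0), (-1, 1)] : List (ℤ × ℤ)).getD i 0) hm (k := 2) (by omega) p2
    (C := ![![(0, 0), (1, -1), (1, -1)], ![(1, 0), (1, -1), (1, -1)], ![(0, 0), (-1, 1), (-1, 0)]]) (by decide)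
  have a1 := (pow_one (cox 3 (fun i => ([3, 5/2] : List ℝ).getD i 2) 3)).symm ▸ p3
  have a2 := acts_pow (c := 2) (by omega) a1 a1
    (C := ![![(1, -1), (0, 0), (1, 0)], ![(1, -1), (1, -1), (2, -1)], ![(-1, 1), (-1, 0), (-1, 1)]]) (by decide)
  have a4 := acts_pow (c := 4) (by omega) a2 a2
    (C := ![![(1, 0), (-1, 0), (0, 0)], ![(1, 0), (0, 0), (1, -1)], ![(-1, 1), (0, 0), (-1, 1)]]) (by decide)
  have a5 := acts_pow (c := 5) (by omega) a4 a1
    (C := ![![(-1, 0), (0, 0), (0, 0)], ![(0, 0), (-1, 0), (0, 0)], ![(0, 0), (0, 0), (-1, 0)]]) (by decide)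
  have a10 := acts_pow (c := 10) (by omega) a5 a5
    (C := ![![(1, 0), (0, 0), (0, 0)], ![(0, 0), (1, 0), (0, 0)], ![(0, 0), (0, 0), (1, 0)]]) (by decide)
  refine allAcoptic_cert (h := 10) (by omega) (by omega) (acts_ident (by decide) a10)
    (L := [2, 5]) (by decide) ?_
  intro l hl
  simp only [List.mem_cons, List.not_mem_nil, or_false] at hl
  rcases hl with rfl | rfl
  · exact ⟨_, a2, by decide⟩
  · exact ⟨_, a5, by decide⟩

theorem star_4 : AllAcoptic (cosetPoly 4 (fun i => ([5/2, 5, 3] : List ℝ).getD i 2)) := by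
  have hm : ∀ i, i + 1 < 4 → val (([(-1, 1), (0, 1), (1, 0)] : List (ℤ × ℤ)).getD i 0) =
      2 * Real.cos (Real.pi / ([5/2, 5, 3] : List ℝ).getD i 2) := by
    intro i hi
    have hi' : i < 3 := by omega
    interval_cases i
    · exact val_five_half
    · exact val_five
    · exact val_three
  have p0 := acts_one 4
  have p1 := acts_step (q := fun i => ([5/2, 5, 3] : List ℝ).getD i 2)
    (m := fun i => ([(-1, 1), (0, 1), (1, 0)] : List (ℤ × ℤ)).getD i 0) hm (k := 0) (by omega) p0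
    (C := ![![(-1, 0), (-1, 1), (0, 0), (0, 0)], ![(0, 0), (1, 0), (0, 0), (0, 0)], ![(0, 0), (0, 0), (1, 0), (0, 0)], ![(0, 0), (0, 0), (0, 0), (1, 0)]]) (by decide)
  have p2 := acts_step (q := fun i => ([5/2, 5, 3] : List ℝ).getD i 2)
    (m := fun i => ([(-1, 1), (0, 1), (1, 0)] : List (ℤ × ℤ)).getD i 0) hm (k := 1) (by omega) p1
    (C := ![![(1, -1), (1, -1), (1, 0), (0, 0)], ![(-1, 1), (-1, 0), (0, 1), (0, 0)], ![(0, 0), (0, 0), (1, 0), (0, 0)], ![(0, 0), (0, 0), (0, 0), (1, 0)]]) (by decide)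
  have p3 := acts_step (q := fun i => ([5/2, 5, 3] : List ℝ).getD i 2)
    (m := fun i => ([(-1, 1), (0, 1), (1, 0)] : List (ℤ × ℤ)).getD i 0) hm (k := 2) (by omega) p2
    (C := ![![(1, -1), (1, 0), (-1, 0), (1, 0)], ![(-1, 1), (0, 1), (0, -1), (0, 1)], ![(0, 0), (0, 1), (-1, 0), (1, 0)], ![(0, 0), (0, 0), (0, 0), (1, 0)]]) (by decide)
  have p4 := acts_step (q := fun i => ([5/2, 5, 3] : List ℝ).getD i 2)
    (m := fun i => ([(-1, 1), (0, 1), (1, 0)] : List (ℤ × ℤ)).getD i 0) hm (k := 3) (by omega) p3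
    (C := ![![(1, -1), (1, 0), (0, 0), (-1, 0)], ![(-1, 1), (0, 1), (0, 0), (0, -1)], ![(0, 0), (0, 1), (0, 0), (-1, 0)], ![(0, 0), (0, 0), (1, 0), (-1, 0)]]) (by decide)
  have a1 := (pow_one (cox 4 (fun i => ([5/2, 5, 3] : List ℝ).getD i 2) 4)).symm ▸ p4
  have a2 := acts_pow (c := 2) (by omega) a1 a1
    (C := ![![(1, 0), (1, 0), (-1, 0), (0, 0)], ![(-1, 1), (0, 2), (0, -1), (0, -1)], ![(1, 0), (1, 1), (-1, 0), (0, -1)], ![(0, 0), (0, 1), (-1, 0), (0, 0)]]) (by decide)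
  have a4 := acts_pow (c := 4) (by omega) a2 a2
    (C := ![![(-1, 1), (0, 1), (0, -1), (0, 0)], ![(1, 0), (1, 2), (-1, -1), (-1, -1)], ![(0, 1), (1, 2), (-1, -1), (-1, -1)], ![(0, 0), (1, 1), (0, -1), (-1, 0)]]) (by decide)
  have a5 := acts_pow (c := 5) (by omega) a4 a1
    (C := ![![(-1, 1), (-1, 1), (0, 0), (0, -1)], ![(2, 0), (2, 1), (-1, -1), (-1, -1)], ![(0, 1), (1, 2), (-1, -1), (0, -2)], ![(0, 1), (0, 1), (-1, 0), (0, -1)]]) (by decide)
  have a10 := acts_pow (c := 10) (by omega) a5 a5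
    (C := ![![(-1, 0), (0, 0), (0, 0), (0, 0)], ![(0, 0), (-1, 0), (0, 0), (0, 0)], ![(0, 0), (0, 0), (-1, 0), (0, 0)], ![(0, 0), (0, 0), (0, 0), (-1, 0)]]) (by decide)
  have a20 := acts_pow (c := 20) (by omega) a10 a10
    (C := ![![(1, 0), (0, 0), (0, 0), (0, 0)], ![(0, 0), (1, 0), (0, 0), (0, 0)], ![(0, 0), (0, 0), (1, 0), (0, 0)], ![(0, 0), (0, 0), (0, 0), (1, 0)]]) (by decide)
  refine allAcoptic_cert (h := 20) (by omega) (by omega) (acts_ident (by decide) a20)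
    (L := [4, 10]) (by decide) ?_
  intro l hl
  simp only [List.mem_cons, List.not_mem_nil, or_false] at hl
  rcases hl with rfl | rfl
  · exact ⟨_, a4, by decide⟩
  · exact ⟨_, a10, by decide⟩

theorem star_5 : AllAcoptic (cosetPoly 4 (fun i => ([3, 5, 5/2] : List ℝ).getD i 2)) := by
  have hm : ∀ i, i + 1 < 4 → val (([(1, 0), (0, 1), (-1, 1)] : List (ℤ × ℤ)).getD i 0) =
      2 * Real.cos (Real.pi / ([3, 5, 5/2] : List ℝ).getD i 2) := by
    intro i hi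
    have hi' : i < 3 := by omega
    interval_cases i
    · exact val_three
    · exact val_five
    · exact val_five_half
  have p0 := acts_one 4
  have p1 := acts_step (q := fun i => ([3, 5, 5/2] : List ℝ).getD i 2)
    (m := fun i => ([(1, 0), (0, 1), (-1, 1)] : List (ℤ × ℤ)).getD i 0) hm (k := 0) (by omega) p0
    (C := ![![(-1, 0), (1, 0), (0, 0), (0, 0)], ![(0, 0), (1, 0), (0, 0), (0, 0)], ![(0, 0), (0, 0), (1, 0), (0, 0)], ![(0, 0), (0, 0), (0, 0), (1, 0)]]) (by decide)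
  have p2 := acts_step (q := fun i => ([3, 5, 5/2] : List ℝ).getD i 2)
    (m := fun i => ([(1, 0), (0, 1), (-1, 1)] : List (ℤ × ℤ)).getD i 0) hm (k := 1) (by omega) p1
    (C := ![![(0, 0), (-1, 0), (0, 1), (0, 0)], ![(1, 0), (-1, 0), (0, 1), (0, 0)], ![(0, 0), (0, 0), (1, 0), (0, 0)], ![(0, 0), (0, 0), (0, 0), (1, 0)]]) (by decide)
  have p3 := acts_step (q := fun i => ([3, 5, 5/2] : List ℝ).getD i 2)
    (m := fun i => ([(1, 0), (0, 1), (-1, 1)] : List (ℤ × ℤ)).getD i 0) hm (k := 2) (by omega) p2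
    (C := ![![(0, 0), (0, 1), (0, -1), (1, 0)], ![(1, 0), (0, 1), (0, -1), (1, 0)], ![(0, 0), (0, 1), (-1, 0), (-1, 1)], ![(0, 0), (0, 0), (0, 0), (1, 0)]]) (by decide)
  have p4 := acts_step (q := fun i => ([3, 5, 5/2] : List ℝ).getD i 2)
    (m := fun i => ([(1, 0), (0, 1), (-1, 1)] : List (ℤ × ℤ)).getD i 0) hm (k := 3) (by omega) p3
    (C := ![![(0, 0), (0, 1), (-1, 0), (-1, 0)], ![(1, 0), (0, 1), (-1, 0), (-1, 0)], ![(0, 0), (0, 1), (1, -1), (1, -1)], ![(0, 0), (0, 0), (-1, 1), (-1, 0)]]) (by decide)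
  have a1 := (pow_one (cox 4 (fun i => ([3, 5, 5/2] : List ℝ).getD i 2) 4)).symm ▸ p4
  have a2 := acts_pow (c := 2) (by omega) a1 a1
    (C := ![![(0, 1), (1, 0), (0, -1), (0, 0)], ![(0, 1), (1, 1), (-1, -1), (-1, 0)], ![(0, 1), (0, 1), (0, -1), (1, -1)], ![(0, 0), (1, 0), (-1, 0), (-1, 1)]]) (by decide)
  have a4 := acts_pow (c := 4) (by omega) a2 a2
    (C := ![![(0, 1), (0, 1), (-1, -1), (0, 0)], ![(1, 1), (0, 2), (-1, -2), (0, -1)], ![(1, 1), (1, 1), (-2, -1), (-1, 0)], ![(0, 0), (0, 1), (0, -1), (0, 0)]]) (by decide)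
  have a5 := acts_pow (c := 5) (by omega) a4 a1
    (C := ![![(0, 1), (1, 0), (0, -1), (0, -1)], ![(0, 2), (1, 1), (-1, -2), (0, -1)], ![(1, 1), (1, 1), (-2, -1), (-2, 0)], ![(0, 1), (0, 0), (1, -1), (1, -1)]]) (by decide)
  have a10 := acts_pow (c := 10) (by omega) a5 a5
    (C := ![![(-1, 0), (0, 0), (0, 0), (0, 0)], ![(0, 0), (-1, 0), (0, 0), (0, 0)], ![(0, 0), (0, 0), (-1, 0), (0, 0)], ![(0, 0), (0, 0), (0, 0), (-1, 0)]]) (by decide)
  have a20 := acts_pow (c := 20) (by omega) a10 a10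
    (C := ![![(1, 0), (0, 0), (0, 0), (0, 0)], ![(0, 0), (1, 0), (0, 0), (0, 0)], ![(0, 0), (0, 0), (1, 0), (0, 0)], ![(0, 0), (0, 0), (0, 0), (1, 0)]]) (by decide)
  refine allAcoptic_cert (h := 20) (by omega) (by omega) (acts_ident (by decide) a20)
    (L := [4, 10]) (by decide) ?_
  intro l hl
  simp only [List.mem_cons, List.not_mem_nil, or_false] at hl
  rcases hl with rfl | rfl
  · exact ⟨_, a4, by decide⟩
  · exact ⟨_, a10, by decide⟩

theorem star_6 : AllAcoptic (cosetPoly 4 (fun i => ([5, 5/2, 5] : List ℝ).getD i 2)) := by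
  have hm : ∀ i, i + 1 < 4 → val (([(0, 1), (-1, 1), (0, 1)] : List (ℤ × ℤ)).getD i 0) =
      2 * Real.cos (Real.pi / ([5, 5/2, 5] : List ℝ).getD i 2) := by
    intro i hi
    have hi' : i < 3 := by omega
    interval_cases i
    · exact val_five
    · exact val_five_half
    · exact val_five
  have p0 := acts_one 4
  have p1 := acts_step (q := fun i => ([5, 5/2, 5] : List ℝ).getD i 2)
    (m := fun i => ([(0, 1), (-1, 1), (0, 1)] : List (ℤ × ℤ)).getD i 0) hm (k := 0) (by omega) p0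
    (C := ![![(-1, 0), (0, 1), (0, 0), (0, 0)], ![(0, 0), (1, 0), (0, 0), (0, 0)], ![(0, 0), (0, 0), (1, 0), (0, 0)], ![(0, 0), (0, 0), (0, 0), (1, 0)]]) (by decide)
  have p2 := acts_step (q := fun i => ([5, 5/2, 5] : List ℝ).getD i 2)
    (m := fun i => ([(0, 1), (-1, 1), (0, 1)] : List (ℤ × ℤ)).getD i 0) hm (k := 1) (by omega) p1
    (C := ![![(0, 1), (0, -1), (1, 0), (0, 0)], ![(0, 1), (-1, 0), (-1, 1), (0, 0)], ![(0, 0), (0, 0), (1, 0), (0, 0)], ![(0, 0), (0, 0), (0, 0), (1, 0)]]) (by decide)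
  have p3 := acts_step (q := fun i => ([5, 5/2, 5] : List ℝ).getD i 2)
    (m := fun i => ([(0, 1), (-1, 1), (0, 1)] : List (ℤ × ℤ)).getD i 0) hm (k := 2) (by omega) p2
    (C := ![![(0, 1), (-1, 0), (-1, 0), (0, 1)], ![(0, 1), (1, -1), (1, -1), (1, 0)], ![(0, 0), (-1, 1), (-1, 0), (0, 1)], ![(0, 0), (0, 0), (0, 0), (1, 0)]]) (by decide)
  have p4 := acts_step (q := fun i => ([5, 5/2, 5] : List ℝ).getD i 2)
    (m := fun i => ([(0, 1), (-1, 1), (0, 1)] : List (ℤ × ℤ)).getD i 0) hm (k := 3) (by omega) p3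
    (C := ![![(0, 1), (-1, 0), (0, 1), (0, -1)], ![(0, 1), (1, -1), (1, 0), (-1, 0)], ![(0, 0), (-1, 1), (0, 1), (0, -1)], ![(0, 0), (0, 0), (0, 1), (-1, 0)]]) (by decide)
  have a1 := (pow_one (cox 4 (fun i => ([5, 5/2, 5] : List ℝ).getD i 2) 4)).symm ▸ p4
  have a2 := acts_pow (c := 2) (by omega) a1 a1
    (C := ![![(1, 0), (0, 0), (0, 1), (-1, -1)], ![(0, 1), (1, -1), (2, 0), (-1, -1)], ![(1, 0), (-1, 1), (-1, 1), (0, -1)], ![(0, 0), (1, 0), (1, 0), (0, -1)]]) (by decide)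
  have a3 := acts_pow (c := 3) (by omega) a2 a1
    (C := ![![(0, 1), (0, 0), (0, 0), (0, -1)], ![(0, 1), (0, 0), (1, 0), (-1, -1)], ![(1, 1), (-1, 0), (-1, 1), (0, -1)], ![(0, 1), (0, 0), (0, 0), (-1, 0)]]) (by decide)
  have a5 := acts_pow (c := 5) (by omega) a3 a2
    (C := ![![(0, 1), (0, -1), (1, 0), (0, -1)], ![(1, 1), (-2, 0), (-1, 1), (0, -1)], ![(0, 1), (1, -1), (1, 0), (-1, -1)], ![(0, 1), (-1, 0), (0, 1), (-1, -1)]]) (by decide)
  have a10 := acts_pow (c := 10) (by omega) a5 a5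
    (C := ![![(-1, -1), (0, 1), (-1, 0), (0, 1)], ![(-1, -1), (1, 0), (1, -1), (0, 1)], ![(0, -1), (-1, 1), (-2, 0), (1, 1)], ![(0, -1), (1, 0), (0, -1), (0, 1)]]) (by decide)
  have a15 := acts_pow (c := 15) (by omega) a10 a5
    (C := ![![(1, 0), (0, 0), (0, 0), (0, 0)], ![(0, 0), (1, 0), (0, 0), (0, 0)], ![(0, 0), (0, 0), (1, 0), (0, 0)], ![(0, 0), (0, 0), (0, 0), (1, 0)]]) (by decide)
  refine allAcoptic_cert (h := 15) (by omega) (by omega) (acts_ident (by decide) a15)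
    (L := [3, 5]) (by decide) ?_
  intro l hl
  simp only [List.mem_cons, List.not_mem_nil, or_false] at hl
  rcases hl with rfl | rfl
  · exact ⟨_, a3, by decide⟩
  · exact ⟨_, a5, by decide⟩

theorem star_7 : AllAcoptic (cosetPoly 4 (fun i => ([5, 3, 5/2] : List ℝ).getD i 2)) := by
  have hm : ∀ i, i + 1 < 4 → val (([(0, 1), (1, 0), (-1, 1)] : List (ℤ × ℤ)).getD i 0) =
      2 * Real.cos (Real.pi / ([5, 3, 5/2] : List ℝ).getD i 2) := by
    intro i hi
    have hi' : i < 3 := by omega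
    interval_cases i
    · exact val_five
    · exact val_three
    · exact val_five_half
  have p0 := acts_one 4
  have p1 := acts_step (q := fun i => ([5, 3, 5/2] : List ℝ).getD i 2)
    (m := fun i => ([(0, 1), (1, 0), (-1, 1)] : List (ℤ × ℤ)).getD i 0) hm (k := 0) (by omega) p0
    (C := ![![(-1, 0), (0, 1), (0, 0), (0, 0)], ![(0, 0), (1, 0), (0, 0), (0, 0)], ![(0, 0), (0, 0), (1, 0), (0, 0)], ![(0, 0), (0, 0), (0, 0), (1, 0)]]) (by decide)
  have p2 := acts_step (q := fun i => ([5, 3, 5/2] : List ℝ).getD i 2)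
    (m := fun i => ([(0, 1), (1, 0), (-1, 1)] : List (ℤ × ℤ)).getD i 0) hm (k := 1) (by omega) p1
    (C := ![![(0, 1), (0, -1), (0, 1), (0, 0)], ![(0, 1), (-1, 0), (1, 0), (0, 0)], ![(0, 0), (0, 0), (1, 0), (0, 0)], ![(0, 0), (0, 0), (0, 0), (1, 0)]]) (by decide)
  have p3 := acts_step (q := fun i => ([5, 3, 5/2] : List ℝ).getD i 2)
    (m := fun i => ([(0, 1), (1, 0), (-1, 1)] : List (ℤ × ℤ)).getD i 0) hm (k := 2) (by omega) p2
    (C := ![![(0, 1), (0, 0), (0, -1), (1, 0)], ![(0, 1), (0, 0), (-1, 0), (-1, 1)], ![(0, 0), (1, 0), (-1, 0), (-1, 1)], ![(0, 0), (0, 0), (0, 0), (1, 0)]]) (by decide)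
  have p4 := acts_step (q := fun i => ([5, 3, 5/2] : List ℝ).getD i 2)
    (m := fun i => ([(0, 1), (1, 0), (-1, 1)] : List (ℤ × ℤ)).getD i 0) hm (k := 3) (by omega) p3
    (C := ![![(0, 1), (0, 0), (-1, 0), (-1, 0)], ![(0, 1), (0, 0), (1, -1), (1, -1)], ![(0, 0), (1, 0), (1, -1), (1, -1)], ![(0, 0), (0, 0), (-1, 1), (-1, 0)]]) (by decide)
  have a1 := (pow_one (cox 4 (fun i => ([5, 3, 5/2] : List ℝ).getD i 2) 4)).symm ▸ p4
  have a2 := acts_pow (c := 2) (by omega) a1 a1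
    (C := ![![(1, 1), (-1, 0), (0, -1), (0, 0)], ![(1, 1), (1, -1), (0, -1), (1, -1)], ![(0, 1), (1, -1), (1, -1), (2, -1)], ![(0, 0), (-1, 1), (-1, 0), (-1, 1)]]) (by decide)
  have a4 := acts_pow (c := 4) (by omega) a2 a2
    (C := ![![(0, 1), (-1, 0), (0, -1), (0, 0)], ![(1, 1), (0, -1), (0, -1), (1, -1)], ![(0, 1), (1, -1), (0, -1), (2, -1)], ![(0, 0), (-1, 1), (-1, 0), (-2, 1)]]) (by decide)
  have a6 := acts_pow (c := 6) (by omega) a4 a2
    (C := ![![(-1, 0), (0, 0), (0, 0), (0, 0)], ![(0, 0), (-1, 0), (0, 0), (0, 0)], ![(0, 0), (0, 0), (-1, 0), (0, 0)], ![(0, 0), (0, 0), (0, 0), (-1, 0)]]) (by decide)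
  have a12 := acts_pow (c := 12) (by omega) a6 a6
    (C := ![![(1, 0), (0, 0), (0, 0), (0, 0)], ![(0, 0), (1, 0), (0, 0), (0, 0)], ![(0, 0), (0, 0), (1, 0), (0, 0)], ![(0, 0), (0, 0), (0, 0), (1, 0)]]) (by decide)
  refine allAcoptic_cert (h := 12) (by omega) (by omega) (acts_ident (by decide) a12)
    (L := [4, 6]) (by decide) ?_
  intro l hl
  simp only [List.mem_cons, List.not_mem_nil, or_false] at hl
  rcases hl with rfl | rfl
  · exact ⟨_, a4, by decide⟩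
  · exact ⟨_, a6, by decide⟩

theorem star_8 : AllAcoptic (cosetPoly 4 (fun i => ([5/2, 3, 5] : List ℝ).getD i 2)) := by
  have hm : ∀ i, i + 1 < 4 → val (([(-1, 1), (1, 0), (0, 1)] : List (ℤ × ℤ)).getD i 0) =
      2 * Real.cos (Real.pi / ([5/2, 3, 5] : List ℝ).getD i 2) := by
    intro i hi
    have hi' : i < 3 := by omega
    interval_cases i
    · exact val_five_half
    · exact val_three
    · exact val_five
  have p0 := acts_one 4
  have p1 := acts_step (q := fun i => ([5/2, 3, 5] : List ℝ).getD i 2)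
    (m := fun i => ([(-1, 1), (1, 0), (0, 1)] : List (ℤ × ℤ)).getD i 0) hm (k := 0) (by omega) p0
    (C := ![![(-1, 0), (-1, 1), (0, 0), (0, 0)], ![(0, 0), (1, 0), (0, 0), (0, 0)], ![(0, 0), (0, 0), (1, 0), (0, 0)], ![(0, 0), (0, 0), (0, 0), (1, 0)]]) (by decide)
  have p2 := acts_step (q := fun i => ([5/2, 3, 5] : List ℝ).getD i 2)
    (m := fun i => ([(-1, 1), (1, 0), (0, 1)] : List (ℤ × ℤ)).getD i 0) hm (k := 1) (by omega) p1
    (C := ![![(1, -1), (1, -1), (-1, 1), (0, 0)], ![(-1, 1), (-1, 0), (1, 0), (0, 0)], ![(0, 0), (0, 0), (1, 0), (0, 0)], ![(0, 0), (0, 0), (0, 0), (1, 0)]]) (by decide)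
  have p3 := acts_step (q := fun i => ([5/2, 3, 5] : List ℝ).getD i 2)
    (m := fun i => ([(-1, 1), (1, 0), (0, 1)] : List (ℤ × ℤ)).getD i 0) hm (k := 2) (by omega) p2
    (C := ![![(1, -1), (0, 0), (1, -1), (1, 0)], ![(-1, 1), (0, 0), (-1, 0), (0, 1)], ![(0, 0), (1, 0), (-1, 0), (0, 1)], ![(0, 0), (0, 0), (0, 0), (1, 0)]]) (by decide)
  have p4 := acts_step (q := fun i => ([5/2, 3, 5] : List ℝ).getD i 2)
    (m := fun i => ([(-1, 1), (1, 0), (0, 1)] : List (ℤ × ℤ)).getD i 0) hm (k := 3) (by omega) p3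
    (C := ![![(1, -1), (0, 0), (1, 0), (-1, 0)], ![(-1, 1), (0, 0), (0, 1), (0, -1)], ![(0, 0), (1, 0), (0, 1), (0, -1)], ![(0, 0), (0, 0), (0, 1), (-1, 0)]]) (by decide)
  have a1 := (pow_one (cox 4 (fun i => ([5/2, 3, 5] : List ℝ).getD i 2) 4)).symm ▸ p4
  have a2 := acts_pow (c := 2) (by omega) a1 a1
    (C := ![![(2, -1), (1, 0), (1, -1), (0, 0)], ![(-2, 1), (0, 1), (-1, 1), (0, -1)], ![(-1, 1), (0, 1), (0, 1), (-1, -1)], ![(0, 0), (0, 1), (1, 0), (0, -1)]]) (by decide)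
  have a4 := acts_pow (c := 4) (by omega) a2 a2
    (C := ![![(1, -1), (1, 0), (1, -1), (0, 0)], ![(-2, 1), (-1, 1), (-1, 1), (0, -1)], ![(-1, 1), (0, 1), (-1, 1), (-1, -1)], ![(0, 0), (0, 1), (1, 0), (-1, -1)]]) (by decide)
  have a6 := acts_pow (c := 6) (by omega) a4 a2
    (C := ![![(-1, 0), (0, 0), (0, 0), (0, 0)], ![(0, 0), (-1, 0), (0, 0), (0, 0)], ![(0, 0), (0, 0), (-1, 0), (0, 0)], ![(0, 0), (0, 0), (0, 0), (-1, 0)]]) (by decide)
  have a12 := acts_pow (c := 12) (by omega) a6 a6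
    (C := ![![(1, 0), (0, 0), (0, 0), (0, 0)], ![(0, 0), (1, 0), (0, 0), (0, 0)], ![(0, 0), (0, 0), (1, 0), (0, 0)], ![(0, 0), (0, 0), (0, 0), (1, 0)]]) (by decide)
  refine allAcoptic_cert (h := 12) (by omega) (by omega) (acts_ident (by decide) a12)
    (L := [4, 6]) (by decide) ?_
  intro l hl
  simp only [List.mem_cons, List.not_mem_nil, or_false] at hl
  rcases hl with rfl | rfl
  · exact ⟨_, a4, by decide⟩
  · exact ⟨_, a6, by decide⟩

theorem star_9 : AllAcoptic (cosetPoly 4 (fun i => ([5/2, 5, 5/2] : List ℝ).getD i 2)) := by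
  have hm : ∀ i, i + 1 < 4 → val (([(-1, 1), (0, 1), (-1, 1)] : List (ℤ × ℤ)).getD i 0) =
      2 * Real.cos (Real.pi / ([5/2, 5, 5/2] : List ℝ).getD i 2) := by
    intro i hi
    have hi' : i < 3 := by omega
    interval_cases i
    · exact val_five_half
    · exact val_five
    · exact val_five_half
  have p0 := acts_one 4
  have p1 := acts_step (q := fun i => ([5/2, 5, 5/2] : List ℝ).getD i 2)
    (m := fun i => ([(-1, 1), (0, 1), (-1, 1)] : List (ℤ × ℤ)).getD i 0) hm (k := 0) (by omega) p0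
    (C := ![![(-1, 0), (-1, 1), (0, 0), (0, 0)], ![(0, 0), (1, 0), (0, 0), (0, 0)], ![(0, 0), (0, 0), (1, 0), (0, 0)], ![(0, 0), (0, 0), (0, 0), (1, 0)]]) (by decide)
  have p2 := acts_step (q := fun i => ([5/2, 5, 5/2] : List ℝ).getD i 2)
    (m := fun i => ([(-1, 1), (0, 1), (-1, 1)] : List (ℤ × ℤ)).getD i 0) hm (k := 1) (by omega) p1
    (C := ![![(1, -1), (1, -1), (1, 0), (0, 0)], ![(-1, 1), (-1, 0), (0, 1), (0, 0)], ![(0, 0), (0, 0), (1, 0), (0, 0)], ![(0, 0), (0, 0), (0, 0), (1, 0)]]) (by decide)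
  have p3 := acts_step (q := fun i => ([5/2, 5, 5/2] : List ℝ).getD i 2)
    (m := fun i => ([(-1, 1), (0, 1), (-1, 1)] : List (ℤ × ℤ)).getD i 0) hm (k := 2) (by omega) p2
    (C := ![![(1, -1), (1, 0), (-1, 0), (-1, 1)], ![(-1, 1), (0, 1), (0, -1), (1, 0)], ![(0, 0), (0, 1), (-1, 0), (-1, 1)], ![(0, 0), (0, 0), (0, 0), (1, 0)]]) (by decide)
  have p4 := acts_step (q := fun i => ([5/2, 5, 5/2] : List ℝ).getD i 2)
    (m := fun i => ([(-1, 1), (0, 1), (-1, 1)] : List (ℤ × ℤ)).getD i 0) hm (k := 3) (by omega) p3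
    (C := ![![(1, -1), (1, 0), (1, -1), (1, -1)], ![(-1, 1), (0, 1), (-1, 0), (-1, 0)], ![(0, 0), (0, 1), (1, -1), (1, -1)], ![(0, 0), (0, 0), (-1, 1), (-1, 0)]]) (by decide)
  have a1 := (pow_one (cox 4 (fun i => ([5/2, 5, 5/2] : List ℝ).getD i 2) 4)).symm ▸ p4
  have a2 := acts_pow (c := 2) (by omega) a1 a1
    (C := ![![(1, 0), (0, 0), (1, -1), (2, -1)], ![(-1, 1), (0, 1), (-2, 0), (-2, 1)], ![(1, 0), (0, 1), (0, -1), (1, -1)], ![(0, 0), (1, 0), (-1, 0), (-1, 1)]]) (by decide)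
  have a3 := acts_pow (c := 3) (by omega) a2 a1
    (C := ![![(1, -1), (0, 0), (0, 0), (1, -1)], ![(-1, 1), (0, 0), (-1, 0), (-2, 1)], ![(2, -1), (1, 0), (0, -1), (1, -1)], ![(-1, 1), (0, 0), (0, 0), (-1, 0)]]) (by decide)
  have a5 := acts_pow (c := 5) (by omega) a3 a2
    (C := ![![(1, -1), (1, -1), (1, 0), (1, -1)], ![(-2, 1), (-2, 0), (0, 1), (-1, 1)], ![(1, -1), (0, -1), (1, 0), (2, -1)], ![(-1, 1), (-1, 0), (-1, 1), (-2, 1)]]) (by decide)
  have a10 := acts_pow (c := 10) (by omega) a5 a5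
    (C := ![![(-2, 1), (-1, 1), (-1, 0), (-1, 1)], ![(2, -1), (1, 0), (0, -1), (1, -1)], ![(-1, 1), (0, 1), (-2, 0), (-2, 1)], ![(1, -1), (1, 0), (1, -1), (1, -1)]]) (by decide)
  have a15 := acts_pow (c := 15) (by omega) a10 a5
    (C := ![![(1, 0), (0, 0), (0, 0), (0, 0)], ![(0, 0), (1, 0), (0, 0), (0, 0)], ![(0, 0), (0, 0), (1, 0), (0, 0)], ![(0, 0), (0, 0), (0, 0), (1, 0)]]) (by decide)
  refine allAcoptic_cert (h := 15) (by omega) (by omega) (acts_ident (by decide) a15)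
    (L := [3, 5]) (by decide) ?_
  intro l hl
  simp only [List.mem_cons, List.not_mem_nil, or_false] at hl
  rcases hl with rfl | rfl
  · exact ⟨_, a3, by decide⟩
  · exact ⟨_, a5, by decide⟩

theorem star_10 : AllAcoptic (cosetPoly 4 (fun i => ([5, 5/2, 3] : List ℝ).getD i 2)) := by
  have hm : ∀ i, i + 1 < 4 → val (([(0, 1), (-1, 1), (1, 0)] : List (ℤ × ℤ)).getD i 0) =
      2 * Real.cos (Real.pi / ([5, 5/2, 3] : List ℝ).getD i 2) := by
    intro i hi
    have hi' : i < 3 := by omega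
    interval_cases i
    · exact val_five
    · exact val_five_half
    · exact val_three
  have p0 := acts_one 4
  have p1 := acts_step (q := fun i => ([5, 5/2, 3] : List ℝ).getD i 2)
    (m := fun i => ([(0, 1), (-1, 1), (1, 0)] : List (ℤ × ℤ)).getD i 0) hm (k := 0) (by omega) p0
    (C := ![![(-1, 0), (0, 1), (0, 0), (0, 0)], ![(0, 0), (1, 0), (0, 0), (0, 0)], ![(0, 0), (0, 0), (1, 0), (0, 0)], ![(0, 0), (0, 0), (0, 0), (1, 0)]]) (by decide)
  have p2 := acts_step (q := fun i => ([5, 5/2, 3] : List ℝ).getD i 2)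
    (m := fun i => ([(0, 1), (-1, 1), (1, 0)] : List (ℤ × ℤ)).getD i 0) hm (k := 1) (by omega) p1
    (C := ![![(0, 1), (0, -1), (1, 0), (0, 0)], ![(0, 1), (-1, 0), (-1, 1), (0, 0)], ![(0, 0), (0, 0), (1, 0), (0, 0)], ![(0, 0), (0, 0), (0, 0), (1, 0)]]) (by decide)
  have p3 := acts_step (q := fun i => ([5, 5/2, 3] : List ℝ).getD i 2)
    (m := fun i => ([(0, 1), (-1, 1), (1, 0)] : List (ℤ × ℤ)).getD i 0) hm (k := 2) (by omega) p2
    (C := ![![(0, 1), (-1, 0), (-1, 0), (1, 0)], ![(0, 1), (1, -1), (1, -1), (-1, 1)], ![(0, 0), (-1, 1), (-1, 0), (1, 0)], ![(0, 0), (0, 0), (0, 0), (1, 0)]]) (by decide)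
  have p4 := acts_step (q := fun i => ([5, 5/2, 3] : List ℝ).getD i 2)
    (m := fun i => ([(0, 1), (-1, 1), (1, 0)] : List (ℤ × ℤ)).getD i 0) hm (k := 3) (by omega) p3
    (C := ![![(0, 1), (-1, 0), (0, 0), (-1, 0)], ![(0, 1), (1, -1), (0, 0), (1, -1)], ![(0, 0), (-1, 1), (0, 0), (-1, 0)], ![(0, 0), (0, 0), (1, 0), (-1, 0)]]) (by decide)
  have a1 := (pow_one (cox 4 (fun i => ([5, 5/2, 3] : List ℝ).getD i 2) 4)).symm ▸ p4
  have a2 := acts_pow (c := 2) (by omega) a1 a1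
    (C := ![![(1, 0), (-1, 0), (-1, 0), (0, 0)], ![(0, 1), (2, -2), (1, -1), (1, -1)], ![(1, 0), (-2, 1), (-1, 0), (-1, 1)], ![(0, 0), (-1, 1), (-1, 0), (0, 0)]]) (by decide)
  have a4 := acts_pow (c := 4) (by omega) a2 a2
    (C := ![![(0, -1), (-1, 1), (-1, 1), (0, 0)], ![(-1, 0), (3, -2), (2, -1), (2, -1)], ![(1, -1), (-3, 2), (-2, 1), (-2, 1)], ![(0, 0), (-2, 1), (-1, 1), (-1, 0)]]) (by decide)
  have a5 := acts_pow (c := 5) (by omega) a4 a1
    (C := ![![(0, -1), (0, 1), (0, 0), (-1, 1)], ![(-2, 0), (3, -1), (2, -1), (2, -1)], ![(1, -1), (-3, 2), (-2, 1), (-2, 2)], ![(1, -1), (-1, 1), (-1, 0), (-1, 1)]]) (by decide)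
  have a10 := acts_pow (c := 10) (by omega) a5 a5
    (C := ![![(-1, 0), (0, 0), (0, 0), (0, 0)], ![(0, 0), (-1, 0), (0, 0), (0, 0)], ![(0, 0), (0, 0), (-1, 0), (0, 0)], ![(0, 0), (0, 0), (0, 0), (-1, 0)]]) (by decide)
  have a20 := acts_pow (c := 20) (by omega) a10 a10
    (C := ![![(1, 0), (0, 0), (0, 0), (0, 0)], ![(0, 0), (1, 0), (0, 0), (0, 0)], ![(0, 0), (0, 0), (1, 0), (0, 0)], ![(0, 0), (0, 0), (0, 0), (1, 0)]]) (by decide)
  refine allAcoptic_cert (h := 20) (by omega) (by omega) (acts_ident (by decide) a20)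
    (L := [4, 10]) (by decide) ?_
  intro l hl
  simp only [List.mem_cons, List.not_mem_nil, or_false] at hl
  rcases hl with rfl | rfl
  · exact ⟨_, a4, by decide⟩
  · exact ⟨_, a10, by decide⟩

theorem star_11 : AllAcoptic (cosetPoly 4 (fun i => ([3, 5/2, 5] : List ℝ).getD i 2)) := by
  have hm : ∀ i, i + 1 < 4 → val (([(1, 0), (-1, 1), (0, 1)] : List (ℤ × ℤ)).getD i 0) =
      2 * Real.cos (Real.pi / ([3, 5/2, 5] : List ℝ).getD i 2) := by
    intro i hi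
    have hi' : i < 3 := by omega
    interval_cases i
    · exact val_three
    · exact val_five_half
    · exact val_five
  have p0 := acts_one 4
  have p1 := acts_step (q := fun i => ([3, 5/2, 5] : List ℝ).getD i 2)
    (m := fun i => ([(1, 0), (-1, 1), (0, 1)] : List (ℤ × ℤ)).getD i 0) hm (k := 0) (by omega) p0
    (C := ![![(-1, 0), (1, 0), (0, 0), (0, 0)], ![(0, 0), (1, 0), (0, 0), (0, 0)], ![(0, 0), (0, 0), (1, 0), (0, 0)], ![(0, 0), (0, 0), (0, 0), (1, 0)]]) (by decide)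
  have p2 := acts_step (q := fun i => ([3, 5/2, 5] : List ℝ).getD i 2)
    (m := fun i => ([(1, 0), (-1, 1), (0, 1)] : List (ℤ × ℤ)).getD i 0) hm (k := 1) (by omega) p1
    (C := ![![(0, 0), (-1, 0), (-1, 1), (0, 0)], ![(1, 0), (-1, 0), (-1, 1), (0, 0)], ![(0, 0), (0, 0), (1, 0), (0, 0)], ![(0, 0), (0, 0), (0, 0), (1, 0)]]) (by decide)
  have p3 := acts_step (q := fun i => ([3, 5/2, 5] : List ℝ).getD i 2)
    (m := fun i => ([(1, 0), (-1, 1), (0, 1)] : List (ℤ × ℤ)).getD i 0) hm (k := 2) (by omega) p2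
    (C := ![![(0, 0), (1, -1), (1, -1), (1, 0)], ![(1, 0), (1, -1), (1, -1), (1, 0)], ![(0, 0), (-1, 1), (-1, 0), (0, 1)], ![(0, 0), (0, 0), (0, 0), (1, 0)]]) (by decide)
  have p4 := acts_step (q := fun i => ([3, 5/2, 5] : List ℝ).getD i 2)
    (m := fun i => ([(1, 0), (-1, 1), (0, 1)] : List (ℤ × ℤ)).getD i 0) hm (k := 3) (by omega) p3
    (C := ![![(0, 0), (1, -1), (1, 0), (-1, 0)], ![(1, 0), (1, -1), (1, 0), (-1, 0)], ![(0, 0), (-1, 1), (0, 1), (0, -1)], ![(0, 0), (0, 0), (0, 1), (-1, 0)]]) (by decide)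
  have a1 := (pow_one (cox 4 (fun i => ([3, 5/2, 5] : List ℝ).getD i 2) 4)).symm ▸ p4
  have a2 := acts_pow (c := 2) (by omega) a1 a1
    (C := ![![(1, -1), (1, 0), (1, -1), (0, 0)], ![(1, -1), (2, -1), (2, -1), (-1, 0)], ![(-1, 1), (-1, 1), (-1, 1), (0, -1)], ![(0, 0), (1, 0), (1, 0), (0, -1)]]) (by decide)
  have a4 := acts_pow (c := 4) (by omega) a2 a2
    (C := ![![(1, -1), (1, -1), (2, -1), (0, 0)], ![(2, -1), (2, -2), (3, -2), (-1, 1)], ![(-2, 1), (-2, 1), (-3, 1), (1, 0)], ![(0, 0), (1, -1), (1, -1), (0, 0)]]) (by decide)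
  have a5 := acts_pow (c := 5) (by omega) a4 a1
    (C := ![![(1, -1), (1, 0), (1, -1), (-1, 1)], ![(2, -2), (2, -1), (3, -2), (-1, 1)], ![(-2, 1), (-2, 1), (-3, 1), (2, 0)], ![(1, -1), (0, 0), (0, -1), (0, 1)]]) (by decide)
  have a10 := acts_pow (c := 10) (by omega) a5 a5
    (C := ![![(-1, 0), (0, 0), (0, 0), (0, 0)], ![(0, 0), (-1, 0), (0, 0), (0, 0)], ![(0, 0), (0, 0), (-1, 0), (0, 0)], ![(0, 0), (0, 0), (0, 0), (-1, 0)]]) (by decide)
  have a20 := acts_pow (c := 20) (by omega) a10 a10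
    (C := ![![(1, 0), (0, 0), (0, 0), (0, 0)], ![(0, 0), (1, 0), (0, 0), (0, 0)], ![(0, 0), (0, 0), (1, 0), (0, 0)], ![(0, 0), (0, 0), (0, 0), (1, 0)]]) (by decide)
  refine allAcoptic_cert (h := 20) (by omega) (by omega) (acts_ident (by decide) a20)
    (L := [4, 10]) (by decide) ?_
  intro l hl
  simp only [List.mem_cons, List.not_mem_nil, or_false] at hl
  rcases hl with rfl | rfl
  · exact ⟨_, a4, by decide⟩
  · exact ⟨_, a10, by decide⟩

theorem star_12 : AllAcoptic (cosetPoly 4 (fun i => ([3, 3, 5/2] : List ℝ).getD i 2)) := by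
  have hm : ∀ i, i + 1 < 4 → val (([(1, 0), (1, 0), (-1, 1)] : List (ℤ × ℤ)).getD i 0) =
      2 * Real.cos (Real.pi / ([3, 3, 5/2] : List ℝ).getD i 2) := by
    intro i hi
    have hi' : i < 3 := by omega
    interval_cases i
    · exact val_three
    · exact val_three
    · exact val_five_half
  have p0 := acts_one 4
  have p1 := acts_step (q := fun i => ([3, 3, 5/2] : List ℝ).getD i 2)
    (m := fun i => ([(1, 0), (1, 0), (-1, 1)] : List (ℤ × ℤ)).getD i 0) hm (k := 0) (by omega) p0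
    (C := ![![(-1, 0), (1, 0), (0, 0), (0, 0)], ![(0, 0), (1, 0), (0, 0), (0, 0)], ![(0, 0), (0, 0), (1, 0), (0, 0)], ![(0, 0), (0, 0), (0, 0), (1, 0)]]) (by decide)
  have p2 := acts_step (q := fun i => ([3, 3, 5/2] : List ℝ).getD i 2)
    (m := fun i => ([(1, 0), (1, 0), (-1, 1)] : List (ℤ × ℤ)).getD i 0) hm (k := 1) (by omega) p1
    (C := ![![(0, 0), (-1, 0), (1, 0), (0, 0)], ![(1, 0), (-1, 0), (1, 0), (0, 0)], ![(0, 0), (0, 0), (1, 0), (0, 0)], ![(0, 0), (0, 0), (0, 0), (1, 0)]]) (by decide)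
  have p3 := acts_step (q := fun i => ([3, 3, 5/2] : List ℝ).getD i 2)
    (m := fun i => ([(1, 0), (1, 0), (-1, 1)] : List (ℤ × ℤ)).getD i 0) hm (k := 2) (by omega) p2
    (C := ![![(0, 0), (0, 0), (-1, 0), (-1, 1)], ![(1, 0), (0, 0), (-1, 0), (-1, 1)], ![(0, 0), (1, 0), (-1, 0), (-1, 1)], ![(0, 0), (0, 0), (0, 0), (1, 0)]]) (by decide)
  have p4 := acts_step (q := fun i => ([3, 3, 5/2] : List ℝ).getD i 2)
    (m := fun i => ([(1, 0), (1, 0), (-1, 1)] : List (ℤ × ℤ)).getD i 0) hm (k := 3) (by omega) p3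
    (C := ![![(0, 0), (0, 0), (1, -1), (1, -1)], ![(1, 0), (0, 0), (1, -1), (1, -1)], ![(0, 0), (1, 0), (1, -1), (1, -1)], ![(0, 0), (0, 0), (-1, 1), (-1, 0)]]) (by decide)
  have a1 := (pow_one (cox 4 (fun i => ([3, 3, 5/2] : List ℝ).getD i 2) 4)).symm ▸ p4
  have a2 := acts_pow (c := 2) (by omega) a1 a1
    (C := ![![(0, 0), (1, -1), (0, 0), (1, 0)], ![(0, 0), (1, -1), (1, -1), (2, -1)], ![(1, 0), (1, -1), (1, -1), (2, -1)], ![(0, 0), (-1, 1), (-1, 0), (-1, 1)]]) (by decide)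
  have a3 := acts_pow (c := 3) (by omega) a2 a1
    (C := ![![(1, -1), (0, 0), (1, 0), (1, -1)], ![(1, -1), (1, -1), (1, 0), (2, -1)], ![(1, -1), (1, -1), (2, -1), (3, -2)], ![(-1, 1), (-1, 0), (-1, 1), (-2, 1)]]) (by decide)
  have a5 := acts_pow (c := 5) (by omega) a3 a2
    (C := ![![(1, 0), (1, -1), (0, 0), (1, -1)], ![(1, 0), (2, -1), (1, -1), (3, -2)], ![(2, -1), (2, -1), (2, -1), (4, -3)], ![(-1, 1), (-2, 1), (-1, 1), (-3, 2)]]) (by decide)
  have a6 := acts_pow (c := 6) (by omega) a3 a3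
    (C := ![![(1, -1), (0, 0), (1, -1), (2, -1)], ![(2, -1), (1, -1), (1, -1), (3, -2)], ![(2, -1), (2, -1), (2, -2), (5, -3)], ![(-2, 1), (-1, 1), (-2, 1), (-4, 2)]]) (by decide)
  have a10 := acts_pow (c := 10) (by omega) a5 a5
    (C := ![![(0, 0), (1, -1), (0, 0), (1, -1)], ![(1, 0), (1, -1), (1, -1), (3, -2)], ![(2, -1), (2, -1), (1, -1), (4, -3)], ![(-1, 1), (-2, 1), (-1, 1), (-4, 2)]]) (by decide)
  have a15 := acts_pow (c := 15) (by omega) a10 a5
    (C := ![![(-1, 0), (0, 0), (0, 0), (0, 0)], ![(0, 0), (-1, 0), (0, 0), (0, 0)], ![(0, 0), (0, 0), (-1, 0), (0, 0)], ![(0, 0), (0, 0), (0, 0), (-1, 0)]]) (by decide)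
  have a30 := acts_pow (c := 30) (by omega) a15 a15
    (C := ![![(1, 0), (0, 0), (0, 0), (0, 0)], ![(0, 0), (1, 0), (0, 0), (0, 0)], ![(0, 0), (0, 0), (1, 0), (0, 0)], ![(0, 0), (0, 0), (0, 0), (1, 0)]]) (by decide)
  refine allAcoptic_cert (h := 30) (by omega) (by omega) (acts_ident (by decide) a30)
    (L := [6, 10, 15]) (by decide) ?_
  intro l hl
  simp only [List.mem_cons, List.not_mem_nil, or_false] at hl
  rcases hl with rfl | rfl | rfl
  · exact ⟨_, a6, by decide⟩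
  · exact ⟨_, a10, by decide⟩
  · exact ⟨_, a15, by decide⟩

theorem star_13 : AllAcoptic (cosetPoly 4 (fun i => ([5/2, 3, 3] : List ℝ).getD i 2)) := by
  have hm : ∀ i, i + 1 < 4 → val (([(-1, 1), (1, 0), (1, 0)] : List (ℤ × ℤ)).getD i 0) =
      2 * Real.cos (Real.pi / ([5/2, 3, 3] : List ℝ).getD i 2) := by
    intro i hi
    have hi' : i < 3 := by omega
    interval_cases i
    · exact val_five_half
    · exact val_three
    · exact val_three
  have p0 := acts_one 4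
  have p1 := acts_step (q := fun i => ([5/2, 3, 3] : List ℝ).getD i 2)
    (m := fun i => ([(-1, 1), (1, 0), (1, 0)] : List (ℤ × ℤ)).getD i 0) hm (k := 0) (by omega) p0
    (C := ![![(-1, 0), (-1, 1), (0, 0), (0, 0)], ![(0, 0), (1, 0), (0, 0), (0, 0)], ![(0, 0), (0, 0), (1, 0), (0, 0)], ![(0, 0), (0, 0), (0, 0), (1, 0)]]) (by decide)
  have p2 := acts_step (q := fun i => ([5/2, 3, 3] : List ℝ).getD i 2)
    (m := fun i => ([(-1, 1), (1, 0), (1, 0)] : List (ℤ × ℤ)).getD i 0) hm (k := 1) (by omega) p1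
    (C := ![![(1, -1), (1, -1), (-1, 1), (0, 0)], ![(-1, 1), (-1, 0), (1, 0), (0, 0)], ![(0, 0), (0, 0), (1, 0), (0, 0)], ![(0, 0), (0, 0), (0, 0), (1, 0)]]) (by decide)
  have p3 := acts_step (q := fun i => ([5/2, 3, 3] : List ℝ).getD i 2)
    (m := fun i => ([(-1, 1), (1, 0), (1, 0)] : List (ℤ × ℤ)).getD i 0) hm (k := 2) (by omega) p2
    (C := ![![(1, -1), (0, 0), (1, -1), (-1, 1)], ![(-1, 1), (0, 0), (-1, 0), (1, 0)], ![(0, 0), (1, 0), (-1, 0), (1, 0)], ![(0, 0), (0, 0), (0, 0), (1, 0)]]) (by decide)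
  have p4 := acts_step (q := fun i => ([5/2, 3, 3] : List ℝ).getD i 2)
    (m := fun i => ([(-1, 1), (1, 0), (1, 0)] : List (ℤ × ℤ)).getD i 0) hm (k := 3) (by omega) p3
    (C := ![![(1, -1), (0, 0), (0, 0), (1, -1)], ![(-1, 1), (0, 0), (0, 0), (-1, 0)], ![(0, 0), (1, 0), (0, 0), (-1, 0)], ![(0, 0), (0, 0), (1, 0), (-1, 0)]]) (by decide)
  have a1 := (pow_one (cox 4 (fun i => ([5/2, 3, 3] : List ℝ).getD i 2) 4)).symm ▸ p4
  have a2 := acts_pow (c := 2) (by omega) a1 a1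
    (C := ![![(2, -1), (0, 0), (1, -1), (1, 0)], ![(-2, 1), (0, 0), (-1, 0), (-1, 1)], ![(-1, 1), (0, 0), (-1, 0), (0, 0)], ![(0, 0), (1, 0), (-1, 0), (0, 0)]]) (by decide)
  have a3 := acts_pow (c := 3) (by omega) a2 a1
    (C := ![![(3, -2), (1, -1), (1, 0), (1, -1)], ![(-3, 2), (-1, 0), (-1, 1), (-1, 1)], ![(-2, 1), (-1, 0), (0, 0), (-1, 1)], ![(-1, 1), (-1, 0), (0, 0), (0, 0)]]) (by decide)
  have a5 := acts_pow (c := 5) (by omega) a3 a2
    (C := ![![(4, -2), (1, -1), (2, -1), (1, -1)], ![(-4, 3), (-1, 1), (-2, 1), (-2, 1)], ![(-3, 2), (-1, 1), (-1, 1), (-1, 0)], ![(-1, 1), (0, 0), (-1, 1), (0, 0)]]) (by decide)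
  have a6 := acts_pow (c := 6) (by omega) a3 a3
    (C := ![![(4, -3), (2, -1), (1, -1), (2, -1)], ![(-5, 3), (-2, 1), (-2, 1), (-2, 1)], ![(-3, 2), (-1, 1), (-1, 0), (-2, 1)], ![(-2, 1), (-1, 1), (0, 0), (-1, 0)]]) (by decide)
  have a10 := acts_pow (c := 10) (by omega) a5 a5
    (C := ![![(3, -2), (1, -1), (2, -1), (1, -1)], ![(-4, 3), (-2, 1), (-2, 1), (-2, 1)], ![(-3, 2), (-1, 1), (-2, 1), (-1, 0)], ![(-1, 1), (0, 0), (-1, 1), (-1, 0)]]) (by decide)
  have a15 := acts_pow (c := 15) (by omega) a10 a5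
    (C := ![![(-1, 0), (0, 0), (0, 0), (0, 0)], ![(0, 0), (-1, 0), (0, 0), (0, 0)], ![(0, 0), (0, 0), (-1, 0), (0, 0)], ![(0, 0), (0, 0), (0, 0), (-1, 0)]]) (by decide)
  have a30 := acts_pow (c := 30) (by omega) a15 a15
    (C := ![![(1, 0), (0, 0), (0, 0), (0, 0)], ![(0, 0), (1, 0), (0, 0), (0, 0)], ![(0, 0), (0, 0), (1, 0), (0, 0)], ![(0, 0), (0, 0), (0, 0), (1, 0)]]) (by decide)
  refine allAcoptic_cert (h := 30) (by omega) (by omega) (acts_ident (by decide) a30)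
    (L := [6, 10, 15]) (by decide) ?_
  intro l hl
  simp only [List.mem_cons, List.not_mem_nil, or_false] at hl
  rcases hl with rfl | rfl | rfl
  · exact ⟨_, a6, by decide⟩
  · exact ⟨_, a10, by decide⟩
  · exact ⟨_, a15, by decide⟩

end Pool.Agent.V11155.Petrie
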