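import Mathlib
import Pool.Agent.V11155.Partizan

/-!
# Sums of copies of `*`, `*2`, `-u`, `u` and `e`, where `u = {0, * | 0}` and `e = {0, u | 0, *2}`

The outcomes of these sums under normal and misère play.
-/

set_option autoImplicit false

namespace Pool.Agent.V11155.Wild5

open Pool.Agent.V11155.Partizan Pool.Agent.V11155.Partizan.Game

/-- Left wins moving first under normal play (`a`, `b`, `c`, `d`, `e` copies of `*`, `*2`, `-u`, `u`,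
`e`). -/
def L0 (a b c d e : ℕ) : Prop :=
  c < d + e ∨ (c = d + e ∧ ((a + c + d + e) % 2 = 1 ∨ (e = 0 ∧ b % 2 = 1) ∨ (e = 1 ∧ b % 2 = 0))) ∨
    (c = d + e + 1 ∧ (a + c + d + e) % 2 = 1 ∧ e = 0 ∧ b % 2 = 0)

/-- Right wins moving first under normal play. -/
def R0 (a b c d e : ℕ) : Prop :=
  d + e < c ∨ (c = d + e ∧ ¬ (e = 0 ∧ b % 2 = 0 ∧ (a + c + d + e) % 2 = 0)) ∨
    (d + e = c + 1 ∧ (a + c + d + e) % 2 = 1 ∧ ¬ (e = 0 ∧ b % 2 = 1))

/-- Left wins moving first under misère play. -/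
def L1 (a b c d e : ℕ) : Prop :=
  ((1 ≤ b ∨ 2 ≤ e) ∧ L0 a b c d e) ∨ (b = 0 ∧ e ≤ 1 ∧ L0 (a + 1) b c d e)

/-- Right wins moving first under misère play. -/
def R1 (a b c d e : ℕ) : Prop :=
  ((1 ≤ b ∨ 2 ≤ e) ∧ R0 a b c d e) ∨ (b = 0 ∧ e ≤ 1 ∧ R0 (a + 1) b c d e)

theorem L0_of (a b c d e : ℕ) : L0 a b c d e →
    ((1 ≤ a ∧ ¬ R0 (a - 1) b c d e) ∨ (1 ≤ b ∧ ¬ R0 a (b - 1) c d e) ∨
     (1 ≤ b ∧ ¬ R0 (a + 1) (b - 1) c d e) ∨ (1 ≤ c ∧ ¬ R0 a b (c - 1) d e) ∨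
     (1 ≤ d ∧ ¬ R0 a b c (d - 1) e) ∨ (1 ≤ d ∧ ¬ R0 (a + 1) b c (d - 1) e) ∨
     (1 ≤ e ∧ ¬ R0 a b c d (e - 1)) ∨ (1 ≤ e ∧ ¬ R0 a b c (d + 1) (e - 1))) := by
  unfold L0 R0
  intro h
  by_contra hcon
  push Not at hcon
  obtain ⟨h1, h2, h3, h4, h5, h6, h7, h8⟩ := hcon
  rcases h with h | ⟨h, h' | ⟨h', h''⟩ | ⟨h', h''⟩⟩ | ⟨h, h', h'', h'''⟩ <;> omega

theorem L0_to (a b c d e : ℕ) (h : ¬ L0 a b c d e) :
    (1 ≤ a → R0 (a - 1) b c d e) ∧ (1 ≤ b → R0 a (b - 1) c d e) ∧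
     (1 ≤ b → R0 (a + 1) (b - 1) c d e) ∧ (1 ≤ c → R0 a b (c - 1) d e) ∧
     (1 ≤ d → R0 a b c (d - 1) e) ∧ (1 ≤ d → R0 (a + 1) b c (d - 1) e) ∧
     (1 ≤ e → R0 a b c d (e - 1)) ∧ (1 ≤ e → R0 a b c (d + 1) (e - 1)) := by
  unfold L0 at h
  unfold R0
  refine ⟨?_, ?_, ?_, ?_, ?_, ?_, ?_, ?_⟩ <;> intro h1 <;> omega

theorem R0_of (a b c d e : ℕ) : R0 a b c d e →
    ((1 ≤ a ∧ ¬ L0 (a - 1) b c d e) ∨ (1 ≤ b ∧ ¬ L0 a (b - 1) c d e) ∨
     (1 ≤ b ∧ ¬ L0 (a + 1) (b - 1) c d e) ∨ (1 ≤ c ∧ ¬ L0 a b (c - 1) d e) ∨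
     (1 ≤ c ∧ ¬ L0 (a + 1) b (c - 1) d e) ∨ (1 ≤ d ∧ ¬ L0 a b c (d - 1) e) ∨
     (1 ≤ e ∧ ¬ L0 a b c d (e - 1)) ∨ (1 ≤ e ∧ ¬ L0 a (b + 1) c d (e - 1))) := by
  unfold L0 R0
  intro h
  by_contra hcon
  push Not at hcon
  obtain ⟨h1, h2, h3, h4, h5, h6, h7, h8⟩ := hcon
  rcases h with h | ⟨h, h'⟩ | ⟨h, h', h''⟩ <;> omega

theorem R0_to (a b c d e : ℕ) (h : ¬ R0 a b c d e) :
    (1 ≤ a → L0 (a - 1) b c d e) ∧ (1 ≤ b → L0 a (b - 1) c d e) ∧
     (1 ≤ b → L0 (a + 1) (b - 1) c d e) ∧ (1 ≤ c → L0 a b (c - 1) d e) ∧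
     (1 ≤ c → L0 (a + 1) b (c - 1) d e) ∧ (1 ≤ d → L0 a b c (d - 1) e) ∧
     (1 ≤ e → L0 a b c d (e - 1)) ∧ (1 ≤ e → L0 a (b + 1) c d (e - 1)) := by
  unfold R0 at h
  unfold L0
  refine ⟨?_, ?_, ?_, ?_, ?_, ?_, ?_, ?_⟩ <;> intro h1 <;> omega

theorem L1_firm {a b c d e : ℕ} (h : 1 ≤ b ∨ 2 ≤ e) : L1 a b c d e ↔ L0 a b c d e := by
  unfold L1
  constructor
  · rintro (⟨-, h2⟩ | ⟨h2, h3, -⟩)
    · exact h2
    · omega
  · exact fun h2 => Or.inl ⟨h, h2⟩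

theorem L1_fickle {a b c d e : ℕ} (h : b = 0) (h' : e ≤ 1) : L1 a b c d e ↔ L0 (a + 1) b c d e := by
  unfold L1
  constructor
  · rintro (⟨h2, -⟩ | ⟨-, -, h2⟩)
    · omega
    · exact h2
  · exact fun h2 => Or.inr ⟨h, h', h2⟩

theorem R1_firm {a b c d e : ℕ} (h : 1 ≤ b ∨ 2 ≤ e) : R1 a b c d e ↔ R0 a b c d e := by
  unfold R1
  constructor
  · rintro (⟨-, h2⟩ | ⟨h2, h3, -⟩)
    · exact h2
    · omega
  · exact fun h2 => Or.inl ⟨h, h2⟩

theorem R1_fickle {a b c d e : ℕ} (h : b = 0) (h' : e ≤ 1) : R1 a b c d e ↔ R0 (a + 1) b c d e := by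
  unfold R1
  constructor
  · rintro (⟨h2, -⟩ | ⟨-, -, h2⟩)
    · omega
    · exact h2
  · exact fun h2 => Or.inr ⟨h, h', h2⟩

theorem L0_two (a b c d e : ℕ) : L0 (a + 1 + 1) b c d e ↔ L0 a b c d e := by
  unfold L0
  rw [show a + 1 + 1 + c + d + e = a + c + d + e + 2 by ring, Nat.add_mod_right]

theorem R0_two (a b c d e : ℕ) : R0 (a + 1 + 1) b c d e ↔ R0 a b c d e := by
  unfold R0
  rw [show a + 1 + 1 + c + d + e = a + c + d + e + 2 by ring, Nat.add_mod_right]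

theorem L1_of (a b c d e : ℕ) (h : L1 a b c d e) :
    (a = 0 ∧ b = 0 ∧ c = 0 ∧ d = 0 ∧ e = 0) ∨
    ((1 ≤ a ∧ ¬ R1 (a - 1) b c d e) ∨
     (1 ≤ b ∧ ¬ R1 a (b - 1) c d e) ∨
     (1 ≤ b ∧ ¬ R1 (a + 1) (b - 1) c d e) ∨
     (1 ≤ c ∧ ¬ R1 a b (c - 1) d e) ∨
     (1 ≤ d ∧ ¬ R1 a b c (d - 1) e) ∨
     (1 ≤ d ∧ ¬ R1 (a + 1) b c (d - 1) e) ∨
     (1 ≤ e ∧ ¬ R1 a b c d (e - 1)) ∨
     (1 ≤ e ∧ ¬ R1 a b c (d + 1) (e - 1))) := by
  by_cases hA : 2 ≤ b ∨ 3 ≤ e ∨ (1 ≤ b ∧ 2 ≤ e)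
  · -- all options are firm
    rw [L1_firm (by omega)] at h
    right
    rcases L0_of a b c d e h with h | h | h | h | h | h | h | h
    · exact Or.inl ⟨h.1, fun h2 => h.2 ((R1_firm (by omega)).1 h2)⟩
    · exact Or.inr (Or.inl ⟨h.1, fun h2 => h.2 ((R1_firm (by omega)).1 h2)⟩)
    · exact Or.inr (Or.inr (Or.inl ⟨h.1, fun h2 => h.2 ((R1_firm (by omega)).1 h2)⟩))
    · exact Or.inr (Or.inr (Or.inr (Or.inl ⟨h.1, fun h2 => h.2 ((R1_firm (by omega)).1 h2)⟩)))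
    · exact Or.inr (Or.inr (Or.inr (Or.inr (Or.inl ⟨h.1, fun h2 => h.2 ((R1_firm (by omega)).1 h2)⟩))))
    · exact Or.inr (Or.inr (Or.inr (Or.inr (Or.inr (Or.inl ⟨h.1, fun h2 => h.2 ((R1_firm (by omega)).1 h2)⟩)))))
    · exact Or.inr (Or.inr (Or.inr (Or.inr (Or.inr (Or.inr (Or.inl ⟨h.1, fun h2 => h.2 ((R1_firm (by omega)).1 h2)⟩))))))
    · exact Or.inr (Or.inr (Or.inr (Or.inr (Or.inr (Or.inr (Or.inr (⟨h.1, fun h2 => h.2 ((R1_firm (by omega)).1 h2)⟩)))))))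
  by_cases hB : b = 1
  · -- the options of `*2` are fickle
    rw [L1_firm (by omega)] at h
    right
    subst hB
    rcases L0_of a 1 c d e h with h | h | h | h | h | h | h | h
    · exact Or.inl ⟨h.1, fun h2 => h.2 ((R1_firm (by omega)).1 h2)⟩
    · exact Or.inr (Or.inr (Or.inl ⟨h.1, fun h2 => h.2 ((R0_two _ _ _ _ _).1 ((R1_fickle (by omega) (by omega)).1 h2))⟩))
    · exact Or.inr (Or.inl ⟨h.1, fun h2 => h.2 ((R1_fickle (by omega) (by omega)).1 h2)⟩)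
    · exact Or.inr (Or.inr (Or.inr (Or.inl ⟨h.1, fun h2 => h.2 ((R1_firm (by omega)).1 h2)⟩)))
    · exact Or.inr (Or.inr (Or.inr (Or.inr (Or.inl ⟨h.1, fun h2 => h.2 ((R1_firm (by omega)).1 h2)⟩))))
    · exact Or.inr (Or.inr (Or.inr (Or.inr (Or.inr (Or.inl ⟨h.1, fun h2 => h.2 ((R1_firm (by omega)).1 h2)⟩)))))
    · exact Or.inr (Or.inr (Or.inr (Or.inr (Or.inr (Or.inr (Or.inl ⟨h.1, fun h2 => h.2 ((R1_firm (by omega)).1 h2)⟩))))))
    · exact Or.inr (Or.inr (Or.inr (Or.inr (Or.inr (Or.inr (Or.inr (⟨h.1, fun h2 => h.2 ((R1_firm (by omega)).1 h2)⟩)))))))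
  have hb : b = 0 := by omega
  subst hb
  by_contra hcon
  push Not at hcon
  obtain ⟨h0, h1, h2, h3, h4, h5, h6, h7, h8⟩ := hcon
  clear h2 h3
  rcases (show e = 0 ∨ e = 1 ∨ e = 2 by omega) with he | he | he
  · subst he
    clear h7 h8
    rw [L1_fickle rfl (by omega)] at h
    rw [R1_fickle rfl (by omega)] at h1 h4 h5 h6
    unfold L0 at h
    unfold R0 at h1 h4 h5 h6
    omega
  · subst he
    rw [L1_fickle rfl (by omega)] at h
    rw [R1_fickle rfl (by omega)] at h1 h4 h5 h6 h7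
    rw [R1_fickle rfl (by omega)] at h8
    unfold L0 at h
    unfold R0 at h1 h4 h5 h6 h7 h8
    omega
  · subst he
    rw [L1_firm (by omega)] at h
    rw [R1_firm (by omega)] at h1 h4 h5 h6
    rw [R1_fickle rfl (by omega)] at h7
    rw [R1_fickle rfl (by omega)] at h8
    unfold L0 at h
    unfold R0 at h1 h4 h5 h6 h7 h8
    omega

theorem L1_to (a b c d e : ℕ) (h : ¬ L1 a b c d e) :
    ((1 ≤ a → R1 (a - 1) b c d e) ∧
     (1 ≤ b → R1 a (b - 1) c d e) ∧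
     (1 ≤ b → R1 (a + 1) (b - 1) c d e) ∧
     (1 ≤ c → R1 a b (c - 1) d e) ∧
     (1 ≤ d → R1 a b c (d - 1) e) ∧
     (1 ≤ d → R1 (a + 1) b c (d - 1) e) ∧
     (1 ≤ e → R1 a b c d (e - 1)) ∧
     (1 ≤ e → R1 a b c (d + 1) (e - 1))) := by
  by_cases hA : 2 ≤ b ∨ 3 ≤ e ∨ (1 ≤ b ∧ 2 ≤ e)
  · rw [L1_firm (by omega)] at h
    obtain ⟨h1, h2, h3, h4, h5, h6, h7, h8⟩ := L0_to a b c d e h
    exact ⟨fun k => (R1_firm (by omega)).2 (h1 k), fun k => (R1_firm (by omega)).2 (h2 k),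
      fun k => (R1_firm (by omega)).2 (h3 k), fun k => (R1_firm (by omega)).2 (h4 k),
      fun k => (R1_firm (by omega)).2 (h5 k), fun k => (R1_firm (by omega)).2 (h6 k),
      fun k => (R1_firm (by omega)).2 (h7 k), fun k => (R1_firm (by omega)).2 (h8 k)⟩
  by_cases hB : b = 1
  · subst hB
    rw [L1_firm (by omega)] at h
    obtain ⟨h1, h2, h3, h4, h5, h6, h7, h8⟩ := L0_to a 1 c d e h
    exact ⟨fun k => (R1_firm (by omega)).2 (h1 k),
      fun k => (R1_fickle (by omega) (by omega)).2 (h3 k),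
      fun k => (R1_fickle (by omega) (by omega)).2 ((R0_two _ _ _ _ _).2 (h2 k)),
      fun k => (R1_firm (by omega)).2 (h4 k),
      fun k => (R1_firm (by omega)).2 (h5 k), fun k => (R1_firm (by omega)).2 (h6 k),
      fun k => (R1_firm (by omega)).2 (h7 k), fun k => (R1_firm (by omega)).2 (h8 k)⟩
  have hb : b = 0 := by omega
  subst hb
  rcases (show e = 0 ∨ e = 1 ∨ e = 2 by omega) with he | he | he
  · subst he
    rw [L1_fickle rfl (by omega)] at h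
    unfold L0 at h
    refine ⟨fun k => ?_, fun k => ?_, fun k => ?_, fun k => ?_, fun k => ?_, fun k => ?_, fun k => ?_,
      fun k => ?_⟩
    · rw [R1_fickle rfl (by omega)]; unfold R0; omega
    · omega
    · omega
    · rw [R1_fickle rfl (by omega)]; unfold R0; omega
    · rw [R1_fickle rfl (by omega)]; unfold R0; omega
    · rw [R1_fickle rfl (by omega)]; unfold R0; omega
    · omega
    · omega
  · subst he
    rw [L1_fickle rfl (by omega)] at h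
    unfold L0 at h
    refine ⟨fun k => ?_, fun k => ?_, fun k => ?_, fun k => ?_, fun k => ?_, fun k => ?_, fun k => ?_,
      fun k => ?_⟩
    · rw [R1_fickle rfl (by omega)]; unfold R0; omega
    · omega
    · omega
    · rw [R1_fickle rfl (by omega)]; unfold R0; omega
    · rw [R1_fickle rfl (by omega)]; unfold R0; omega
    · rw [R1_fickle rfl (by omega)]; unfold R0; omega
    · rw [R1_fickle rfl (by omega)]; unfold R0; omega
    · rw [R1_fickle rfl (by omega)]; unfold R0; omega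
  · subst he
    rw [L1_firm (by omega)] at h
    unfold L0 at h
    refine ⟨fun k => ?_, fun k => ?_, fun k => ?_, fun k => ?_, fun k => ?_, fun k => ?_, fun k => ?_,
      fun k => ?_⟩
    · rw [R1_firm (by omega)]; unfold R0; omega
    · omega
    · omega
    · rw [R1_firm (by omega)]; unfold R0; omega
    · rw [R1_firm (by omega)]; unfold R0; omega
    · rw [R1_firm (by omega)]; unfold R0; omega
    · rw [R1_fickle rfl (by omega)]; unfold R0; omega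
    · rw [R1_fickle rfl (by omega)]; unfold R0; omega

theorem R1_of (a b c d e : ℕ) (h : R1 a b c d e) :
    (a = 0 ∧ b = 0 ∧ c = 0 ∧ d = 0 ∧ e = 0) ∨
    ((1 ≤ a ∧ ¬ L1 (a - 1) b c d e) ∨
     (1 ≤ b ∧ ¬ L1 a (b - 1) c d e) ∨
     (1 ≤ b ∧ ¬ L1 (a + 1) (b - 1) c d e) ∨
     (1 ≤ c ∧ ¬ L1 a b (c - 1) d e) ∨
     (1 ≤ c ∧ ¬ L1 (a + 1) b (c - 1) d e) ∨
     (1 ≤ d ∧ ¬ L1 a b c (d - 1) e) ∨
     (1 ≤ e ∧ ¬ L1 a b c d (e - 1)) ∨
     (1 ≤ e ∧ ¬ L1 a (b + 1) c d (e - 1))) := by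
  by_cases hA : 2 ≤ b ∨ 3 ≤ e ∨ (1 ≤ b ∧ 2 ≤ e)
  · -- all options are firm
    rw [R1_firm (by omega)] at h
    right
    rcases R0_of a b c d e h with h | h | h | h | h | h | h | h
    · exact Or.inl ⟨h.1, fun h2 => h.2 ((L1_firm (by omega)).1 h2)⟩
    · exact Or.inr (Or.inl ⟨h.1, fun h2 => h.2 ((L1_firm (by omega)).1 h2)⟩)
    · exact Or.inr (Or.inr (Or.inl ⟨h.1, fun h2 => h.2 ((L1_firm (by omega)).1 h2)⟩))
    · exact Or.inr (Or.inr (Or.inr (Or.inl ⟨h.1, fun h2 => h.2 ((L1_firm (by omega)).1 h2)⟩)))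
    · exact Or.inr (Or.inr (Or.inr (Or.inr (Or.inl ⟨h.1, fun h2 => h.2 ((L1_firm (by omega)).1 h2)⟩))))
    · exact Or.inr (Or.inr (Or.inr (Or.inr (Or.inr (Or.inl ⟨h.1, fun h2 => h.2 ((L1_firm (by omega)).1 h2)⟩)))))
    · exact Or.inr (Or.inr (Or.inr (Or.inr (Or.inr (Or.inr (Or.inl ⟨h.1, fun h2 => h.2 ((L1_firm (by omega)).1 h2)⟩))))))
    · exact Or.inr (Or.inr (Or.inr (Or.inr (Or.inr (Or.inr (Or.inr (⟨h.1, fun h2 => h.2 ((L1_firm (by omega)).1 h2)⟩)))))))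
  by_cases hB : b = 1
  · -- the options of `*2` are fickle
    rw [R1_firm (by omega)] at h
    right
    subst hB
    rcases R0_of a 1 c d e h with h | h | h | h | h | h | h | h
    · exact Or.inl ⟨h.1, fun h2 => h.2 ((L1_firm (by omega)).1 h2)⟩
    · exact Or.inr (Or.inr (Or.inl ⟨h.1, fun h2 => h.2 ((L0_two _ _ _ _ _).1 ((L1_fickle (by omega) (by omega)).1 h2))⟩))
    · exact Or.inr (Or.inl ⟨h.1, fun h2 => h.2 ((L1_fickle (by omega) (by omega)).1 h2)⟩)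
    · exact Or.inr (Or.inr (Or.inr (Or.inl ⟨h.1, fun h2 => h.2 ((L1_firm (by omega)).1 h2)⟩)))
    · exact Or.inr (Or.inr (Or.inr (Or.inr (Or.inl ⟨h.1, fun h2 => h.2 ((L1_firm (by omega)).1 h2)⟩))))
    · exact Or.inr (Or.inr (Or.inr (Or.inr (Or.inr (Or.inl ⟨h.1, fun h2 => h.2 ((L1_firm (by omega)).1 h2)⟩)))))
    · exact Or.inr (Or.inr (Or.inr (Or.inr (Or.inr (Or.inr (Or.inl ⟨h.1, fun h2 => h.2 ((L1_firm (by omega)).1 h2)⟩))))))
    · exact Or.inr (Or.inr (Or.inr (Or.inr (Or.inr (Or.inr (Or.inr (⟨h.1, fun h2 => h.2 ((L1_firm (by omega)).1 h2)⟩)))))))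
  have hb : b = 0 := by omega
  subst hb
  by_contra hcon
  push Not at hcon
  obtain ⟨h0, h1, h2, h3, h4, h5, h6, h7, h8⟩ := hcon
  clear h2 h3
  rcases (show e = 0 ∨ e = 1 ∨ e = 2 by omega) with he | he | he
  · subst he
    clear h7 h8
    rw [R1_fickle rfl (by omega)] at h
    rw [L1_fickle rfl (by omega)] at h1 h4 h5 h6
    unfold R0 at h
    unfold L0 at h1 h4 h5 h6
    omega
  · subst he
    rw [R1_fickle rfl (by omega)] at h
    rw [L1_fickle rfl (by omega)] at h1 h4 h5 h6 h7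
    rw [L1_firm (by omega)] at h8
    unfold R0 at h
    unfold L0 at h1 h4 h5 h6 h7 h8
    omega
  · subst he
    rw [R1_firm (by omega)] at h
    rw [L1_firm (by omega)] at h1 h4 h5 h6
    rw [L1_fickle rfl (by omega)] at h7
    rw [L1_firm (by omega)] at h8
    unfold R0 at h
    unfold L0 at h1 h4 h5 h6 h7 h8
    omega

theorem R1_to (a b c d e : ℕ) (h : ¬ R1 a b c d e) :
    ((1 ≤ a → L1 (a - 1) b c d e) ∧
     (1 ≤ b → L1 a (b - 1) c d e) ∧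
     (1 ≤ b → L1 (a + 1) (b - 1) c d e) ∧
     (1 ≤ c → L1 a b (c - 1) d e) ∧
     (1 ≤ c → L1 (a + 1) b (c - 1) d e) ∧
     (1 ≤ d → L1 a b c (d - 1) e) ∧
     (1 ≤ e → L1 a b c d (e - 1)) ∧
     (1 ≤ e → L1 a (b + 1) c d (e - 1))) := by
  by_cases hA : 2 ≤ b ∨ 3 ≤ e ∨ (1 ≤ b ∧ 2 ≤ e)
  · rw [R1_firm (by omega)] at h
    obtain ⟨h1, h2, h3, h4, h5, h6, h7, h8⟩ := R0_to a b c d e h
    exact ⟨fun k => (L1_firm (by omega)).2 (h1 k), fun k => (L1_firm (by omega)).2 (h2 k),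
      fun k => (L1_firm (by omega)).2 (h3 k), fun k => (L1_firm (by omega)).2 (h4 k),
      fun k => (L1_firm (by omega)).2 (h5 k), fun k => (L1_firm (by omega)).2 (h6 k),
      fun k => (L1_firm (by omega)).2 (h7 k), fun k => (L1_firm (by omega)).2 (h8 k)⟩
  by_cases hB : b = 1
  · subst hB
    rw [R1_firm (by omega)] at h
    obtain ⟨h1, h2, h3, h4, h5, h6, h7, h8⟩ := R0_to a 1 c d e h
    exact ⟨fun k => (L1_firm (by omega)).2 (h1 k),
      fun k => (L1_fickle (by omega) (by omega)).2 (h3 k),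
      fun k => (L1_fickle (by omega) (by omega)).2 ((L0_two _ _ _ _ _).2 (h2 k)),
      fun k => (L1_firm (by omega)).2 (h4 k),
      fun k => (L1_firm (by omega)).2 (h5 k), fun k => (L1_firm (by omega)).2 (h6 k),
      fun k => (L1_firm (by omega)).2 (h7 k), fun k => (L1_firm (by omega)).2 (h8 k)⟩
  have hb : b = 0 := by omega
  subst hb
  rcases (show e = 0 ∨ e = 1 ∨ e = 2 by omega) with he | he | he
  · subst he
    rw [R1_fickle rfl (by omega)] at h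
    unfold R0 at h
    refine ⟨fun k => ?_, fun k => ?_, fun k => ?_, fun k => ?_, fun k => ?_, fun k => ?_, fun k => ?_,
      fun k => ?_⟩
    · rw [L1_fickle rfl (by omega)]; unfold L0; omega
    · omega
    · omega
    · rw [L1_fickle rfl (by omega)]; unfold L0; omega
    · rw [L1_fickle rfl (by omega)]; unfold L0; omega
    · rw [L1_fickle rfl (by omega)]; unfold L0; omega
    · omega
    · omega
  · subst he
    rw [R1_fickle rfl (by omega)] at h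
    unfold R0 at h
    refine ⟨fun k => ?_, fun k => ?_, fun k => ?_, fun k => ?_, fun k => ?_, fun k => ?_, fun k => ?_,
      fun k => ?_⟩
    · rw [L1_fickle rfl (by omega)]; unfold L0; omega
    · omega
    · omega
    · rw [L1_fickle rfl (by omega)]; unfold L0; omega
    · rw [L1_fickle rfl (by omega)]; unfold L0; omega
    · rw [L1_fickle rfl (by omega)]; unfold L0; omega
    · rw [L1_fickle rfl (by omega)]; unfold L0; omega
    · rw [L1_firm (by omega)]; unfold L0; omega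
  · subst he
    rw [R1_firm (by omega)] at h
    unfold R0 at h
    refine ⟨fun k => ?_, fun k => ?_, fun k => ?_, fun k => ?_, fun k => ?_, fun k => ?_, fun k => ?_,
      fun k => ?_⟩
    · rw [L1_firm (by omega)]; unfold L0; omega
    · omega
    · omega
    · rw [L1_firm (by omega)]; unfold L0; omega
    · rw [L1_firm (by omega)]; unfold L0; omega
    · rw [L1_firm (by omega)]; unfold L0; omega
    · rw [L1_fickle rfl (by omega)]; unfold L0; omega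
    · rw [L1_firm (by omega)]; unfold L0; omega

end Pool.Agent.V11155.Wild5
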