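import Pool.Agent.V11155.TradeGames

/-!
Complete simple games given by a level function on the players (level `0` is the best) and a
finite antichain of minimal vectors of partial sums.
-/

set_option linter.unusedSectionVars false

namespace Pool.Agent.V11155.LevelGames

open Finset Pool.Agent.V11155.TradeGames

variable {N : Type} [Fintype N] [DecidableEq N] {t : ℕ}

/-- Number of members of level at most `i`. -/
def pc (lv : N → Fin t) (S : Finset N) (i : Fin t) : ℕ := (S.filter (fun x => lv x ≤ i)).card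

/-- Number of members of level `i`. -/
def cc (lv : N → Fin t) (S : Finset N) (i : Fin t) : ℕ := (S.filter (fun x => lv x = i)).card

/-- Data of a level game. -/
structure LG (N : Type) [Fintype N] [DecidableEq N] (t : ℕ) where
  lv : N → Fin t
  gens : Finset (Fin t → ℕ)
  ne : gens.Nonempty
  pos : ∀ g ∈ gens, ∃ i, 0 < g i
  real : ∀ g ∈ gens, ∃ S : Finset N, ∀ i, pc lv S i = g i
  anti : ∀ g ∈ gens, ∀ h ∈ gens, (∀ i, g i ≤ h i) → g = h
  surj : ∀ i, ∃ x, lv x = i
  adj : ∀ i j : Fin t, i.val + 1 = j.val → ∃ (T : Finset N) (y x : N),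
    (fun l => pc lv T l) ∈ gens ∧ y ∈ T ∧ x ∉ T ∧ lv y = i ∧ lv x = j

lemma pc_mono (lv : N → Fin t) {S T : Finset N} (h : S ⊆ T) (i : Fin t) :
    pc lv S i ≤ pc lv T i :=
  Finset.card_le_card (Finset.filter_subset_filter _ h)

lemma pc_insert (lv : N → Fin t) {S : Finset N} {x : N} (hx : x ∉ S) (i : Fin t) :
    pc lv (insert x S) i = pc lv S i + if lv x ≤ i then 1 else 0 := by
  unfold pc
  rw [Finset.filter_insert]
  split_ifs with h
  · rw [Finset.card_insert_of_notMem]
    simp [hx]
  · rfl

/-- The level game. -/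
def game (D : LG N t) : SimpleGame N where
  win S := ∃ g ∈ D.gens, ∀ i, g i ≤ pc D.lv S i
  mono S T h := by
    rintro ⟨g, hg, hS⟩
    exact ⟨g, hg, fun i => (hS i).trans (pc_mono D.lv h i)⟩
  empty := by
    rintro ⟨g, hg, hS⟩
    obtain ⟨i, hi⟩ := D.pos g hg
    have := hS i
    simp [pc] at this
    omega
  full := by
    obtain ⟨g, hg⟩ := D.ne
    obtain ⟨S, hS⟩ := D.real g hg
    exact ⟨g, hg, fun i => by rw [← hS i]; exact pc_mono D.lv (Finset.subset_univ S) i⟩

lemma game_win (D : LG N t) (S : Finset N) :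
    (game D).win S ↔ ∃ g ∈ D.gens, ∀ i, g i ≤ pc D.lv S i := Iff.rfl

lemma des_of_le (D : LG N t) {x y : N} (h : D.lv x ≤ D.lv y) : Des (game D) x y := by
  intro S hx hy
  rintro ⟨g, hg, hS⟩
  refine ⟨g, hg, fun i => ?_⟩
  have h1 := hS i
  rw [pc_insert _ hy] at h1
  rw [pc_insert _ hx]
  by_cases h2 : D.lv y ≤ i
  · rw [if_pos h2] at h1
    rw [if_pos (h.trans h2)]
    exact h1
  · rw [if_neg h2] at h1
    omega

lemma not_des (D : LG N t) {x y : N} (h : D.lv y < D.lv x) : ¬ Des (game D) x y := by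
  intro hd
  have hb : (D.lv y).val + 1 < t := by
    have := (D.lv x).isLt
    have h2 : (D.lv y).val < (D.lv x).val := h
    omega
  obtain ⟨T, y', x', hT, hy', hx', e1, e2⟩ := D.adj (D.lv y) ⟨(D.lv y).val + 1, hb⟩ rfl
  have h1 : Des (game D) x' x := des_of_le D (by
    rw [e2, Fin.le_def]
    exact h)
  have h2 : Des (game D) y y' := des_of_le D (by rw [e1])
  have h3 : Des (game D) x' y' := des_trans _ (des_trans _ h1 hd) h2
  have h4 := h3 (T.erase y') (by simp [hx']) (by simp) (by
    rw [Finset.insert_erase hy']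
    exact ⟨_, hT, fun i => le_rfl⟩)
  obtain ⟨g, hg, hS⟩ := h4
  have hxe : x' ∉ T.erase y' := by simp [hx']
  have hpT : ∀ i, pc D.lv T i = pc D.lv (T.erase y') i + if D.lv y' ≤ i then 1 else 0 := by
    intro i
    rw [← pc_insert _ (by simp), Finset.insert_erase hy']
  have h5 : ∀ i, pc D.lv (insert x' (T.erase y')) i ≤ pc D.lv T i := by
    intro i
    rw [pc_insert _ hxe, hpT, e1, e2]
    split_ifs with h6 h7
    · exact le_rfl
    · exfalso
      apply h7
      rw [Fin.le_def] at h6 ⊢
      simp only at h6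
      omega
    · omega
    · exact le_rfl
  have h6 : g = fun l => pc D.lv T l := D.anti g hg _ hT (fun i => (hS i).trans (h5 i))
  have h7 := hS (D.lv y)
  rw [h6] at h7
  simp only at h7
  rw [pc_insert _ hxe, hpT, e1, e2, if_pos le_rfl, if_neg] at h7
  · omega
  · rw [Fin.le_def]
    simp

lemma des_iff (D : LG N t) (x y : N) : Des (game D) x y ↔ D.lv x ≤ D.lv y :=
  ⟨fun h => not_lt.1 (fun h2 => not_des D h2 h), fun h => des_of_le D h⟩

lemma complete_game (D : LG N t) : Complete (game D) := by
  intro i j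
  rw [des_iff, des_iff]
  exact le_total _ _

lemma numTypes_game (D : LG N t) : numTypes (game D) = t := by
  unfold numTypes
  have hset : {C : Set N | ∃ i : N, C = {j : N | Des (game D) i j ∧ Des (game D) j i}}
      = (fun l : Fin t => {x : N | D.lv x = l}) '' Set.univ := by
    ext C
    simp only [Set.mem_ofPred_eq, Set.mem_image, Set.mem_univ, true_and]
    constructor
    · rintro ⟨i, rfl⟩
      refine ⟨D.lv i, ?_⟩
      ext z
      simp only [Set.mem_ofPred_eq, des_iff]
      constructor
      · intro h; rw [h]; exact ⟨le_rfl, le_rfl⟩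
      · rintro ⟨h1, h2⟩; exact le_antisymm h2 h1
    · rintro ⟨l, rfl⟩
      obtain ⟨i, hi⟩ := D.surj l
      refine ⟨i, ?_⟩
      ext z
      simp only [Set.mem_ofPred_eq, des_iff, hi]
      constructor
      · intro h; rw [h]; exact ⟨le_rfl, le_rfl⟩
      · rintro ⟨h1, h2⟩; exact le_antisymm h2 h1
  rw [hset, Set.ncard_image_of_injective, Set.ncard_univ]
  · simp
  · intro a b hab
    obtain ⟨i, hi⟩ := D.surj a
    have h2 : i ∈ {x : N | D.lv x = a} := hi
    have hab' : {x : N | D.lv x = a} = {x : N | D.lv x = b} := hab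
    rw [hab'] at h2
    exact hi.symm.trans h2

lemma psum_game (D : LG N t) (S : Finset N) (x : N) :
    psum (game D) S x = pc D.lv S (D.lv x) := by
  classical
  unfold psum pc
  rw [Finset.filter_congr (fun y _ => des_iff D y x)]

lemma typ_game (D : LG N t) (S : Finset N) (x : N) :
    typ (game D) S x = cc D.lv S (D.lv x) := by
  classical
  unfold typ cc
  rw [Finset.filter_congr (q := fun y => D.lv y = D.lv x)]
  intro y _
  rw [des_iff, des_iff]
  constructor
  · rintro ⟨h1, h2⟩; exact le_antisymm h1 h2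
  · intro h; rw [h]; exact ⟨le_rfl, le_rfl⟩

lemma pc_eq_sum (lv : N → Fin t) (S : Finset N) (i : Fin t) :
    pc lv S i = ∑ j ∈ univ.filter (fun j => j ≤ i), cc lv S j := by
  unfold pc cc
  rw [Finset.card_eq_sum_card_fiberwise (f := lv) (t := univ.filter (fun j => j ≤ i))]
  · refine Finset.sum_congr rfl (fun j hj => ?_)
    congr 1
    ext x
    simp only [Finset.mem_filter, Finset.mem_univ, true_and] at hj ⊢
    constructor
    · rintro ⟨⟨h1, _⟩, h2⟩; exact ⟨h1, h2⟩
    · rintro ⟨h1, h2⟩; exact ⟨⟨h1, by rw [h2]; exact hj⟩, h2⟩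
  · intro x hx
    simp only [Finset.coe_filter, Set.mem_ofPred_eq] at hx
    simp only [Finset.coe_filter, Finset.mem_univ, true_and, Set.mem_ofPred_eq]
    exact hx.2

lemma cc_of_pc (lv : N → Fin t) {S T : Finset N} (h : ∀ i, pc lv S i = pc lv T i) (i : Fin t) :
    cc lv S i = cc lv T i := by
  have key : ∀ R : Finset N, pc lv R i = cc lv R i + (R.filter (fun x => lv x < i)).card := by
    intro R
    unfold pc cc
    rw [← Finset.card_union_of_disjoint]
    · congr 1
      ext x
      simp only [Finset.mem_filter, Finset.mem_union]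
      constructor
      · rintro ⟨h1, h2⟩
        rcases eq_or_lt_of_le h2 with h3 | h3
        · exact Or.inl ⟨h1, h3⟩
        · exact Or.inr ⟨h1, h3⟩
      · rintro (⟨h1, h2⟩ | ⟨h1, h2⟩)
        · exact ⟨h1, by rw [h2]⟩
        · exact ⟨h1, h2.le⟩
    · rw [Finset.disjoint_left]
      intro x hx hx2
      simp only [Finset.mem_filter] at hx hx2
      exact absurd hx.2 (ne_of_lt hx2.2)
  have key2 : (S.filter (fun x => lv x < i)).card = (T.filter (fun x => lv x < i)).card := by
    rcases Nat.eq_zero_or_pos i.val with h0 | h0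
    · have : ∀ R : Finset N, R.filter (fun x => lv x < i) = ∅ := by
        intro R
        ext x
        simp only [Finset.mem_filter, Finset.notMem_empty, iff_false, not_and, Fin.lt_def]
        intro _
        omega
      rw [this, this]
    · have hi := i.isLt
      have : ∀ R : Finset N, R.filter (fun x => lv x < i)
          = R.filter (fun x => lv x ≤ ⟨i.val - 1, by omega⟩) := by
        intro R
        ext x
        simp only [Finset.mem_filter, Fin.lt_def, Fin.le_def]
        constructor
        · rintro ⟨h1, h2⟩; exact ⟨h1, by omega⟩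
        · rintro ⟨h1, h2⟩; exact ⟨h1, by omega⟩
      rw [this, this]
      exact h _
  have h1 := key S
  have h2 := key T
  have h3 := h i
  omega

lemma typ_eq_iff (D : LG N t) (S T : Finset N) :
    typ (game D) S = typ (game D) T ↔ ∀ i, pc D.lv S i = pc D.lv T i := by
  constructor
  · intro h i
    rw [pc_eq_sum, pc_eq_sum]
    refine Finset.sum_congr rfl (fun j _ => ?_)
    obtain ⟨x, hx⟩ := D.surj j
    have := congrFun h x
    rwa [typ_game, typ_game, hx] at this
  · intro h
    funext x
    rw [typ_game, typ_game]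
    exact cc_of_pc D.lv h _

lemma psum_le_iff (D : LG N t) (S T : Finset N) :
    (∀ x, psum (game D) S x ≤ psum (game D) T x) ↔ ∀ i, pc D.lv S i ≤ pc D.lv T i := by
  constructor
  · intro h i
    obtain ⟨x, hx⟩ := D.surj i
    have := h x
    rwa [psum_game, psum_game, hx] at this
  · intro h x
    rw [psum_game, psum_game]
    exact h _

lemma smw_iff (D : LG N t) (S : Finset N) :
    SMW (game D) S ↔ (fun l => pc D.lv S l) ∈ D.gens := by
  constructor
  · rintro ⟨⟨g, hg, hS⟩, hmin⟩
    obtain ⟨T, hT⟩ := D.real g hg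
    by_contra hne
    refine hmin T ((psum_le_iff D _ _).2 (fun i => by rw [hT i]; exact hS i)) ?_
      ⟨g, hg, fun i => by rw [hT i]⟩
    intro h
    rw [typ_eq_iff] at h
    apply hne
    have : (fun l => pc D.lv S l) = g := by
      funext l
      rw [← h l, hT l]
    rw [this]
    exact hg
  · intro hS
    refine ⟨⟨_, hS, fun i => le_rfl⟩, ?_⟩
    rintro T hT hne ⟨g, hg, hgT⟩
    rw [psum_le_iff] at hT
    apply hne
    rw [typ_eq_iff]
    have := D.anti g hg _ hS (fun i => (hgT i).trans (hT i))
    intro i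
    apply le_antisymm (hT i)
    have h2 : g i = pc D.lv S i := congrFun this i
    rw [← h2]
    exact hgT i

lemma numSMW_game (D : LG N t) : numSMW (game D) = D.gens.card := by
  classical
  unfold numSMW
  choose! f hf using D.real
  have hset : {h : N → ℕ | ∃ S : Finset N, SMW (game D) S ∧ h = typ (game D) S}
      = (fun g => typ (game D) (f g)) '' (D.gens : Set (Fin t → ℕ)) := by
    ext h
    simp only [Set.mem_ofPred_eq, Set.mem_image, Finset.mem_coe]
    constructor
    · rintro ⟨S, hS, rfl⟩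
      rw [smw_iff] at hS
      refine ⟨_, hS, ?_⟩
      rw [typ_eq_iff]
      intro i
      exact hf _ hS i
    · rintro ⟨g, hg, rfl⟩
      refine ⟨f g, ?_, rfl⟩
      rw [smw_iff]
      have : (fun l => pc D.lv (f g) l) = g := by
        funext l
        exact hf g hg l
      rw [this]
      exact hg
  have hinj : Set.InjOn (fun g => typ (game D) (f g)) (D.gens : Set (Fin t → ℕ)) := by
    intro g hg h hh hgh
    have hgh' : typ (game D) (f g) = typ (game D) (f h) := hgh
    rw [typ_eq_iff] at hgh'
    funext i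
    rw [← hf g hg i, ← hf h hh i]
    exact hgh' i
  rw [hset, hinj.ncard_image]
  exact Set.ncard_coe_finset D.gens

/-- In a trade the total numbers of members with a given property agree. -/
lemma trade_sum {j : ℕ} (P : N → Prop) [DecidablePred P] (X Y : Fin j → Finset N)
    (h : ∀ p : N, (univ.filter (fun i => p ∈ X i)).card
      = (univ.filter (fun i => p ∈ Y i)).card) :
    ∑ i, ((X i).filter P).card = ∑ i, ((Y i).filter P).card := by
  have key : ∀ Z : Fin j → Finset N, ∑ i, ((Z i).filter P).card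
      = ∑ p, if P p then (univ.filter (fun i => p ∈ Z i)).card else 0 := by
    intro Z
    have h1 : ∀ i, ((Z i).filter P).card = ∑ p, if p ∈ Z i ∧ P p then 1 else 0 := by
      intro i
      rw [← Finset.card_filter]
      congr 1
      ext p
      simp
    simp_rw [h1]
    rw [Finset.sum_comm]
    refine Finset.sum_congr rfl (fun p _ => ?_)
    by_cases hp : P p
    · simp only [hp, and_true, if_true]
      rw [Finset.card_filter]
    · simp [hp]
  rw [key, key]
  refine Finset.sum_congr rfl (fun p _ => ?_)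
  rw [h p]

/-- A certificate for trade robustness: a linear functional of the partial sums separating
weakly the winning from the losing coalitions, and another one which obstructs short trades on
the tie hyperplane. -/
lemma tr_cert (G : SimpleGame N) (lv : N → Fin t) (d c : Fin t → ℤ) (q e : ℤ) (L : ℕ)
    (he : e * e = 1)
    (hX : ∀ S, G.win S → q ≤ ∑ l, d l * (pc lv S l : ℤ) ∧
      (∑ l, d l * (pc lv S l : ℤ) = q → (L : ℤ) ∣ ∑ l, c l * (pc lv S l : ℤ) - e))
    (hY : ∀ S, ¬ G.win S → ∑ l, d l * (pc lv S l : ℤ) ≤ q ∧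
      (∑ l, d l * (pc lv S l : ℤ) = q → (L : ℤ) ∣ ∑ l, c l * (pc lv S l : ℤ))) (hL : 0 < L) :
    TradeRobust G (L - 1) := by
  intro j hj hjL X Y hwX hlY htr
  have hpc : ∀ l, ∑ i, (pc lv (X i) l : ℤ) = ∑ i, (pc lv (Y i) l : ℤ) := by
    intro l
    have := trade_sum (fun x => lv x ≤ l) X Y htr
    unfold pc
    exact_mod_cast this
  have hlin : ∀ a : Fin t → ℤ, ∑ i, ∑ l, a l * (pc lv (X i) l : ℤ)
      = ∑ i, ∑ l, a l * (pc lv (Y i) l : ℤ) := by
    intro a
    rw [Finset.sum_comm]
    conv_rhs => rw [Finset.sum_comm]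
    refine Finset.sum_congr rfl (fun l _ => ?_)
    rw [← Finset.mul_sum, ← Finset.mul_sum, hpc l]
  have e1 : ∑ _i : Fin j, q = ∑ i, ∑ l, d l * (pc lv (X i) l : ℤ) := by
    apply le_antisymm
    · exact Finset.sum_le_sum (fun i _ => (hX _ (hwX i)).1)
    · rw [hlin d]
      exact Finset.sum_le_sum (fun i _ => (hY _ (hlY i)).1)
  have hXe : ∀ i, ∑ l, d l * (pc lv (X i) l : ℤ) = q := by
    intro i
    exact ((Finset.sum_eq_sum_iff_of_le (fun i _ => (hX _ (hwX i)).1)).1 e1 i
      (Finset.mem_univ i)).symm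
  have hYe : ∀ i, ∑ l, d l * (pc lv (Y i) l : ℤ) = q := by
    intro i
    exact (Finset.sum_eq_sum_iff_of_le (fun i _ => (hY _ (hlY i)).1)).1 (by rw [← hlin d, ← e1]) i
      (Finset.mem_univ i)
  have h1 : (L : ℤ) ∣ ∑ i, (∑ l, c l * (pc lv (X i) l : ℤ) - e) :=
    Finset.dvd_sum (fun i _ => (hX _ (hwX i)).2 (hXe i))
  have h2 : (L : ℤ) ∣ ∑ i, ∑ l, c l * (pc lv (Y i) l : ℤ) :=
    Finset.dvd_sum (fun i _ => (hY _ (hlY i)).2 (hYe i))
  rw [Finset.sum_sub_distrib, hlin c, Finset.sum_const, Finset.card_univ, Fintype.card_fin,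
    nsmul_eq_mul] at h1
  have h3 : (L : ℤ) ∣ (j : ℤ) * e := (Int.dvd_iff_dvd_of_dvd_sub h1).1 h2
  have h4 : (L : ℤ) ∣ (j : ℤ) * e * e := Dvd.dvd.mul_right h3 e
  rw [mul_assoc, he, mul_one] at h4
  have h5 : L ∣ j := by exact_mod_cast h4
  have := Nat.le_of_dvd hj h5
  omega

end Pool.Agent.V11155.LevelGames
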