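import Mathlib

/-!
# Pairs of edges in a common negative circle of a signed graph
-/

set_option autoImplicit false

namespace Pool.Agent.V11155.NegPair

open SimpleGraph Finset

/-- The sign of a walk: the product of the signs of its edges. -/
def walkSign {V : Type} {G : SimpleGraph V} (σ : Sym2 V → ℤˣ) {u v : V} (w : G.Walk u v) : ℤˣ :=
  (w.edges.map σ).prod

/-- The negative pair property: every two distinct edges lie together in a negative circle. -/
def NegPairProp {V : Type} (G : SimpleGraph V) (σ : Sym2 V → ℤˣ) : Prop :=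
  ∀ e ∈ G.edgeSet, ∀ f ∈ G.edgeSet, e ≠ f →
    ∃ (v : V) (c : G.Walk v v), c.IsCycle ∧ e ∈ c.edges ∧ f ∈ c.edges ∧ walkSign σ c = -1

/-- the value `σ(uv) p(u) p(v)` on the edge `uv` -/
def defect {V : Type} (σ : Sym2 V → ℤˣ) (p : V → ℤˣ) : Sym2 V → ℤˣ := fun e =>
  σ e * Sym2.lift ⟨fun u v => p u * p v, fun _ _ => mul_comm _ _⟩ e

theorem defect_mk {V : Type} (σ : Sym2 V → ℤˣ) (p : V → ℤˣ) (u v : V) :
    defect σ p s(u, v) = σ s(u, v) * (p u * p v) := rfl

theorem sq1 (a : ℤˣ) : a * a = 1 := by
  rcases Int.units_eq_one_or a with h | h <;> rw [h] <;> decide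

theorem walkSign_defect {V : Type} {G : SimpleGraph V} (σ : Sym2 V → ℤˣ) (p : V → ℤˣ) {u v : V}
    (w : G.Walk u v) : walkSign σ w = p u * p v * walkSign (defect σ p) w := by
  induction w with
  | nil => simp [walkSign, sq1 _]
  | @cons a b c h w ih =>
    have e1 : walkSign σ (Walk.cons h w) = σ s(a, b) * walkSign σ w := by simp [walkSign]
    have e2 : walkSign (defect σ p) (Walk.cons h w) = defect σ p s(a, b) * walkSign (defect σ p) w := by
      simp [walkSign]
    rw [e1, e2, ih, defect_mk]
    have h1 := sq1 (p a)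
    calc σ s(a, b) * (p b * p c * walkSign (defect σ p) w)
        = (p a * p a) * (σ s(a, b) * (p b * p c * walkSign (defect σ p) w)) := by rw [h1, one_mul]
      _ = p a * p c * (σ s(a, b) * (p a * p b) * walkSign (defect σ p) w) := by
        simp only [mul_comm, mul_left_comm, mul_assoc]

theorem closed_sign {V : Type} {G : SimpleGraph V} (σ : Sym2 V → ℤˣ) (p : V → ℤˣ) {u : V}
    (w : G.Walk u u) : walkSign σ w = walkSign (defect σ p) w := by
  rw [walkSign_defect σ p w, sq1, one_mul]

theorem sign_pair {V : Type} {G : SimpleGraph V} (δ : Sym2 V → ℤˣ) {u : V} (c : G.Walk u u)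
    (hc : c.IsCycle) (e f : Sym2 V) (hef : e ≠ f) (he : e ∈ c.edges) (hf : f ∈ c.edges)
    (hδ : ∀ g ∈ c.edges, g ≠ e → g ≠ f → δ g = 1) : walkSign δ c = δ e * δ f := by
  classical
  have hnd : c.edges.Nodup := hc.isTrail.edges_nodup
  unfold walkSign
  rw [← List.prod_toFinset δ hnd]
  rw [← Finset.prod_pair hef]
  symm
  apply Finset.prod_subset
  · intro g hg
    simp only [Finset.mem_insert, Finset.mem_singleton] at hg
    rcases hg with rfl | rfl
    · simpa using he
    · simpa using hf
  · intro g hg1 hg2
    simp only [Finset.mem_insert, Finset.mem_singleton, not_or] at hg2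
    exact hδ g (by simpa using hg1) hg2.1 hg2.2

/-- a vertex with three neighbours all of whose non-incident edges are positive after switching -/
theorem fail_vertex {V : Type} {G : SimpleGraph V} (σ : Sym2 V → ℤˣ) (p : V → ℤˣ) (x : V)
    (hp : ∀ u v, G.Adj u v → u ≠ x → v ≠ x → σ s(u, v) = p u * p v)
    (a b c : V) (ha : G.Adj x a) (hb : G.Adj x b) (hc : G.Adj x c) (hab : a ≠ b) (hac : a ≠ c)
    (hbc : b ≠ c) : ¬ NegPairProp G σ := by
  intro hN
  have key : ∀ u w, G.Adj x u → G.Adj x w → u ≠ w → defect σ p s(x, u) ≠ defect σ p s(x, w) := by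
    intro u w hu hw huw heq
    have hne : s(x, u) ≠ s(x, w) := fun h => huw (Sym2.congr_right.mp h)
    obtain ⟨v, C, hC, h1, h2, h3⟩ := hN _ (G.mem_edgeSet.mpr hu) _ (G.mem_edgeSet.mpr hw) hne
    rw [closed_sign σ p C, sign_pair (defect σ p) C hC _ _ hne h1 h2 ?_, heq, sq1] at h3
    · exact absurd h3 (by decide)
    · intro g hg hgu hgw
      induction g using Sym2.ind with
      | _ y z =>
        have hyz : G.Adj y z := C.adj_of_mem_edges hg
        have hx : x ∈ C.support := C.fst_mem_support_of_mem_edges h1
        have hcard := hC.ncard_neighborSet_toSubgraph_eq_two hx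
        have hsub : ({u, w} : Set V) ⊆ C.toSubgraph.neighborSet x := by
          intro t ht
          rcases ht with rfl | rfl
          · change C.toSubgraph.Adj x t
            rw [← Subgraph.mem_edgeSet, Walk.mem_edges_toSubgraph]; exact h1
          · change C.toSubgraph.Adj x t
            rw [← Subgraph.mem_edgeSet, Walk.mem_edges_toSubgraph]; exact h2
        have hfin : (C.toSubgraph.neighborSet x).Finite := by
          apply Set.finite_of_ncard_pos
          omega
        have heq2 : ({u, w} : Set V) = C.toSubgraph.neighborSet x :=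
          Set.eq_of_subset_of_ncard_le hsub (by rw [hcard, Set.ncard_pair huw]) hfin
        have hin : ∀ t, s(x, t) ∈ C.edges → t = u ∨ t = w := by
          intro t ht
          have : t ∈ C.toSubgraph.neighborSet x := by
            change C.toSubgraph.Adj x t
            rw [← Subgraph.mem_edgeSet, Walk.mem_edges_toSubgraph]; exact ht
          rw [← heq2] at this
          exact this
        have hy : y ≠ x := by
          rintro rfl
          rcases hin z hg with rfl | rfl
          · exact hgu rfl
          · exact hgw rfl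
        have hz : z ≠ x := by
          rintro rfl
          have hg' : s(z, y) ∈ C.edges := by rw [Sym2.eq_swap]; exact hg
          rcases hin y hg' with rfl | rfl
          · exact hgu Sym2.eq_swap
          · exact hgw Sym2.eq_swap
        rw [defect_mk, hp y z hyz hy hz]
        exact sq1 _
  have k1 := key a b ha hb hab
  have k2 := key a c ha hc hac
  have k3 := key b c hb hc hbc
  rcases Int.units_eq_one_or (defect σ p s(x, a)) with h1 | h1 <;>
    rcases Int.units_eq_one_or (defect σ p s(x, b)) with h2 | h2 <;>
    rcases Int.units_eq_one_or (defect σ p s(x, c)) with h3 | h3 <;>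
    simp_all

/-- two edges such that all other edges are positive after switching -/
theorem fail_edges {V : Type} {G : SimpleGraph V} (σ : Sym2 V → ℤˣ) (p : V → ℤˣ) (e f : Sym2 V)
    (he : e ∈ G.edgeSet) (hf : f ∈ G.edgeSet) (hef : e ≠ f)
    (hdeg : ∀ x : V, ∃ a b c : V, G.Adj x a ∧ G.Adj x b ∧ G.Adj x c ∧ a ≠ b ∧ a ≠ c ∧ b ≠ c)
    (hp : ∀ u v, G.Adj u v → s(u, v) ≠ e → s(u, v) ≠ f → σ s(u, v) = p u * p v) :
    ¬ NegPairProp G σ := by
  intro hN
  obtain ⟨v, C, hC, h1, h2, h3⟩ := hN e he f hf hef
  rw [closed_sign σ p C, sign_pair (defect σ p) C hC _ _ hef h1 h2 ?_] at h3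
  · have main : ∀ e f : Sym2 V, e ∈ G.edgeSet → defect σ p f = 1 →
        (∀ u v, G.Adj u v → s(u, v) ≠ e → s(u, v) ≠ f → σ s(u, v) = p u * p v) → False := by
      intro e f he hf1 hp
      induction e using Sym2.ind with
      | _ a b =>
        obtain ⟨a1, a2, a3, n1, n2, n3, d1, d2, d3⟩ := hdeg a
        refine fail_vertex σ p a ?_ a1 a2 a3 n1 n2 n3 d1 d2 d3 hN
        intro u v huv hu hv
        have hne : s(u, v) ≠ s(a, b) := by
          intro h
          rw [Sym2.eq_iff] at h
          rcases h with h | h
          · exact hu h.1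
          · exact hv h.2
        by_cases hfe : s(u, v) = f
        · rw [← hfe, defect_mk] at hf1
          have := sq1 (p u * p v)
          calc σ s(u, v) = σ s(u, v) * ((p u * p v) * (p u * p v)) := by rw [this, mul_one]
            _ = (σ s(u, v) * (p u * p v)) * (p u * p v) := (mul_assoc _ _ _).symm
            _ = p u * p v := by rw [hf1, one_mul]
        · exact hp u v huv hne hfe
    rcases Int.units_eq_one_or (defect σ p e) with h4 | h4
    · exact main f e hf h4 (fun u v h a b => hp u v h b a)
    · rcases Int.units_eq_one_or (defect σ p f) with h5 | h5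
      · exact main e f he h5 hp
      · rw [h4, h5] at h3
        exact absurd h3 (by decide)
  · intro g hg hge hgf
    induction g using Sym2.ind with
    | _ y z =>
      have hyz : G.Adj y z := C.adj_of_mem_edges hg
      rw [defect_mk, hp y z hyz hge hgf]
      exact sq1 _

end Pool.Agent.V11155.NegPair
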