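import Pool.Agent.V11155.NegPairA

set_option autoImplicit false
set_option linter.unusedSimpArgs false

namespace Pool.Agent.V11155.NegPair

open SimpleGraph Finset

section Cyc

variable {V : Type} (σ : Sym2 V → ℤˣ)


theorem cyc3 {a b c : V} (hab : a ≠ b) (hbc : b ≠ c) (hca : c ≠ a) :
    ∃ C : (⊤ : SimpleGraph V).Walk a a, C.IsCycle ∧ C.edges = [s(a, b), s(b, c), s(c, a)] := by
  refine ⟨Walk.cons (show (⊤ : SimpleGraph V).Adj a b from hab) (Walk.cons
    (show (⊤ : SimpleGraph V).Adj b c from hbc) (Walk.cons (show (⊤ : SimpleGraph V).Adj c a from hca)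
    Walk.nil)), ?_, by simp⟩
  rw [Walk.cons_isCycle_iff]
  refine ⟨?_, ?_⟩
  · simp [Walk.cons_isPath_iff, hbc, hca, hab, hab.symm]
  · simp [hab, hbc, hca, hab.symm, hbc.symm, hca.symm, Sym2.eq_iff]

theorem cyc4 {a b c d : V} (hab : a ≠ b) (hbc : b ≠ c) (hcd : c ≠ d) (hda : d ≠ a) (hac : a ≠ c)
    (hbd : b ≠ d) :
    ∃ C : (⊤ : SimpleGraph V).Walk a a, C.IsCycle ∧
      C.edges = [s(a, b), s(b, c), s(c, d), s(d, a)] := by
  refine ⟨Walk.cons (show (⊤ : SimpleGraph V).Adj a b from hab) (Walk.cons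
    (show (⊤ : SimpleGraph V).Adj b c from hbc) (Walk.cons (show (⊤ : SimpleGraph V).Adj c d from hcd)
    (Walk.cons (show (⊤ : SimpleGraph V).Adj d a from hda) Walk.nil))), ?_, by simp⟩
  rw [Walk.cons_isCycle_iff]
  refine ⟨?_, ?_⟩
  · simp [Walk.cons_isPath_iff, hbc, hcd, hda, hac.symm, hbd, hab.symm]
  · simp [hab, hbc, hcd, hda, hab.symm, hbc.symm, hcd.symm, hda.symm, hac, hac.symm, hbd,
      hbd.symm, Sym2.eq_iff]

theorem cyc5 {a b c d e : V} (hab : a ≠ b) (hbc : b ≠ c) (hcd : c ≠ d) (hde : d ≠ e) (hea : e ≠ a)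
    (hac : a ≠ c) (had : a ≠ d) (hbd : b ≠ d) (hbe : b ≠ e) (hce : c ≠ e) :
    ∃ C : (⊤ : SimpleGraph V).Walk a a, C.IsCycle ∧
      C.edges = [s(a, b), s(b, c), s(c, d), s(d, e), s(e, a)] := by
  refine ⟨Walk.cons (show (⊤ : SimpleGraph V).Adj a b from hab) (Walk.cons
    (show (⊤ : SimpleGraph V).Adj b c from hbc) (Walk.cons (show (⊤ : SimpleGraph V).Adj c d from hcd)
    (Walk.cons (show (⊤ : SimpleGraph V).Adj d e from hde)
    (Walk.cons (show (⊤ : SimpleGraph V).Adj e a from hea) Walk.nil)))), ?_, by simp⟩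
  rw [Walk.cons_isCycle_iff]
  refine ⟨?_, ?_⟩
  · simp [Walk.cons_isPath_iff, hbc, hcd, hde, hea, hac.symm, had.symm, hbd, hbe, hce, hab.symm]
  · simp [hab, hbc, hcd, hde, hea, hab.symm, hbc.symm, hcd.symm, hde.symm, hea.symm, hac, hac.symm,
      hbd, hbd.symm, had, had.symm, hbe, hbe.symm, hce, hce.symm, Sym2.eq_iff]

theorem cyc6 {a b c d e f : V} (hab : a ≠ b) (hbc : b ≠ c) (hcd : c ≠ d) (hde : d ≠ e)
    (hef : e ≠ f) (hfa : f ≠ a)
    (hac : a ≠ c) (had : a ≠ d) (hae : a ≠ e) (hbd : b ≠ d) (hbe : b ≠ e) (hbf : b ≠ f)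
    (hce : c ≠ e) (hcf : c ≠ f) (hdf : d ≠ f) :
    ∃ C : (⊤ : SimpleGraph V).Walk a a, C.IsCycle ∧
      C.edges = [s(a, b), s(b, c), s(c, d), s(d, e), s(e, f), s(f, a)] := by
  refine ⟨Walk.cons (show (⊤ : SimpleGraph V).Adj a b from hab) (Walk.cons
    (show (⊤ : SimpleGraph V).Adj b c from hbc) (Walk.cons (show (⊤ : SimpleGraph V).Adj c d from hcd)
    (Walk.cons (show (⊤ : SimpleGraph V).Adj d e from hde)
    (Walk.cons (show (⊤ : SimpleGraph V).Adj e f from hef)
    (Walk.cons (show (⊤ : SimpleGraph V).Adj f a from hfa) Walk.nil))))), ?_, by simp⟩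
  rw [Walk.cons_isCycle_iff]
  refine ⟨?_, ?_⟩
  · simp [Walk.cons_isPath_iff, hbc, hcd, hde, hef, hfa, hac.symm, had.symm, hae.symm, hbd, hbe,
      hbf, hce, hcf, hdf, hab.symm]
  · simp [hab, hbc, hcd, hde, hef, hfa, hab.symm, hbc.symm, hcd.symm, hde.symm, hef.symm, hfa.symm,
      hac, hac.symm, hbd, hbd.symm, had, had.symm, hae, hae.symm, hbe, hbe.symm, hbf, hbf.symm,
      hce, hce.symm, hcf, hcf.symm, hdf, hdf.symm, Sym2.eq_iff]

end Cyc

/-- if two adjacent edges of a signed complete graph lie in no common negative circle, then deleting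
their common vertex leaves a balanced graph -/
theorem adj_case {V : Type} (σ : Sym2 V → ℤˣ) {x a b : V} (hxa : x ≠ a) (hxb : x ≠ b) (hab : a ≠ b)
    (h : ∀ (v : V) (C : (⊤ : SimpleGraph V).Walk v v), C.IsCycle → s(x, a) ∈ C.edges →
      s(x, b) ∈ C.edges → walkSign σ C = 1) :
    ∃ p : V → ℤˣ, ∀ u v, u ≠ v → u ≠ x → v ≠ x → σ s(u, v) = p u * p v := by
  classical
  -- s = sign of the pair
  have e3 : σ s(x, a) * (σ s(a, b) * σ s(b, x)) = 1 := by
    obtain ⟨C, h1, h2⟩ := cyc3 hxa hab hxb.symm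
    have := h x C h1 (by rw [h2]; simp) (by rw [h2, Sym2.eq_swap]; simp)
    simpa [walkSign, h2] using this
  have e4 : ∀ u, u ≠ x → u ≠ a → u ≠ b →
      σ s(x, a) * (σ s(a, u) * (σ s(u, b) * σ s(b, x))) = 1 := by
    intro u h1 h2 h3
    obtain ⟨C, k1, k2⟩ := cyc4 hxa h2.symm h3 hxb.symm h1.symm hab
    have := h x C k1 (by rw [k2]; simp) (by rw [k2, Sym2.eq_swap (a := x) (b := b)]; simp)
    simpa [walkSign, k2] using this
  have e5 : ∀ u v, u ≠ v → u ≠ x → u ≠ a → u ≠ b → v ≠ x → v ≠ a → v ≠ b →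
      σ s(x, a) * (σ s(a, u) * (σ s(u, v) * (σ s(v, b) * σ s(b, x)))) = 1 := by
    intro u v huv h1 h2 h3 h4 h5 h6
    obtain ⟨C, k1, k2⟩ := cyc5 hxa h2.symm huv h6 hxb.symm h1.symm h4.symm h5.symm hab h3
    have := h x C k1 (by rw [k2]; simp) (by rw [k2, Sym2.eq_swap (a := x) (b := b)]; simp)
    simpa [walkSign, k2] using this
  refine ⟨fun u => if u = a then 1 else σ s(a, u), ?_⟩
  have key : ∀ u v, u ≠ v → u ≠ x → v ≠ x → u ≠ a → v ≠ a → σ s(u, v) = σ s(a, u) * σ s(a, v) := by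
    intro u v huv hux hvx hua hva
    by_cases hub : u = b
    · subst hub
      have e := e4 v hvx hva huv.symm
      rw [Sym2.eq_swap (a := v) (b := u)] at e
      rcases Int.units_eq_one_or (σ s(x, a)) with q1 | q1 <;>
      rcases Int.units_eq_one_or (σ s(u, x)) with q2 | q2 <;>
      rcases Int.units_eq_one_or (σ s(a, u)) with q3 | q3 <;>
      rcases Int.units_eq_one_or (σ s(a, v)) with q4 | q4 <;>
      rcases Int.units_eq_one_or (σ s(u, v)) with q5 | q5 <;>
      rw [q1, q2, q3] at e3 <;> rw [q1, q2, q4, q5] at e <;> rw [q3, q4, q5] <;> revert e3 e <;>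
      decide
    · by_cases hvb : v = b
      · subst hvb
        have e := e4 u hux hua huv
        rcases Int.units_eq_one_or (σ s(x, a)) with q1 | q1 <;>
        rcases Int.units_eq_one_or (σ s(v, x)) with q2 | q2 <;>
        rcases Int.units_eq_one_or (σ s(a, v)) with q3 | q3 <;>
        rcases Int.units_eq_one_or (σ s(a, u)) with q4 | q4 <;>
        rcases Int.units_eq_one_or (σ s(u, v)) with q5 | q5 <;>
        rw [q1, q2, q3] at e3 <;> rw [q1, q2, q4, q5] at e <;> rw [q3, q4, q5] <;> revert e3 e <;>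
        decide
      · have e := e5 u v huv hux hua hub hvx hva hvb
        have e' := e4 v hvx hva hvb
        rcases Int.units_eq_one_or (σ s(x, a)) with q1 | q1 <;>
        rcases Int.units_eq_one_or (σ s(b, x)) with q2 | q2 <;>
        rcases Int.units_eq_one_or (σ s(a, v)) with q3 | q3 <;>
        rcases Int.units_eq_one_or (σ s(a, u)) with q4 | q4 <;>
        rcases Int.units_eq_one_or (σ s(u, v)) with q5 | q5 <;>
        rcases Int.units_eq_one_or (σ s(v, b)) with q6 | q6 <;>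
        rw [q1, q2, q3, q6] at e' <;> rw [q1, q2, q4, q5, q6] at e <;> rw [q3, q4, q5] <;>
        revert e' e <;> decide
  intro u v huv hux hvx
  by_cases hua : u = a
  · subst hua
    simp [huv.symm]
  · by_cases hva : v = a
    · subst hva
      simp only [hua, if_false, if_true, mul_one]
      rw [Sym2.eq_swap]
    · simp only [hua, hva, if_false]
      exact key u v huv hux hvx hua hva

end Pool.Agent.V11155.NegPair
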