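import Pool.Agent.V11155.NegPairB

set_option autoImplicit false
set_option linter.unusedSimpArgs false

namespace Pool.Agent.V11155.NegPair

open SimpleGraph Finset

theorem L13 : ∀ ab bc cd da bu uc : ℤˣ, ab * (bc * (cd * da)) = 1 →
    ab * (bu * (uc * (cd * da))) = 1 → uc = bc * bu := by decide

theorem L7 : ∀ ab bu uv vc cd da bv : ℤˣ, ab * (bu * (uv * (vc * (cd * da)))) = 1 →
    ab * (bv * (vc * (cd * da))) = 1 → uv = bu * bv := by decide

theorem L12 : ∀ ab bc cd da bd ca : ℤˣ, ab * (bc * (cd * da)) = 1 →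
    ab * (bd * (cd * ca)) = 1 → ca = da * bd * bc := by decide

theorem L15 : ∀ ab bc cd da du ua : ℤˣ, ab * (bc * (cd * da)) = 1 →
    ab * (bc * (cd * (du * ua))) = 1 → ua = da * du := by decide

/-- if two disjoint edges of a signed complete graph lie in no common negative circle, then deleting
the two edges leaves a balanced graph -/
theorem disj_case {V : Type} (σ : Sym2 V → ℤˣ) {a b c d : V} (hab : a ≠ b) (hac : a ≠ c)
    (had : a ≠ d) (hbc : b ≠ c) (hbd : b ≠ d) (hcd : c ≠ d)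
    (h : ∀ (v : V) (C : (⊤ : SimpleGraph V).Walk v v), C.IsCycle → s(a, b) ∈ C.edges →
      s(c, d) ∈ C.edges → walkSign σ C = 1) :
    ∃ p : V → ℤˣ, ∀ u v, u ≠ v → s(u, v) ≠ s(a, b) → s(u, v) ≠ s(c, d) →
      σ s(u, v) = p u * p v := by
  classical
  have E1 : σ s(a, b) * (σ s(b, c) * (σ s(c, d) * σ s(d, a))) = 1 := by
    obtain ⟨C, h1, h2⟩ := cyc4 hab hbc hcd had.symm hac hbd
    have := h a C h1 (by rw [h2]; simp) (by rw [h2]; simp)
    simpa [walkSign, h2] using this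
  have E2 : σ s(a, b) * (σ s(b, d) * (σ s(c, d) * σ s(c, a))) = 1 := by
    obtain ⟨C, h1, h2⟩ := cyc4 hab hbd hcd.symm hac.symm had hbc
    have := h a C h1 (by rw [h2]; simp) (by rw [h2, Sym2.eq_swap (a := c) (b := d)]; simp)
    rw [Sym2.eq_swap (a := c) (b := d)]
    simpa [walkSign, h2] using this
  have E3 : ∀ u, u ≠ a → u ≠ b → u ≠ c → u ≠ d →
      σ s(a, b) * (σ s(b, u) * (σ s(u, c) * (σ s(c, d) * σ s(d, a)))) = 1 := by
    intro u k1 k2 k3 k4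
    obtain ⟨C, h1, h2⟩ := cyc5 hab k2.symm k3 hcd had.symm k1.symm hac hbc hbd k4
    have := h a C h1 (by rw [h2]; simp) (by rw [h2]; simp)
    simpa [walkSign, h2] using this
  have E4 : ∀ u, u ≠ a → u ≠ b → u ≠ c → u ≠ d →
      σ s(a, b) * (σ s(b, u) * (σ s(u, d) * (σ s(c, d) * σ s(c, a)))) = 1 := by
    intro u k1 k2 k3 k4
    obtain ⟨C, h1, h2⟩ := cyc5 hab k2.symm k4 hcd.symm hac.symm k1.symm had hbd hbc k3
    have := h a C h1 (by rw [h2]; simp) (by rw [h2, Sym2.eq_swap (a := c) (b := d)]; simp)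
    rw [Sym2.eq_swap (a := c) (b := d)]
    simpa [walkSign, h2] using this
  have E5 : ∀ u, u ≠ a → u ≠ b → u ≠ c → u ≠ d →
      σ s(a, b) * (σ s(b, c) * (σ s(c, d) * (σ s(d, u) * σ s(u, a)))) = 1 := by
    intro u k1 k2 k3 k4
    obtain ⟨C, h1, h2⟩ := cyc5 hab hbc hcd k4.symm k1 hac had hbd k2.symm k3.symm
    have := h a C h1 (by rw [h2]; simp) (by rw [h2]; simp)
    simpa [walkSign, h2] using this
  have E7 : ∀ u v, u ≠ v → u ≠ a → u ≠ b → u ≠ c → u ≠ d → v ≠ a → v ≠ b → v ≠ c → v ≠ d →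
      σ s(a, b) * (σ s(b, u) * (σ s(u, v) * (σ s(v, c) * (σ s(c, d) * σ s(d, a))))) = 1 := by
    intro u v huv k1 k2 k3 k4 m1 m2 m3 m4
    obtain ⟨C, h1, h2⟩ := cyc6 hab k2.symm huv m3 hcd had.symm k1.symm m1.symm hac m2.symm hbc hbd
      k3 k4 m4
    have := h a C h1 (by rw [h2]; simp) (by rw [h2]; simp)
    simpa [walkSign, h2] using this
  let p : V → ℤˣ := fun u => if u = a then σ s(d, a) * σ s(b, d) else if u = b then 1 else σ s(b, u)
  have pa : p a = σ s(d, a) * σ s(b, d) := by simp [p]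
  have pb : p b = 1 := by simp [p, hab.symm]
  have pu : ∀ u, u ≠ a → u ≠ b → p u = σ s(b, u) := by
    intro u h1 h2
    simp [p, h1, h2]
  refine ⟨p, ?_⟩
  -- edges at b
  have Qb : ∀ u, u ≠ a → u ≠ b → σ s(b, u) = p b * p u := by
    intro u h1 h2
    rw [pb, pu u h1 h2, one_mul]
  have Qc : ∀ u, u ≠ a → u ≠ b → u ≠ c → u ≠ d → σ s(u, c) = p u * p c := by
    intro u h1 h2 h3 h4
    rw [pu u h1 h2, pu c hac.symm hbc.symm, mul_comm]
    exact L13 _ _ _ _ _ _ E1 (E3 u h1 h2 h3 h4)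
  have Qd : ∀ u, u ≠ a → u ≠ b → u ≠ c → u ≠ d → σ s(u, d) = p u * p d := by
    intro u h1 h2 h3 h4
    rw [pu u h1 h2, pu d had.symm hbd.symm, mul_comm]
    exact L13 _ _ _ _ _ _ E2 (E4 u h1 h2 h3 h4)
  have Quv : ∀ u v, u ≠ v → u ≠ a → u ≠ b → u ≠ c → u ≠ d → v ≠ a → v ≠ b → v ≠ c → v ≠ d →
      σ s(u, v) = p u * p v := by
    intro u v huv k1 k2 k3 k4 m1 m2 m3 m4
    rw [pu u k1 k2, pu v m1 m2]
    exact L7 _ _ _ _ _ _ _ (E7 u v huv k1 k2 k3 k4 m1 m2 m3 m4) (E3 v m1 m2 m3 m4)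
  have Qda : σ s(d, a) = p d * p a := by
    rw [pa, pu d had.symm hbd.symm, mul_comm (σ s(d, a)), ← mul_assoc, sq1, one_mul]
  have Qca : σ s(c, a) = p c * p a := by
    rw [pa, pu c hac.symm hbc.symm, mul_comm (σ s(b, c))]
    exact L12 _ _ _ _ _ _ E1 E2
  have Qua : ∀ u, u ≠ a → u ≠ b → u ≠ c → u ≠ d → σ s(u, a) = p u * p a := by
    intro u h1 h2 h3 h4
    have e := L15 _ _ _ _ _ _ E1 (E5 u h1 h2 h3 h4)
    rw [e, Sym2.eq_swap (a := d) (b := u), Qd u h1 h2 h3 h4, pa, pu d had.symm hbd.symm]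
    simp only [mul_comm, mul_left_comm, mul_assoc]
  -- one-sided statement
  have main : ∀ u v, u ≠ v → s(u, v) ≠ s(a, b) → s(u, v) ≠ s(c, d) →
      (v = a ∨ (v = b ∧ u ≠ a) ∨ (u ≠ a ∧ u ≠ b ∧ v = c) ∨ (u ≠ a ∧ u ≠ b ∧ u ≠ c ∧ v = d) ∨
        (u ≠ a ∧ u ≠ b ∧ u ≠ c ∧ u ≠ d ∧ v ≠ a ∧ v ≠ b ∧ v ≠ c ∧ v ≠ d)) →
      σ s(u, v) = p u * p v := by
    intro u v huv n1 n2 hcase
    rcases hcase with rfl | ⟨rfl, k⟩ | ⟨k1, k2, rfl⟩ | ⟨k1, k2, k3, rfl⟩ | hall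
    · have hub : u ≠ b := by
        rintro rfl
        exact n1 Sym2.eq_swap
      by_cases h1 : u = c
      · rw [h1]; exact Qca
      · by_cases h2 : u = d
        · rw [h2]; exact Qda
        · exact Qua u huv hub h1 h2
    · rw [Sym2.eq_swap, mul_comm]
      exact Qb u k huv
    · have hud : u ≠ d := by
        rintro rfl
        exact n2 Sym2.eq_swap
      exact Qc u k1 k2 huv hud
    · exact Qd u k1 k2 k3 huv
    · obtain ⟨k1, k2, k3, k4, m1, m2, m3, m4⟩ := hall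
      exact Quv u v huv k1 k2 k3 k4 m1 m2 m3 m4
  intro u v huv n1 n2
  by_cases c1 : v = a
  · exact main u v huv n1 n2 (Or.inl c1)
  by_cases c2 : u = a
  · rw [Sym2.eq_swap, mul_comm]
    rw [Sym2.eq_swap] at n1 n2
    exact main v u huv.symm n1 n2 (Or.inl c2)
  by_cases c3 : v = b
  · exact main u v huv n1 n2 (Or.inr (Or.inl ⟨c3, c2⟩))
  by_cases c4 : u = b
  · rw [Sym2.eq_swap, mul_comm]
    rw [Sym2.eq_swap] at n1 n2
    exact main v u huv.symm n1 n2 (Or.inr (Or.inl ⟨c4, c1⟩))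
  by_cases c5 : v = c
  · exact main u v huv n1 n2 (Or.inr (Or.inr (Or.inl ⟨c2, c4, c5⟩)))
  by_cases c6 : u = c
  · rw [Sym2.eq_swap, mul_comm]
    rw [Sym2.eq_swap] at n1 n2
    exact main v u huv.symm n1 n2 (Or.inr (Or.inr (Or.inl ⟨c1, c3, c6⟩)))
  by_cases c7 : v = d
  · exact main u v huv n1 n2 (Or.inr (Or.inr (Or.inr (Or.inl ⟨c2, c4, c6, c7⟩))))
  by_cases c8 : u = d
  · rw [Sym2.eq_swap, mul_comm]
    rw [Sym2.eq_swap] at n1 n2
    exact main v u huv.symm n1 n2 (Or.inr (Or.inr (Or.inr (Or.inl ⟨c1, c3, c5, c8⟩))))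
  exact main u v huv n1 n2
    (Or.inr (Or.inr (Or.inr (Or.inr ⟨c2, c4, c6, c8, c1, c3, c5, c7⟩))))

end Pool.Agent.V11155.NegPair
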