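import Pool.Agent.V11155.NegPairC

set_option autoImplicit false
set_option linter.unusedSimpArgs false

namespace Pool.Agent.V11155.NegPair

open SimpleGraph Finset

/-- a signed graph is balanced if every circle is positive -/
def Balanced {V : Type} (G : SimpleGraph V) (σ : Sym2 V → ℤˣ) : Prop :=
  ∀ (v : V) (c : G.Walk v v), c.IsCycle → walkSign σ c = 1

theorem walkSign_append {V : Type} {G : SimpleGraph V} (σ : Sym2 V → ℤˣ) {u v w : V}
    (p : G.Walk u v) (q : G.Walk v w) : walkSign σ (p.append q) = walkSign σ p * walkSign σ q := by
  simp [walkSign]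

theorem walkSign_reverse {V : Type} {G : SimpleGraph V} (σ : Sym2 V → ℤˣ) {u v : V}
    (p : G.Walk u v) : walkSign σ p.reverse = walkSign σ p := by
  unfold walkSign
  rw [Walk.edges_reverse, List.map_reverse]
  exact (List.reverse_perm _).prod_eq

theorem walkSign_cons {V : Type} {G : SimpleGraph V} (σ : Sym2 V → ℤˣ) {u v w : V}
    (h : G.Adj u v) (q : G.Walk v w) : walkSign σ (Walk.cons h q) = σ s(u, v) * walkSign σ q := by
  simp [walkSign]

theorem loop_sign {V : Type} {G : SimpleGraph V} {σ : Sym2 V → ℤˣ} (hB : Balanced G σ) {u v : V}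
    (h : G.Adj u v) (q : G.Walk v u) (hq : q.IsPath) : walkSign σ (Walk.cons h q) = 1 := by
  by_cases hmem : s(u, v) ∈ q.edges
  · rw [walkSign_cons]
    cases q with
    | nil => exact absurd rfl h.ne
    | @cons _ x _ h' q' =>
      rw [Walk.cons_isPath_iff] at hq
      rw [Walk.edges_cons, List.mem_cons] at hmem
      rcases hmem with hm | hm
      · have hxu : x = u := by
          rw [Sym2.eq_iff] at hm
          rcases hm with ⟨h1, h2⟩ | ⟨h1, h2⟩
          · exact absurd h1 h.ne
          · exact h1.symm
        subst hxu
        have hnil : q' = Walk.nil := Walk.isPath_iff_eq_nil.mp hq.1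
        subst hnil
        rw [walkSign_cons, Sym2.eq_swap]
        simp [walkSign, sq1 _]
      · exact absurd (q'.snd_mem_support_of_mem_edges hm) hq.2
  · exact hB u _ ((Walk.cons_isCycle_iff q h).mpr ⟨hq, hmem⟩)

theorem sign_bypass {V : Type} [DecidableEq V] {G : SimpleGraph V} {σ : Sym2 V → ℤˣ}
    (hB : Balanced G σ) {u v : V} (w : G.Walk u v) : walkSign σ w = walkSign σ w.bypass := by
  induction w with
  | nil => rfl
  | @cons a b c h w ih =>
    rw [walkSign_cons, ih]
    by_cases hm : a ∈ w.bypass.support
    · have hb : (Walk.cons h w).bypass = w.bypass.dropUntil a hm := by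
        simp only [Walk.bypass]
        rw [dif_pos hm]
      rw [hb]
      have hsplit : walkSign σ w.bypass =
          walkSign σ (w.bypass.takeUntil a hm) * walkSign σ (w.bypass.dropUntil a hm) := by
        rw [← walkSign_append, Walk.take_spec]
      have hloop := loop_sign hB h (w.bypass.takeUntil a hm) (w.bypass_isPath.takeUntil hm)
      rw [walkSign_cons] at hloop
      rw [hsplit, ← mul_assoc, hloop, one_mul]
    · have hb : (Walk.cons h w).bypass = Walk.cons h w.bypass := by
        simp only [Walk.bypass]
        rw [dif_neg hm]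
      rw [hb, walkSign_cons]

theorem closed_one {V : Type} {G : SimpleGraph V} {σ : Sym2 V → ℤˣ}
    (hB : Balanced G σ) {u : V} (w : G.Walk u u) : walkSign σ w = 1 := by
  classical
  rw [sign_bypass hB w]
  have : w.bypass = Walk.nil := Walk.isPath_iff_eq_nil.mp w.bypass_isPath
  rw [this]
  simp [walkSign]

/-- Harary's theorem: a signed graph is balanced if and only if it can be switched to all positive -/
theorem balanced_iff {V : Type} (G : SimpleGraph V) (σ : Sym2 V → ℤˣ) :
    Balanced G σ ↔ ∃ p : V → ℤˣ, ∀ u v, G.Adj u v → σ s(u, v) = p u * p v := by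
  classical
  constructor
  · intro hB
    have hroot : ∀ v : V, G.Reachable (G.connectedComponentMk v).out v := by
      intro v
      have := Quot.out_eq (G.connectedComponentMk v)
      exact ConnectedComponent.exact this
    have hw : ∀ v : V, ∃ s : ℤˣ, ∀ w : G.Walk (G.connectedComponentMk v).out v,
        walkSign σ w = s := by
      intro v
      obtain ⟨w0⟩ := hroot v
      refine ⟨walkSign σ w0, ?_⟩
      intro w
      have := closed_one hB (w.append w0.reverse)
      rw [walkSign_append, walkSign_reverse] at this
      have h2 := sq1 (walkSign σ w0)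
      calc walkSign σ w = walkSign σ w * (walkSign σ w0 * walkSign σ w0) := by rw [h2, mul_one]
        _ = (walkSign σ w * walkSign σ w0) * walkSign σ w0 := (mul_assoc _ _ _).symm
        _ = walkSign σ w0 := by rw [this, one_mul]
    choose p hp using hw
    refine ⟨p, ?_⟩
    intro u v huv
    have hcomp : G.connectedComponentMk u = G.connectedComponentMk v :=
      ConnectedComponent.sound huv.reachable
    obtain ⟨w⟩ := hroot u
    have e1 := hp u w
    have e2 : walkSign σ (w.append (Walk.cons huv Walk.nil)) = p v := by
      have key : ∀ r : V, r = (G.connectedComponentMk v).out → ∀ w' : G.Walk r v,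
          walkSign σ w' = p v := by
        rintro r rfl w'
        exact hp v w'
      exact key _ (by rw [hcomp]) _
    rw [walkSign_append, walkSign_cons, e1] at e2
    have e3 : p u * σ s(u, v) = p v := by simpa [walkSign] using e2
    rw [← e3, ← mul_assoc, sq1, one_mul]
  · rintro ⟨p, hp⟩ v c _
    rw [closed_sign σ p c]
    unfold walkSign
    apply List.prod_eq_one
    intro x hx
    rw [List.mem_map] at hx
    obtain ⟨e, he, rfl⟩ := hx
    induction e using Sym2.ind with
    | _ y z =>
      rw [defect_mk, hp y z (c.adj_of_mem_edges he)]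
      exact sq1 _

end Pool.Agent.V11155.NegPair
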