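import Pool.Agent.V11155.PetrieGood

/-!
# Petrie schemes of crosspolytopes and polygons
-/

namespace Pool.Agent.V11155.Petrie

theorem cross_inj {b : ℕ} {s : Finset (Fin b × Bool)} (hs : ∀ x ∈ s, (x.1, !x.2) ∉ s)
    {x y : Fin b × Bool} (hx : x ∈ s) (hy : y ∈ s) (h : x.1 = y.1) : x = y := by
  by_contra hne
  apply hs x hx
  have : (x.1, !x.2) = y := by
    refine Prod.ext h ?_
    have h2 : x.2 ≠ y.2 := fun h2 => hne (Prod.ext h h2)
    dsimp only
    revert h2
    cases x.2 <;> cases y.2 <;> simp
  rw [this]
  exact hy

theorem cross_card {b : ℕ} {s : Finset (Fin b × Bool)} (hs : ∀ x ∈ s, (x.1, !x.2) ∉ s) :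
    s.card ≤ b := by
  rw [← Finset.card_image_of_injOn (f := Prod.fst) (fun x hx y hy h => cross_inj hs hx hy h)]
  calc _ ≤ (Finset.univ : Finset (Fin b)).card := Finset.card_le_card (Finset.subset_univ _)
    _ = b := by simp

theorem poly_cross {b : ℕ} (hb : 1 ≤ b) : Poly (cross b) none where
  refl F := by
    rcases F with _ | s
    · exact trivial
    · exact Finset.Subset.refl s.1
  trans F G H h1 h2 := by
    rcases F with _ | s <;> rcases G with _ | t <;> rcases H with _ | u
    · exact trivial
    · exact h2.elim
    · exact trivial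
    · exact h1.elim
    · exact trivial
    · exact h2.elim
    · exact trivial
    · exact Finset.Subset.trans (show s.1 ⊆ t.1 from h1) (show t.1 ⊆ u.1 from h2)
  rkmono F G h := by
    rcases F with _ | s <;> rcases G with _ | t
    · exact le_rfl
    · exact h.elim
    · change s.1.card - 1 ≤ b
      have := cross_card s.2.2
      omega
    · change s.1.card - 1 ≤ t.1.card - 1
      have := Finset.card_le_card (show s.1 ⊆ t.1 from h)
      omega
  eq_of F G h he := by
    rcases F with _ | s <;> rcases G with _ | t
    · rfl
    · exact h.elim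
    · exfalso
      change s.1.card - 1 = b at he
      have := cross_card s.2.2
      have := s.2.1.card_pos
      omega
    · change s.1.card - 1 = t.1.card - 1 at he
      have h1 := s.2.1.card_pos
      have h2 := t.2.1.card_pos
      have := Finset.eq_of_subset_of_card_le (show s.1 ⊆ t.1 from h) (by omega)
      rw [Subtype.ext this]
  rk_top := rfl
  le_top F := by
    rcases F with _ | s <;> exact trivial
  dim_pos := hb

theorem good_cross {b : ℕ} (hb : 1 ≤ b) : Good (cross b) (2 * (cross b).dim) := by
  intro y hy
  have hdim : (cross b).dim = b := rfl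
  rw [hdim]
  -- the vertex sets
  have h1 : ∀ i t, i < b → ∃ s : {s : Finset (Fin b × Bool) // s.Nonempty ∧
      ∀ x ∈ s, (x.1, !x.2) ∉ s}, y i t = some s ∧ s.1.card = i + 1 := by
    intro i t hi
    have hr := hy.rk i (by rw [hdim]; omega) t
    rcases hs : y i t with _ | s
    · rw [hs] at hr
      exfalso
      change b = i at hr
      omega
    · refine ⟨s, rfl, ?_⟩
      rw [hs] at hr
      change s.1.card - 1 = i at hr
      have := s.2.1.card_pos
      omega
  let S : ℕ → ℤ → Finset (Fin b × Bool) := fun i t =>
    if h : i < b then (h1 i t h).choose.1 else ∅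
  have hS : ∀ i t, i < b → ∃ (hs : (S i t).Nonempty ∧ ∀ x ∈ S i t, (x.1, !x.2) ∉ S i t),
      y i t = some ⟨S i t, hs⟩ ∧ (S i t).card = i + 1 := by
    intro i t h
    have h2 := (h1 i t h).choose_spec
    have h3 : S i t = (h1 i t h).choose.1 := by simp only [S]; rw [dif_pos h]
    rw [h3]
    exact ⟨(h1 i t h).choose.2, h2.1, h2.2⟩
  have hval : ∀ i t, i < b → ∀ x ∈ S i t, (x.1, !x.2) ∉ S i t := fun i t h => (hS i t h).1.2
  have hcard : ∀ i t, i < b → (S i t).card = i + 1 := fun i t h => (hS i t h).2.2
  have hyS : ∀ i s t, i < b → (y i s = y i t ↔ S i s = S i t) := by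
    intro i s t h
    obtain ⟨h2, h3, -⟩ := hS i s h
    obtain ⟨h4, h5, -⟩ := hS i t h
    rw [h3, h5]
    constructor
    · intro h
      exact congrArg (fun u : {s : Finset (Fin b × Bool) // s.Nonempty ∧
        ∀ x ∈ s, (x.1, !x.2) ∉ s} => u.1) (Option.some.inj h)
    · intro h
      congr 1
      exact Subtype.ext h
  have hup : ∀ i t, i + 1 < b → S i t ⊆ S (i + 1) t := by
    intro i t h
    obtain ⟨h2, h3, -⟩ := hS i t (by omega)
    obtain ⟨h4, h5, -⟩ := hS (i + 1) t h
    have := hy.up i (by rw [hdim]; omega) t
    rw [h3, h5] at this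
    exact this
  have hup' : ∀ i t, i + 1 < b → S i (t + 1) ⊆ S (i + 1) t := by
    intro i t h
    obtain ⟨h2, h3, -⟩ := hS i (t + 1) (by omega)
    obtain ⟨h4, h5, -⟩ := hS (i + 1) t h
    have := hy.up' i (by rw [hdim]; omega) t
    rw [h3, h5] at this
    exact this
  have hne : ∀ i t, i < b → S i t ≠ S i (t + 1) := by
    intro i t h he
    exact hy.ne i (by rw [hdim]; omega) t ((hyS i t (t + 1) h).2 he)
  have hx : ∀ t, ∃ x, S 0 t = {x} := fun t => Finset.card_eq_one.1 (hcard 0 t (by omega))
  choose x hx using hx
  have hwin : ∀ i, i < b → ∀ t, S i t = (Finset.range (i + 1)).image (fun k : ℕ => x (t + k)) := by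
    intro i
    induction i with
    | zero =>
      intro _ t
      rw [hx t]
      simp
    | succ i ih =>
      intro hi t
      have e1 := ih (by omega) t
      have e2 := ih (by omega) (t + 1)
      have hsub : S i t ∪ S i (t + 1) ⊆ S (i + 1) t :=
        Finset.union_subset (hup i t hi) (hup' i t hi)
      have hc : i + 2 ≤ (S i t ∪ S i (t + 1)).card := by
        by_contra hcon
        have c1 := hcard i t (by omega)
        have c2 := hcard i (t + 1) (by omega)
        have c3 := Finset.card_le_card (Finset.subset_union_left (s₁ := S i t)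
          (s₂ := S i (t + 1)))
        have c4 := Finset.eq_of_subset_of_card_le (Finset.subset_union_left (s₁ := S i t)
          (s₂ := S i (t + 1))) (by omega)
        have c5 := Finset.eq_of_subset_of_card_le (Finset.subset_union_right (s₁ := S i t)
          (s₂ := S i (t + 1))) (by omega)
        exact hne i t (by omega) (c4.trans c5.symm)
      have heq := Finset.eq_of_subset_of_card_le hsub (by rw [hcard (i + 1) t hi]; omega)
      rw [← heq, e1, e2]
      ext v
      simp only [Finset.mem_union, Finset.mem_image, Finset.mem_range]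
      constructor
      · rintro (⟨k, hk, rfl⟩ | ⟨k, hk, rfl⟩)
        · exact ⟨k, by omega, rfl⟩
        · exact ⟨k + 1, by omega, by push_cast; congr 1; ring⟩
      · rintro ⟨k, hk, rfl⟩
        rcases Nat.eq_zero_or_pos k with rfl | hpos
        · exact Or.inl ⟨0, by omega, rfl⟩
        · refine Or.inr ⟨k - 1, by omega, ?_⟩
          congr 1
          omega
  -- within a facet all coordinates are distinct
  have hfst : ∀ t (k : ℕ), 0 < k → k < b → (x (t + k)).1 ≠ (x t).1 := by
    intro t k hk hkb he
    have m1 : x (t + k) ∈ S (b - 1) t := by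
      rw [hwin (b - 1) (by omega)]
      exact Finset.mem_image.2 ⟨k, Finset.mem_range.2 (by omega), rfl⟩
    have m2 : x t ∈ S (b - 1) t := by
      rw [hwin (b - 1) (by omega)]
      exact Finset.mem_image.2 ⟨0, Finset.mem_range.2 (by omega), by simp⟩
    have heq := cross_inj (hval (b - 1) t (by omega)) m1 m2 he
    -- then the window has at most `b - 1` elements
    have hcd := hcard k t hkb
    have hcd2 := hcard (k - 1) (t + 1) (by omega)
    rw [hwin k hkb] at hcd
    have hsub : (Finset.range (k + 1)).image (fun j : ℕ => x (t + j)) ⊆ S (k - 1) (t + 1) := by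
      intro v hv
      obtain ⟨j, hj, rfl⟩ := Finset.mem_image.1 hv
      rw [Finset.mem_range] at hj
      rw [hwin (k - 1) (by omega)]
      rcases Nat.eq_zero_or_pos j with rfl | hpos
      · refine Finset.mem_image.2 ⟨k - 1, Finset.mem_range.2 (by omega), ?_⟩
        try dsimp only
        have e : t + 1 + ((k - 1 : ℕ) : ℤ) = t + k := by omega
        rw [e, heq]
        simp
      · refine Finset.mem_image.2 ⟨j - 1, Finset.mem_range.2 (by omega), ?_⟩
        try dsimp only
        congr 1
        omega
    have := Finset.card_le_card hsub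
    omega
  have hneg : ∀ t, x (t + b) = ((x t).1, !(x t).2) := by
    intro t
    -- the facet at `t` meets every coordinate
    have hfull : (S (b - 1) t).image Prod.fst = Finset.univ := by
      apply Finset.eq_univ_of_card
      rw [Finset.card_image_of_injOn (fun x hx y hy h =>
        cross_inj (hval (b - 1) t (by omega)) hx hy h), hcard (b - 1) t (by omega)]
      simp
      omega
    have hm : (x (t + b)).1 ∈ (S (b - 1) t).image Prod.fst := by rw [hfull]; simp
    obtain ⟨v, hv, hv1⟩ := Finset.mem_image.1 hm
    rw [hwin (b - 1) (by omega)] at hv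
    obtain ⟨k, hk, rfl⟩ := Finset.mem_image.1 hv
    rw [Finset.mem_range] at hk
    have hk0 : k = 0 := by
      by_contra hne0
      have := hfst (t + k) (b - k) (by omega) (by omega)
      apply this
      have e : t + k + ((b - k : ℕ) : ℤ) = t + b := by omega
      rw [e]
      exact hv1.symm
    subst hk0
    simp only [Nat.cast_zero, add_zero] at hv1
    refine Prod.ext hv1.symm ?_
    dsimp only
    by_contra hcon
    have h2 : (x (t + b)).2 = (x t).2 := by
      revert hcon
      cases (x (t + b)).2 <;> cases (x t).2 <;> simp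
    have heq : x (t + b) = x t := Prod.ext hv1.symm h2
    apply hne (b - 1) t (by omega)
    rw [hwin (b - 1) (by omega), hwin (b - 1) (by omega)]
    ext v
    simp only [Finset.mem_image, Finset.mem_range]
    constructor
    · rintro ⟨k, hk, rfl⟩
      rcases Nat.eq_zero_or_pos k with rfl | hpos
      · refine ⟨b - 1, by omega, ?_⟩
        have e : t + 1 + ((b - 1 : ℕ) : ℤ) = t + b := by omega
        rw [e, heq]; simp
      · exact ⟨k - 1, by omega, by congr 1; omega⟩
    · rintro ⟨k, hk, rfl⟩
      by_cases hkb : k = b - 1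
      · refine ⟨0, by omega, ?_⟩
        have e : t + 1 + (k : ℤ) = t + b := by omega
        rw [e, heq]; simp
      · exact ⟨k + 1, by omega, by push_cast; congr 1; ring⟩
  have hneg2 : ∀ t, x (t + 2 * b) = x t := by
    intro t
    have e : t + 2 * (b : ℤ) = t + b + b := by ring
    rw [e, hneg, hneg]
    simp
  have hperx : ∀ t k : ℤ, x (t + 2 * b * k) = x t := by
    intro t k
    induction k using Int.induction_on with
    | zero => simp
    | succ k ih =>
      have e : t + 2 * b * ((k : ℤ) + 1) = t + 2 * b * k + 2 * b := by ring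
      rw [e, hneg2, ih]
    | pred k ih =>
      have e : t + 2 * b * (-(k : ℤ)) = t + 2 * b * (-(k : ℤ) - 1) + 2 * b := by ring
      rw [e, hneg2] at ih
      exact ih
  have hxne : ∀ s (k : ℕ), 0 < k → k < 2 * b → x (s + k) ≠ x s := by
    intro s k hk hkb he
    rcases lt_trichotomy k b with h | h | h
    · exact hfst s k hk h (by rw [he])
    · rw [h, hneg] at he
      have := congrArg Prod.snd he
      simp at this
    · have e : s + (k : ℤ) = s + (k - b : ℕ) + b := by omega
      rw [e, hneg] at he
      have := congrArg Prod.fst he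
      exact hfst s (k - b) (by omega) (by omega) this
  have hxiff : ∀ s t : ℤ, x s = x t ↔ (2 * b : ℤ) ∣ t - s := by
    intro s t
    constructor
    · intro he
      by_contra hnd
      have hb' : (0 : ℤ) < 2 * b := by omega
      have e := Int.emod_add_mul_ediv (t - s) (2 * b)
      have h0 := Int.emod_nonneg (t - s) hb'.ne'
      have hlt := Int.emod_lt_of_pos (t - s) hb'
      have hne0 : (t - s) % (2 * b) ≠ 0 := fun h => hnd (Int.dvd_of_emod_eq_zero h)
      obtain ⟨k, hk⟩ := Int.eq_ofNat_of_zero_le h0
      have e2 : t = s + k + 2 * b * ((t - s) / (2 * b)) := by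
        rw [← hk]; linarith
      rw [e2, hperx] at he
      exact hxne s k (by omega) (by omega) he.symm
    · rintro ⟨k, hk⟩
      have e2 : t = s + 2 * b * k := by linarith
      rw [e2, hperx]
  intro i hi s t
  change i < b at hi
  rw [hyS i s t hi]
  constructor
  · intro he
    have m1 : x s ∈ S i t := by
      rw [← he, hwin i hi]
      exact Finset.mem_image.2 ⟨0, Finset.mem_range.2 (by omega), by simp⟩
    have m2 : x t ∈ S i s := by
      rw [he, hwin i hi]
      exact Finset.mem_image.2 ⟨0, Finset.mem_range.2 (by omega), by simp⟩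
    rw [hwin i hi] at m1 m2
    obtain ⟨k, hk, hk'⟩ := Finset.mem_image.1 m1
    obtain ⟨l, hl, hl'⟩ := Finset.mem_image.1 m2
    rw [Finset.mem_range] at hk hl
    have d1 := (hxiff _ _).1 hk'.symm
    have d2 := (hxiff _ _).1 hl'.symm
    have d3 := dvd_add d1 d2
    have e : t + (k : ℤ) - s + (s + l - t) = k + l := by ring
    rw [e] at d3
    have h0 : (k : ℤ) + l = 0 := by
      by_contra hne0
      have := Int.le_of_dvd (by omega) d3
      omega
    have hk0 : k = 0 := by omega
    rw [hk0] at d1
    simpa using d1
  · rintro ⟨k, hk⟩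
    have e2 : t = s + 2 * b * k := by linarith
    rw [hwin i hi, hwin i hi, e2]
    apply Finset.image_congr
    intro j _
    try dsimp only
    have e3 : s + 2 * b * k + (j : ℤ) = s + j + 2 * b * k := by ring
    rw [e3, hperx]

/-! ### polygons -/

theorem poly_gon (m : ℕ) : Poly (gon m) GonFace.whole where
  refl F := by
    rcases F with i | i | _
    · exact rfl
    · exact rfl
    · exact trivial
  trans F G H h1 h2 := by
    rcases F with i | i | _ <;> rcases G with j | j | _ <;> rcases H with k | k | _ <;>
      first
        | exact trivial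
        | exact h1.elim
        | exact h2.elim
        | (have h1' : i = j := h1
           subst h1'
           exact h2)
        | (have h2' : j = k := h2
           subst h2'
           exact h1)
  rkmono F G h := by
    rcases F with i | i | _ <;> rcases G with j | j | _ <;>
      first
        | exact h.elim
        | simp [gon]
  eq_of F G h he := by
    rcases F with i | i | _ <;> rcases G with j | j | _ <;>
      first
        | exact h.elim
        | rfl
        | (have h' : i = j := h
           rw [h'])
        | (simp [gon] at he)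
  rk_top := rfl
  le_top F := by
    rcases F with i | i | _ <;> exact trivial
  dim_pos := by change 1 ≤ 2; omega

theorem good_gon {m : ℕ} (hm : 3 ≤ m) : Good (gon m) m := by
  intro y hy
  have hv : ∀ t, ∃ v, y 0 t = GonFace.vert v := by
    intro t
    have h1 := hy.rk 0 (Nat.zero_le _) t
    rcases hF : y 0 t with i | i | _
    · exact ⟨i, rfl⟩
    · rw [hF] at h1; simp [gon] at h1
    · rw [hF] at h1; simp [gon] at h1
  have he : ∀ t, ∃ e, y 1 t = GonFace.edge e := by
    intro t
    have h1 := hy.rk 1 (by change 1 ≤ 2; omega) t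
    rcases hF : y 1 t with i | i | _
    · rw [hF] at h1; simp [gon] at h1
    · exact ⟨i, rfl⟩
    · rw [hF] at h1; simp [gon] at h1
  choose v hv using hv
  choose e he using he
  have h2 : (0 : ℕ) < (gon m).dim := by change 0 < 2; omega
  have h2' : (1 : ℕ) < (gon m).dim := by change 1 < 2; omega
  have a1 : ∀ t, v t = e t ∨ v t = e t + 1 := by
    intro t
    have := hy.up 0 h2 t
    rw [hv, he] at this
    exact this
  have a2 : ∀ t, v (t + 1) = e t ∨ v (t + 1) = e t + 1 := by
    intro t
    have := hy.up' 0 h2 t
    rw [hv, he] at this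
    exact this
  have a3 : ∀ t, v t ≠ v (t + 1) := by
    intro t h
    apply hy.ne 0 h2 t
    rw [hv, hv, h]
  have a4 : ∀ t, e t ≠ e (t + 1) := by
    intro t h
    apply hy.ne 1 h2' t
    rw [he, he, h]
  have hone : (1 : ZMod m) ≠ 0 := by
    have : Fact (1 < m) := ⟨by omega⟩
    exact one_ne_zero
  -- the direction is constant
  have d1 : ∀ t, e t = v t ↔ e (t + 1) = v (t + 1) := by
    intro t
    constructor
    · intro h
      have h3 : v (t + 1) = e t + 1 := by
        rcases a2 t with h4 | h4
        · exact absurd (h.symm.trans h4.symm) (a3 t)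
        · exact h4
      rcases a1 (t + 1) with h5 | h5
      · exact h5.symm
      · exfalso
        apply a4 t
        have : e t + 1 = e (t + 1) + 1 := h3.symm.trans h5
        exact add_right_cancel this
    · intro h
      by_contra hcon
      have h3 : v t = e t + 1 := by
        rcases a1 t with h4 | h4
        · exact absurd h4.symm hcon
        · exact h4
      rcases a2 t with h4 | h4
      · exact a4 t (h4.symm.trans h.symm)
      · exact a3 t (h3.trans h4.symm)
  have d2 : ∀ t, e t = v t ↔ e 0 = v 0 := by
    intro t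
    induction t using Int.induction_on with
    | zero => rfl
    | succ k ih => rw [← d1]; exact ih
    | pred k ih =>
      have := d1 (-(k : ℤ) - 1)
      rw [sub_add_cancel] at this
      rw [this]; exact ih
  have hstep : ∃ ε : ZMod m, (ε = 1 ∨ ε = -1) ∧ (∀ t, v (t + 1) = v t + ε) ∧
      (∃ c : ZMod m, ∀ t, e t = v t + c) := by
    by_cases h0 : e 0 = v 0
    · refine ⟨1, Or.inl rfl, fun t => ?_, 0, fun t => ?_⟩
      · have h := (d2 t).2 h0
        rcases a2 t with h4 | h4
        · exact absurd (h.symm.trans h4.symm) (a3 t)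
        · rw [h4, h]
      · rw [add_zero]; exact (d2 t).2 h0
    · refine ⟨-1, Or.inr rfl, fun t => ?_, -1, fun t => ?_⟩
      · have h : e t ≠ v t := fun h => h0 ((d2 t).1 h)
        have h3 : v t = e t + 1 := by
          rcases a1 t with h4 | h4
          · exact absurd h4.symm h
          · exact h4
        rcases a2 t with h4 | h4
        · rw [h4, h3]; ring
        · exact absurd (h3.trans h4.symm) (a3 t)
      · have h : e t ≠ v t := fun h => h0 ((d2 t).1 h)
        have h3 : v t = e t + 1 := by
          rcases a1 t with h4 | h4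
          · exact absurd h4.symm h
          · exact h4
        rw [h3]; ring
  obtain ⟨ε, hε, hvs, c, hc⟩ := hstep
  have hvt : ∀ t : ℤ, v t = v 0 + t * ε := by
    intro t
    induction t using Int.induction_on with
    | zero => simp
    | succ k ih => rw [hvs, ih]; push_cast; ring
    | pred k ih =>
      have := hvs (-(k : ℤ) - 1)
      rw [sub_add_cancel, ih] at this
      have h3 : v (-(k : ℤ) - 1) = v 0 + ((-(k : ℤ) : ℤ) : ZMod m) * ε - ε := by
        rw [this]; ring
      rw [h3]; push_cast; ring
  have hviff : ∀ s t : ℤ, v s = v t ↔ (m : ℤ) ∣ t - s := by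
    intro s t
    rw [← ZMod.intCast_eq_intCast_iff_dvd_sub, hvt s, hvt t]
    rcases hε with rfl | rfl
    · simp
    · simp
  intro i hi s t
  change i < 2 at hi
  rcases (by omega : i = 0 ∨ i = 1) with rfl | rfl
  · rw [hv, hv, ← hviff]
    exact ⟨fun h => GonFace.vert.inj h, fun h => by rw [h]⟩
  · rw [he, he, ← hviff]
    constructor
    · intro h
      have := GonFace.edge.inj h
      rw [hc, hc] at this
      exact add_right_cancel this
    · intro h; rw [hc, hc, h]

/-- **Products of cubes and crosspolytopes.** -/
theorem good_prodList : ∀ (l : List FaceSys) (P₀ : FaceSys),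
    (∀ P ∈ P₀ :: l, (∃ a, 1 ≤ a ∧ P = cube a) ∨ ∃ b, 1 ≤ b ∧ P = cross b) →
    ∃ top, Poly (prodList P₀ l) top ∧ Good (prodList P₀ l) (2 * (prodList P₀ l).dim) := by
  have hbase : ∀ P : FaceSys, ((∃ a, 1 ≤ a ∧ P = cube a) ∨ ∃ b, 1 ≤ b ∧ P = cross b) →
      ∃ top, Poly P top ∧ Good P (2 * P.dim) := by
    rintro P (⟨a, ha, rfl⟩ | ⟨b, hb, rfl⟩)
    · exact ⟨_, poly_cube ha, good_cube ha⟩
    · exact ⟨_, poly_cross hb, good_cross hb⟩
  intro l
  induction l with
  | nil =>
    intro P₀ h
    exact hbase P₀ (h P₀ (by simp))
  | cons Q l ih =>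
    intro P₀ h
    obtain ⟨tP, hP, gP⟩ := hbase P₀ (h P₀ (by simp))
    obtain ⟨tQ, hQ, gQ⟩ := ih Q (fun P hP => h P (by
      simp only [List.mem_cons] at hP ⊢
      exact Or.inr hP))
    exact ⟨_, hP.prod hQ, Good.prod hP hQ le_rfl gP gQ⟩

end Pool.Agent.V11155.Petrie
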