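import Mathlib

/-!
# Petrie schemes of polytopes: definitions

A polytope is given by its non-empty faces, their ranks and their incidence relation.
-/

namespace Pool.Agent.V11155.Petrie

/-- A face system: the faces (for a convex polytope: all non-empty faces, including the
polytope itself), their ranks, their order, and the rank `dim` of the polytope.  The proper
faces are the faces of ranks `0, ..., dim - 1`. -/
structure FaceSys where
  /-- the faces -/
  Face : Type
  /-- the rank of a face -/
  rk : Face → ℕ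
  /-- the order (incidence) -/
  le : Face → Face → Prop
  /-- the rank of the polytope -/
  dim : ℕ

/-- A flag: one face of each rank `0, ..., dim - 1`, forming a chain. -/
def IsFlag (P : FaceSys) (F : Fin P.dim → P.Face) : Prop :=
  (∀ i, P.rk (F i) = i) ∧ ∀ i j, i ≤ j → P.le (F i) (F j)

/-- `F` and `G` are `i`-adjacent flags: they differ exactly in the face of rank `i`. -/
def Adj (P : FaceSys) (i : Fin P.dim) (F G : Fin P.dim → P.Face) : Prop :=
  IsFlag P F ∧ IsFlag P G ∧ F i ≠ G i ∧ ∀ j, j ≠ i → F j = G j

/-- `G = F γ_{σ 0} γ_{σ 1} ⋯ γ_{σ (n-1)}`: the flag `G` is reached from the flag `F` by passing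
successively to the `σ 0`-adjacent flag, the `σ 1`-adjacent flag, and so on. -/
def Step (P : FaceSys) (σ : Equiv.Perm (Fin P.dim)) (F G : Fin P.dim → P.Face) : Prop :=
  ∃ Θ : ℕ → Fin P.dim → P.Face, Θ 0 = F ∧ Θ P.dim = G ∧
    ∀ k : Fin P.dim, Adj P (σ k) (Θ k) (Θ (k + 1))

/-- The two-sided sequence of flags `(Ψ γ^t)_{t ∈ ℤ}` determined by the order `σ`
(and `Ψ = Φ 0`). -/
def PetrieSeq (P : FaceSys) (σ : Equiv.Perm (Fin P.dim)) (Φ : ℤ → Fin P.dim → P.Face) : Prop :=
  ∀ t, Step P σ (Φ t) (Φ (t + 1))

/-- Acoptic: every proper face occurs in at most one of the flags of the scheme. -/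
def Acoptic (P : FaceSys) (Φ : ℤ → Fin P.dim → P.Face) : Prop :=
  ∀ s t i, Φ s i = Φ t i → Φ s = Φ t

/-- All Petrie schemes of `P` are acoptic. -/
def AllAcoptic (P : FaceSys) : Prop :=
  ∀ σ Φ, PetrieSeq P σ Φ → Acoptic P Φ

/-- The face system of the `a`-dimensional cube `[0,1]^a`: a face is given by prescribing, for
every coordinate, one of the values `0`, `1` (`some false`, `some true`) or nothing (`none`);
its rank is the number of free coordinates. -/
def cube (a : ℕ) : FaceSys where
  Face := Fin a → Option Bool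
  rk F := (Finset.univ.filter fun j => F j = none).card
  le F G := ∀ j, G j = none ∨ F j = G j
  dim := a

/-- The face system of the `b`-dimensional crosspolytope with vertices `± e_j`: a proper face
is a nonempty set of vertices `(j, ε)` containing no pair of opposite vertices, its rank is one
less than its number of vertices; `none` is the crosspolytope itself. -/
def cross (b : ℕ) : FaceSys where
  Face := Option {s : Finset (Fin b × Bool) // s.Nonempty ∧ ∀ x ∈ s, (x.1, !x.2) ∉ s}
  rk F := match F with
    | none => b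
    | some s => s.1.card - 1
  le F G := match F, G with
    | _, none => True
    | none, some _ => False
    | some s, some t => s.1 ⊆ t.1
  dim := b

/-- The faces of an `m`-gon: the vertices `0, ..., m-1`, the edges (edge `i` joins the vertices
`i` and `i + 1`), and the polygon itself. -/
inductive GonFace (m : ℕ) : Type
  | vert (i : ZMod m) : GonFace m
  | edge (i : ZMod m) : GonFace m
  | whole : GonFace m

/-- The face system of the `m`-gon. -/
def gon (m : ℕ) : FaceSys where
  Face := GonFace m
  rk F := match F with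
    | .vert _ => 0
    | .edge _ => 1
    | .whole => 2
  le F G := match F, G with
    | .vert i, .vert j => i = j
    | .vert i, .edge j => i = j ∨ i = j + 1
    | .vert _, .whole => True
    | .edge _, .vert _ => False
    | .edge i, .edge j => i = j
    | .edge _, .whole => True
    | .whole, .vert _ => False
    | .whole, .edge _ => False
    | .whole, .whole => True
  dim := 2

/-- The face system of the Cartesian product: the non-empty faces of `P × Q` are the products
of a non-empty face of `P` and a non-empty face of `Q`. -/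
def prod (P Q : FaceSys) : FaceSys where
  Face := P.Face × Q.Face
  rk F := P.rk F.1 + Q.rk F.2
  le F G := P.le F.1 G.1 ∧ Q.le F.2 G.2
  dim := P.dim + Q.dim

/-- The Cartesian product of a nonempty list of polytopes. -/
def prodList : FaceSys → List FaceSys → FaceSys
  | P, [] => P
  | P, (Q :: l) => prod P (prodList Q l)

/-! ### friezes -/

/-- The system of all faces met by a Petrie scheme (proper faces only). -/
structure Frieze (P : FaceSys) (y : ℕ → ℤ → P.Face) : Prop where
  rk : ∀ i, i < P.dim → ∀ t, P.rk (y i t) = i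
  up : ∀ i, i + 1 < P.dim → ∀ t, P.le (y i t) (y (i + 1) t)
  up' : ∀ i, i + 1 < P.dim → ∀ t, P.le (y i (t + 1)) (y (i + 1) t)
  ne : ∀ i, i < P.dim → ∀ t, y i t ≠ y i (t + 1)

theorem exists_frieze {P : FaceSys} {σ : Equiv.Perm (Fin P.dim)}
    {Φ : ℤ → Fin P.dim → P.Face} (h : PetrieSeq P σ Φ) (hd : 0 < P.dim) :
    ∃ (c : ℕ → ℤ) (y : ℕ → ℤ → P.Face), Frieze P y ∧
      ∀ (i : Fin P.dim) t, Φ t i = y i (t - c i) := by
  classical
  choose Θ h0 hn hadj using h
  have hflag : ∀ t, IsFlag P (Φ t) := by
    intro t
    have := (hadj t ⟨0, hd⟩).1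
    simpa [h0] using this
  -- coordinate `i` is changed only at step `σ⁻¹ i`
  have hbefore : ∀ t (i : Fin P.dim) (k : ℕ), k ≤ (σ.symm i : ℕ) → Θ t k i = Φ t i := by
    intro t i k
    induction k with
    | zero => intro _; rw [h0]
    | succ k ih =>
      intro hk
      have hk' : k < P.dim := by have := (σ.symm i).2; omega
      have h1 := (hadj t ⟨k, hk'⟩).2.2.2 i (by
        intro he
        have : σ.symm i = ⟨k, hk'⟩ := by rw [he]; simp
        rw [this] at hk
        simp at hk)
      rw [← ih (by omega)]
      exact h1.symm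
  have hafter : ∀ t (i : Fin P.dim) (k : ℕ), (σ.symm i : ℕ) < k → k ≤ P.dim →
      Θ t k i = Φ (t + 1) i := by
    intro t i k hk hkn
    obtain ⟨d, rfl⟩ : ∃ d, k = P.dim - d := ⟨P.dim - k, by omega⟩
    clear hkn
    induction d with
    | zero => rw [Nat.sub_zero, hn]
    | succ d ih =>
      have hk' : P.dim - (d + 1) < P.dim := by omega
      have hs : P.dim - (d + 1) + 1 = P.dim - d := by omega
      have h1 := (hadj t ⟨P.dim - (d + 1), hk'⟩).2.2.2 i (by
        intro he
        have : σ.symm i = ⟨P.dim - (d + 1), hk'⟩ := by rw [he]; simp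
        rw [this] at hk
        simp at hk)
      simp only [hs] at h1
      rw [h1]
      exact ih (by omega)
  have hne : ∀ t (i : Fin P.dim), Φ t i ≠ Φ (t + 1) i := by
    intro t i
    have h1 := (hadj t (σ.symm i)).2.2.1
    simp only [Equiv.apply_symm_apply] at h1
    rw [hbefore t i _ le_rfl, hafter t i _ (Nat.lt_succ_self _) (σ.symm i).2] at h1
    exact h1
  have hflagΘ : ∀ t (k : ℕ), k < P.dim → IsFlag P (Θ t (k + 1)) := by
    intro t k hk
    exact (hadj t ⟨k, hk⟩).2.1
  let i' : ℕ → Fin P.dim := fun i => ⟨i % P.dim, Nat.mod_lt _ hd⟩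
  have hi' : ∀ i (hi : i < P.dim), i' i = ⟨i, hi⟩ := by
    intro i hi
    ext
    exact Nat.mod_eq_of_lt hi
  let c : ℕ → ℤ := fun i => Nat.rec 0
    (fun k r => r + if (σ.symm (i' (k + 1)) : ℕ) < (σ.symm (i' k) : ℕ) then 1 else 0) i
  have hc : ∀ k, c (k + 1) = c k +
      if (σ.symm (i' (k + 1)) : ℕ) < (σ.symm (i' k) : ℕ) then 1 else 0 := fun k => rfl
  refine ⟨c, fun i t => Φ (t + c i) (i' i), ⟨?_, ?_, ?_, ?_⟩, ?_⟩
  · intro i hi t
    try dsimp only
    rw [(hflag _).1, hi' i hi]
  · intro i hi t
    try dsimp only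
    rw [hc]
    have e1 : i' i = ⟨i, by omega⟩ := hi' i (by omega)
    have e2 : i' (i + 1) = ⟨i + 1, hi⟩ := hi' (i + 1) hi
    split_ifs with hlt
    · have h1 := (hflagΘ (t + c i) (σ.symm (i' (i + 1)) : ℕ) (σ.symm (i' (i + 1))).2).2
        (i' i) (i' (i + 1)) (by rw [e1, e2]; simp [Fin.le_def])
      rw [hafter _ _ _ (Nat.lt_succ_self _) (σ.symm (i' (i + 1))).2,
        hbefore _ _ _ (by omega)] at h1
      rw [← add_assoc]
      exact h1
    · rw [add_zero]
      exact (hflag _).2 _ _ (by rw [e1, e2]; simp [Fin.le_def])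
  · intro i hi t
    try dsimp only
    rw [hc]
    have e1 : i' i = ⟨i, by omega⟩ := hi' i (by omega)
    have e2 : i' (i + 1) = ⟨i + 1, hi⟩ := hi' (i + 1) hi
    split_ifs with hlt
    · have := (hflag (t + c i + 1)).2 (i' i) (i' (i + 1)) (by rw [e1, e2]; simp [Fin.le_def])
      have e3 : t + 1 + c i = t + c i + 1 := by ring
      have e4 : t + (c i + 1) = t + c i + 1 := by ring
      rw [e3, e4]
      exact this
    · have hne' : (σ.symm (i' i) : ℕ) ≠ (σ.symm (i' (i + 1)) : ℕ) := by
        intro he
        have h2 := σ.symm.injective (Fin.ext he)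
        rw [e1, e2] at h2
        simp at h2
      have h1 := (hflagΘ (t + c i) (σ.symm (i' i) : ℕ) (σ.symm (i' i)).2).2
        (i' i) (i' (i + 1)) (by rw [e1, e2]; simp [Fin.le_def])
      rw [hafter _ _ _ (Nat.lt_succ_self _) (σ.symm (i' i)).2,
        hbefore _ _ _ (by omega)] at h1
      have e3 : t + 1 + c i = t + c i + 1 := by ring
      rw [e3, add_zero]
      exact h1
  · intro i hi t
    try dsimp only
    have e3 : t + 1 + c i = t + c i + 1 := by ring
    rw [e3]
    exact hne _ _
  · intro i t
    try dsimp only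
    rw [hi' i i.2]
    congr 1
    ring

/-- It suffices to treat friezes. -/
theorem allAcoptic_of_frieze {P : FaceSys}
    (H : ∀ y, Frieze P y → ∀ i, i < P.dim → ∀ s t, y i s = y i t →
      ∀ j, j < P.dim → ∀ r, y j (s + r) = y j (t + r)) : AllAcoptic P := by
  intro σ Φ hΦ s t i hst
  have hd : 0 < P.dim := lt_of_le_of_lt (Nat.zero_le _) i.2
  obtain ⟨c, y, hy, he⟩ := exists_frieze hΦ hd
  funext j
  rw [he i s, he i t] at hst
  have := H y hy i i.2 _ _ hst j j.2 (c i - c j)
  rw [he j s, he j t]
  convert this using 1 <;> congr 1 <;> ring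

end Pool.Agent.V11155.Petrie
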