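import Pool.Agent.V11155.PetrieProd

/-!
# Petrie schemes of products of cubes, crosspolytopes and polygons
-/

namespace Pool.Agent.V11155.Petrie

theorem numeric_aux {N M : ℤ → ℤ} (hNM : ∀ t, N t + M t = t)
    (hM : ∀ t, M (t + 1) = M t ∨ M (t + 1) = M t + 1)
    (hN : ∀ t, N (t + 1) = N t ∨ N (t + 1) = N t + 1)
    {n dP : ℤ} (hper : ∀ t, N (t + n) = N t + dP) {i : ℤ} (hi : i < n) {s t : ℤ} (hst : s < t)
    (h1 : M t = M s) (h2 : N (s + i) = N s + dP) (h3 : N (t + i) = N t + dP) : False := by
  have a1 := count_mono hN (show s + i ≤ s + i + 1 by omega)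
  have a2 := count_mono hN (show s + i + 1 ≤ s + n by omega)
  have a3 := hper s
  have a4 := count_mono hM (show s + i + 1 ≤ t + i by omega)
  have b1 := hNM (s + i)
  have b2 := hNM (s + i + 1)
  have b3 := hNM (t + i)
  have b4 := hNM s
  have b5 := hNM t
  omega

theorem numeric {N M : ℤ → ℤ} (hNM : ∀ t, N t + M t = t)
    (hN : ∀ t, N (t + 1) = N t ∨ N (t + 1) = N t + 1)
    {n dP dQ c : ℤ} (hn : n = dP + dQ) (hdP : 1 ≤ dP) (hdQ : 1 ≤ dQ) (hc : 2 ≤ c)
    (hper : ∀ t, N (t + n) = N t + dP) {i : ℤ} (hi : i < n) {s t : ℤ}
    (hA : N (s + i) - N s = N (t + i) - N t)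
    (hAle : N (s + i) - N s ≤ dP) (hBle : M (s + i) - M s ≤ dQ)
    (h1 : N (s + i) - N s < dP → c * dP ∣ N t - N s)
    (h2 : M (s + i) - M s < dQ → c * dQ ∣ M t - M s) : c * n ∣ t - s := by
  have hM : ∀ t, M (t + 1) = M t ∨ M (t + 1) = M t + 1 := by
    intro t
    have := hN t
    have := hNM t
    have := hNM (t + 1)
    omega
  have hperM : ∀ t, M (t + n) = M t + dQ := by
    intro t
    have := hper t
    have := hNM t
    have := hNM (t + n)
    omega
  have q1 := hNM (s + i)
  have q2 := hNM (t + i)
  have q3 := hNM s
  have q4 := hNM t
  rcases lt_or_eq_of_le hAle with hA1 | hA1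
  · rcases lt_or_eq_of_le hBle with hB1 | hB1
    · obtain ⟨a, ha⟩ := h1 hA1
      obtain ⟨b, hb⟩ := h2 hB1
      have hab : a = b := by
        by_contra hne
        rcases lt_or_gt_of_ne hne with hlt | hgt
        · have e1 := count_period hper s (c * a)
          have e2 := count_period hperM s (c * a)
          have e3 := hNM (s + n * (c * a))
          have k1 : (1 : ℤ) ≤ b - a := by omega
          have k2 : dQ * 2 ≤ dQ * (c * (b - a)) := by
            apply mul_le_mul_of_nonneg_left _ (by omega)
            nlinarith
          have k3 : M t - M (s + n * (c * a)) = dQ * (c * (b - a)) := by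
            rw [e2]; linear_combination hb
          have k4 : N t = N (s + n * (c * a)) := by
            rw [e1]; linear_combination ha
          have k5 : s + n * (c * a) < t := by omega
          have k6 : t < s + n * (c * a) + n := by
            by_contra hcon
            have := count_mono hN (not_lt.mp hcon)
            rw [hper] at this
            omega
          have k7 := count_mono hM k6.le
          rw [hperM] at k7
          omega
        · have e1 := count_period hper s (c * b)
          have e2 := count_period hperM s (c * b)
          have e3 := hNM (s + n * (c * b))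
          have k1 : (1 : ℤ) ≤ a - b := by omega
          have k2 : dP * 2 ≤ dP * (c * (a - b)) := by
            apply mul_le_mul_of_nonneg_left _ (by omega)
            nlinarith
          have k3 : N t - N (s + n * (c * b)) = dP * (c * (a - b)) := by
            rw [e1]; linear_combination ha
          have k4 : M t = M (s + n * (c * b)) := by
            rw [e2]; linear_combination hb
          have k5 : s + n * (c * b) < t := by omega
          have k6 : t < s + n * (c * b) + n := by
            by_contra hcon
            have := count_mono hM (not_lt.mp hcon)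
            rw [hperM] at this
            omega
          have k7 := count_mono hN k6.le
          rw [hper] at k7
          omega
      subst hab
      refine ⟨a, ?_⟩
      have : t - s = (N t - N s) + (M t - M s) := by omega
      rw [this, ha, hb, hn]
      ring
    · -- the second component is the whole polytope
      obtain ⟨a, ha⟩ := h1 hA1
      have e1 := count_period hper t (-(c * a))
      have e2 := count_period hperM t (-(c * a))
      have e3 := count_period hperM (t + i) (-(c * a))
      have e4 : t + i + n * (-(c * a)) = t + n * (-(c * a)) + i := by ring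
      rw [e4] at e3
      have k1 : N (t + n * (-(c * a))) = N s := by rw [e1]; linear_combination ha
      have k2 : M (t + n * (-(c * a)) + i) = M (t + n * (-(c * a))) + dQ := by
        rw [e3, e2]; linarith
      have k3 : s = t + n * (-(c * a)) := by
        rcases lt_trichotomy s (t + n * (-(c * a))) with h | h | h
        · exact (numeric_aux (fun t => by rw [add_comm]; exact hNM t) hN hM hperM hi h k1
            (by linarith) k2).elim
        · exact h
        · exact (numeric_aux (fun t => by rw [add_comm]; exact hNM t) hN hM hperM hi h k1.symm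
            k2 (by linarith)).elim
      refine ⟨a, ?_⟩
      linear_combination (-1 : ℤ) * k3
  · have hB1 : M (s + i) - M s < dQ := by omega
    obtain ⟨b, hb⟩ := h2 hB1
    have e1 := count_period hper t (-(c * b))
    have e2 := count_period hperM t (-(c * b))
    have e3 := count_period hper (t + i) (-(c * b))
    have e4 : t + i + n * (-(c * b)) = t + n * (-(c * b)) + i := by ring
    rw [e4] at e3
    have k1 : M (t + n * (-(c * b))) = M s := by rw [e2]; linear_combination hb
    have k2 : N (t + n * (-(c * b)) + i) = N (t + n * (-(c * b))) + dP := by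
      rw [e3, e1]; linarith
    have k3 : s = t + n * (-(c * b)) := by
      rcases lt_trichotomy s (t + n * (-(c * b))) with h | h | h
      · exact (numeric_aux hNM hM hN hper hi h k1 (by linarith) k2).elim
      · exact h
      · exact (numeric_aux hNM hM hN hper hi h k1.symm k2 (by linarith)).elim
    refine ⟨b, ?_⟩
    linear_combination (-1 : ℤ) * k3

theorem Good.prod {P Q : FaceSys} {tP : P.Face} {tQ : Q.Face} (hP : Poly P tP)
    (hQ : Poly Q tQ) {c : ℤ} (hc : 2 ≤ c) (gP : Good P (c * P.dim)) (gQ : Good Q (c * Q.dim)) :
    Good (prod P Q) (c * (prod P Q).dim) := by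
  intro y hy i hi s t
  change i < P.dim + Q.dim at hi
  have hdim : ((Petrie.prod P Q).dim : ℤ) = P.dim + Q.dim := by
    change ((P.dim + Q.dim : ℕ) : ℤ) = _
    push_cast; rfl
  rw [hdim]
  obtain ⟨N, M, z, z', hz, hz', hNM, hN, hper, hyz⟩ := decompose hP hQ hy
  push_cast at hper
  have hM : ∀ t, M (t + 1) = M t ∨ M (t + 1) = M t + 1 := by
    intro t
    have := hN t
    have := hNM t
    have := hNM (t + 1)
    omega
  have hperM : ∀ t, M (t + (P.dim + Q.dim)) = M t + Q.dim := by
    intro t
    have := hper t
    have := hNM t
    have := hNM (t + (P.dim + Q.dim))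
    omega
  have hPd := hP.dim_pos
  have hQd := hQ.dim_pos
  -- sizes of the windows
  have w1 : ∀ t, 0 ≤ N (t + i) - N t ∧ N (t + i) - N t ≤ P.dim := by
    intro t
    have h1 := count_mono hN (show t ≤ t + i by omega)
    have h2 := count_mono hN (show t + i ≤ t + (P.dim + Q.dim) by omega)
    rw [hper] at h2
    omega
  have w2 : ∀ t, 0 ≤ M (t + i) - M t ∧ M (t + i) - M t ≤ Q.dim := by
    intro t
    have h1 := count_mono hM (show t ≤ t + i by omega)
    have h2 := count_mono hM (show t + i ≤ t + (P.dim + Q.dim) by omega)
    rw [hperM] at h2
    omega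
  have ws1 := w1 s
  have wt1 := w1 t
  have ws2 := w2 s
  have wt2 := w2 t
  have q1 := hNM (s + i)
  have q2 := hNM (t + i)
  have q3 := hNM s
  have q4 := hNM t
  constructor
  · intro he
    rw [hyz i hi.le s, hyz i hi.le t] at he
    have he1 := congrArg Prod.fst he
    have he2 := congrArg Prod.snd he
    dsimp only at he1 he2
    have r1 := congrArg P.rk he1
    rw [hz.rk _ (by omega), hz.rk _ (by omega)] at r1
    have r2 : N (s + i) - N s = N (t + i) - N t := by omega
    have r3 : M (s + i) - M s = M (t + i) - M t := by omega
    refine numeric hNM hN rfl (by omega) (by omega) hc hper (by omega) r2 ws1.2 ws2.2 ?_ ?_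
    · intro hlt
      rw [← r2] at he1
      exact (gP z hz _ (by omega) _ _).1 he1
    · intro hlt
      rw [← r3] at he2
      exact (gQ z' hz' _ (by omega) _ _).1 he2
  · rintro ⟨k, hk⟩
    have ht : t = s + (P.dim + Q.dim) * (c * k) := by linear_combination hk
    have e1 := count_period hper s (c * k)
    have e2 := count_period hperM s (c * k)
    have e3 := count_period hper (s + i) (c * k)
    have e4 : s + i + (P.dim + Q.dim) * (c * k) = t + i := by rw [ht]; ring
    rw [← ht] at e1 e2
    rw [e4] at e3
    have r2 : N (s + i) - N s = N (t + i) - N t := by rw [e1, e3]; ring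
    have r3 : M (s + i) - M s = M (t + i) - M t := by omega
    rw [hyz i hi.le s, hyz i hi.le t, ← r2, ← r3]
    refine Prod.ext ?_ ?_
    · dsimp only
      rcases lt_or_eq_of_le ws1.2 with h | h
      · rw [gP z hz _ (by omega)]
        exact ⟨k, by rw [e1]; ring⟩
      · rw [h, Int.toNat_natCast]
        rw [hP.eq_top (hz.rk P.dim le_rfl _), hP.eq_top (hz.rk P.dim le_rfl _)]
    · dsimp only
      rcases lt_or_eq_of_le ws2.2 with h | h
      · rw [gQ z' hz' _ (by omega)]
        exact ⟨k, by rw [e2]; ring⟩
      · rw [h, Int.toNat_natCast]
        rw [hQ.eq_top (hz'.rk Q.dim le_rfl _), hQ.eq_top (hz'.rk Q.dim le_rfl _)]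

/-- Transfer along an injective map of face systems. -/
theorem Good.of_embed {P P' : FaceSys} (hd : P.dim = P'.dim) (φ : P.Face → P'.Face)
    (hφ : Function.Injective φ) (hrk : ∀ F, P'.rk (φ F) = P.rk F)
    (hle : ∀ F G, P.le F G → P'.le (φ F) (φ G)) {h : ℤ} (hG : Good P' h) : Good P h := by
  intro y hy i hi s t
  have hF : Fr P' (fun i t => φ (y i t)) := by
    refine ⟨?_, ?_, ?_, ?_⟩
    · intro i hi t
      rw [hrk]
      exact hy.rk i (by omega) t
    · intro i hi t
      exact hle _ _ (hy.up i (by omega) t)
    · intro i hi t
      exact hle _ _ (hy.up' i (by omega) t)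
    · intro i hi t he
      exact hy.ne i (by omega) t (hφ he)
  rw [← hG _ hF i (by omega) s t]
  exact hφ.eq_iff.symm

/-! ### the cube -/

theorem poly_cube {a : ℕ} (ha : 1 ≤ a) : Poly (cube a) (fun _ => none) where
  refl F := fun j => Or.inr rfl
  trans F G H h1 h2 := fun j => by
    rcases h2 j with h | h
    · exact Or.inl h
    · rcases h1 j with h' | h'
      · left; rw [← h, h']
      · right; rw [h', h]
  rkmono F G h := by
    change (Finset.univ.filter fun j => F j = none).card ≤
      (Finset.univ.filter fun j => G j = none).card
    apply Finset.card_le_card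
    intro j hj
    simp only [Finset.mem_filter, Finset.mem_univ, true_and] at hj ⊢
    rcases h j with h' | h'
    · exact h'
    · rw [← h', hj]
  eq_of F G h he := by
    have hsub : (Finset.univ.filter fun j => F j = none) ⊆
        (Finset.univ.filter fun j => G j = none) := by
      intro j hj
      simp only [Finset.mem_filter, Finset.mem_univ, true_and] at hj ⊢
      rcases h j with h' | h'
      · exact h'
      · rw [← h', hj]
    have heq := Finset.eq_of_subset_of_card_le hsub he.ge
    funext j
    rcases h j with h' | h'
    · have : j ∈ (Finset.univ.filter fun j => F j = none) := by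
        rw [heq]; simpa using h'
      simp only [Finset.mem_filter, Finset.mem_univ, true_and] at this
      rw [this, h']
    · exact h'
  rk_top := by
    change (Finset.univ.filter fun j : Fin a => (none : Option Bool) = none).card = a
    simp
  le_top F := fun j => Or.inl rfl
  dim_pos := ha

theorem cube_rk_one (F : (cube 1).Face) : (cube 1).rk F = if F 0 = none then 1 else 0 := by
  change (Finset.univ.filter fun j : Fin 1 => F j = none).card = _
  rw [Finset.card_filter, Fin.sum_univ_one]

theorem good_cube_one : Good (cube 1) (2 * (cube 1).dim) := by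
  intro y hy i hi s t
  change i < 1 at hi
  have hi0 : i = 0 := by omega
  subst hi0
  have hdim : ((cube 1).dim : ℤ) = 1 := rfl
  rw [hdim, mul_one]
  -- the vertices alternate
  have h0 : ∀ t, ∃ b, y 0 t = fun _ => some b := by
    intro t
    have h1 := hy.rk 0 (Nat.zero_le _) t
    rw [cube_rk_one] at h1
    rcases hb : y 0 t 0 with _ | b
    · rw [hb] at h1; simp at h1
    · refine ⟨b, ?_⟩
      funext j
      have : j = 0 := Subsingleton.elim _ _
      rw [this, hb]
  choose b hb using h0
  have hne : ∀ t, b (t + 1) = !b t := by
    intro t
    have := hy.ne 0 (by change 0 < 1; omega) t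
    rw [hb t, hb (t + 1)] at this
    have h2 : b t ≠ b (t + 1) := fun h => this (by rw [h])
    revert h2
    cases b t <;> cases b (t + 1) <;> simp
  have hpar : ∀ s : ℤ, ∀ k : ℕ, b (s + k) = if k % 2 = 0 then b s else !b s := by
    intro s k
    induction k with
    | zero => simp
    | succ k ih =>
      push_cast
      rw [← add_assoc, hne, ih]
      rcases Nat.mod_two_eq_zero_or_one k with h | h
      · have : (k + 1) % 2 = 1 := by omega
        simp [h, this]
      · have : (k + 1) % 2 = 0 := by omega
        simp [h, this]
  have hiff : ∀ s : ℤ, ∀ k : ℕ, b s = b (s + k) ↔ (2 : ℤ) ∣ k := by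
    intro s k
    rw [hpar s k]
    split_ifs with h
    · simp only [true_iff]; omega
    · constructor
      · intro h2
        exfalso
        revert h2
        cases b s <;> simp
      · intro h2; omega
  have hy0 : y 0 s = y 0 t ↔ b s = b t := by
    rw [hb s, hb t]
    constructor
    · intro h
      have := congrFun h 0
      simpa using this
    · intro h; rw [h]
  rw [hy0]
  rcases le_total s t with h | h
  · obtain ⟨k, rfl⟩ := Int.le.dest h
    rw [hiff]
    have : s + (k : ℤ) - s = k := by ring
    rw [this]
  · obtain ⟨k, rfl⟩ := Int.le.dest h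
    rw [eq_comm, hiff]
    have : t - (t + (k : ℤ)) = -k := by ring
    rw [this, dvd_neg]

theorem good_cube {a : ℕ} (ha : 1 ≤ a) : Good (cube a) (2 * (cube a).dim) := by
  induction a with
  | zero => omega
  | succ a ih =>
    rcases Nat.eq_zero_or_pos a with rfl | hpos
    · exact good_cube_one
    · have hg := Good.prod (poly_cube le_rfl) (poly_cube hpos) (c := 2) le_rfl good_cube_one
        (ih hpos)
      have hdim : (Petrie.prod (cube 1) (cube a)).dim = a + 1 := by
        change 1 + a = a + 1; omega
      have hdim' : (cube (a + 1)).dim = a + 1 := rfl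
      rw [hdim] at hg
      rw [hdim']
      refine Good.of_embed (P' := Petrie.prod (cube 1) (cube a)) (hdim'.trans hdim.symm)
        (fun F => ((fun _ => F 0), fun j => F j.succ)) ?_ ?_ ?_ hg
      · intro F G h
        have h1 := congrArg Prod.fst h
        have h2 := congrArg Prod.snd h
        dsimp only at h1 h2
        funext j
        refine Fin.cases ?_ (fun j => ?_) j
        · exact congrFun h1 0
        · exact congrFun h2 j
      · intro F
        change (cube 1).rk (fun _ => F 0) + (cube a).rk (fun j => F j.succ) = (cube (a + 1)).rk F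
        rw [cube_rk_one]
        change _ + (Finset.univ.filter fun j : Fin a => F j.succ = none).card =
          (Finset.univ.filter fun j : Fin (a + 1) => F j = none).card
        rw [Finset.card_filter, Finset.card_filter, Fin.sum_univ_succ]
      · intro F G h
        exact ⟨fun _ => h 0, fun j => h j.succ⟩

end Pool.Agent.V11155.Petrie
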