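import Pool.Agent.V11155.PetrieCross

/-!
# Construction of Petrie schemes, and products with polygons
-/

namespace Pool.Agent.V11155.Petrie

theorem Fr.chain {P : FaceSys} {top : P.Face} (hP : Poly P top) {y : ℕ → ℤ → P.Face}
    (hy : Fr P y) {i j : ℕ} (hij : i ≤ j) (hj : j ≤ P.dim) (t : ℤ) : P.le (y i t) (y j t) := by
  obtain ⟨k, rfl⟩ := Nat.exists_eq_add_of_le hij
  clear hij
  induction k with
  | zero => exact hP.refl _
  | succ k ih =>
    exact hP.trans _ _ _ (ih (by omega)) (hy.up (i + k) (by omega) t)

theorem Fr.chain' {P : FaceSys} {top : P.Face} (hP : Poly P top) {y : ℕ → ℤ → P.Face}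
    (hy : Fr P y) {i j : ℕ} (hij : i < j) (hj : j ≤ P.dim) (t : ℤ) :
    P.le (y i (t + 1)) (y j t) :=
  hP.trans _ _ _ (hy.up' i (by omega) t) (hy.chain hP hij hj t)

/-- A frieze yields a Petrie scheme. -/
theorem petrieSeq_of_fr {P : FaceSys} {top : P.Face} (hP : Poly P top) {y : ℕ → ℤ → P.Face}
    (hy : Fr P y) : PetrieSeq P (Equiv.refl _) (fun t i => y i t) := by
  intro t
  have hflag : ∀ k : ℕ, IsFlag P (fun i => if (i : ℕ) < k then y i (t + 1) else y i t) := by
    intro k
    constructor
    · intro i
      dsimp only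
      split_ifs
      · exact hy.rk i i.2.le _
      · exact hy.rk i i.2.le _
    · intro i j hij
      have hij' : (i : ℕ) ≤ j := hij
      dsimp only
      split_ifs with h1 h2 h2
      · exact hy.chain hP hij' j.2.le _
      · exact hy.chain' hP (by omega) j.2.le _
      · omega
      · exact hy.chain hP hij' j.2.le _
  refine ⟨fun k i => if (i : ℕ) < k then y i (t + 1) else y i t, ?_, ?_, ?_⟩
  · funext i
    simp
  · funext i
    simp
  · intro k
    refine ⟨hflag k, hflag (k + 1), ?_, ?_⟩
    · simp only [Equiv.refl_apply, lt_irrefl, if_false]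
      rw [if_pos (Nat.lt_succ_self _)]
      exact hy.ne k k.2 t
    · intro j hj
      have hj' : (j : ℕ) ≠ k := fun h => hj (Fin.ext h)
      dsimp only
      split_ifs <;> first | rfl | omega

/-- Mixing friezes of two factors. -/
theorem mix {P Q : FaceSys} {tP : P.Face} {tQ : Q.Face} (hP : Poly P tP) (hQ : Poly Q tQ)
    {z : ℕ → ℤ → P.Face} {z' : ℕ → ℤ → Q.Face} (hz : Fr P z) (hz' : Fr Q z')
    {N M : ℤ → ℤ} (hNM : ∀ t, N t + M t = t)
    (hN : ∀ t, N (t + 1) = N t ∨ N (t + 1) = N t + 1)
    (hper : ∀ t, N (t + (P.dim + Q.dim)) = N t + P.dim) :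
    Fr (prod P Q) (fun i t =>
      (z (N (t + i) - N t).toNat (N t), z' (M (t + i) - M t).toNat (M t))) := by
  have hM : ∀ t, M (t + 1) = M t ∨ M (t + 1) = M t + 1 := by
    intro t
    have := hN t
    have := hNM t
    have := hNM (t + 1)
    omega
  have hperM : ∀ t, M (t + (P.dim + Q.dim)) = M t + Q.dim := by
    intro t
    have := hper t
    have := hNM t
    have := hNM (t + (P.dim + Q.dim))
    omega
  have w1 : ∀ (i : ℕ), i ≤ P.dim + Q.dim → ∀ t, 0 ≤ N (t + i) - N t ∧
      N (t + i) - N t ≤ P.dim := by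
    intro i hi t
    have h1 := count_mono hN (show t ≤ t + i by omega)
    have h2 := count_mono hN (show t + i ≤ t + (P.dim + Q.dim) by omega)
    rw [hper] at h2
    omega
  have w2 : ∀ (i : ℕ), i ≤ P.dim + Q.dim → ∀ t, 0 ≤ M (t + i) - M t ∧
      M (t + i) - M t ≤ Q.dim := by
    intro i hi t
    have h1 := count_mono hM (show t ≤ t + i by omega)
    have h2 := count_mono hM (show t + i ≤ t + (P.dim + Q.dim) by omega)
    rw [hperM] at h2
    omega
  -- one factor
  have F1 : ∀ (R : FaceSys) (tR : R.Face) (hR : Poly R tR) (u : ℕ → ℤ → R.Face) (hu : Fr R u)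
      (L : ℤ → ℤ) (hL : ∀ t, L (t + 1) = L t ∨ L (t + 1) = L t + 1)
      (hw : ∀ (i : ℕ), i ≤ P.dim + Q.dim → ∀ t, 0 ≤ L (t + i) - L t ∧ L (t + i) - L t ≤ R.dim)
      (i : ℕ) (hi : i < P.dim + Q.dim) (t : ℤ),
      R.le (u (L (t + i) - L t).toNat (L t)) (u (L (t + (i + 1 : ℕ)) - L t).toNat (L t)) ∧
      R.le (u (L (t + 1 + i) - L (t + 1)).toNat (L (t + 1)))
        (u (L (t + (i + 1 : ℕ)) - L t).toNat (L t)) ∧
      (L (t + 1) = L t + 1 → u (L (t + i) - L t).toNat (L t) ≠
        u (L (t + 1 + i) - L (t + 1)).toNat (L (t + 1))) := by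
    intro R tR hR u hu L hL hw i hi t
    have a1 := hw i (by omega) t
    have a2 := hw (i + 1) (by omega) t
    have a3 := hw i (by omega) (t + 1)
    have e1 : t + ((i + 1 : ℕ) : ℤ) = t + i + 1 := by push_cast; ring
    have e2 : t + 1 + (i : ℤ) = t + i + 1 := by ring
    rw [e1] at a2 ⊢
    rw [e2] at a3 ⊢
    have s1 := hL (t + i)
    have s2 := hL t
    refine ⟨?_, ?_, ?_⟩
    · rcases s1 with h | h
      · rw [h]; exact hR.refl _
      · have e3 : (L (t + i + 1) - L t).toNat = (L (t + i) - L t).toNat + 1 := by omega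
        rw [e3]
        exact hu.up _ (by omega) _
    · rcases s2 with h | h
      · rw [h]; exact hR.refl _
      · have e3 : (L (t + i + 1) - L t).toNat = (L (t + i + 1) - L (t + 1)).toNat + 1 := by
          omega
        rw [e3, h]
        exact hu.up' _ (by omega) _
    · intro h he
      have r := congrArg R.rk he
      rw [hu.rk _ (by omega), hu.rk _ (by omega)] at r
      rw [← r, h] at he
      exact hu.ne _ (by omega) _ he
  refine ⟨?_, ?_, ?_, ?_⟩
  · intro i hi t
    have hi' : i ≤ P.dim + Q.dim := hi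
    have a1 := w1 i hi' t
    have a2 := w2 i hi' t
    have b1 := hNM t
    have b2 := hNM (t + i)
    change P.rk (z (N (t + i) - N t).toNat (N t)) + Q.rk (z' (M (t + i) - M t).toNat (M t)) = i
    rw [hz.rk _ (by omega), hz'.rk _ (by omega)]
    omega
  · intro i hi t
    exact ⟨(F1 P tP hP z hz N hN w1 i hi t).1, (F1 Q tQ hQ z' hz' M hM w2 i hi t).1⟩
  · intro i hi t
    exact ⟨(F1 P tP hP z hz N hN w1 i hi t).2.1, (F1 Q tQ hQ z' hz' M hM w2 i hi t).2.1⟩
  · intro i hi t he
    have he1 := congrArg Prod.fst he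
    have he2 := congrArg Prod.snd he
    dsimp only at he1 he2
    rcases hN t with h | h
    · have h' : M (t + 1) = M t + 1 := by
        have := hNM t
        have := hNM (t + 1)
        omega
      exact (F1 Q tQ hQ z' hz' M hM w2 i hi t).2.2 h' he2
    · exact (F1 P tP hP z hz N hN w1 i hi t).2.2 h he1

/-- The standard frieze of a polygon. -/
def gonFr (m : ℕ) (i : ℕ) (t : ℤ) : (gon m).Face :=
  match i with
  | 0 => GonFace.vert (t : ZMod m)
  | 1 => GonFace.edge (t : ZMod m)
  | _ + 2 => GonFace.whole

/-- Friezes of polygons. -/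
theorem fr_gon {m : ℕ} (hm : 2 ≤ m) : Fr (gon m) (gonFr m) := by
  have hone : (1 : ZMod m) ≠ 0 := by
    have : Fact (1 < m) := ⟨by omega⟩
    exact one_ne_zero
  refine ⟨?_, ?_, ?_, ?_⟩
  · intro i hi t
    change i ≤ 2 at hi
    rcases (by omega : i = 0 ∨ i = 1 ∨ i = 2) with rfl | rfl | rfl <;> rfl
  · intro i hi t
    change i < 2 at hi
    rcases (by omega : i = 0 ∨ i = 1) with rfl | rfl
    · exact Or.inl rfl
    · exact trivial
  · intro i hi t
    change i < 2 at hi
    rcases (by omega : i = 0 ∨ i = 1) with rfl | rfl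
    · refine Or.inr ?_
      push_cast
      rfl
    · exact trivial
  · intro i hi t
    change i < 2 at hi
    rcases (by omega : i = 0 ∨ i = 1) with rfl | rfl
    · intro h
      have h2 := GonFace.vert.inj h
      push_cast at h2
      exact hone (by simpa using h2.symm)
    · intro h
      have h2 := GonFace.edge.inj h
      push_cast at h2
      exact hone (by simpa using h2.symm)

theorem Fr.map {P P' : FaceSys} (hd : P.dim = P'.dim) (φ : P.Face → P'.Face)
    (hφ : Function.Injective φ) (hrk : ∀ F, P'.rk (φ F) = P.rk F)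
    (hle : ∀ F G, P.le F G → P'.le (φ F) (φ G)) {y : ℕ → ℤ → P.Face} (hy : Fr P y) :
    Fr P' (fun i t => φ (y i t)) := by
  refine ⟨?_, ?_, ?_, ?_⟩
  · intro i hi t
    rw [hrk]
    exact hy.rk i (by omega) t
  · intro i hi t
    exact hle _ _ (hy.up i (by omega) t)
  · intro i hi t
    exact hle _ _ (hy.up' i (by omega) t)
  · intro i hi t he
    exact hy.ne i (by omega) t (hφ he)

theorem exists_fr_cube {a : ℕ} (ha : 1 ≤ a) : ∃ y, Fr (cube a) y := by
  have h1 : Fr (cube 1) (fun i t => if i = 0 then (fun _ => some (decide (t % 2 = 0)))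
      else fun _ => none) := by
    refine ⟨?_, ?_, ?_, ?_⟩
    · intro i hi t
      change i ≤ 1 at hi
      rw [cube_rk_one]
      rcases (by omega : i = 0 ∨ i = 1) with rfl | rfl <;> simp
    · intro i hi t
      change i < 1 at hi
      have : i = 0 := by omega
      subst this
      exact fun j => Or.inl rfl
    · intro i hi t
      change i < 1 at hi
      have : i = 0 := by omega
      subst this
      exact fun j => Or.inl rfl
    · intro i hi t he
      change i < 1 at hi
      have : i = 0 := by omega
      subst this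
      simp only [if_true] at he
      have h2 := congrFun he 0
      simp only [Option.some.injEq, decide_eq_decide] at h2
      omega
  induction a with
  | zero => omega
  | succ a ih =>
    rcases Nat.eq_zero_or_pos a with rfl | hpos
    · exact ⟨_, h1⟩
    · obtain ⟨z', hz'⟩ := ih hpos
      have ha' : (0 : ℤ) < 1 + a := by omega
      have hm := mix (poly_cube le_rfl) (poly_cube hpos) h1 hz'
        (N := fun t => t / (1 + a)) (M := fun t => t - t / (1 + a))
        (fun t => by ring) (fun t => by
          try dsimp only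
          have e1 := Int.emod_add_mul_ediv t (1 + a)
          have e2 := Int.emod_nonneg t ha'.ne'
          have e3 := Int.emod_lt_of_pos t ha'
          have f1 := Int.emod_add_mul_ediv (t + 1) (1 + a)
          have f2 := Int.emod_nonneg (t + 1) ha'.ne'
          have f3 := Int.emod_lt_of_pos (t + 1) ha'
          by_cases h : t % (1 + a) = a
          · right
            apply Int.le_antisymm
            · have : (1 + a : ℤ) * ((t + 1) / (1 + a)) < (1 + a) * (t / (1 + a) + 2) := by
                nlinarith
              have := lt_of_mul_lt_mul_left this ha'.le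
              omega
            · have : (1 + a : ℤ) * (t / (1 + a)) < (1 + a) * ((t + 1) / (1 + a)) := by
                nlinarith
              have := lt_of_mul_lt_mul_left this ha'.le
              omega
          · left
            apply Int.le_antisymm
            · have : (1 + a : ℤ) * ((t + 1) / (1 + a)) < (1 + a) * (t / (1 + a) + 1) := by
                have : t % (1 + a) < a := by omega
                nlinarith
              have := lt_of_mul_lt_mul_left this ha'.le
              omega
            · have : (1 + a : ℤ) * (t / (1 + a)) < (1 + a) * ((t + 1) / (1 + a) + 1) := by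
                nlinarith
              have := lt_of_mul_lt_mul_left this ha'.le
              omega)
        (fun t => by
          change (t + (((1 : ℕ) : ℤ) + (a : ℤ))) / (1 + a) = t / (1 + a) + ((1 : ℕ) : ℤ)
          have e : t + (((1 : ℕ) : ℤ) + (a : ℤ)) = t + (1 + a) * 1 := by push_cast; ring
          rw [e, Int.add_mul_ediv_left _ _ ha'.ne']
          simp)
      have hdim : (Petrie.prod (cube 1) (cube a)).dim = (cube (a + 1)).dim := by
        change 1 + a = a + 1; omega
      refine ⟨_, Fr.map hdim (fun F => (Fin.cons (F.1 0) F.2 : Fin (a + 1) → Option Bool))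
        ?_ ?_ ?_ hm⟩
      · rintro ⟨F1, F2⟩ ⟨G1, G2⟩ h
        have h' : (Fin.cons (F1 0) F2 : Fin (a + 1) → Option Bool) = Fin.cons (G1 0) G2 := h
        rw [Fin.cons_inj] at h'
        refine Prod.ext ?_ h'.2
        funext j
        have : j = 0 := Subsingleton.elim _ _
        rw [this]
        exact h'.1
      · rintro ⟨F1, F2⟩
        change (Finset.univ.filter fun j : Fin (a + 1) =>
          (Fin.cons (F1 0) F2 : Fin (a + 1) → Option Bool) j = none).card =
          (cube 1).rk F1 + (cube a).rk F2
        rw [cube_rk_one]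
        change _ = _ + (Finset.univ.filter fun j : Fin a => F2 j = none).card
        rw [Finset.card_filter, Finset.card_filter, Fin.sum_univ_succ]
        simp
      · rintro ⟨F1, F2⟩ ⟨G1, G2⟩ h j
        refine Fin.cases ?_ (fun j => ?_) j
        · exact h.1 0
        · simpa using h.2 j

theorem exists_fr_cross {b : ℕ} (hb : 1 ≤ b) : ∃ y, Fr (cross b) y := by
  have hbz : (0 : ℤ) < b := by omega
  let x : ℤ → Fin b × Bool := fun t =>
    (⟨(t % b).toNat, by
      have := Int.emod_nonneg t hbz.ne'
      have := Int.emod_lt_of_pos t hbz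
      omega⟩, decide ((t / b) % 2 = 0))
  have hxneg : ∀ t, x (t + b) = ((x t).1, !(x t).2) := by
    intro t
    have e1 : (t + (b : ℤ)) % b = t % b := by simp
    have e2 : (t + (b : ℤ)) / b = t / b + 1 := by
      have : t + (b : ℤ) = t + b * 1 := by ring
      rw [this, Int.add_mul_ediv_left _ _ hbz.ne']
    refine Prod.ext ?_ ?_
    · simp only [x, e1]
    · simp only [x, e2]
      by_cases h : t / b % 2 = 0
      · have : (t / b + 1) % 2 = 1 := by omega
        simp [h, this]
      · have : (t / b + 1) % 2 = 0 := by omega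
        simp [h, this]
  have hxinj : ∀ s t, x s = x t → (2 * b : ℤ) ∣ t - s := by
    intro s t h
    have h1 := congrArg (fun v : Fin b × Bool => (v.1 : ℕ)) h
    have h2 := congrArg Prod.snd h
    simp only [x] at h1 h2
    have s1 := Int.emod_nonneg s hbz.ne'
    have s2 := Int.emod_nonneg t hbz.ne'
    have h3 : s % b = t % b := by omega
    simp only [decide_eq_decide] at h2
    have e1 := Int.emod_add_mul_ediv s b
    have e2 := Int.emod_add_mul_ediv t b
    have h4 : (2 : ℤ) ∣ t / b - s / b := by omega
    obtain ⟨k, hk⟩ := h4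
    refine ⟨k, ?_⟩
    have : t - s = b * (t / b - s / b) := by linear_combination e1 - e2 - h3
    rw [this, hk]; ring
  let S : ℕ → ℤ → Finset (Fin b × Bool) := fun i t =>
    (Finset.range (i + 1)).image (fun k : ℕ => x (t + k))
  have hS : ∀ i t, i < b → ((S i t).Nonempty ∧ ∀ v ∈ S i t, (v.1, !v.2) ∉ S i t) := by
    intro i t hi
    refine ⟨⟨x (t + (0 : ℕ)), Finset.mem_image.2 ⟨0, Finset.mem_range.2 (by omega), rfl⟩⟩, ?_⟩
    intro v hv hv'
    obtain ⟨k, hk, rfl⟩ := Finset.mem_image.1 hv
    obtain ⟨l, hl, hl'⟩ := Finset.mem_image.1 hv'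
    rw [Finset.mem_range] at hk hl
    rw [← hxneg] at hl'
    obtain ⟨c, hc⟩ := hxinj _ _ hl'
    have e : t + (k : ℤ) + b - (t + l) = k + b - l := by ring
    rw [e] at hc
    have h1 : 0 < (2 * b : ℤ) * c := by rw [← hc]; omega
    have h2 : (2 * b : ℤ) * c < 2 * b * 1 := by rw [← hc]; omega
    have h3 : 0 < c := by
      by_contra hcon
      nlinarith
    have h4 : c < 1 := lt_of_mul_lt_mul_left h2 (by omega)
    omega
  have hScard : ∀ i t, i < b → (S i t).card = i + 1 := by
    intro i t hi
    simp only [S]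
    rw [Finset.card_image_of_injOn, Finset.card_range]
    intro k hk l hl h
    simp only [Finset.coe_range, Set.mem_Iio] at hk hl
    obtain ⟨c, hc⟩ := hxinj _ _ h
    have e : t + (l : ℤ) - (t + k) = l - k := by ring
    rw [e] at hc
    have h1 : -(2 * b : ℤ) < (2 * b : ℤ) * c := by rw [← hc]; omega
    have h2 : (2 * b : ℤ) * c < 2 * b := by rw [← hc]; omega
    have h3 : c = 0 := by
      by_contra hne
      rcases lt_or_gt_of_ne hne with h | h
      · nlinarith
      · nlinarith
    rw [h3] at hc
    omega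
  have hne0 : ∀ t k : ℤ, 0 < k → k < 2 * b → x (t + k) ≠ x t := by
    intro t k h0 h1 h
    obtain ⟨c, hc⟩ := hxinj _ _ h.symm
    have e : t + k - t = k := by ring
    rw [e] at hc
    rw [hc] at h0 h1
    have h3 : 0 < c := by
      by_contra hcon
      nlinarith
    nlinarith
  refine ⟨fun i t => if h : i < b then some ⟨S i t, hS i t h⟩ else none, ?_, ?_, ?_, ?_⟩
  · intro i hi t
    change i ≤ b at hi
    try dsimp only
    split_ifs with h
    · change (S i t).card - 1 = i
      rw [hScard i t h]; omega
    · change b = i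
      omega
  · intro i hi t
    change i < b at hi
    try dsimp only
    rw [dif_pos hi]
    split_ifs with h
    · change S i t ⊆ S (i + 1) t
      apply Finset.image_subset_image
      intro k hk
      rw [Finset.mem_range] at hk ⊢
      omega
    · exact trivial
  · intro i hi t
    change i < b at hi
    try dsimp only
    rw [dif_pos hi]
    split_ifs with h
    · change S i (t + 1) ⊆ S (i + 1) t
      intro v hv
      obtain ⟨k, hk, rfl⟩ := Finset.mem_image.1 hv
      rw [Finset.mem_range] at hk
      refine Finset.mem_image.2 ⟨k + 1, Finset.mem_range.2 (by omega), ?_⟩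
      push_cast
      congr 1
      ring
    · exact trivial
  · intro i hi t
    change i < b at hi
    try dsimp only
    rw [dif_pos hi, dif_pos hi]
    intro h
    have h' : S i t = S i (t + 1) :=
      congrArg (fun u : {s : Finset (Fin b × Bool) // s.Nonempty ∧
        ∀ x ∈ s, (x.1, !x.2) ∉ s} => u.1) (Option.some.inj h)
    have m1 : x t ∈ S i (t + 1) := by
      rw [← h']
      exact Finset.mem_image.2 ⟨0, Finset.mem_range.2 (by omega), by simp⟩
    obtain ⟨k, hk, hk'⟩ := Finset.mem_image.1 m1
    rw [Finset.mem_range] at hk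
    have e : t + 1 + (k : ℤ) = t + (k + 1) := by ring
    rw [e] at hk'
    exact hne0 t (k + 1) (by omega) (by omega) hk'

/-- **Products with an `m`-gon, `m ≠ 4`, have a Petrie scheme that is not acoptic.** -/
theorem not_allAcoptic_prod_gon {P : FaceSys} {top : P.Face} (hP : Poly P top)
    (gP : Good P (2 * P.dim)) (hex : ∃ z, Fr P z) {m : ℕ} (hm : 3 ≤ m) (hm4 : m ≠ 4) :
    ¬ AllAcoptic (prod P (gon m)) := by
  intro hall
  obtain ⟨z, hz⟩ := hex
  have hPd := hP.dim_pos
  have hn : (0 : ℤ) < P.dim + 2 := by omega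
  -- the word `R R P P ... P`
  let M : ℤ → ℤ := fun t => 2 * (t / (P.dim + 2)) + min (t % (P.dim + 2)) 2
  have hMstep : ∀ t, M (t + 1) = M t ∨ M (t + 1) = M t + 1 := by
    intro t
    have e1 := Int.emod_add_mul_ediv t (P.dim + 2)
    have e2 := Int.emod_nonneg t hn.ne'
    have e3 := Int.emod_lt_of_pos t hn
    by_cases h : t % (P.dim + 2) = P.dim + 1
    · have h1 : t + 1 = 0 + (P.dim + 2) * (t / (P.dim + 2) + 1) := by linarith
      have h2 : (t + 1) / (P.dim + 2) = t / (P.dim + 2) + 1 := by
        conv_lhs => rw [h1]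
        rw [Int.add_mul_ediv_left _ _ hn.ne']
        simp
      have h3 : (t + 1) % (P.dim + 2) = 0 := by
        conv_lhs => rw [h1]
        simp
      simp only [M]
      rw [h2, h3, h]
      omega
    · have h1 : t + 1 = (t % (P.dim + 2) + 1) + (P.dim + 2) * (t / (P.dim + 2)) := by linarith
      have h4 : 0 ≤ t % (P.dim + 2) + 1 := by omega
      have h5 : t % (P.dim + 2) + 1 < P.dim + 2 := by omega
      have h2 : (t + 1) / (P.dim + 2) = t / (P.dim + 2) := by
        conv_lhs => rw [h1]
        rw [Int.add_mul_ediv_left _ _ hn.ne', Int.ediv_eq_zero_of_lt h4 h5, zero_add]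
      have h3 : (t + 1) % (P.dim + 2) = t % (P.dim + 2) + 1 := by
        conv_lhs => rw [h1]
        rw [Int.add_mul_emod_self_left, Int.emod_eq_of_lt h4 h5]
      simp only [M]
      rw [h2, h3]
      omega
  have hMper : ∀ t, M (t + (P.dim + 2)) = M t + 2 := by
    intro t
    have h2 : (t + ((P.dim : ℤ) + 2)) / (P.dim + 2) = t / (P.dim + 2) + 1 := by
      have : t + ((P.dim : ℤ) + 2) = t + (P.dim + 2) * 1 := by ring
      rw [this, Int.add_mul_ediv_left _ _ hn.ne']
    have h3 : (t + ((P.dim : ℤ) + 2)) % (P.dim + 2) = t % (P.dim + 2) := by simp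
    simp only [M]
    rw [h2, h3]
    ring
  let N : ℤ → ℤ := fun t => t - M t
  have hNM : ∀ t, N t + M t = t := fun t => by simp only [N]; ring
  have hNstep : ∀ t, N (t + 1) = N t ∨ N (t + 1) = N t + 1 := by
    intro t
    have := hMstep t
    simp only [N]
    omega
  have hdg : (gon m).dim = 2 := rfl
  have hNper : ∀ t, N (t + (P.dim + (gon m).dim)) = N t + P.dim := by
    intro t
    rw [hdg]
    have := hMper t
    simp only [N]
    push_cast
    rw [this]
    ring
  have hy := mix hP (poly_gon m) hz (fr_gon (m := m) (by omega)) hNM hNstep hNper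
  have hseq := petrieSeq_of_fr (hP.prod (poly_gon m)) hy
  have hac := hall _ _ hseq
  have hdim : (Petrie.prod P (gon m)).dim = P.dim + 2 := rfl
  have M0 : M 0 = 0 := by simp [M]
  have M2 : M 2 = 2 := by
    have h2 : (2 : ℤ) / (P.dim + 2) = 0 := Int.ediv_eq_zero_of_lt (by omega) (by omega)
    have h3 : (2 : ℤ) % (P.dim + 2) = 2 := Int.emod_eq_of_lt (by omega) (by omega)
    simp only [M]
    rw [h2, h3]
    simp
  have M3 : ∀ t, M (t + 2 * (P.dim + 2)) = M t + 4 := by
    intro t
    have e : t + 2 * ((P.dim : ℤ) + 2) = t + (P.dim + 2) + (P.dim + 2) := by ring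
    rw [e, hMper, hMper]; ring
  set T : ℤ := 2 * (P.dim + 2) with hT
  have MT : M T = 4 := by have := M3 0; rw [zero_add, M0] at this; simpa using this
  have MT2 : M (T + 2) = 6 := by
    have := M3 2
    rw [M2] at this
    rw [add_comm]; simpa using this
  have N0 : N 0 = 0 := by simp only [N]; rw [M0]; rfl
  have N2 : N 2 = 0 := by simp only [N]; rw [M2]; rfl
  have NT : N T = 2 * P.dim := by simp only [N]; rw [MT]; rw [hT]; ring
  have NT2 : N (T + 2) = 2 * P.dim := by simp only [N]; rw [MT2]; rw [hT]; ring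
  have h1 := hac 0 T ⟨2, by rw [hdim]; omega⟩ (by
    dsimp only
    push_cast
    try simp only [zero_add]
    rw [M2, M0, N2, N0, NT2, NT, MT2, MT]
    refine Prod.ext ?_ ?_
    · dsimp only
      simp only [sub_self, Int.toNat_zero]
      rw [gP z hz 0 (by omega)]
      simp
    · rfl)
  have h2 := congrFun h1 ⟨0, by rw [hdim]; omega⟩
  dsimp only at h2
  have h3 := congrArg Prod.snd h2
  dsimp only at h3
  push_cast at h3
  try simp only [add_zero] at h3
  rw [M0, MT] at h3
  simp only [sub_self, Int.toNat_zero] at h3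
  have h4 := GonFace.vert.inj h3
  rw [ZMod.intCast_eq_intCast_iff_dvd_sub] at h4
  have h5 : (m : ℤ) ∣ 4 := by simpa using h4
  have h6 : m ∣ 4 := by exact_mod_cast h5
  have h7 := Nat.le_of_dvd (by omega) h6
  interval_cases m <;> omega

end Pool.Agent.V11155.Petrie
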