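import Pool.Agent.V11155.PetrieDefs

/-!
# Petrie schemes of products
-/

namespace Pool.Agent.V11155.Petrie

/-- Face systems with a greatest face and a partial order. -/
structure Poly (P : FaceSys) (top : P.Face) : Prop where
  refl : ∀ F, P.le F F
  trans : ∀ F G H, P.le F G → P.le G H → P.le F H
  rkmono : ∀ F G, P.le F G → P.rk F ≤ P.rk G
  eq_of : ∀ F G, P.le F G → P.rk F = P.rk G → F = G
  rk_top : P.rk top = P.dim
  le_top : ∀ F, P.le F top
  dim_pos : 1 ≤ P.dim

theorem Poly.rk_le {P : FaceSys} {top : P.Face} (h : Poly P top) (F : P.Face) :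
    P.rk F ≤ P.dim := by
  rw [← h.rk_top]
  exact h.rkmono _ _ (h.le_top F)

theorem Poly.eq_top {P : FaceSys} {top : P.Face} (h : Poly P top) {F : P.Face}
    (hF : P.rk F = P.dim) : F = top :=
  h.eq_of _ _ (h.le_top F) (hF.trans h.rk_top.symm)

/-- Friezes including the improper greatest face. -/
structure Fr (P : FaceSys) (y : ℕ → ℤ → P.Face) : Prop where
  rk : ∀ i, i ≤ P.dim → ∀ t, P.rk (y i t) = i
  up : ∀ i, i < P.dim → ∀ t, P.le (y i t) (y (i + 1) t)
  up' : ∀ i, i < P.dim → ∀ t, P.le (y i (t + 1)) (y (i + 1) t)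
  ne : ∀ i, i < P.dim → ∀ t, y i t ≠ y i (t + 1)

/-- All Petrie schemes have period exactly `h`, with no repeated faces in a period. -/
def Good (P : FaceSys) (h : ℤ) : Prop :=
  ∀ y, Fr P y → ∀ i, i < P.dim → ∀ s t, y i s = y i t ↔ h ∣ t - s

theorem Fr.of_frieze {P : FaceSys} {top : P.Face} (hP : Poly P top) {y : ℕ → ℤ → P.Face}
    (hy : Frieze P y) : Fr P (fun i t => if i < P.dim then y i t else top) := by
  refine ⟨?_, ?_, ?_, ?_⟩
  · intro i hi t
    try dsimp only
    split_ifs with h
    · exact hy.rk i h t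
    · rw [hP.rk_top]; omega
  · intro i hi t
    try dsimp only
    rw [if_pos hi]
    split_ifs with h
    · exact hy.up i h t
    · exact hP.le_top _
  · intro i hi t
    try dsimp only
    rw [if_pos hi]
    split_ifs with h
    · exact hy.up' i h t
    · exact hP.le_top _
  · intro i hi t
    try dsimp only
    rw [if_pos hi, if_pos hi]
    exact hy.ne i hi t

theorem Good.allAcoptic {P : FaceSys} {top : P.Face} (hP : Poly P top) {h : ℤ}
    (hG : Good P h) : AllAcoptic P := by
  apply allAcoptic_of_frieze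
  intro y hy i hi s t hst j hj r
  have hF := Fr.of_frieze hP hy
  have h1 := (hG _ hF i hi s t)
  simp only [if_pos hi] at h1
  have h2 := (hG _ hF j hj (s + r) (t + r))
  simp only [if_pos hj] at h2
  rw [h2]
  have h3 := h1.1 hst
  have : t + r - (s + r) = t - s := by ring
  rw [this]
  exact h3

/-! ### cumulative counts -/

/-- A two-sided sum. -/
theorem exists_cumulative (f : ℤ → ℤ) : ∃ N : ℤ → ℤ, ∀ t, N (t + 1) = N t + f t := by
  refine ⟨fun t => match t with
    | Int.ofNat k => ∑ j ∈ Finset.range k, f j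
    | Int.negSucc k => - ∑ j ∈ Finset.range (k + 1), f (-(j + 1 : ℤ)), ?_⟩
  intro t
  match t with
  | Int.ofNat k =>
    have : Int.ofNat k + 1 = Int.ofNat (k + 1) := rfl
    rw [this]
    simp only [Finset.sum_range_succ]
    rfl
  | Int.negSucc 0 =>
    have : Int.negSucc 0 + 1 = Int.ofNat 0 := rfl
    rw [this]
    simp
  | Int.negSucc (k + 1) =>
    have : Int.negSucc (k + 1) + 1 = Int.negSucc k := rfl
    rw [this]
    simp only
    rw [Finset.sum_range_succ (fun j : ℕ => f (-(j + 1 : ℤ))) (k + 1)]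
    have h2 : Int.negSucc (k + 1) = (-(((k + 1 : ℕ) : ℤ) + 1)) := by
      rw [Int.negSucc_eq]
    rw [h2]
    ring

section Count

variable {N : ℤ → ℤ} (hN : ∀ t, N (t + 1) = N t ∨ N (t + 1) = N t + 1)
include hN

theorem count_mono {s t : ℤ} (h : s ≤ t) : N s ≤ N t := by
  obtain ⟨k, rfl⟩ := Int.le.dest h
  clear h
  induction k with
  | zero => simp
  | succ k ih =>
    have := hN (s + k)
    push_cast
    rw [← add_assoc]
    omega

theorem count_le {s t : ℤ} (h : s ≤ t) : N t - N s ≤ t - s := by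
  obtain ⟨k, rfl⟩ := Int.le.dest h
  clear h
  induction k with
  | zero => simp
  | succ k ih =>
    have := hN (s + k)
    push_cast
    rw [← add_assoc]
    omega

end Count

theorem count_period {N : ℤ → ℤ} {n d : ℤ} (hP : ∀ t, N (t + n) = N t + d) (t k : ℤ) :
    N (t + n * k) = N t + d * k := by
  induction k using Int.induction_on with
  | zero => simp
  | succ k ih =>
    have := hP (t + n * k)
    have e : t + n * (k + 1) = t + n * k + n := by ring
    rw [e, this, ih]; ring
  | pred k ih =>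
    have := hP (t + n * (-k - 1))
    have e : t + n * (-k - 1) + n = t + n * (-k) := by ring
    rw [e, ih] at this
    linarith

/-- The time of the `τ`-th step. -/
theorem exists_time {N : ℤ → ℤ} (hN : ∀ t, N (t + 1) = N t ∨ N (t + 1) = N t + 1)
    {n d : ℤ} (hn : 0 < n) (hd : 0 < d) (hP : ∀ t, N (t + n) = N t + d) (τ : ℤ) :
    ∃ T, N T = τ ∧ N (T + 1) = τ + 1 := by
  -- the greatest `t` with `N t ≤ τ`
  have hb : ∃ b, ∀ z, N z ≤ τ → z ≤ b := by
    refine ⟨n * (|τ - N 0| + 1), fun z hz => ?_⟩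
    by_contra hcon
    have h1 := count_mono hN (le_of_lt (not_le.mp hcon))
    have h2 := count_period hP 0 (|τ - N 0| + 1)
    rw [zero_add] at h2
    rw [h2] at h1
    have h3 := le_abs_self (τ - N 0)
    nlinarith [abs_nonneg (τ - N 0)]
  have hex : ∃ z, N z ≤ τ := by
    refine ⟨0 + n * (-|τ - N 0|), ?_⟩
    rw [count_period hP]
    have h3 := neg_abs_le (τ - N 0)
    nlinarith [abs_nonneg (τ - N 0)]
  obtain ⟨T, hT, hmax⟩ := Int.exists_greatest_of_bdd hb hex
  have h1 : ¬ N (T + 1) ≤ τ := fun h => by have := hmax _ h; omega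
  have := hN T
  exact ⟨T, by omega, by omega⟩

/-- Projection of a frieze to a factor. -/
theorem project {P : FaceSys} {top : P.Face} (hP : Poly P top) {κT : Type}
    {n : ℕ} (hn : 0 < n) {π : ℕ → ℤ → P.Face} {κ : ℕ → ℤ → κT} {N : ℤ → ℤ}
    (hN : ∀ t, N (t + 1) = N t ∨ N (t + 1) = N t + 1)
    (hper : ∀ t, N (t + n) = N t + P.dim)
    (hrk : ∀ i, i ≤ n → ∀ t, (P.rk (π i t) : ℤ) = N (t + i) - N t)
    (hle : ∀ i, i < n → ∀ t, P.le (π i t) (π (i + 1) t))
    (hle' : ∀ i, i < n → ∀ t, P.le (π i (t + 1)) (π (i + 1) t))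
    (hne : ∀ i, i < n → ∀ t, ¬ (π i t = π i (t + 1) ∧ κ i t = κ i (t + 1)))
    (hκ : ∀ i, i < n → ∀ t, N (t + i + 1) = N (t + i) + 1 → κ (i + 1) t = κ i t)
    (hκ' : ∀ i, i < n → ∀ t, N (t + 1) = N t + 1 → κ (i + 1) t = κ i (t + 1)) :
    ∃ z, Fr P z ∧ ∀ i, i ≤ n → ∀ t, π i t = z (N (t + i) - N t).toNat (N t) := by
  have hdpos : (0 : ℤ) < P.dim := by exact_mod_cast hP.dim_pos
  have hnpos : (0 : ℤ) < n := by exact_mod_cast hn
  choose T hT hT1 using exists_time hN hnpos hdpos hper
  -- invariance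
  have inv1 : ∀ i, i < n → ∀ t, N (t + i + 1) = N (t + i) → π (i + 1) t = π i t := by
    intro i hi t h
    refine (hP.eq_of _ _ (hle i hi t) ?_).symm
    have h1 := hrk i (by omega) t
    have h2 := hrk (i + 1) (by omega) t
    push_cast at h2
    rw [← add_assoc] at h2
    omega
  have inv2 : ∀ i, i < n → ∀ t, N (t + 1) = N t → π (i + 1) t = π i (t + 1) := by
    intro i hi t h
    refine (hP.eq_of _ _ (hle' i hi t) ?_).symm
    have h1 := hrk i (by omega) (t + 1)
    have h2 := hrk (i + 1) (by omega) t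
    push_cast at h2
    have e : t + 1 + (i : ℤ) = t + (i + 1) := by ring
    rw [e] at h1
    omega
  -- extension to the right
  have ext1 : ∀ (k i : ℕ), i + k ≤ n → ∀ t, N (t + i + k) = N (t + i) → π (i + k) t = π i t := by
    intro k
    induction k with
    | zero => intro i _ t _; rfl
    | succ k ih =>
      intro i hi t h
      have hm := count_mono hN (show t + i ≤ t + i + k by omega)
      have hm2 := count_mono hN (show t + i + k ≤ t + i + (k + 1 : ℕ) by push_cast; omega)
      have h1 : N (t + i + k) = N (t + i) := by omega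
      have h2 := inv1 (i + k) (by omega) t (by
        push_cast
        have e1 : t + ((i : ℤ) + k) + 1 = t + i + (k + 1 : ℕ) := by push_cast; ring
        have e2 : t + ((i : ℤ) + k) = t + i + k := by ring
        rw [e1, e2, h, h1])
      rw [← add_assoc, h2]
      exact ih i (by omega) t h1
  have ext2 : ∀ (k i : ℕ), i + k ≤ n → ∀ t, N (t + k) = N t → π (i + k) t = π i (t + k) := by
    intro k
    induction k with
    | zero => intro i _ t _; simp
    | succ k ih =>
      intro i hi t h
      have hm := count_mono hN (show t ≤ t + k by omega)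
      have hm2 := count_mono hN (show t + k ≤ t + (k + 1 : ℕ) by push_cast; omega)
      have h1 : N (t + k) = N t := by omega
      have h3 := ih (i + 1) (by omega) t h1
      have e0 : i + (k + 1) = i + 1 + k := by ring
      rw [e0, h3]
      have h2 := inv2 i (by omega) (t + k) (by
        have e1 : t + k + 1 = t + (k + 1 : ℕ) := by push_cast; ring
        rw [e1, h, h1])
      rw [h2]
      congr 1
      push_cast
      ring
  -- facts about `T`
  have Tmono : ∀ {a t : ℤ}, N t ≤ a → t ≤ T a := by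
    intro a t h
    by_contra hcon
    have := count_mono hN (show T a + 1 ≤ t by omega)
    rw [hT1] at this
    omega
  have Tlt : ∀ {a b : ℤ}, a < b → T a < T b := by
    intro a b h
    have := Tmono (a := b) (t := T a + 1) (by rw [hT1]; omega)
    omega
  have Tle : ∀ {a b : ℤ}, a ≤ b → T a ≤ T b := by
    intro a b h
    exact Tmono (by rw [hT]; exact h)
  have Tn : ∀ {a t : ℤ}, a < N t + P.dim → T a < t + n := by
    intro a t h
    by_contra hcon
    have := count_mono hN (not_lt.mp hcon)
    rw [hper, hT] at this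
    omega
  -- the key lemma
  have key : ∀ t (i j : ℕ) τ, i ≤ n → N t = τ → N (t + i) = τ + j → j < P.dim →
      π i t = π (T (τ + j) - T τ).toNat (T τ) := by
    intro t i j τ hi ht hti hj
    have h1 : t + i ≤ T (τ + j) := Tmono hti.le
    have h2 : T (τ + j) < t + n := Tn (by omega)
    have h3 : t ≤ T τ := Tmono ht.le
    have h4 : T τ ≤ T (τ + j) := Tle (by omega)
    obtain ⟨k, hk⟩ := Int.le.dest h1
    obtain ⟨l, hl⟩ := Int.le.dest h3
    obtain ⟨m, hm⟩ := Int.le.dest h4
    have hm' : (T (τ + j) - T τ).toNat = m := by omega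
    rw [hm']
    have e1 := ext1 k i (by omega) t (by rw [hk, hT, hti])
    have e2 := ext2 l m (by omega) t (by rw [hl, hT, ht])
    rw [← e1, ← hl]
    have e3 : i + k = m + l := by omega
    rw [e3]
    exact e2
  refine ⟨fun j τ => if j < P.dim then π (T (τ + j) - T τ).toNat (T τ) else top,
    ⟨?_, ?_, ?_, ?_⟩, ?_⟩
  · intro j hj τ
    try dsimp only
    split_ifs with h
    · have h4 : T τ ≤ T (τ + j) := Tle (by omega)
      have h2 : T (τ + j) < T τ + n := Tn (by rw [hT]; omega)
      obtain ⟨m, hm⟩ := Int.le.dest h4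
      have hm' : (T (τ + j) - T τ).toNat = m := by omega
      rw [hm']
      have := hrk m (by omega) (T τ)
      rw [hm, hT, hT] at this
      omega
    · rw [hP.rk_top]; omega
  · intro j hj τ
    try dsimp only
    rw [if_pos hj]
    split_ifs with h
    · have h4 : T τ ≤ T (τ + j) := Tle (by omega)
      have h2 : T (τ + j) < T τ + n := Tn (by rw [hT]; omega)
      obtain ⟨m, hm⟩ := Int.le.dest h4
      have hm' : (T (τ + j) - T τ).toNat = m := by omega
      have h5 := key (T τ) (m + 1) (j + 1) τ (by omega) (hT τ) (by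
        push_cast
        rw [← add_assoc, hm, hT1]; ring) h
      rw [← h5, hm']
      exact hle m (by omega) _
    · exact hP.le_top _
  · intro j hj τ
    try dsimp only
    rw [if_pos hj]
    split_ifs with h
    · have h4 : T τ < T (τ + (j + 1 : ℕ)) := Tlt (by omega)
      have h2 : T (τ + (j + 1 : ℕ)) < T τ + n := Tn (by rw [hT]; omega)
      obtain ⟨m, hm⟩ := Int.le.dest (show T τ + 1 ≤ T (τ + (j + 1 : ℕ)) by omega)
      have h5 := key (T τ + 1) m j (τ + 1) (by omega) (hT1 τ) (by
        rw [hm, hT]; push_cast; ring) hj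
      have hm' : (T (τ + (j + 1 : ℕ)) - T τ).toNat = m + 1 := by omega
      rw [← h5, hm']
      exact hle' m (by omega) _
    · exact hP.le_top _
  · intro j hj τ
    try dsimp only
    rw [if_pos hj, if_pos hj]
    have h4 : T τ ≤ T (τ + j) := Tle (by omega)
    have h2 : T (τ + j) < T τ + n := Tn (by rw [hT]; omega)
    obtain ⟨m, hm⟩ := Int.le.dest h4
    have hm' : (T (τ + j) - T τ).toNat = m := by omega
    have h5 := key (T τ + 1) m j (τ + 1) (by omega) (hT1 τ) (by
      have e : T τ + 1 + (m : ℤ) = T (τ + j) + 1 := by omega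
      rw [e, hT1]; ring) hj
    rw [← h5, hm']
    intro he
    apply hne m (by omega) (T τ)
    refine ⟨he, ?_⟩
    have h6 := hκ m (by omega) (T τ) (by rw [hm, hT1, hT])
    have h7 := hκ' m (by omega) (T τ) (by rw [hT1, hT])
    rw [← h6, h7]
  · intro i hi t
    try dsimp only
    have hm1 := count_mono hN (show t ≤ t + i by omega)
    have hm2 := count_mono hN (show t + i ≤ t + n by omega)
    rw [hper] at hm2
    obtain ⟨j, hj⟩ := Int.le.dest hm1
    have hj' : (N (t + i) - N t).toNat = j := by omega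
    rw [hj']
    split_ifs with h
    · exact key t i j (N t) hi rfl (by omega) h
    · apply hP.eq_top
      have := hrk i hi t
      omega

theorem Poly.prod {P Q : FaceSys} {tP : P.Face} {tQ : Q.Face} (hP : Poly P tP)
    (hQ : Poly Q tQ) : Poly (prod P Q) (tP, tQ) where
  refl F := ⟨hP.refl _, hQ.refl _⟩
  trans F G H h1 h2 := ⟨hP.trans _ _ _ h1.1 h2.1, hQ.trans _ _ _ h1.2 h2.2⟩
  rkmono F G h := Nat.add_le_add (hP.rkmono _ _ h.1) (hQ.rkmono _ _ h.2)
  eq_of F G h he := by
    have h1 := hP.rkmono _ _ h.1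
    have h2 := hQ.rkmono _ _ h.2
    have he' : P.rk F.1 + Q.rk F.2 = P.rk G.1 + Q.rk G.2 := he
    exact Prod.ext (hP.eq_of _ _ h.1 (by omega)) (hQ.eq_of _ _ h.2 (by omega))
  rk_top := by
    change P.rk tP + Q.rk tQ = P.dim + Q.dim
    rw [hP.rk_top, hQ.rk_top]
  le_top F := ⟨hP.le_top _, hQ.le_top _⟩
  dim_pos := by
    have := hP.dim_pos
    change 1 ≤ P.dim + Q.dim
    omega

/-- Decomposition of a frieze of a product. -/
theorem decompose {P Q : FaceSys} {tP : P.Face} {tQ : Q.Face} (hP : Poly P tP)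
    (hQ : Poly Q tQ) {y : ℕ → ℤ → (prod P Q).Face} (hy : Fr (prod P Q) y) :
    ∃ (N M : ℤ → ℤ) (z : ℕ → ℤ → P.Face) (z' : ℕ → ℤ → Q.Face),
      Fr P z ∧ Fr Q z' ∧ (∀ t, N t + M t = t) ∧
      (∀ t, N (t + 1) = N t ∨ N (t + 1) = N t + 1) ∧
      (∀ t, N (t + (P.dim + Q.dim : ℕ)) = N t + P.dim) ∧
      ∀ i, i ≤ P.dim + Q.dim → ∀ t, y i t =
        (z (N (t + i) - N t).toNat (N t), z' (M (t + i) - M t).toNat (M t)) := by
  set n := P.dim + Q.dim with hn
  have hd : (Petrie.prod P Q).dim = n := rfl
  have hPd := hP.dim_pos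
  have hQd := hQ.dim_pos
  let p : ℕ → ℤ → ℕ := fun i t => P.rk (y i t).1
  let q : ℕ → ℤ → ℕ := fun i t => Q.rk (y i t).2
  have hpq : ∀ i, i ≤ n → ∀ t, p i t + q i t = i := fun i hi t => hy.rk i hi t
  obtain ⟨N, hNf⟩ := exists_cumulative (fun t => (p 1 t : ℤ))
  have hp1 : ∀ t, p 1 t ≤ 1 := fun t => by have := hpq 1 (by omega) t; omega
  have hN : ∀ t, N (t + 1) = N t ∨ N (t + 1) = N t + 1 := by
    intro t
    have := hNf t
    have := hp1 t
    omega
  have upP : ∀ i, i < n → ∀ t, P.le (y i t).1 (y (i + 1) t).1 := fun i hi t => (hy.up i hi t).1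
  have upQ : ∀ i, i < n → ∀ t, Q.le (y i t).2 (y (i + 1) t).2 := fun i hi t => (hy.up i hi t).2
  have upP' : ∀ i, i < n → ∀ t, P.le (y i (t + 1)).1 (y (i + 1) t).1 :=
    fun i hi t => (hy.up' i hi t).1
  have upQ' : ∀ i, i < n → ∀ t, Q.le (y i (t + 1)).2 (y (i + 1) t).2 :=
    fun i hi t => (hy.up' i hi t).2
  have key : ∀ i, i + 1 ≤ n → (∀ t, (p i t : ℤ) = N (t + i) - N t) ∧
      (∀ t, (p (i + 1) t : ℤ) = N (t + (i + 1 : ℕ)) - N t) := by
    intro i
    induction i with
    | zero =>
      intro _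
      constructor
      · intro t
        have := hpq 0 (by omega) t
        simp
        omega
      · intro t
        have := hNf t
        push_cast
        try simp only [zero_add]
        have e : t + ((0 : ℕ) + 1 : ℤ) = t + 1 := by push_cast; ring
        try simp only [e]
        rw [this]
        simp
    | succ i ih =>
      intro hi
      obtain ⟨ih1, ih2⟩ := ih (by omega)
      refine ⟨ih2, fun t => ?_⟩
      have a1 := hP.rkmono _ _ (upP (i + 1) (by omega) t)
      have a2 := hQ.rkmono _ _ (upQ (i + 1) (by omega) t)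
      have a3 := hP.rkmono _ _ (upP' (i + 1) (by omega) t)
      have a4 := hQ.rkmono _ _ (upQ' (i + 1) (by omega) t)
      change p (i + 1) t ≤ p (i + 1 + 1) t at a1
      change q (i + 1) t ≤ q (i + 1 + 1) t at a2
      change p (i + 1) (t + 1) ≤ p (i + 1 + 1) t at a3
      change q (i + 1) (t + 1) ≤ q (i + 1 + 1) t at a4
      have b1 := hpq (i + 1) (by omega) t
      have b2 := hpq (i + 1 + 1) (by omega) t
      have b3 := hpq (i + 1) (by omega) (t + 1)
      have b4 := hpq i (by omega) (t + 1)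
      have c1 := ih2 t
      have c2 := ih2 (t + 1)
      have c3 := ih1 (t + 1)
      have e1 : t + 1 + ((i + 1 : ℕ) : ℤ) = t + (i + 1 + 1 : ℕ) := by push_cast; ring
      have e2 : t + 1 + (i : ℤ) = t + (i + 1 : ℕ) := by push_cast; ring
      rw [e1] at c2
      rw [e2] at c3
      have hNt := hN t
      have hNi := hN (t + (i + 1 : ℕ))
      have e3 : t + ((i + 1 : ℕ) : ℤ) + 1 = t + (i + 1 + 1 : ℕ) := by push_cast; ring
      rw [e3] at hNi
      -- equality cases
      have E : ¬ (p (i + 1 + 1) t = p (i + 1) t ∧ p (i + 1) (t + 1) = p (i + 1) t ∧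
          q i (t + 1) = q (i + 1) t) := by
        rintro ⟨h1, h2, h3⟩
        apply hy.ne (i + 1) (by omega) t
        refine Prod.ext ?_ ?_
        · have u1 := hP.eq_of _ _ (upP (i + 1) (by omega) t) h1.symm
          have u2 := hP.eq_of _ _ (upP' (i + 1) (by omega) t) (h2.trans h1.symm)
          rw [u1, u2]
        · have u1 := hQ.eq_of _ _ (upQ i (by omega) (t + 1)) (by
            change q i (t + 1) = q (i + 1) (t + 1)
            omega)
          have u2 := hQ.eq_of _ _ (upQ' i (by omega) t) h3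
          rw [← u1, ← u2]
      have E' : ¬ (q (i + 1 + 1) t = q (i + 1) t ∧ q (i + 1) (t + 1) = q (i + 1) t ∧
          p i (t + 1) = p (i + 1) t) := by
        rintro ⟨h1, h2, h3⟩
        apply hy.ne (i + 1) (by omega) t
        refine Prod.ext ?_ ?_
        · have u1 := hP.eq_of _ _ (upP i (by omega) (t + 1)) (by
            change p i (t + 1) = p (i + 1) (t + 1)
            omega)
          have u2 := hP.eq_of _ _ (upP' i (by omega) t) h3
          rw [← u1, ← u2]
        · have u1 := hQ.eq_of _ _ (upQ (i + 1) (by omega) t) h1.symm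
          have u2 := hQ.eq_of _ _ (upQ' (i + 1) (by omega) t) (h2.trans h1.symm)
          rw [u1, u2]
      omega
  have hrkP : ∀ i, i ≤ n → ∀ t, (p i t : ℤ) = N (t + i) - N t := by
    intro i hi t
    rcases Nat.eq_zero_or_pos i with rfl | h
    · exact (key 0 (by omega)).1 t
    · obtain ⟨k, rfl⟩ : ∃ k, i = k + 1 := ⟨i - 1, by omega⟩
      exact (key k (by omega)).2 t
  have hper : ∀ t, N (t + (n : ℕ)) = N t + P.dim := by
    intro t
    have h1 := hrkP n le_rfl t
    have h2 := hpq n le_rfl t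
    have h3 : p n t ≤ P.dim := hP.rk_le _
    have h4 : q n t ≤ Q.dim := hQ.rk_le _
    omega
  let M : ℤ → ℤ := fun t => t - N t
  have hM : ∀ t, M (t + 1) = M t ∨ M (t + 1) = M t + 1 := by
    intro t
    have := hN t
    simp only [M]
    omega
  have hperM : ∀ t, M (t + (n : ℕ)) = M t + Q.dim := by
    intro t
    have := hper t
    simp only [M]
    omega
  have hrkQ : ∀ i, i ≤ n → ∀ t, (q i t : ℤ) = M (t + i) - M t := by
    intro i hi t
    have := hrkP i hi t
    have := hpq i hi t
    simp only [M]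
    omega
  -- constancy of the components
  have cP : ∀ i, i < n → ∀ t, M (t + i + 1) = M (t + i) + 1 → (y (i + 1) t).1 = (y i t).1 := by
    intro i hi t h
    refine (hP.eq_of _ _ (upP i hi t) ?_).symm
    have h1 := hrkP i (by omega) t
    have h2 := hrkP (i + 1) (by omega) t
    push_cast at h2
    rw [← add_assoc] at h2
    change p i t = p (i + 1) t
    simp only [M] at h
    omega
  have cP' : ∀ i, i < n → ∀ t, M (t + 1) = M t + 1 → (y (i + 1) t).1 = (y i (t + 1)).1 := by
    intro i hi t h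
    refine (hP.eq_of _ _ (upP' i hi t) ?_).symm
    have h1 := hrkP i (by omega) (t + 1)
    have h2 := hrkP (i + 1) (by omega) t
    push_cast at h2
    have e : t + 1 + (i : ℤ) = t + (i + 1) := by ring
    rw [e] at h1
    change p i (t + 1) = p (i + 1) t
    simp only [M] at h
    omega
  have cQ : ∀ i, i < n → ∀ t, N (t + i + 1) = N (t + i) + 1 → (y (i + 1) t).2 = (y i t).2 := by
    intro i hi t h
    refine (hQ.eq_of _ _ (upQ i hi t) ?_).symm
    have h1 := hrkQ i (by omega) t
    have h2 := hrkQ (i + 1) (by omega) t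
    push_cast at h2
    rw [← add_assoc] at h2
    change q i t = q (i + 1) t
    simp only [M] at h1 h2
    omega
  have cQ' : ∀ i, i < n → ∀ t, N (t + 1) = N t + 1 → (y (i + 1) t).2 = (y i (t + 1)).2 := by
    intro i hi t h
    refine (hQ.eq_of _ _ (upQ' i hi t) ?_).symm
    have h1 := hrkQ i (by omega) (t + 1)
    have h2 := hrkQ (i + 1) (by omega) t
    push_cast at h2
    have e : t + 1 + (i : ℤ) = t + (i + 1) := by ring
    rw [e] at h1
    change q i (t + 1) = q (i + 1) t
    simp only [M] at h1 h2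
    omega
  obtain ⟨z, hz, hzy⟩ := project hP (π := fun i t => (y i t).1) (κ := fun i t => (y i t).2)
    (by omega : 0 < n) hN hper hrkP upP upP'
    (fun i hi t h => hy.ne i hi t (Prod.ext h.1 h.2)) cQ cQ'
  obtain ⟨z', hz', hzy'⟩ := project hQ (π := fun i t => (y i t).2) (κ := fun i t => (y i t).1)
    (by omega : 0 < n) hM hperM hrkQ upQ upQ'
    (fun i hi t h => hy.ne i hi t (Prod.ext h.2 h.1)) cP cP'
  refine ⟨N, M, z, z', hz, hz', fun t => by simp only [M]; ring, hN, hper, fun i hi t => ?_⟩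
  exact Prod.ext (hzy i hi t) (hzy' i hi t)

end Pool.Agent.V11155.Petrie
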