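import Pool.Agent.V11155.PetrieDefs

/-!
# Petrie schemes of regular star-polytopes
-/

namespace Pool.Agent.V11155.Petrie

open scoped Pointwise

/-- The Gram matrix of a linear diagram with labels `q 0, q 1, ...`: the entry for `i, i + 1`
is `- cos (π / q i)`. -/
noncomputable def gram (q : ℕ → ℝ) (i j : ℕ) : ℝ :=
  if i = j then 1 else if j = i + 1 then -Real.cos (Real.pi / q i)
  else if i = j + 1 then -Real.cos (Real.pi / q j) else 0

/-- The reflection of `ℝ^n` in the `i`-th basis vector, with respect to the form `gram q`. -/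
noncomputable def reflFun (n : ℕ) (q : ℕ → ℝ) (i : Fin n) (x : Fin n → ℝ) : Fin n → ℝ :=
  Function.update x i (x i - 2 * ∑ j : Fin n, gram q i j * x j)

theorem gram_self (q : ℕ → ℝ) (i : ℕ) : gram q i i = 1 := by simp [gram]

theorem gram_symm (q : ℕ → ℝ) (i j : ℕ) : gram q i j = gram q j i := by
  simp only [gram]
  by_cases h1 : i = j
  · subst h1; simp
  · have h1' : ¬ j = i := fun h => h1 h.symm
    simp only [h1, h1', if_false]
    by_cases h2 : j = i + 1
    · have h3 : ¬ i = j + 1 := by omega
      rw [if_pos h2, if_neg h3, if_pos h2]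
    · by_cases h3 : i = j + 1
      · rw [if_neg h2, if_pos h3, if_pos h3]
      · rw [if_neg h2, if_neg h3, if_neg h3, if_neg h2]

theorem perm_apply_inv {α : Type} (a : Equiv.Perm α) (x : α) : a (a⁻¹ x) = x :=
  a.apply_symm_apply x

section Group

variable (n : ℕ) (q : ℕ → ℝ)

theorem sum_gram_update (i k : Fin n) (x : Fin n → ℝ) (c : ℝ) :
    ∑ j : Fin n, gram q k j * Function.update x i (x i + c) j =
      (∑ j : Fin n, gram q k j * x j) + c * gram q k i := by
  have h : ∀ j : Fin n, gram q k j * Function.update x i (x i + c) j =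
      gram q k j * x j + if j = i then c * gram q k i else 0 := by
    intro j
    by_cases hj : j = i
    · subst hj; simp; ring
    · simp [Function.update_of_ne hj, hj]
  rw [Finset.sum_congr rfl (fun j _ => h j), Finset.sum_add_distrib]
  simp

theorem reflFun_eq (i : Fin n) (x : Fin n → ℝ) : reflFun n q i x =
    Function.update x i (x i + (-(2 * ∑ j : Fin n, gram q i j * x j))) := by
  rw [reflFun, sub_eq_add_neg]

theorem reflFun_invol (i : Fin n) : Function.Involutive (reflFun n q i) := by
  intro x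
  rw [reflFun_eq n q i (reflFun n q i x)]
  have h1 : ∑ j : Fin n, gram q i j * reflFun n q i x j = -∑ j : Fin n, gram q i j * x j := by
    rw [reflFun_eq, sum_gram_update, gram_self]
    ring
  rw [h1]
  funext j
  by_cases hj : j = i
  · subst hj
    simp [reflFun]
  · rw [Function.update_of_ne hj, reflFun, Function.update_of_ne hj]

/-- The reflection, as a permutation of `ℝ^n`. -/
noncomputable def refl (i : Fin n) : Equiv.Perm (Fin n → ℝ) := (reflFun_invol n q i).toPerm

theorem refl_apply (i : Fin n) (x : Fin n → ℝ) : refl n q i x = reflFun n q i x := rfl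

/-- The group generated by the reflections with indices in `S`. -/
noncomputable def grp (S : Set (Fin n)) : Subgroup (Equiv.Perm (Fin n → ℝ)) :=
  Subgroup.closure (refl n q '' S)

/-- The regular polytope with group generated by the reflections `ρ_0, ..., ρ_{n-1}` of the
diagram with labels `q 0, ..., q (n-2)`: its faces of rank `i` are the left cosets `g G_i` in
the group `G` generated by all `ρ_j`, where `G_i` is generated by the `ρ_j` with `j ≠ i`; two
faces are incident if the cosets intersect. -/
noncomputable def cosetPoly : FaceSys where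
  Face := {x : Fin n × Set (Equiv.Perm (Fin n → ℝ)) //
    ∃ g ∈ grp n q Set.univ, x.2 = g • (grp n q {j | j ≠ x.1} : Set (Equiv.Perm (Fin n → ℝ)))}
  rk F := F.1.1
  le F G := F.1.1 ≤ G.1.1 ∧ (F.1.2 ∩ G.1.2).Nonempty
  dim := n

theorem grp_mono {S T : Set (Fin n)} (h : S ⊆ T) : grp n q S ≤ grp n q T :=
  Subgroup.closure_mono (Set.image_mono h)

theorem refl_mem {S : Set (Fin n)} {i : Fin n} (h : i ∈ S) : refl n q i ∈ grp n q S :=
  Subgroup.subset_closure ⟨i, h, rfl⟩

theorem fix_coord {i : Fin n} {g : Equiv.Perm (Fin n → ℝ)} (hg : g ∈ grp n q {j | j ≠ i}) :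
    ∀ x, g x i = x i := by
  refine Subgroup.closure_induction (p := fun g _ => ∀ x, g x i = x i) ?_ ?_ ?_ ?_ hg
  · rintro _ ⟨j, hj, rfl⟩ x
    rw [refl_apply, reflFun, Function.update_of_ne (Ne.symm hj)]
  · intro x; rfl
  · intro a b _ _ ha hb x
    rw [Equiv.Perm.mul_apply, ha, hb]
  · intro a _ ha x
    have := ha (a⁻¹ x)
    rw [perm_apply_inv] at this
    exact this.symm

theorem refl_add (i : Fin n) (x y : Fin n → ℝ) :
    refl n q i (x + y) = refl n q i x + refl n q i y := by
  funext j
  simp only [refl_apply, reflFun, Pi.add_apply]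
  by_cases hj : j = i
  · subst hj
    simp only [Function.update_self]
    have : ∑ k : Fin n, gram q j k * (x k + y k) =
        ∑ k : Fin n, gram q j k * x k + ∑ k : Fin n, gram q j k * y k := by
      rw [← Finset.sum_add_distrib]
      exact Finset.sum_congr rfl (fun k _ => by ring)
    rw [this]; ring
  · simp [Function.update_of_ne hj]

theorem grp_add {g : Equiv.Perm (Fin n → ℝ)} (hg : g ∈ grp n q Set.univ) :
    ∀ x y, g (x + y) = g x + g y := by
  refine Subgroup.closure_induction (p := fun g _ => ∀ x y, g (x + y) = g x + g y)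
    ?_ ?_ ?_ ?_ hg
  · rintro _ ⟨j, -, rfl⟩ x y
    exact refl_add n q j x y
  · intro x y; rfl
  · intro a b _ _ ha hb x y
    simp only [Equiv.Perm.mul_apply]
    rw [hb, ha]
  · intro a _ ha x y
    apply a.injective
    rw [perm_apply_inv, ha, perm_apply_inv, perm_apply_inv]

/-- The quadratic form. -/
noncomputable def Q (x : Fin n → ℝ) : ℝ := ∑ k : Fin n, x k * ∑ j : Fin n, gram q k j * x j

theorem Q_update (i : Fin n) (x : Fin n → ℝ) (c : ℝ) :
    Q n q (Function.update x i (x i + c)) =
      Q n q x + 2 * c * (∑ j : Fin n, gram q i j * x j) + c ^ 2 := by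
  unfold Q
  simp only [sum_gram_update]
  have h : ∀ k : Fin n, Function.update x i (x i + c) k *
      ((∑ j : Fin n, gram q k j * x j) + c * gram q k i) =
      x k * (∑ j : Fin n, gram q k j * x j) + c * (gram q i k * x k) +
        if k = i then c * (∑ j : Fin n, gram q i j * x j) + c ^ 2 else 0 := by
    intro k
    by_cases hk : k = i
    · subst hk
      rw [Function.update_self, gram_self]
      simp only [if_true]
      ring
    · rw [Function.update_of_ne hk, gram_symm q k i]
      simp only [hk, if_false]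
      ring
  rw [Finset.sum_congr rfl (fun k _ => h k), Finset.sum_add_distrib, Finset.sum_add_distrib,
    ← Finset.mul_sum]
  simp
  ring

theorem grp_Q {g : Equiv.Perm (Fin n → ℝ)} (hg : g ∈ grp n q Set.univ) :
    ∀ x, Q n q (g x) = Q n q x := by
  refine Subgroup.closure_induction (p := fun g _ => ∀ x, Q n q (g x) = Q n q x)
    ?_ ?_ ?_ ?_ hg
  · rintro _ ⟨j, -, rfl⟩ x
    rw [refl_apply, reflFun_eq, Q_update]
    ring
  · intro x; rfl
  · intro a b _ _ ha hb x
    rw [Equiv.Perm.mul_apply, ha, hb]
  · intro a _ ha x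
    have := ha (a⁻¹ x)
    rw [perm_apply_inv] at this
    exact this.symm

/-- The intersection property. -/
theorem eq_refl_of_fix {i : Fin n} {g : Equiv.Perm (Fin n → ℝ)} (hg : g ∈ grp n q Set.univ)
    (h : ∀ j, j ≠ i → ∀ x, g x j = x j) : g = 1 ∨ g = refl n q i := by
  set b : (Fin n → ℝ) → ℝ := fun x => ∑ j : Fin n, gram q i j * x j with hb
  set r : (Fin n → ℝ) → ℝ := fun x => g x i - x i with hr
  have hgx : ∀ x, g x = Function.update x i (x i + r x) := by
    intro x
    funext j
    by_cases hj : j = i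
    · subst hj; simp [hr]
    · rw [Function.update_of_ne hj, h j hj]
  have hradd : ∀ x y, r (x + y) = r x + r y := by
    intro x y
    simp only [hr]
    rw [grp_add n q hg]
    simp only [Pi.add_apply]
    ring
  have hbadd : ∀ x y, b (x + y) = b x + b y := by
    intro x y
    simp only [hb]
    rw [← Finset.sum_add_distrib]
    exact Finset.sum_congr rfl (fun k _ => by rw [Pi.add_apply]; ring)
  have hor : ∀ x, r x = 0 ∨ r x = -(2 * b x) := by
    intro x
    have h1 := grp_Q n q hg x
    rw [hgx, Q_update] at h1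
    have h2 : r x * (r x + 2 * b x) = 0 := by
      simp only [hb]
      linear_combination h1
    rcases mul_eq_zero.1 h2 with h3 | h3
    · exact Or.inl h3
    · exact Or.inr (by linarith)
  by_cases hall : ∀ x, r x = 0
  · left
    ext x j
    rw [hgx, hall x]
    by_cases hj : j = i
    · subst hj; simp
    · simp [Function.update_of_ne hj]
  · right
    push Not at hall
    obtain ⟨x, hx⟩ := hall
    have hx2 : r x = -(2 * b x) := (hor x).resolve_left hx
    have hall2 : ∀ y, r y = -(2 * b y) := by
      intro y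
      rcases hor y with h0 | h0
      · rcases hor (x + y) with h1 | h1
        · rw [hradd, h0, add_zero] at h1
          exact absurd h1 hx
        · rw [hradd, h0, add_zero, hbadd] at h1
          rw [h0]
          linarith
      · exact h0
    ext y j
    rw [hgx, hall2 y, refl_apply, reflFun_eq]

/-- Reflections with distant indices commute. -/
theorem refl_comm {i j : Fin n} (h : (i : ℕ) + 1 < j) :
    refl n q i * refl n q j = refl n q j * refl n q i := by
  have hij : i ≠ j := fun h' => by rw [h'] at h; omega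
  have hg : gram q i j = 0 := by
    have h1 : ¬ (i : ℕ) = j := by omega
    have h2 : ¬ (j : ℕ) = i + 1 := by omega
    have h3 : ¬ (i : ℕ) = j + 1 := by omega
    simp [gram, h1, h2, h3]
  have hg' : gram q j i = 0 := by rw [gram_symm]; exact hg
  ext x k
  simp only [Equiv.Perm.mul_apply, refl_apply]
  have e1 : ∑ l : Fin n, gram q i l * reflFun n q j x l = ∑ l : Fin n, gram q i l * x l := by
    rw [reflFun_eq, sum_gram_update, hg]; ring
  have e2 : ∑ l : Fin n, gram q j l * reflFun n q i x l = ∑ l : Fin n, gram q j l * x l := by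
    rw [reflFun_eq, sum_gram_update, hg']; ring
  rw [reflFun_eq n q i (reflFun n q j x), reflFun_eq n q j (reflFun n q i x), e1, e2]
  by_cases hki : k = i
  · subst hki
    rw [Function.update_self, Function.update_of_ne hij, reflFun, Function.update_of_ne hij,
      reflFun, Function.update_self]
    ring
  · by_cases hkj : k = j
    · subst hkj
      rw [Function.update_self, Function.update_of_ne hki, reflFun, Function.update_self,
        reflFun, Function.update_of_ne hki]
      ring
    · rw [Function.update_of_ne hki, Function.update_of_ne hkj, reflFun,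
        Function.update_of_ne hkj, reflFun, Function.update_of_ne hki]

theorem grp_comm {k : ℕ} {a b : Equiv.Perm (Fin n → ℝ)}
    (ha : a ∈ grp n q {j | (j : ℕ) < k}) (hb : b ∈ grp n q {j | k < (j : ℕ)}) :
    a * b = b * a := by
  have h1 : grp n q {j | (j : ℕ) < k} ≤
      Subgroup.centralizer (refl n q '' {j | k < (j : ℕ)}) := by
    rw [grp, Subgroup.closure_le]
    rintro _ ⟨i, hi, rfl⟩
    rw [SetLike.mem_coe, Subgroup.mem_centralizer_iff]
    rintro _ ⟨j, hj, rfl⟩
    exact (refl_comm n q (i := i) (j := j) (by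
      simp only [Set.mem_ofPred_eq] at hi hj
      omega)).symm
  have h2 : grp n q {j | k < (j : ℕ)} ≤
      Subgroup.centralizer (grp n q {j | (j : ℕ) < k} : Set (Equiv.Perm (Fin n → ℝ))) := by
    rw [grp, Subgroup.closure_le]
    rintro b hb
    rw [SetLike.mem_coe, Subgroup.mem_centralizer_iff]
    intro a ha
    have := h1 ha
    rw [Subgroup.mem_centralizer_iff] at this
    exact (this b hb).symm
  have := h2 hb
  rw [Subgroup.mem_centralizer_iff] at this
  exact this a ha

theorem grp_split {k : Fin n} {u : Equiv.Perm (Fin n → ℝ)} (hu : u ∈ grp n q {j | j ≠ k}) :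
    ∃ b ∈ grp n q {j | (k : ℕ) < (j : ℕ)}, ∃ a ∈ grp n q {j | (j : ℕ) < (k : ℕ)},
      u = b * a := by
  refine Subgroup.closure_induction (p := fun u _ => ∃ b ∈ grp n q {j | (k : ℕ) < (j : ℕ)},
    ∃ a ∈ grp n q {j | (j : ℕ) < (k : ℕ)}, u = b * a) ?_ ?_ ?_ ?_ hu
  · rintro _ ⟨j, hj, rfl⟩
    have hne : (j : ℕ) ≠ k := fun h => hj (Fin.ext h)
    rcases lt_or_gt_of_ne hne with h | h
    · exact ⟨1, one_mem _, refl n q j, refl_mem n q h, by rw [one_mul]⟩
    · exact ⟨refl n q j, refl_mem n q h, 1, one_mem _, by rw [mul_one]⟩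
  · exact ⟨1, one_mem _, 1, one_mem _, by rw [one_mul]⟩
  · rintro _ _ _ _ ⟨b, hb, a, ha, rfl⟩ ⟨b', hb', a', ha', rfl⟩
    refine ⟨b * b', mul_mem hb hb', a * a', mul_mem ha ha', ?_⟩
    have := grp_comm n q ha hb'
    calc b * a * (b' * a') = b * (a * b') * a' := by group
      _ = b * (b' * a) * a' := by rw [this]
      _ = b * b' * (a * a') := by group
  · rintro _ _ ⟨b, hb, a, ha, rfl⟩
    refine ⟨b⁻¹, inv_mem hb, a⁻¹, inv_mem ha, ?_⟩
    rw [mul_inv_rev]
    exact grp_comm n q (inv_mem ha) (inv_mem hb)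

end Group

theorem coset_eq_iff {G : Type} [Group G] {H : Subgroup G} {g h : G} :
    g • (H : Set G) = h • (H : Set G) ↔ g⁻¹ * h ∈ H := by
  constructor
  · intro he
    have : h ∈ g • (H : Set G) := by
      rw [he]
      exact ⟨1, H.one_mem, by simp⟩
    obtain ⟨u, hu, rfl⟩ := this
    simpa using hu
  · intro hm
    ext v
    rw [Set.mem_smul_set_iff_inv_smul_mem, Set.mem_smul_set_iff_inv_smul_mem]
    simp only [smul_eq_mul, SetLike.mem_coe]
    constructor
    · intro hv
      have : h⁻¹ * v = (g⁻¹ * h)⁻¹ * (g⁻¹ * v) := by group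
      rw [this]
      exact mul_mem (inv_mem hm) hv
    · intro hv
      have : g⁻¹ * v = (g⁻¹ * h) * (h⁻¹ * v) := by group
      rw [this]
      exact mul_mem hm hv

/-- A chain of faces is given by one group element. -/
theorem exists_rep (n : ℕ) (q : ℕ → ℝ) (F : ℕ → (cosetPoly n q).Face)
    (hrk : ∀ i, i < n → ((F i).1.1 : ℕ) = i)
    (hle : ∀ i, i + 1 < n → (cosetPoly n q).le (F i) (F (i + 1))) (hn : 0 < n) :
    ∃ g ∈ grp n q Set.univ, ∀ i, i < n →
      (F i).1.2 = g • (grp n q {j | j ≠ (F i).1.1} : Set (Equiv.Perm (Fin n → ℝ))) := by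
  have key : ∀ k, k < n → ∃ g ∈ grp n q Set.univ, ∀ i, i ≤ k →
      (F i).1.2 = g • (grp n q {j | j ≠ (F i).1.1} : Set (Equiv.Perm (Fin n → ℝ))) := by
    intro k
    induction k with
    | zero =>
      intro _
      obtain ⟨g, hg, h⟩ := (F 0).2
      refine ⟨g, hg, fun i hi => ?_⟩
      have : i = 0 := by omega
      rw [this]
      exact h
    | succ k ih =>
      intro hk
      obtain ⟨g, hg, h⟩ := ih (by omega)
      obtain ⟨-, v, hv1, hv2⟩ := hle k hk
      rw [h k le_rfl] at hv1
      obtain ⟨u, hu, rfl⟩ := hv1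
      obtain ⟨b, hb, a, ha, rfl⟩ := grp_split n q hu
      have hkk : ((F k).1.1 : ℕ) = k := hrk k (by omega)
      have hkk1 : ((F (k + 1)).1.1 : ℕ) = k + 1 := hrk (k + 1) hk
      refine ⟨g * b, mul_mem hg (grp_mono n q (Set.subset_univ _) hb), fun i hi => ?_⟩
      rcases Nat.lt_or_ge i (k + 1) with hik | hik
      · rw [h i (by omega)]
        rw [coset_eq_iff]
        have e : g⁻¹ * (g * b) = b := by group
        rw [e]
        have hii : ((F i).1.1 : ℕ) = i := hrk i (by omega)
        refine grp_mono n q ?_ hb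
        intro j hj hj'
        simp only [Set.mem_ofPred_eq] at hj
        rw [hj'] at hj
        omega
      · have hik' : i = k + 1 := by omega
        subst hik'
        obtain ⟨g', hg', h'⟩ := (F (k + 1)).2
        rw [h'] at hv2 ⊢
        obtain ⟨w, hw, hw'⟩ := hv2
        simp only [smul_eq_mul] at hw'
        rw [coset_eq_iff]
        have e : g'⁻¹ * (g * b) = w * a⁻¹ := by
          have : g * b = g' * w * a⁻¹ := by
            rw [hw']; group
          rw [this]; group
        rw [e]
        refine mul_mem hw (inv_mem (grp_mono n q ?_ ha))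
        intro j hj hj'
        simp only [Set.mem_ofPred_eq] at hj
        rw [hj'] at hj
        omega
  obtain ⟨g, hg, h⟩ := key (n - 1) (by omega)
  exact ⟨g, hg, fun i hi => h i (by omega)⟩

/-- The product `ρ_0 ρ_1 ⋯ ρ_{k-1}`. -/
noncomputable def cox (n : ℕ) (q : ℕ → ℝ) : ℕ → Equiv.Perm (Fin n → ℝ)
  | 0 => 1
  | k + 1 => cox n q k * (if h : k < n then refl n q ⟨k, h⟩ else 1)

/-- Structure of friezes of `cosetPoly`. -/
theorem frieze_coset (n : ℕ) (q : ℕ → ℝ) (hn : 0 < n) {y : ℕ → ℤ → (cosetPoly n q).Face}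
    (hy : Frieze (cosetPoly n q) y) :
    ∃ g : ℤ → Equiv.Perm (Fin n → ℝ), (∀ t, g (t + 1) = g t * cox n q n) ∧
      ∀ i (hi : i < n), ∀ t, (y i t).1 = (⟨i, hi⟩, g t • (grp n q {j | j ≠ ⟨i, hi⟩} :
        Set (Equiv.Perm (Fin n → ℝ)))) := by
  have hd : (cosetPoly n q).dim = n := rfl
  have hrk : ∀ i, i < n → ∀ t, ((y i t).1.1 : ℕ) = i := fun i hi t => hy.rk i hi t
  have hrep : ∀ t (k : ℕ), ∃ g ∈ grp n q Set.univ, ∀ i, i < n →
      (if i < k then y i (t + 1) else y i t).1.2 = g •
        (grp n q {j | j ≠ (if i < k then y i (t + 1) else y i t).1.1} :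
          Set (Equiv.Perm (Fin n → ℝ))) := by
    intro t k
    refine exists_rep n q (fun i => if i < k then y i (t + 1) else y i t) ?_ ?_ hn
    · intro i hi
      try dsimp only
      split_ifs
      · exact hrk i hi _
      · exact hrk i hi _
    · intro i hi
      try dsimp only
      split_ifs with h1 h2 h2
      · exact hy.up i hi _
      · exact hy.up' i hi _
      · omega
      · exact hy.up i hi _
  choose g hg hgr using hrep
  have hgr1 : ∀ t (k i : ℕ) (hi : i < n), i < k → (y i (t + 1)).1 = (⟨i, hi⟩, g t k •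
      (grp n q {j | j ≠ ⟨i, hi⟩} : Set (Equiv.Perm (Fin n → ℝ)))) := by
    intro t k i hi hik
    have h1 := hgr t k i hi
    rw [if_pos hik] at h1
    have h2 : (y i (t + 1)).1.1 = ⟨i, hi⟩ := Fin.ext (hrk i hi _)
    rw [h2] at h1
    exact Prod.ext h2 h1
  have hgr2 : ∀ t (k i : ℕ) (hi : i < n), ¬ i < k → (y i t).1 = (⟨i, hi⟩, g t k •
      (grp n q {j | j ≠ ⟨i, hi⟩} : Set (Equiv.Perm (Fin n → ℝ)))) := by
    intro t k i hi hik
    have h1 := hgr t k i hi
    rw [if_neg hik] at h1
    have h2 : (y i t).1.1 = ⟨i, hi⟩ := Fin.ext (hrk i hi _)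
    rw [h2] at h1
    exact Prod.ext h2 h1
  have hstep : ∀ t k (hk : k < n), g t (k + 1) = g t k * refl n q ⟨k, hk⟩ := by
    intro t k hk
    have hmem : (g t k)⁻¹ * g t (k + 1) ∈ grp n q Set.univ :=
      mul_mem (inv_mem (hg t k)) (hg t (k + 1))
    have hfix : ∀ j : Fin n, j ≠ ⟨k, hk⟩ → ∀ x, ((g t k)⁻¹ * g t (k + 1)) x j = x j := by
      intro j hj
      have hj' : (j : ℕ) ≠ k := fun h => hj (Fin.ext h)
      apply fix_coord n q
      rw [← coset_eq_iff]
      rcases Nat.lt_or_ge (j : ℕ) k with h | h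
      · have a1 := hgr1 t k j j.2 h
        have a2 := hgr1 t (k + 1) j j.2 (by omega)
        rw [a1] at a2
        exact congrArg Prod.snd a2
      · have a1 := hgr2 t k j j.2 (by omega)
        have a2 := hgr2 t (k + 1) j j.2 (by omega)
        rw [a1] at a2
        exact congrArg Prod.snd a2
    rcases eq_refl_of_fix n q hmem hfix with h1 | h1
    · exfalso
      have h2 : g t (k + 1) = g t k := by
        have := congrArg (fun u => g t k * u) h1
        simpa using this
      apply hy.ne k hk t
      apply Subtype.ext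
      rw [hgr2 t k k hk (lt_irrefl k), hgr1 t (k + 1) k hk (Nat.lt_succ_self k), h2]
    · rw [← h1]; group
  have hprod : ∀ t k, k ≤ n → g t k = g t 0 * cox n q k := by
    intro t k
    induction k with
    | zero => intro _; simp [cox]
    | succ k ih =>
      intro hk
      rw [hstep t k (by omega), ih (by omega), cox, dif_pos (show k < n by omega), mul_assoc]
  refine ⟨fun t => g t 0, fun t => ?_, fun i hi t => hgr2 t 0 i hi (by omega)⟩
  rw [← hprod t n le_rfl]
  -- `g t n` and `g (t+1) 0` represent the same flag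
  have hfix : ∀ j : Fin n, ∀ x, ((g t n)⁻¹ * g (t + 1) 0) x j = x j := by
    intro j
    apply fix_coord n q
    rw [← coset_eq_iff]
    have a1 := hgr1 t n j j.2 j.2
    have a2 := hgr2 (t + 1) 0 j j.2 (by omega)
    rw [a1] at a2
    exact congrArg Prod.snd a2
  have h1 : (g t n)⁻¹ * g (t + 1) 0 = 1 := by
    ext x j
    exact hfix j x
  have := congrArg (fun u => g t n * u) h1
  simpa using this

/-- A criterion for acopticity. -/
theorem allAcoptic_coset (n : ℕ) (q : ℕ → ℝ) (hn : 0 < n) (h : ℕ) (hh : 0 < h)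
    (hone : cox n q n ^ h = 1)
    (hL : ∀ d, d ∣ h → d < h → ∀ i : Fin n, cox n q n ^ d ∉ grp n q {j | j ≠ i}) :
    AllAcoptic (cosetPoly n q) := by
  apply allAcoptic_of_frieze
  intro y hy i hi s t hst j hj r
  change i < n at hi
  change j < n at hj
  obtain ⟨g, hg, hgy⟩ := frieze_coset n q hn hy
  set σ := cox n q n with hσ
  have hpow : ∀ t m : ℤ, g (t + m) = g t * σ ^ m := by
    intro t m
    induction m using Int.induction_on with
    | zero => simp
    | succ m ih => rw [← add_assoc, hg, ih, zpow_add_one]; group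
    | pred m ih =>
      have h1 := hg (t + (-(m : ℤ) - 1))
      have e : t + (-(m : ℤ) - 1) + 1 = t + -(m : ℤ) := by ring
      rw [e, ih] at h1
      have h2 : g (t + (-(m : ℤ) - 1)) = g t * σ ^ (-(m : ℤ)) * σ⁻¹ := by
        rw [h1]; group
      rw [h2, mul_assoc]
      congr 1
      rw [zpow_sub_one]
  have hm : σ ^ (t - s) ∈ grp n q {j | j ≠ ⟨i, hi⟩} := by
    have h1 := congrArg (fun F => F.1.2) hst
    try dsimp only at h1
    rw [hgy i hi s, hgy i hi t] at h1
    try dsimp only at h1
    rw [coset_eq_iff] at h1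
    have h2 := hpow s (t - s)
    have e : s + (t - s) = t := by ring
    rw [e] at h2
    rw [h2] at h1
    have e2 : (g s)⁻¹ * (g s * σ ^ (t - s)) = σ ^ (t - s) := by group
    rw [e2] at h1
    exact h1
  -- the gcd argument
  have hd : (h : ℤ) ∣ t - s := by
    set d := Int.gcd (t - s) h with hdd
    have hdvd : d ∣ h := by
      have := Int.gcd_dvd_right (t - s) (h : ℤ)
      exact_mod_cast this
    have hdm : σ ^ d ∈ grp n q {j | j ≠ ⟨i, hi⟩} := by
      have hb := Int.gcd_eq_gcd_ab (t - s) h
      have h1 : σ ^ (d : ℤ) = (σ ^ (t - s)) ^ Int.gcdA (t - s) h := by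
        rw [hb, zpow_add, zpow_mul, zpow_mul, zpow_natCast, hone, one_zpow, mul_one]
      rw [zpow_natCast] at h1
      rw [h1]
      exact Subgroup.zpow_mem _ hm _
    have hdh : d = h := by
      by_contra hne
      exact hL d hdvd (lt_of_le_of_ne (Nat.le_of_dvd hh hdvd) hne) ⟨i, hi⟩ hdm
    rw [← hdh]
    exact Int.gcd_dvd_left _ _
  obtain ⟨k, hk⟩ := hd
  apply Subtype.ext
  rw [hgy j hj, hgy j hj]
  have e : t + r = s + r + h * k := by linarith
  rw [e, hpow (s + r) (h * k), zpow_mul, zpow_natCast, hone, one_zpow, mul_one]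

end Pool.Agent.V11155.Petrie
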