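import Mathlib

/-!
# Super rooks on the diagonal of a diagonal Latin square: a square root saving
-/

set_option autoImplicit false

namespace Pool.Agent.V11155.Rooks

open Finset

/-- every colour occurs in every row, in every column and on the main diagonal -/
def Admissible {n : ℕ} (c : Fin n → Fin n → Fin n) : Prop :=
  (∀ p k, ∃ q, c p q = k) ∧ (∀ q k, ∃ p, c p q = k) ∧ ∀ k, ∃ i, c i i = k

/-- the super rooks on the diagonal cells `(i, i)`, `i ∈ D`, attack all off-diagonal cells -/
def Dominates {n : ℕ} (c : Fin n → Fin n → Fin n) (D : Finset (Fin n)) : Prop :=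
  ∀ p q, p ≠ q → ∃ i ∈ D, p = i ∨ q = i ∨ c p q = c i i

/-- the least size of a dominating set of diagonal cells -/
noncomputable def rooks {n : ℕ} (c : Fin n → Fin n → Fin n) : ℕ :=
  sInf {k : ℕ | ∃ D : Finset (Fin n), D.card = k ∧ Dominates c D}

/-- `f(n)` of the problem -/
noncomputable def f (n : ℕ) : ℕ :=
  sSup {k : ℕ | ∃ c : Fin n → Fin n → Fin n, Admissible c ∧ rooks c = k}

/-- `f_sym(n)` of the problem -/
noncomputable def fSym (n : ℕ) : ℕ :=
  sSup {k : ℕ | ∃ c : Fin n → Fin n → Fin n, Admissible c ∧ (∀ p q, c p q = c q p) ∧ rooks c = k}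

/-- no off-diagonal cell inside `J` has the colour of a diagonal cell of `J` -/
def Good {n : ℕ} (c : Fin n → Fin n → Fin n) (J : Finset (Fin n)) : Prop :=
  ∀ p ∈ J, ∀ q ∈ J, p ≠ q → ∀ r ∈ J, c p q ≠ c r r

theorem inj_of_surj {n : ℕ} (g : Fin n → Fin n) (h : ∀ k, ∃ q, g q = k) : Function.Injective g :=
  Finite.injective_iff_surjective.mpr h

theorem step {n : ℕ} (c : Fin n → Fin n → Fin n) (hc : Admissible c) (J : Finset (Fin n))
    (hJ : Good c J) (B : Finset (Fin n)) (hB : J ⊆ B)
    (h1 : ∀ p ∈ J, ∀ q ∈ J, p ≠ q → ∀ x, c x x = c p q → x ∈ B)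
    (h2 : ∀ q ∈ J, ∀ r ∈ J, q ≠ r → ∀ x, c x q = c r r → x ∈ B)
    (h3 : ∀ q ∈ J, ∀ r ∈ J, q ≠ r → ∀ x, c q x = c r r → x ∈ B)
    (hcard : B.card < n) : ∃ J' : Finset (Fin n), J'.card = J.card + 1 ∧ Good c J' := by
  classical
  have hrow : ∀ p, Function.Injective (c p) := fun p => inj_of_surj _ (hc.1 p)
  have hcol : ∀ q, Function.Injective (fun p => c p q) := fun q => inj_of_surj _ (hc.2.1 q)
  obtain ⟨x, hx⟩ : ∃ x, x ∉ B := by
    by_contra hcon
    push Not at hcon
    have hsub : (Finset.univ : Finset (Fin n)) ⊆ B := fun v _ => hcon v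
    have := Finset.card_le_card hsub
    rw [Finset.card_univ, Fintype.card_fin] at this
    omega
  have hxJ : x ∉ J := fun h => hx (hB h)
  refine ⟨insert x J, Finset.card_insert_of_notMem hxJ, ?_⟩
  intro p hp q hq hpq r hr heq
  rw [Finset.mem_insert] at hp hq hr
  rcases hp with rfl | hp
  · rcases hq with rfl | hq
    · exact hpq rfl
    · rcases hr with rfl | hr
      · exact hpq (hrow _ heq).symm
      · by_cases hqr : q = r
        · subst hqr
          exact hpq (hcol q heq)
        · exact hx (h2 q hq r hr hqr _ heq)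
  · rcases hq with rfl | hq
    · rcases hr with rfl | hr
      · exact hpq (hcol _ heq)
      · by_cases hpr : p = r
        · subst hpr
          exact hpq (hrow p heq).symm
        · exact hx (h3 p hp r hr hpr _ heq)
    · rcases hr with rfl | hr
      · exact hx (h1 p hp q hq hpq _ heq.symm)
      · exact hJ p hp q hq hpq r hr heq

theorem exists_good {n : ℕ} (c : Fin n → Fin n → Fin n) (hc : Admissible c) :
    ∀ s : ℕ, 3 * (s * s) < n + 2 * s → ∃ J : Finset (Fin n), J.card = s + 1 ∧ Good c J := by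
  classical
  intro s
  induction s with
  | zero =>
    intro h
    have h0 : 0 < n := by omega
    refine ⟨{⟨0, h0⟩}, by simp, ?_⟩
    intro p hp q hq hpq
    simp only [Finset.mem_singleton] at hp hq
    exact absurd (hp.trans hq.symm) hpq
  | succ s ih =>
    intro h
    obtain ⟨J, hJc, hJ⟩ := ih (by nlinarith)
    choose dI hdI using hc.2.2
    choose cI hcI using hc.2.1
    choose rI hrI using hc.1
    have hrow : ∀ p, Function.Injective (c p) := fun p => inj_of_surj _ (hc.1 p)
    have hcol : ∀ q, Function.Injective (fun p => c p q) := fun q => inj_of_surj _ (hc.2.1 q)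
    have hdiag : Function.Injective (fun i => c i i) := inj_of_surj _ hc.2.2
    let B1 := J.offDiag.image (fun x => dI (c x.1 x.2))
    let B2 := J.offDiag.image (fun x => cI x.1 (c x.2 x.2))
    let B3 := J.offDiag.image (fun x => rI x.1 (c x.2 x.2))
    have hoff : J.offDiag.card = (s + 1) * (s + 1) - (s + 1) := by rw [Finset.offDiag_card, hJc]
    have b1 : B1.card ≤ (s + 1) * (s + 1) - (s + 1) := by
      rw [← hoff]; exact Finset.card_image_le
    have b2 : B2.card ≤ (s + 1) * (s + 1) - (s + 1) := by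
      rw [← hoff]; exact Finset.card_image_le
    have b3 : B3.card ≤ (s + 1) * (s + 1) - (s + 1) := by
      rw [← hoff]; exact Finset.card_image_le
    have hB : (J ∪ (B1 ∪ (B2 ∪ B3))).card < n := by
      have u1 := Finset.card_union_le J (B1 ∪ (B2 ∪ B3))
      have u2 := Finset.card_union_le B1 (B2 ∪ B3)
      have u3 := Finset.card_union_le B2 B3
      have hge : s + 1 ≤ (s + 1) * (s + 1) := Nat.le_mul_self _
      omega
    obtain ⟨J', h1, h2⟩ := step c hc J hJ (J ∪ (B1 ∪ (B2 ∪ B3))) Finset.subset_union_left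
      (by
        intro p hp q hq hpq x hx
        have : x = dI (c p q) := hdiag (hx.trans (hdI _).symm)
        simp only [Finset.mem_union]
        right; left
        exact Finset.mem_image.mpr ⟨(p, q), Finset.mem_offDiag.mpr ⟨hp, hq, hpq⟩, this.symm⟩)
      (by
        intro q hq r hr hqr x hx
        have : x = cI q (c r r) := hcol q (hx.trans (hcI _ _).symm)
        simp only [Finset.mem_union]
        right; right; left
        exact Finset.mem_image.mpr ⟨(q, r), Finset.mem_offDiag.mpr ⟨hq, hr, hqr⟩, this.symm⟩)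
      (by
        intro q hq r hr hqr x hx
        have : x = rI q (c r r) := hrow q (hx.trans (hrI _ _).symm)
        simp only [Finset.mem_union]
        right; right; right
        exact Finset.mem_image.mpr ⟨(q, r), Finset.mem_offDiag.mpr ⟨hq, hr, hqr⟩, this.symm⟩) hB
    exact ⟨J', by omega, h2⟩

theorem exists_good_sym {n : ℕ} (c : Fin n → Fin n → Fin n) (hc : Admissible c)
    (hsym : ∀ p q, c p q = c q p) :
    ∀ s : ℕ, 3 * (s * s) < 2 * n + s → ∃ J : Finset (Fin n), J.card = s + 1 ∧ Good c J := by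
  classical
  intro s
  induction s with
  | zero =>
    intro h
    have h0 : 0 < n := by omega
    refine ⟨{⟨0, h0⟩}, by simp, ?_⟩
    intro p hp q hq hpq
    simp only [Finset.mem_singleton] at hp hq
    exact absurd (hp.trans hq.symm) hpq
  | succ s ih =>
    intro h
    obtain ⟨J, hJc, hJ⟩ := ih (by nlinarith)
    choose dI hdI using hc.2.2
    choose cI hcI using hc.2.1
    have hcol : ∀ q, Function.Injective (fun p => c p q) := fun q => inj_of_surj _ (hc.2.1 q)
    have hdiag : Function.Injective (fun i => c i i) := inj_of_surj _ hc.2.2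
    let B1 := (J.offDiag.filter (fun x => x.1 < x.2)).image (fun x => dI (c x.1 x.2))
    let B2 := J.offDiag.image (fun x => cI x.1 (c x.2 x.2))
    have hoff : J.offDiag.card = (s + 1) * (s + 1) - (s + 1) := by rw [Finset.offDiag_card, hJc]
    have hhalf : 2 * (J.offDiag.filter (fun x => x.1 < x.2)).card = J.offDiag.card := by
      have hsplit := Finset.card_filter_add_card_filter_not (s := J.offDiag)
        (fun x : Fin n × Fin n => x.1 < x.2)
      have heq : (J.offDiag.filter (fun x => ¬ x.1 < x.2)).card =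
          (J.offDiag.filter (fun x => x.1 < x.2)).card := by
        apply Finset.card_bij (fun x _ => (x.2, x.1))
        · intro x hx
          rw [Finset.mem_filter, Finset.mem_offDiag] at hx ⊢
          obtain ⟨⟨k1, k2, k3⟩, k4⟩ := hx
          exact ⟨⟨k2, k1, k3.symm⟩, lt_of_le_of_ne (not_lt.mp k4) k3.symm⟩
        · intro x _ y _ hxy
          simp only [Prod.mk.injEq] at hxy
          exact Prod.ext hxy.2 hxy.1
        · intro y hy
          rw [Finset.mem_filter, Finset.mem_offDiag] at hy
          obtain ⟨⟨k1, k2, k3⟩, k4⟩ := hy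
          refine ⟨(y.2, y.1), ?_, rfl⟩
          rw [Finset.mem_filter, Finset.mem_offDiag]
          exact ⟨⟨k2, k1, k3.symm⟩, not_lt.mpr k4.le⟩
      omega
    have b1 : 2 * B1.card ≤ (s + 1) * (s + 1) - (s + 1) := by
      rw [← hoff, ← hhalf]
      exact Nat.mul_le_mul_left 2 Finset.card_image_le
    have b2 : B2.card ≤ (s + 1) * (s + 1) - (s + 1) := by
      rw [← hoff]; exact Finset.card_image_le
    have hB : (J ∪ (B1 ∪ B2)).card < n := by
      have u1 := Finset.card_union_le J (B1 ∪ B2)
      have u2 := Finset.card_union_le B1 B2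
      have hge : s + 1 ≤ (s + 1) * (s + 1) := Nat.le_mul_self _
      omega
    have hm1 : ∀ p ∈ J, ∀ q ∈ J, p < q → ∀ x, c x x = c p q → x ∈ J ∪ (B1 ∪ B2) := by
      intro p hp q hq hpq x hx
      have : x = dI (c p q) := hdiag (hx.trans (hdI _).symm)
      simp only [Finset.mem_union]
      right; left
      exact Finset.mem_image.mpr ⟨(p, q), Finset.mem_filter.mpr
        ⟨Finset.mem_offDiag.mpr ⟨hp, hq, hpq.ne⟩, hpq⟩, this.symm⟩
    have hm2 : ∀ q ∈ J, ∀ r ∈ J, q ≠ r → ∀ x, c x q = c r r → x ∈ J ∪ (B1 ∪ B2) := by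
      intro q hq r hr hqr x hx
      have : x = cI q (c r r) := hcol q (hx.trans (hcI _ _).symm)
      simp only [Finset.mem_union]
      right; right
      exact Finset.mem_image.mpr ⟨(q, r), Finset.mem_offDiag.mpr ⟨hq, hr, hqr⟩, this.symm⟩
    obtain ⟨J', h1, h2⟩ := step c hc J hJ (J ∪ (B1 ∪ B2)) Finset.subset_union_left
      (by
        intro p hp q hq hpq x hx
        rcases lt_or_gt_of_ne hpq with hlt | hlt
        · exact hm1 p hp q hq hlt x hx
        · exact hm1 q hq p hp hlt x (hx.trans (hsym p q)))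
      hm2
      (by
        intro q hq r hr hqr x hx
        exact hm2 q hq r hr hqr x ((hsym x q).trans hx)) hB
    exact ⟨J', by omega, h2⟩

theorem rooks_le {n : ℕ} (c : Fin n → Fin n → Fin n) (hc : Admissible c) (J : Finset (Fin n))
    (hJ : Good c J) : rooks c ≤ n - J.card := by
  classical
  apply Nat.sInf_le
  refine ⟨Jᶜ, by rw [Finset.card_compl, Fintype.card_fin], ?_⟩
  intro p q hpq
  by_cases hp : p ∈ J
  · by_cases hq : q ∈ J
    · obtain ⟨i, hi⟩ := hc.2.2 (c p q)
      refine ⟨i, ?_, Or.inr (Or.inr hi.symm)⟩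
      rw [Finset.mem_compl]
      intro hiJ
      exact hJ p hp q hq hpq i hiJ hi.symm
    · exact ⟨q, by rw [Finset.mem_compl]; exact hq, Or.inr (Or.inl rfl)⟩
  · exact ⟨p, by rw [Finset.mem_compl]; exact hp, Or.inl rfl⟩

theorem f_le (n s : ℕ) (h : 3 * (s * s) < n + 2 * s) : f n + (s + 1) ≤ n := by
  have hs : s + 1 ≤ n := by nlinarith [Nat.zero_le s, Nat.le_mul_self s]
  have hle : f n ≤ n - (s + 1) := by
    unfold f
    rcases Set.eq_empty_or_nonempty {k : ℕ | ∃ c : Fin n → Fin n → Fin n, Admissible c ∧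
      rooks c = k} with he | hne
    · rw [he]; simp
    · apply csSup_le hne
      rintro k ⟨c, hc, rfl⟩
      obtain ⟨J, h1, h2⟩ := exists_good c hc s h
      rw [← h1]
      exact rooks_le c hc J h2
  omega

theorem fSym_le (n s : ℕ) (h : 3 * (s * s) < 2 * n + s) : fSym n + (s + 1) ≤ n := by
  have hs : s + 1 ≤ n := by nlinarith [Nat.zero_le s, Nat.le_mul_self s]
  have hle : fSym n ≤ n - (s + 1) := by
    unfold fSym
    rcases Set.eq_empty_or_nonempty {k : ℕ | ∃ c : Fin n → Fin n → Fin n, Admissible c ∧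
      (∀ p q, c p q = c q p) ∧ rooks c = k} with he | hne
    · rw [he]; simp
    · apply csSup_le hne
      rintro k ⟨c, hc, hsym, rfl⟩
      obtain ⟨J, h1, h2⟩ := exists_good_sym c hc hsym s h
      rw [← h1]
      exact rooks_le c hc J h2
  omega

theorem exists_step (n : ℕ) (hn : 1 ≤ n) : ∃ s : ℕ, 3 * (s * s) < n + 2 * s ∧
    n ≤ 3 * ((s + 1) * (s + 1)) := by
  by_contra hcon
  push Not at hcon
  have hall : ∀ s : ℕ, 3 * (s * s) < n + 2 * s := by
    intro s
    induction s with
    | zero => omega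
    | succ s ih =>
      have := hcon s ih
      omega
  have := hall n
  nlinarith [Nat.le_mul_self n]

theorem exists_step_sym (n : ℕ) (hn : 1 ≤ n) : ∃ s : ℕ, 3 * (s * s) < 2 * n + s ∧
    2 * n ≤ 3 * ((s + 1) * (s + 1)) := by
  by_contra hcon
  push Not at hcon
  have hall : ∀ s : ℕ, 3 * (s * s) < 2 * n + s := by
    intro s
    induction s with
    | zero => omega
    | succ s ih =>
      have := hcon s ih
      omega
  have := hall n
  nlinarith [Nat.le_mul_self n]

theorem f_real (n : ℕ) (hn : 1 ≤ n) : (f n : ℝ) ≤ n - Real.sqrt (n / 3) := by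
  obtain ⟨s, h1, h2⟩ := exists_step n hn
  have h3 : ((f n + (s + 1) : ℕ) : ℝ) ≤ n := by exact_mod_cast f_le n s h1
  have h4 : Real.sqrt ((n : ℝ) / 3) ≤ s + 1 := by
    rw [Real.sqrt_le_iff]
    have : (n : ℝ) ≤ 3 * ((s + 1) * (s + 1)) := by exact_mod_cast h2
    exact ⟨by positivity, by nlinarith⟩
  push_cast at h3
  linarith

theorem fSym_real (n : ℕ) (hn : 1 ≤ n) : (fSym n : ℝ) ≤ n - Real.sqrt (2 * n / 3) := by
  obtain ⟨s, h1, h2⟩ := exists_step_sym n hn
  have h3 : ((fSym n + (s + 1) : ℕ) : ℝ) ≤ n := by exact_mod_cast fSym_le n s h1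
  have h4 : Real.sqrt (2 * (n : ℝ) / 3) ≤ s + 1 := by
    rw [Real.sqrt_le_iff]
    have : 2 * (n : ℝ) ≤ 3 * ((s + 1) * (s + 1)) := by exact_mod_cast h2
    exact ⟨by positivity, by nlinarith⟩
  push_cast at h3
  linarith

end Pool.Agent.V11155.Rooks
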