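import Pool.Agent.V11155.LevelGames

/-!
Two explicit level games: one with three types and two shift-minimal winning types which is
2- but not 3-trade robust, and a family with four types and three shift-minimal winning types
which is `(k-1)`- but not `k`-trade robust, for every `k ≥ 4`.
-/

set_option linter.unusedSectionVars false

namespace Pool.Agent.V11155.TradeBases

open Finset Pool.Agent.V11155.TradeGames Pool.Agent.V11155.LevelGames

/-! ### The small game -/

/-- Levels of the eleven players. -/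
def lv3 (x : Fin 11) : Fin 3 := if x.val < 3 then 0 else if x.val < 6 then 1 else 2

/-- The small game. -/
def D3 : LG (Fin 11) 3 where
  lv := lv3
  gens := {![0, 1, 5], ![1, 2, 4]}
  ne := ⟨_, Finset.mem_insert_self _ _⟩
  pos g hg := by
    simp only [Finset.mem_insert, Finset.mem_singleton] at hg
    rcases hg with rfl | rfl
    · exact ⟨1, by decide⟩
    · exact ⟨1, by decide⟩
  real g hg := by
    simp only [Finset.mem_insert, Finset.mem_singleton] at hg
    rcases hg with rfl | rfl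
    · exact ⟨{3, 6, 7, 8, 9}, by decide⟩
    · exact ⟨{0, 3, 6, 7}, by decide⟩
  anti g hg h hh := by
    simp only [Finset.mem_insert, Finset.mem_singleton] at hg hh
    rcases hg with rfl | rfl <;> rcases hh with rfl | rfl <;> intro h
    · rfl
    · exact absurd (h 2) (by decide)
    · exact absurd (h 0) (by decide)
    · rfl
  surj i := by
    fin_cases i
    · exact ⟨0, by decide⟩
    · exact ⟨3, by decide⟩
    · exact ⟨6, by decide⟩
  adj i j h := by
    have hT : (fun l => pc lv3 ({0, 3, 6, 7} : Finset (Fin 11)) l) ∈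
        ({![0, 1, 5], ![1, 2, 4]} : Finset (Fin 3 → ℕ)) := by
      have : (fun l => pc lv3 ({0, 3, 6, 7} : Finset (Fin 11)) l) = ![1, 2, 4] := by
        funext l
        revert l
        decide
      rw [this]
      simp
    have hi := i.isLt
    have hj := j.isLt
    have : (i = 0 ∧ j = 1) ∨ (i = 1 ∧ j = 2) := by
      simp only [Fin.ext_iff]
      have e1 : ((1 : Fin 3) : ℕ) = 1 := rfl
      have e2 : ((2 : Fin 3) : ℕ) = 2 := rfl
      have e0 : ((0 : Fin 3) : ℕ) = 0 := rfl
      omega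
    rcases this with ⟨rfl, rfl⟩ | ⟨rfl, rfl⟩
    · exact ⟨{0, 3, 6, 7}, 0, 4, hT, by decide, by decide, by decide, by decide⟩
    · exact ⟨{0, 3, 6, 7}, 3, 8, hT, by decide, by decide, by decide, by decide⟩

lemma pc_le_add {N : Type} [Fintype N] [DecidableEq N] {t : ℕ} (lv : N → Fin t) (S : Finset N)
    (i j : Fin t) :
    pc lv S j ≤ pc lv S i + (univ.filter (fun x => ¬ lv x ≤ i ∧ lv x ≤ j)).card := by
  unfold pc
  refine le_trans (Finset.card_le_card ?_) (Finset.card_union_le _ _)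
  intro x hx
  simp only [Finset.mem_filter, Finset.mem_union, Finset.mem_univ, true_and] at hx ⊢
  by_cases h : lv x ≤ i
  · exact Or.inl ⟨hx.1, h⟩
  · exact Or.inr ⟨h, hx.2⟩

lemma pc_le_pc {N : Type} [Fintype N] [DecidableEq N] {t : ℕ} (lv : N → Fin t) (S : Finset N)
    {i j : Fin t} (h : i ≤ j) : pc lv S i ≤ pc lv S j := by
  unfold pc
  refine Finset.card_le_card ?_
  intro x hx
  simp only [Finset.mem_filter] at hx ⊢
  exact ⟨hx.1, hx.2.trans h⟩

lemma box3 (S : Finset (Fin 11)) : pc lv3 S 0 ≤ 3 ∧ pc lv3 S 0 ≤ pc lv3 S 1 ∧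
    pc lv3 S 1 ≤ pc lv3 S 0 + 3 ∧ pc lv3 S 1 ≤ pc lv3 S 2 ∧ pc lv3 S 2 ≤ pc lv3 S 1 + 5 := by
  refine ⟨?_, pc_le_pc _ _ (by decide), ?_, pc_le_pc _ _ (by decide), ?_⟩
  · have h1 : pc lv3 S 0 ≤ pc lv3 univ 0 := pc_mono lv3 (Finset.subset_univ S) 0
    have h2 : pc lv3 univ 0 = 3 := by decide
    omega
  · have h1 := pc_le_add lv3 S 0 1
    have h2 : (univ.filter (fun x => ¬ lv3 x ≤ 0 ∧ lv3 x ≤ 1)).card = 3 := by decide
    omega
  · have h1 := pc_le_add lv3 S 1 2
    have h2 : (univ.filter (fun x => ¬ lv3 x ≤ 1 ∧ lv3 x ≤ 2)).card = 5 := by decide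
    omega

lemma win3 (S : Finset (Fin 11)) : (game D3).win S ↔
    ((1 ≤ pc lv3 S 1 ∧ 5 ≤ pc lv3 S 2) ∨
      (1 ≤ pc lv3 S 0 ∧ 2 ≤ pc lv3 S 1 ∧ 4 ≤ pc lv3 S 2)) := by
  rw [game_win]
  have e1 : D3.gens = {![0, 1, 5], ![1, 2, 4]} := rfl
  have e2 : D3.lv = lv3 := rfl
  rw [e1, e2]
  constructor
  · rintro ⟨g, hg, h⟩
    simp only [Finset.mem_insert, Finset.mem_singleton] at hg
    rcases hg with rfl | rfl
    · left
      exact ⟨h 1, h 2⟩
    · right
      exact ⟨h 0, h 1, h 2⟩
  · rintro (h | h)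
    · refine ⟨![0, 1, 5], by simp, fun i => ?_⟩
      fin_cases i
      · exact Nat.zero_le _
      · exact h.1
      · exact h.2
    · refine ⟨![1, 2, 4], by simp, fun i => ?_⟩
      fin_cases i
      · exact h.1
      · exact h.2.1
      · exact h.2.2

lemma tr3 : TradeRobust (game D3) 2 := by
  have key := tr_cert (game D3) lv3 ![1, 1, 3] ![-1, 1, 0] 15 1 3 (by norm_num)
  simp only [Fin.sum_univ_three, Matrix.cons_val_zero, Matrix.cons_val_one,
    Matrix.cons_val] at key
  refine key ?_ ?_ (by norm_num)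
  · intro S hS
    rw [win3] at hS
    obtain ⟨h1, h2, h3, h4, h5⟩ := box3 S
    generalize pc lv3 S 0 = a at *
    generalize pc lv3 S 1 = b at *
    generalize pc lv3 S 2 = c at *
    refine ⟨by omega, fun h => ?_⟩
    have : a = 1 ∧ b = 2 ∧ c = 4 := by omega
    obtain ⟨rfl, rfl, rfl⟩ := this
    norm_num
  · intro S hS
    rw [win3] at hS
    obtain ⟨h1, h2, h3, h4, h5⟩ := box3 S
    generalize pc lv3 S 0 = a at *
    generalize pc lv3 S 1 = b at *
    generalize pc lv3 S 2 = c at *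
    refine ⟨by omega, fun h => ?_⟩
    have : (a = 0 ∧ b = 0) ∨ (a = 0 ∧ b = 3) ∨ (a = 3 ∧ b = 3) := by omega
    rcases this with ⟨rfl, rfl⟩ | ⟨rfl, rfl⟩ | ⟨rfl, rfl⟩
    · norm_num
    · norm_num
    · norm_num

lemma not_tr3 : ¬ TradeRobust (game D3) 3 := by
  intro h
  refine h 3 (by norm_num) le_rfl ![{0, 3, 6, 7}, {1, 4, 6, 8}, {2, 5, 9, 10}]
    ![{6, 7, 8, 9, 10}, {3, 4, 5, 6}, {0, 1, 2}] ?_ ?_ ?_
  · intro i
    rw [win3]
    revert i
    decide
  · intro i
    rw [win3]
    revert i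
    decide
  · decide

lemma noVeto3 : NoVeto (game D3) := by
  intro x
  refine ⟨univ.erase x, by simp, ?_⟩
  rw [win3]
  revert x
  decide

lemma noPass3 : NoPass (game D3) := by
  intro x
  rw [win3]
  revert x
  decide

/-! ### The family -/

/-- The players of the family. -/
abbrev P4 (m : ℕ) := Fin (m + 2) ⊕ (Fin (m + 4) ⊕ (Fin (m + 4) ⊕ Fin (m + 3)))

/-- Levels of the players. -/
def lv4 (m : ℕ) : P4 m → Fin 4
  | Sum.inl _ => 0
  | Sum.inr (Sum.inl _) => 1
  | Sum.inr (Sum.inr (Sum.inl _)) => 2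
  | Sum.inr (Sum.inr (Sum.inr _)) => 3

/-- The coalition with given members at the four levels. -/
def mk {m : ℕ} (A : Finset (Fin (m + 2))) (B C : Finset (Fin (m + 4))) (D : Finset (Fin (m + 3))) :
    Finset (P4 m) := A.disjSum (B.disjSum (C.disjSum D))

lemma card_level {m : ℕ} (S : Finset (P4 m)) (P : P4 m → Prop) [DecidablePred P] :
    (S.filter P).card = (univ.filter (fun i => Sum.inl i ∈ S ∧ P (Sum.inl i))).card
      + ((univ.filter (fun i => Sum.inr (Sum.inl i) ∈ S ∧ P (Sum.inr (Sum.inl i)))).card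
      + ((univ.filter (fun i => Sum.inr (Sum.inr (Sum.inl i)) ∈ S ∧
          P (Sum.inr (Sum.inr (Sum.inl i))))).card
      + (univ.filter (fun i => Sum.inr (Sum.inr (Sum.inr i)) ∈ S ∧
          P (Sum.inr (Sum.inr (Sum.inr i))))).card)) := by
  have h1 : (S.filter P) = univ.filter (fun z => z ∈ S ∧ P z) := by
    ext z; simp
  rw [h1, Finset.card_filter, Finset.card_filter, Finset.card_filter, Finset.card_filter,
    Finset.card_filter, Fintype.sum_sum_type, Fintype.sum_sum_type, Fintype.sum_sum_type]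

/-- Numbers of members at the four levels. -/
def c0 {m : ℕ} (S : Finset (P4 m)) : ℕ := (univ.filter (fun i => Sum.inl i ∈ S)).card
def c1 {m : ℕ} (S : Finset (P4 m)) : ℕ := (univ.filter (fun i => Sum.inr (Sum.inl i) ∈ S)).card
def c2 {m : ℕ} (S : Finset (P4 m)) : ℕ :=
  (univ.filter (fun i => Sum.inr (Sum.inr (Sum.inl i)) ∈ S)).card
def c3 {m : ℕ} (S : Finset (P4 m)) : ℕ :=
  (univ.filter (fun i => Sum.inr (Sum.inr (Sum.inr i)) ∈ S)).card

lemma pc_0 {m : ℕ} (S : Finset (P4 m)) : pc (lv4 m) S 0 = c0 S := by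
  unfold pc
  rw [card_level]
  simp [lv4, c0]

lemma pc_1 {m : ℕ} (S : Finset (P4 m)) : pc (lv4 m) S 1 = c0 S + c1 S := by
  unfold pc
  rw [card_level]
  simp [lv4, c0, c1]

lemma pc_2 {m : ℕ} (S : Finset (P4 m)) : pc (lv4 m) S 2 = c0 S + c1 S + c2 S := by
  unfold pc
  rw [card_level]
  simp [lv4, c0, c1, c2, add_assoc]

lemma pc_3 {m : ℕ} (S : Finset (P4 m)) : pc (lv4 m) S 3 = c0 S + c1 S + c2 S + c3 S := by
  unfold pc
  rw [card_level]
  simp [lv4, c0, c1, c2, c3, add_assoc]

lemma c0_le {m : ℕ} (S : Finset (P4 m)) : c0 S ≤ m + 2 := by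
  unfold c0
  exact (Finset.card_le_univ _).trans (by simp)
lemma c1_le {m : ℕ} (S : Finset (P4 m)) : c1 S ≤ m + 4 := by
  unfold c1
  exact (Finset.card_le_univ _).trans (by simp)
lemma c2_le {m : ℕ} (S : Finset (P4 m)) : c2 S ≤ m + 4 := by
  unfold c2
  exact (Finset.card_le_univ _).trans (by simp)
lemma c3_le {m : ℕ} (S : Finset (P4 m)) : c3 S ≤ m + 3 := by
  unfold c3
  exact (Finset.card_le_univ _).trans (by simp)

lemma c0_mk {m : ℕ} (A : Finset (Fin (m + 2))) (B C : Finset (Fin (m + 4)))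
    (D : Finset (Fin (m + 3))) : c0 (mk A B C D) = A.card := by
  unfold c0 mk
  congr 1
  ext i
  simp
lemma c1_mk {m : ℕ} (A : Finset (Fin (m + 2))) (B C : Finset (Fin (m + 4)))
    (D : Finset (Fin (m + 3))) : c1 (mk A B C D) = B.card := by
  unfold c1 mk
  congr 1
  ext i
  simp
lemma c2_mk {m : ℕ} (A : Finset (Fin (m + 2))) (B C : Finset (Fin (m + 4)))
    (D : Finset (Fin (m + 3))) : c2 (mk A B C D) = C.card := by
  unfold c2 mk
  congr 1
  ext i
  simp
lemma c3_mk {m : ℕ} (A : Finset (Fin (m + 2))) (B C : Finset (Fin (m + 4)))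
    (D : Finset (Fin (m + 3))) : c3 (mk A B C D) = D.card := by
  unfold c3 mk
  congr 1
  ext i
  simp

/-- The vectors of partial sums of the three shift-minimal winning types. -/
def g1 (m : ℕ) : Fin 4 → ℕ := ![0, m + 4, 2 * m + 7, 3 * m + 10]
def g2 (m : ℕ) : Fin 4 → ℕ := ![m + 2, 2 * m + 5, 3 * m + 8, 3 * m + 9]
def g3 (m : ℕ) : Fin 4 → ℕ := ![m + 2, 2 * m + 6, 2 * m + 7, 3 * m + 9]

/-- Coalitions of the three types. -/
def T1 (m : ℕ) : Finset (P4 m) := mk ∅ univ (univ.erase 0) univ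
def T2 (m : ℕ) : Finset (P4 m) := mk univ (univ.erase 0) (univ.erase 0) {0}
def T3 (m : ℕ) : Finset (P4 m) := mk univ univ {0} (univ.erase 0)

lemma pT1 (m : ℕ) (i : Fin 4) : pc (lv4 m) (T1 m) i = g1 m i := by
  have e : (univ.erase (0 : Fin (m + 4))).card = m + 3 := by
    rw [Finset.card_erase_of_mem (Finset.mem_univ _)]; simp
  fin_cases i
  · show pc (lv4 m) (T1 m) 0 = 0
    rw [pc_0, T1, c0_mk]; simp
  · show pc (lv4 m) (T1 m) 1 = m + 4
    rw [pc_1, T1, c0_mk, c1_mk]; simp
  · show pc (lv4 m) (T1 m) 2 = 2 * m + 7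
    rw [pc_2, T1, c0_mk, c1_mk, c2_mk, e]; simp; omega
  · show pc (lv4 m) (T1 m) 3 = 3 * m + 10
    rw [pc_3, T1, c0_mk, c1_mk, c2_mk, c3_mk, e]; simp; omega

lemma pT2 (m : ℕ) (i : Fin 4) : pc (lv4 m) (T2 m) i = g2 m i := by
  have e : (univ.erase (0 : Fin (m + 4))).card = m + 3 := by
    rw [Finset.card_erase_of_mem (Finset.mem_univ _)]; simp
  fin_cases i
  · show pc (lv4 m) (T2 m) 0 = m + 2
    rw [pc_0, T2, c0_mk]; simp
  · show pc (lv4 m) (T2 m) 1 = 2 * m + 5
    rw [pc_1, T2, c0_mk, c1_mk, e]; simp; omega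
  · show pc (lv4 m) (T2 m) 2 = 3 * m + 8
    rw [pc_2, T2, c0_mk, c1_mk, c2_mk, e]; simp; omega
  · show pc (lv4 m) (T2 m) 3 = 3 * m + 9
    rw [pc_3, T2, c0_mk, c1_mk, c2_mk, c3_mk, e]; simp; omega

lemma pT3 (m : ℕ) (i : Fin 4) : pc (lv4 m) (T3 m) i = g3 m i := by
  have e : (univ.erase (0 : Fin (m + 3))).card = m + 2 := by
    rw [Finset.card_erase_of_mem (Finset.mem_univ _)]; simp
  fin_cases i
  · show pc (lv4 m) (T3 m) 0 = m + 2
    rw [pc_0, T3, c0_mk]; simp
  · show pc (lv4 m) (T3 m) 1 = 2 * m + 6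
    rw [pc_1, T3, c0_mk, c1_mk]; simp; omega
  · show pc (lv4 m) (T3 m) 2 = 2 * m + 7
    rw [pc_2, T3, c0_mk, c1_mk, c2_mk]; simp; omega
  · show pc (lv4 m) (T3 m) 3 = 3 * m + 9
    rw [pc_3, T3, c0_mk, c1_mk, c2_mk, c3_mk, e]; simp; omega

/-- The games of the family. -/
def D4 (m : ℕ) : LG (P4 m) 4 where
  lv := lv4 m
  gens := {g1 m, g2 m, g3 m}
  ne := ⟨_, Finset.mem_insert_self _ _⟩
  pos g hg := by
    simp only [Finset.mem_insert, Finset.mem_singleton] at hg
    rcases hg with rfl | rfl | rfl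
    · exact ⟨1, by show 0 < m + 4; omega⟩
    · exact ⟨0, by show 0 < m + 2; omega⟩
    · exact ⟨0, by show 0 < m + 2; omega⟩
  real g hg := by
    simp only [Finset.mem_insert, Finset.mem_singleton] at hg
    rcases hg with rfl | rfl | rfl
    · exact ⟨T1 m, pT1 m⟩
    · exact ⟨T2 m, pT2 m⟩
    · exact ⟨T3 m, pT3 m⟩
  anti g hg h hh := by
    simp only [Finset.mem_insert, Finset.mem_singleton] at hg hh
    rcases hg with rfl | rfl | rfl <;> rcases hh with rfl | rfl | rfl <;> intro h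
    · rfl
    · have h3 : 3 * m + 10 ≤ 3 * m + 9 := h 3
      omega
    · have h3 : 3 * m + 10 ≤ 3 * m + 9 := h 3
      omega
    · have h0 : m + 2 ≤ 0 := h 0
      omega
    · rfl
    · have h2 : 3 * m + 8 ≤ 2 * m + 7 := h 2
      omega
    · have h0 : m + 2 ≤ 0 := h 0
      omega
    · have h1 : 2 * m + 6 ≤ 2 * m + 5 := h 1
      omega
    · rfl
  surj i := by
    fin_cases i
    · exact ⟨Sum.inl 0, rfl⟩
    · exact ⟨Sum.inr (Sum.inl 0), rfl⟩
    · exact ⟨Sum.inr (Sum.inr (Sum.inl 0)), rfl⟩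
    · exact ⟨Sum.inr (Sum.inr (Sum.inr 0)), rfl⟩
  adj i j h := by
    have h1 : (fun l => pc (lv4 m) (T1 m) l) ∈ ({g1 m, g2 m, g3 m} : Finset (Fin 4 → ℕ)) := by
      have : (fun l => pc (lv4 m) (T1 m) l) = g1 m := funext (pT1 m)
      rw [this]; simp
    have h2 : (fun l => pc (lv4 m) (T2 m) l) ∈ ({g1 m, g2 m, g3 m} : Finset (Fin 4 → ℕ)) := by
      have : (fun l => pc (lv4 m) (T2 m) l) = g2 m := funext (pT2 m)
      rw [this]; simp
    have h3 : (fun l => pc (lv4 m) (T3 m) l) ∈ ({g1 m, g2 m, g3 m} : Finset (Fin 4 → ℕ)) := by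
      have : (fun l => pc (lv4 m) (T3 m) l) = g3 m := funext (pT3 m)
      rw [this]; simp
    have hi := i.isLt
    have hj := j.isLt
    have : (i = 0 ∧ j = 1) ∨ (i = 1 ∧ j = 2) ∨ (i = 2 ∧ j = 3) := by
      simp only [Fin.ext_iff]
      have e1 : ((1 : Fin 4) : ℕ) = 1 := rfl
      have e2 : ((2 : Fin 4) : ℕ) = 2 := rfl
      have e3 : ((3 : Fin 4) : ℕ) = 3 := rfl
      have e0 : ((0 : Fin 4) : ℕ) = 0 := rfl
      omega
    rcases this with ⟨rfl, rfl⟩ | ⟨rfl, rfl⟩ | ⟨rfl, rfl⟩
    · exact ⟨T2 m, Sum.inl 0, Sum.inr (Sum.inl 0), h2, by simp [T2, mk], by simp [T2, mk],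
        rfl, rfl⟩
    · exact ⟨T1 m, Sum.inr (Sum.inl 0), Sum.inr (Sum.inr (Sum.inl 0)), h1, by simp [T1, mk],
        by simp [T1, mk], rfl, rfl⟩
    · exact ⟨T3 m, Sum.inr (Sum.inr (Sum.inl 0)), Sum.inr (Sum.inr (Sum.inr 0)), h3,
        by simp [T3, mk], by simp [T3, mk], rfl, rfl⟩

lemma gens4 (m : ℕ) : (D4 m).gens.card = 3 := by
  have e1 : (D4 m).gens = {g1 m, g2 m, g3 m} := rfl
  rw [e1]
  have h12 : g1 m ≠ g2 m := by
    intro h
    have : 0 = m + 2 := congrFun h 0
    omega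
  have h13 : g1 m ≠ g3 m := by
    intro h
    have : 0 = m + 2 := congrFun h 0
    omega
  have h23 : g2 m ≠ g3 m := by
    intro h
    have : 2 * m + 5 = 2 * m + 6 := congrFun h 1
    omega
  exact Finset.card_eq_three.2 ⟨_, _, _, h12, h13, h23, rfl⟩

lemma win4 (m : ℕ) (S : Finset (P4 m)) : (game (D4 m)).win S ↔
    ((m + 4 ≤ c0 S + c1 S ∧ 2 * m + 7 ≤ c0 S + c1 S + c2 S ∧
        3 * m + 10 ≤ c0 S + c1 S + c2 S + c3 S) ∨
      (m + 2 ≤ c0 S ∧ 2 * m + 5 ≤ c0 S + c1 S ∧ 3 * m + 8 ≤ c0 S + c1 S + c2 S ∧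
        3 * m + 9 ≤ c0 S + c1 S + c2 S + c3 S) ∨
      (m + 2 ≤ c0 S ∧ 2 * m + 6 ≤ c0 S + c1 S ∧ 2 * m + 7 ≤ c0 S + c1 S + c2 S ∧
        3 * m + 9 ≤ c0 S + c1 S + c2 S + c3 S)) := by
  rw [game_win]
  have e1 : (D4 m).gens = {g1 m, g2 m, g3 m} := rfl
  have e2 : (D4 m).lv = lv4 m := rfl
  rw [e1, e2]
  constructor
  · rintro ⟨g, hg, h⟩
    have h0 := h 0
    have h1 := h 1
    have h2 := h 2
    have h3 := h 3
    rw [pc_0] at h0
    rw [pc_1] at h1
    rw [pc_2] at h2
    rw [pc_3] at h3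
    simp only [Finset.mem_insert, Finset.mem_singleton] at hg
    rcases hg with rfl | rfl | rfl
    · exact Or.inl ⟨h1, h2, h3⟩
    · exact Or.inr (Or.inl ⟨h0, h1, h2, h3⟩)
    · exact Or.inr (Or.inr ⟨h0, h1, h2, h3⟩)
  · rintro (h | h | h)
    · refine ⟨g1 m, by simp, fun i => ?_⟩
      fin_cases i
      · exact Nat.zero_le _
      · exact h.1.trans_eq (pc_1 S).symm
      · exact h.2.1.trans_eq (pc_2 S).symm
      · exact h.2.2.trans_eq (pc_3 S).symm
    · refine ⟨g2 m, by simp, fun i => ?_⟩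
      fin_cases i
      · exact h.1.trans_eq (pc_0 S).symm
      · exact h.2.1.trans_eq (pc_1 S).symm
      · exact h.2.2.1.trans_eq (pc_2 S).symm
      · exact h.2.2.2.trans_eq (pc_3 S).symm
    · refine ⟨g3 m, by simp, fun i => ?_⟩
      fin_cases i
      · exact h.1.trans_eq (pc_0 S).symm
      · exact h.2.1.trans_eq (pc_1 S).symm
      · exact h.2.2.1.trans_eq (pc_2 S).symm
      · exact h.2.2.2.trans_eq (pc_3 S).symm

/-- Comparison of the tie functional below a given vector. -/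
lemma below (m p0 p1 p2 p3 a0 a1 a2 a3 : ℤ) (hm : 0 ≤ m) (h0 : p0 ≤ a0) (h1 : p1 ≤ a1)
    (h2 : p2 ≤ a2) (h3 : p3 ≤ a3) :
    p0 + (m + 2) * p1 + p2 + (m * m + 5 * m + 5) * p3
      ≤ a0 + (m + 2) * a1 + a2 + (m * m + 5 * m + 5) * a3 ∧
    (p0 + (m + 2) * p1 + p2 + (m * m + 5 * m + 5) * p3
      = a0 + (m + 2) * a1 + a2 + (m * m + 5 * m + 5) * a3 →
      p0 = a0 ∧ p1 = a1 ∧ p2 = a2 ∧ p3 = a3) := by
  have k1 : 0 ≤ (m + 2) * (a1 - p1) := mul_nonneg (by linarith) (by linarith)
  have k2 : 0 ≤ (m * m + 5 * m + 5) * (a3 - p3) :=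
    mul_nonneg (by nlinarith) (by linarith)
  constructor
  · nlinarith
  · intro h
    have k3 : (m + 2) * (a1 - p1) = 0 := by nlinarith
    have k4 : (m * m + 5 * m + 5) * (a3 - p3) = 0 := by nlinarith
    have k5 : a1 - p1 = 0 := by
      rcases mul_eq_zero.1 k3 with h' | h'
      · linarith
      · exact h'
    have k6 : a3 - p3 = 0 := by
      rcases mul_eq_zero.1 k4 with h' | h'
      · nlinarith
      · exact h'
    refine ⟨by nlinarith, by linarith, by nlinarith, by linarith⟩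

lemma tr4 (m : ℕ) : TradeRobust (game (D4 m)) (m + 3) := by
  have key := tr_cert (game (D4 m)) (lv4 m) ![1, (m : ℤ) + 2, 1, (m : ℤ) * m + 5 * m + 5]
    ![0, -1, 1, 0]
    (((m : ℤ) + 2) * (m + 4) + (2 * m + 7) + ((m : ℤ) * m + 5 * m + 5) * (3 * m + 10)) (-1)
    (m + 4) (by norm_num)
  simp only [Fin.sum_univ_four, Matrix.cons_val_zero, Matrix.cons_val_one,
    Matrix.cons_val, pc_0, pc_1, pc_2, pc_3] at key
  refine key ?_ ?_ (by omega)
  · intro S hS
    rw [win4] at hS
    generalize c0 S = a at *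
    generalize c1 S = b at *
    generalize c2 S = c at *
    generalize c3 S = d at *
    push_cast
    rcases hS with ⟨h1, h2, h3⟩ | ⟨h0, h1, h2, h3⟩ | ⟨h0, h1, h2, h3⟩
    · have kb := below m 0 (m + 4) (2 * m + 7) (3 * m + 10) a (a + b) (a + b + c) (a + b + c + d)
        (by positivity) (by positivity) (by exact_mod_cast h1) (by exact_mod_cast h2)
        (by exact_mod_cast h3)
      refine ⟨by linarith [kb.1], fun h => ?_⟩
      obtain ⟨k0, k1, k2, k3⟩ := kb.2 (by linarith)
      refine ⟨1, ?_⟩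
      linarith
    · have kb := below m (m + 2) (2 * m + 5) (3 * m + 8) (3 * m + 9) a (a + b) (a + b + c)
        (a + b + c + d) (by positivity) (by exact_mod_cast h0) (by exact_mod_cast h1)
        (by exact_mod_cast h2) (by exact_mod_cast h3)
      refine ⟨by nlinarith [kb.1], fun h => ?_⟩
      obtain ⟨k0, k1, k2, k3⟩ := kb.2 (by nlinarith)
      refine ⟨1, ?_⟩
      linarith
    · have kb := below m (m + 2) (2 * m + 6) (2 * m + 7) (3 * m + 9) a (a + b) (a + b + c)
        (a + b + c + d) (by positivity) (by exact_mod_cast h0) (by exact_mod_cast h1)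
        (by exact_mod_cast h2) (by exact_mod_cast h3)
      refine ⟨by nlinarith [kb.1], fun h => ?_⟩
      exfalso
      nlinarith [kb.1]
  · intro S hS
    rw [win4] at hS
    have b0 := c0_le S
    have b1 := c1_le S
    have b2 := c2_le S
    have b3 := c3_le S
    generalize c0 S = a at *
    generalize c1 S = b at *
    generalize c2 S = c at *
    generalize c3 S = d at *
    push_cast
    have hcase : (a ≤ m + 1 ∧ a + b ≤ 2 * m + 5 ∧ a + b + c ≤ 3 * m + 9 ∧
          a + b + c + d ≤ 3 * m + 9) ∨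
        (a ≤ m + 2 ∧ a + b ≤ m + 3 ∧ a + b + c ≤ 2 * m + 7 ∧ a + b + c + d ≤ 3 * m + 10) ∨
        (a ≤ m + 2 ∧ a + b ≤ 2 * m + 4 ∧ a + b + c ≤ 3 * m + 8 ∧ a + b + c + d ≤ 3 * m + 9) ∨
        (a ≤ m + 2 ∧ a + b ≤ 2 * m + 5 ∧ a + b + c ≤ 3 * m + 7 ∧ a + b + c + d ≤ 3 * m + 9) ∨
        (a ≤ m + 2 ∧ a + b ≤ 2 * m + 6 ∧ a + b + c ≤ 2 * m + 6 ∧ a + b + c + d ≤ 3 * m + 9) ∨
        (a ≤ m + 2 ∧ a + b ≤ 2 * m + 6 ∧ a + b + c ≤ 3 * m + 8 ∧ a + b + c + d ≤ 3 * m + 8) := by
      omega
    rcases hcase with ⟨h0, h1, h2, h3⟩ | ⟨h0, h1, h2, h3⟩ | ⟨h0, h1, h2, h3⟩ | ⟨h0, h1, h2, h3⟩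
      | ⟨h0, h1, h2, h3⟩ | ⟨h0, h1, h2, h3⟩
    · have kb := below m a (a + b) (a + b + c) (a + b + c + d) (m + 1) (2 * m + 5) (3 * m + 9)
        (3 * m + 9) (by positivity) (by exact_mod_cast h0) (by exact_mod_cast h1)
        (by exact_mod_cast h2) (by exact_mod_cast h3)
      refine ⟨by nlinarith [kb.1], fun h => ?_⟩
      obtain ⟨k0, k1, k2, k3⟩ := kb.2 (by nlinarith)
      refine ⟨1, ?_⟩
      linarith
    · have kb := below m a (a + b) (a + b + c) (a + b + c + d) (m + 2) (m + 3) (2 * m + 7)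
        (3 * m + 10) (by positivity) (by exact_mod_cast h0) (by exact_mod_cast h1)
        (by exact_mod_cast h2) (by exact_mod_cast h3)
      refine ⟨by nlinarith [kb.1], fun h => ?_⟩
      obtain ⟨k0, k1, k2, k3⟩ := kb.2 (by nlinarith)
      refine ⟨1, ?_⟩
      linarith
    · have kb := below m a (a + b) (a + b + c) (a + b + c + d) (m + 2) (2 * m + 4) (3 * m + 8)
        (3 * m + 9) (by positivity) (by exact_mod_cast h0) (by exact_mod_cast h1)
        (by exact_mod_cast h2) (by exact_mod_cast h3)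
      refine ⟨by nlinarith [kb.1], fun h => ?_⟩
      exfalso
      nlinarith [kb.1]
    · have kb := below m a (a + b) (a + b + c) (a + b + c + d) (m + 2) (2 * m + 5) (3 * m + 7)
        (3 * m + 9) (by positivity) (by exact_mod_cast h0) (by exact_mod_cast h1)
        (by exact_mod_cast h2) (by exact_mod_cast h3)
      refine ⟨by nlinarith [kb.1], fun h => ?_⟩
      exfalso
      nlinarith [kb.1]
    · have kb := below m a (a + b) (a + b + c) (a + b + c + d) (m + 2) (2 * m + 6) (2 * m + 6)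
        (3 * m + 9) (by positivity) (by exact_mod_cast h0) (by exact_mod_cast h1)
        (by exact_mod_cast h2) (by exact_mod_cast h3)
      refine ⟨by nlinarith [kb.1], fun h => ?_⟩
      obtain ⟨k0, k1, k2, k3⟩ := kb.2 (by nlinarith)
      refine ⟨0, ?_⟩
      linarith
    · have kb := below m a (a + b) (a + b + c) (a + b + c + d) (m + 2) (2 * m + 6) (3 * m + 8)
        (3 * m + 8) (by positivity) (by exact_mod_cast h0) (by exact_mod_cast h1)
        (by exact_mod_cast h2) (by exact_mod_cast h3)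
      refine ⟨by nlinarith [kb.1], fun h => ?_⟩
      exfalso
      nlinarith [kb.1]

lemma card_ne (n c : ℕ) (h : c < n + 1) (P : Fin (n + 1) → Prop) [DecidablePred P]
    (hP : ∀ i : Fin (n + 1), P i ↔ i.val ≠ c) : (univ.filter P).card = n := by
  have : univ.filter P = univ.erase ⟨c, h⟩ := by
    ext i
    simp [Fin.ext_iff, hP]
  rw [this, Finset.card_erase_of_mem (Finset.mem_univ _)]
  simp

lemma card_pair (n a b : ℕ) (ha : a < n) (hb : b < n) (hab : a ≠ b) (P : Fin n → Prop)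
    [DecidablePred P] (hP : ∀ i : Fin n, P i ↔ (i.val = a ∨ i.val = b)) :
    (univ.filter P).card = 2 := by
  have : univ.filter P = {⟨a, ha⟩, ⟨b, hb⟩} := by
    ext i
    simp [Fin.ext_iff, hP]
  rw [this, Finset.card_pair]
  simpa [Fin.ext_iff] using hab

/-- The winning coalitions of the long trade. -/
def X4 (m : ℕ) (i : Fin (m + 4)) : Finset (P4 m) :=
  mk (univ.filter (fun _ => i.val ≠ 0)) (univ.filter (fun b => i.val = 0 ∨ b.val ≠ i.val))
    (univ.filter (fun c => c.val ≠ i.val)) (univ.filter (fun d => i.val = 0 ∨ d.val + 1 = i.val))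

/-- The losing coalitions of the long trade. -/
def Y4 (m : ℕ) (i : Fin (m + 4)) : Finset (P4 m) :=
  mk (univ.filter (fun a => a.val + 2 ≠ i.val)) (univ.filter (fun b => i.val ≠ 0 ∨ b.val = 0))
    (univ.filter (fun _ => i.val ≠ 1)) (univ.filter (fun _ => i.val = 0 ∨ i.val = 1))

lemma not_tr4 (m : ℕ) : ¬ TradeRobust (game (D4 m)) (m + 4) := by
  intro h
  refine h (m + 4) (by omega) le_rfl (X4 m) (Y4 m) ?_ ?_ ?_
  · intro i
    rw [win4, X4, c0_mk, c1_mk, c2_mk, c3_mk]
    have e4 : (univ.filter (fun c : Fin (m + 4) => c.val ≠ i.val)).card = m + 3 :=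
      card_ne (m + 3) i.val i.isLt _ (fun _ => Iff.rfl)
    rw [e4]
    by_cases hi : i.val = 0
    · left
      have e1 : (univ.filter (fun b : Fin (m + 4) => i.val = 0 ∨ b.val ≠ i.val)).card = m + 4 := by
        rw [Finset.filter_true_of_mem (fun b _ => Or.inl hi)]; simp
      have e2 : (univ.filter (fun d : Fin (m + 3) => i.val = 0 ∨ d.val + 1 = i.val)).card
          = m + 3 := by
        rw [Finset.filter_true_of_mem (fun b _ => Or.inl hi)]; simp
      have e3 : (univ.filter (fun _ : Fin (m + 2) => i.val ≠ 0)).card = 0 := by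
        rw [Finset.filter_false_of_mem (fun b _ h => h hi)]; simp
      rw [e1, e2, e3]
      omega
    · right; left
      have e1 : (univ.filter (fun b : Fin (m + 4) => i.val = 0 ∨ b.val ≠ i.val)).card = m + 3 :=
        card_ne (m + 3) i.val i.isLt _ (fun b => by
          constructor
          · rintro (h | h)
            · exact absurd h hi
            · exact h
          · exact Or.inr)
      have e2 : (univ.filter (fun d : Fin (m + 3) => i.val = 0 ∨ d.val + 1 = i.val)).card = 1 := by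
        rw [Finset.card_eq_one]
        have := i.isLt
        refine ⟨⟨i.val - 1, by omega⟩, ?_⟩
        ext d
        simp only [Finset.mem_filter, Finset.mem_univ, true_and, Finset.mem_singleton,
          Fin.ext_iff]
        omega
      have e3 : (univ.filter (fun _ : Fin (m + 2) => i.val ≠ 0)).card = m + 2 := by
        rw [Finset.filter_true_of_mem (fun b _ => hi)]; simp
      rw [e1, e2, e3]
      omega
  · intro i
    rw [win4, Y4, c0_mk, c1_mk, c2_mk, c3_mk]
    by_cases h0 : i.val = 0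
    · have h1 : i.val ≠ 1 := by omega
      have e0 : (univ.filter (fun a : Fin (m + 2) => a.val + 2 ≠ i.val)).card = m + 2 := by
        rw [Finset.filter_true_of_mem (fun b _ => by omega)]; simp
      have e1 : (univ.filter (fun b : Fin (m + 4) => i.val ≠ 0 ∨ b.val = 0)).card = 1 := by
        rw [Finset.card_eq_one]
        refine ⟨⟨0, by omega⟩, ?_⟩
        ext b
        simp only [Finset.mem_filter, Finset.mem_univ, true_and, Finset.mem_singleton,
          Fin.ext_iff]
        omega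
      have e2 : (univ.filter (fun _ : Fin (m + 4) => i.val ≠ 1)).card = m + 4 := by
        rw [Finset.filter_true_of_mem (fun b _ => h1)]; simp
      have e3 : (univ.filter (fun _ : Fin (m + 3) => i.val = 0 ∨ i.val = 1)).card = m + 3 := by
        rw [Finset.filter_true_of_mem (fun b _ => Or.inl h0)]; simp
      rw [e0, e1, e2, e3]
      omega
    · have e1 : (univ.filter (fun b : Fin (m + 4) => i.val ≠ 0 ∨ b.val = 0)).card = m + 4 := by
        rw [Finset.filter_true_of_mem (fun b _ => Or.inl h0)]; simp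
      by_cases h1 : i.val = 1
      · have e0 : (univ.filter (fun a : Fin (m + 2) => a.val + 2 ≠ i.val)).card = m + 2 := by
          rw [Finset.filter_true_of_mem (fun b _ => by omega)]; simp
        have e2 : (univ.filter (fun _ : Fin (m + 4) => i.val ≠ 1)).card = 0 := by
          rw [Finset.filter_false_of_mem (fun b _ h => h h1)]; simp
        have e3 : (univ.filter (fun _ : Fin (m + 3) => i.val = 0 ∨ i.val = 1)).card = m + 3 := by
          rw [Finset.filter_true_of_mem (fun b _ => Or.inr h1)]; simp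
        rw [e0, e1, e2, e3]
        omega
      · have hlt := i.isLt
        have e0 : (univ.filter (fun a : Fin (m + 2) => a.val + 2 ≠ i.val)).card = m + 1 :=
          card_ne (m + 1) (i.val - 2) (by omega) _ (fun a => by omega)
        have e2 : (univ.filter (fun _ : Fin (m + 4) => i.val ≠ 1)).card = m + 4 := by
          rw [Finset.filter_true_of_mem (fun b _ => h1)]; simp
        have e3 : (univ.filter (fun _ : Fin (m + 3) => i.val = 0 ∨ i.val = 1)).card = 0 := by
          rw [Finset.filter_false_of_mem (fun b _ h => by omega)]; simp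
        rw [e0, e1, e2, e3]
        omega
  · intro p
    rcases p with a | b | c | d
    · have ha := a.isLt
      have k1 : (univ.filter (fun i => (Sum.inl a : P4 m) ∈ X4 m i)).card = m + 3 :=
        card_ne (m + 3) 0 (by omega) _ (fun i => by
          simp only [X4, mk, Finset.mem_filter, Finset.mem_univ, true_and,
            Finset.inl_mem_disjSum])
      have k2 : (univ.filter (fun i => (Sum.inl a : P4 m) ∈ Y4 m i)).card = m + 3 :=
        card_ne (m + 3) (a.val + 2) (by omega) _ (fun i => by simp [Y4, mk, eq_comm])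
      rw [k1, k2]
    · have hb := b.isLt
      by_cases hb0 : b.val = 0
      · congr 1
        ext i
        simp only [X4, Y4, mk, Finset.mem_filter, Finset.mem_univ, true_and,
          Finset.inr_mem_disjSum, Finset.inl_mem_disjSum]
        omega
      · have k1 : (univ.filter (fun i => (Sum.inr (Sum.inl b) : P4 m) ∈ X4 m i)).card = m + 3 :=
          card_ne (m + 3) b.val (by omega) _ (fun i => by
            simp only [X4, mk, Finset.mem_filter, Finset.mem_univ, true_and,
              Finset.inr_mem_disjSum, Finset.inl_mem_disjSum]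
            omega)
        have k2 : (univ.filter (fun i => (Sum.inr (Sum.inl b) : P4 m) ∈ Y4 m i)).card = m + 3 :=
          card_ne (m + 3) 0 (by omega) _ (fun i => by
            simp only [Y4, mk, Finset.mem_filter, Finset.mem_univ, true_and,
              Finset.inr_mem_disjSum, Finset.inl_mem_disjSum]
            omega)
        rw [k1, k2]
    · have hc := c.isLt
      have k1 : (univ.filter (fun i => (Sum.inr (Sum.inr (Sum.inl c)) : P4 m) ∈ X4 m i)).card
          = m + 3 :=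
        card_ne (m + 3) c.val (by omega) _ (fun i => by
          simp only [X4, mk, Finset.mem_filter, Finset.mem_univ, true_and,
            Finset.inr_mem_disjSum, Finset.inl_mem_disjSum]
          omega)
      have k2 : (univ.filter (fun i => (Sum.inr (Sum.inr (Sum.inl c)) : P4 m) ∈ Y4 m i)).card
          = m + 3 :=
        card_ne (m + 3) 1 (by omega) _ (fun i => by
          simp only [Y4, mk, Finset.mem_filter, Finset.mem_univ, true_and,
            Finset.inr_mem_disjSum, Finset.inl_mem_disjSum])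
      rw [k1, k2]
    · have hd := d.isLt
      have k1 : (univ.filter (fun i => (Sum.inr (Sum.inr (Sum.inr d)) : P4 m) ∈ X4 m i)).card
          = 2 :=
        card_pair (m + 4) 0 (d.val + 1) (by omega) (by omega) (by omega) _ (fun i => by
          simp only [X4, mk, Finset.mem_filter, Finset.mem_univ, true_and,
            Finset.inr_mem_disjSum]
          omega)
      have k2 : (univ.filter (fun i => (Sum.inr (Sum.inr (Sum.inr d)) : P4 m) ∈ Y4 m i)).card
          = 2 :=
        card_pair (m + 4) 0 1 (by omega) (by omega) (by omega) _ (fun i => by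
          simp only [Y4, mk, Finset.mem_filter, Finset.mem_univ, true_and,
            Finset.inr_mem_disjSum])
      rw [k1, k2]

lemma noVeto4 (m : ℕ) : NoVeto (game (D4 m)) := by
  intro x
  have hw : ∀ S, (game (D4 m)).win S → ∀ T, S ⊆ T → (game (D4 m)).win T :=
    fun S hS T hT => (game (D4 m)).mono S T hT hS
  have w1 : (game (D4 m)).win (T1 m) := ⟨g1 m, by
    show g1 m ∈ ({g1 m, g2 m, g3 m} : Finset (Fin 4 → ℕ))
    simp, fun i => (pT1 m i).ge⟩
  have w2 : (game (D4 m)).win (T2 m) := ⟨g2 m, by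
    show g2 m ∈ ({g1 m, g2 m, g3 m} : Finset (Fin 4 → ℕ))
    simp, fun i => (pT2 m i).ge⟩
  rcases x with a | b | c | d
  · exact ⟨T1 m, by simp [T1, mk], w1⟩
  · -- all but `b`
    refine ⟨mk univ (univ.erase b) univ univ, by simp [mk], ?_⟩
    rw [win4, c0_mk, c1_mk, c2_mk, c3_mk, Finset.card_erase_of_mem (Finset.mem_univ _)]
    simp only [Finset.card_univ, Fintype.card_fin]
    omega
  · refine ⟨mk univ univ (univ.erase c) univ, by simp [mk], ?_⟩
    rw [win4, c0_mk, c1_mk, c2_mk, c3_mk, Finset.card_erase_of_mem (Finset.mem_univ _)]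
    simp only [Finset.card_univ, Fintype.card_fin]
    omega
  · refine ⟨mk univ univ univ (univ.erase d), by simp [mk], ?_⟩
    rw [win4, c0_mk, c1_mk, c2_mk, c3_mk, Finset.card_erase_of_mem (Finset.mem_univ _)]
    simp only [Finset.card_univ, Fintype.card_fin]
    omega

lemma noPass4 (m : ℕ) : NoPass (game (D4 m)) := by
  intro x hx
  rw [win4] at hx
  have h : pc (lv4 m) {x} 3 ≤ 1 := by
    unfold pc
    exact (Finset.card_filter_le _ _).trans (by simp)
  rw [pc_3] at h
  omega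

end Pool.Agent.V11155.TradeBases
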