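import Mathlib

/-!
Complete simple games, types, shift-minimal winning coalitions and trade robustness; adding a
passer or a vetoer; games given by levels of players and shift-minimal generators.
-/

namespace Pool.Agent.V11155.TradeGames

open Finset

/-- A simple game on the finite player set `N`. -/
structure SimpleGame (N : Type) [Fintype N] where
  /-- the coalition `S` is winning -/
  win : Finset N → Prop
  /-- the winning coalitions are closed under supersets -/
  mono : ∀ S T : Finset N, S ⊆ T → win S → win T
  /-- the empty coalition is losing -/
  empty : ¬ win ∅
  /-- the grand coalition is winning -/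
  full : win univ

variable {N : Type} [Fintype N] [DecidableEq N]

/-- Player `i` is at least as desirable as player `j`. -/
def Des (G : SimpleGame N) (i j : N) : Prop :=
  ∀ S : Finset N, i ∉ S → j ∉ S → G.win (insert j S) → G.win (insert i S)

/-- A game is complete if its desirability relation is total. -/
def Complete (G : SimpleGame N) : Prop := ∀ i j : N, Des G i j ∨ Des G j i

/-- The number of types: the number of classes of equally desirable players. -/
noncomputable def numTypes (G : SimpleGame N) : ℕ :=
  Set.ncard {C : Set N | ∃ i : N, C = {j : N | Des G i j ∧ Des G j i}}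

open scoped Classical in
/-- The type vector of the coalition `S`, as a function on players: at the player `i` it is the
number of members of `S` in the equivalence class of `i`. -/
noncomputable def typ (G : SimpleGame N) (S : Finset N) : N → ℕ :=
  fun i => (S.filter (fun j => Des G j i ∧ Des G i j)).card

open scoped Classical in
/-- The partial sum of the type vector of `S` over the class of `i` and all the better classes:
the number of members of `S` which are at least as desirable as `i`. -/
noncomputable def psum (G : SimpleGame N) (S : Finset N) : N → ℕ :=
  fun i => (S.filter (fun j => Des G j i)).card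

/-- `S` is shift-minimal winning: it is winning, and every coalition whose type vector is
strictly below that of `S` (all partial sums at most those of `S`, and a different type vector)
is losing. -/
def SMW (G : SimpleGame N) (S : Finset N) : Prop :=
  G.win S ∧ ∀ T : Finset N, (∀ i, psum G T i ≤ psum G S i) → typ G T ≠ typ G S → ¬ G.win T

/-- The number of shift-minimal winning coalition types. -/
noncomputable def numSMW (G : SimpleGame N) : ℕ :=
  Set.ncard {f : N → ℕ | ∃ S : Finset N, SMW G S ∧ f = typ G S}

/-- `k`-trade robustness: there are no `j` with `1 ≤ j ≤ k`, winning coalitions `X₁,…,X_j` and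
losing coalitions `Y₁,…,Y_j` such that every player lies in exactly as many of the `X_i` as of
the `Y_i`. -/
def TradeRobust (G : SimpleGame N) (k : ℕ) : Prop :=
  ∀ j : ℕ, 0 < j → j ≤ k → ∀ X Y : Fin j → Finset N,
    (∀ i, G.win (X i)) → (∀ i, ¬ G.win (Y i)) →
    ¬ ∀ p : N, (univ.filter (fun i => p ∈ X i)).card = (univ.filter (fun i => p ∈ Y i)).card

/-- No player is contained in all winning coalitions. -/
def NoVeto (G : SimpleGame N) : Prop := ∀ x : N, ∃ S : Finset N, x ∉ S ∧ G.win S

/-- No player wins alone. -/
def NoPass (G : SimpleGame N) : Prop := ∀ x : N, ¬ G.win {x}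

lemma des_refl (G : SimpleGame N) (x : N) : Des G x x := fun _ _ _ h => h

lemma des_trans (G : SimpleGame N) {a b c : N} (h1 : Des G a b) (h2 : Des G b c) :
    Des G a c := by
  intro S ha hc hw
  by_cases hac : a = c
  · rw [hac]; exact hw
  by_cases hb : b ∈ S
  · have hab : a ≠ b := fun h => ha (h ▸ hb)
    have hbc : b ≠ c := fun h => hc (h ▸ hb)
    have e1 : insert c S = insert b (insert c (S.erase b)) := by
      ext z
      simp only [Finset.mem_insert, Finset.mem_erase]
      by_cases hz : z = b
      · simp [hz, hb]
      · simp [hz]
    rw [e1] at hw
    have h3 := h1 (insert c (S.erase b)) (by simp [hac, ha]) (by simp [hbc]) hw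
    have e2 : insert a (insert c (S.erase b)) = insert c (insert a (S.erase b)) := by
      ext z
      simp only [Finset.mem_insert, Finset.mem_erase]
      tauto
    rw [e2] at h3
    have h4 := h2 (insert a (S.erase b)) (by simp [hab.symm]) (by
      simp only [Finset.mem_insert, Finset.mem_erase]
      rintro (h | ⟨_, h⟩)
      · exact hac h.symm
      · exact hc h) h3
    have e3 : insert b (insert a (S.erase b)) = insert a S := by
      ext z
      simp only [Finset.mem_insert, Finset.mem_erase]
      by_cases hz : z = b
      · simp [hz, hb]
      · simp [hz]
    rwa [e3] at h4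
  · exact h1 S ha hb (h2 S hb hc hw)

/-! ### One more player -/

/-- The old players in a coalition of the enlarged player set. -/
def core (S : Finset (Option N)) : Finset N := univ.filter (fun x => some x ∈ S)

lemma mem_core {S : Finset (Option N)} {x : N} : x ∈ core S ↔ some x ∈ S := by
  simp [core]

/-- The old coalition together with the new player. -/
def upI (T : Finset N) : Finset (Option N) := univ.filter (fun z => z = none ∨ ∃ x ∈ T, z = some x)

/-- The old coalition in the enlarged player set. -/
def upO (T : Finset N) : Finset (Option N) := univ.filter (fun z => ∃ x ∈ T, z = some x)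

lemma none_mem_upI (T : Finset N) : none ∈ upI T := by simp [upI]
lemma none_notMem_upO (T : Finset N) : none ∉ upO T := by simp [upO]
lemma some_mem_upI (T : Finset N) (x : N) : some x ∈ upI T ↔ x ∈ T := by simp [upI]
lemma some_mem_upO (T : Finset N) (x : N) : some x ∈ upO T ↔ x ∈ T := by simp [upO]

lemma core_upI (T : Finset N) : core (upI T) = T := by
  ext x; rw [mem_core, some_mem_upI]

lemma core_upO (T : Finset N) : core (upO T) = T := by
  ext x; rw [mem_core, some_mem_upO]

lemma core_insert_none (S : Finset (Option N)) : core (insert none S) = core S := by
  ext x; simp [mem_core]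

lemma core_insert_some (S : Finset (Option N)) (y : N) :
    core (insert (some y) S) = insert y (core S) := by
  ext x; simp [mem_core]

lemma core_empty : core (∅ : Finset (Option N)) = ∅ := by
  ext x; simp [mem_core]

lemma core_single_none : core ({none} : Finset (Option N)) = ∅ := by
  ext x; simp [mem_core]

lemma core_univ : core (univ : Finset (Option N)) = univ := by
  ext x; simp [mem_core]

lemma core_mono {S T : Finset (Option N)} (h : S ⊆ T) : core S ⊆ core T := by
  intro x hx
  rw [mem_core] at hx ⊢
  exact h hx

/-- Add a player who wins alone. -/
def pass (G : SimpleGame N) : SimpleGame (Option N) where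
  win S := none ∈ S ∨ G.win (core S)
  mono S T h hS := by
    rcases hS with h0 | h1
    · exact Or.inl (h h0)
    · exact Or.inr (G.mono _ _ (core_mono h) h1)
  empty := by
    rintro (h | h)
    · simp at h
    · rw [core_empty] at h
      exact G.empty h
  full := Or.inl (Finset.mem_univ _)

/-- Add a player who is needed in every winning coalition. -/
def veto (G : SimpleGame N) : SimpleGame (Option N) where
  win S := none ∈ S ∧ G.win (core S)
  mono S T h hS := ⟨h hS.1, G.mono _ _ (core_mono h) hS.2⟩
  empty := by
    rintro ⟨h, _⟩
    simp at h
  full := ⟨Finset.mem_univ _, by rw [core_univ]; exact G.full⟩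

lemma pass_win (G : SimpleGame N) (S : Finset (Option N)) :
    (pass G).win S ↔ (none ∈ S ∨ G.win (core S)) := Iff.rfl

lemma veto_win (G : SimpleGame N) (S : Finset (Option N)) :
    (veto G).win S ↔ (none ∈ S ∧ G.win (core S)) := Iff.rfl

/-- The new player is strictly better than all the old ones, and the old players are compared
as before. -/
structure Ext (G : SimpleGame N) (G' : SimpleGame (Option N)) : Prop where
  top : ∀ z, Des G' none z
  strict : ∀ x, ¬ Des G' (some x) none
  old : ∀ x y, Des G' (some x) (some y) ↔ Des G x y

lemma ext_pass (G : SimpleGame N) (hp : NoPass G) : Ext G (pass G) where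
  top z S _ _ _ := by
    rw [pass_win]; left; simp
  strict x h := by
    have := h ∅ (by simp) (by simp) (by rw [pass_win]; left; simp)
    rw [pass_win, core_insert_some, core_empty] at this
    rcases this with h | h
    · simp at h
    · exact hp x (by simpa using h)
  old x y := by
    constructor
    · intro h S hx hy hw
      have := h (upO S) (by rwa [some_mem_upO]) (by rwa [some_mem_upO]) (by
        rw [pass_win]; right
        rw [core_insert_some, core_upO]
        exact hw)
      rw [pass_win, core_insert_some, core_upO] at this
      rcases this with h | h
      · simp [none_notMem_upO] at h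
      · exact h
    · intro h S hx hy hw
      rw [pass_win, core_insert_some] at hw ⊢
      rcases hw with hw | hw
      · left
        simp at hw
        simp [hw]
      · right
        exact h _ (by rwa [mem_core]) (by rwa [mem_core]) hw

lemma ext_veto (G : SimpleGame N) (hv : NoVeto G) : Ext G (veto G) where
  top z S h1 h2 h := by
    rw [veto_win] at h ⊢
    rcases z with _ | z
    · exact h
    · exfalso
      have := h.1
      simp at this
      exact h1 this
  strict x h := by
    obtain ⟨S, hxS, hS⟩ := hv x
    have := h (upO S) (by rwa [some_mem_upO]) (none_notMem_upO S) (by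
      rw [veto_win]
      exact ⟨by simp, by rw [core_insert_none, core_upO]; exact hS⟩)
    rw [veto_win] at this
    have h2 := this.1
    simp [none_notMem_upO] at h2
  old x y := by
    constructor
    · intro h S hx hy hw
      have := h (upI S) (by rwa [some_mem_upI]) (by rwa [some_mem_upI]) (by
        rw [veto_win]
        exact ⟨by simp [none_mem_upI], by rw [core_insert_some, core_upI]; exact hw⟩)
      rw [veto_win, core_insert_some, core_upI] at this
      exact this.2
    · intro h S hx hy hw
      rw [veto_win, core_insert_some] at hw ⊢
      refine ⟨?_, h _ (by rwa [mem_core]) (by rwa [mem_core]) hw.2⟩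
      have := hw.1
      simp at this
      simp [this]

lemma Ext.complete {G : SimpleGame N} {G' : SimpleGame (Option N)} (e : Ext G G')
    (hG : Complete G) : Complete G' := by
  intro i j
  rcases i with _ | x
  · exact Or.inl (e.top _)
  · rcases j with _ | y
    · exact Or.inr (e.top _)
    · rcases hG x y with h | h
      · exact Or.inl ((e.old x y).2 h)
      · exact Or.inr ((e.old y x).2 h)

lemma Ext.numTypes {G : SimpleGame N} {G' : SimpleGame (Option N)} (e : Ext G G') :
    numTypes G' = numTypes G + 1 := by
  unfold TradeGames.numTypes
  have hset : {C : Set (Option N) | ∃ i, C = {j | Des G' i j ∧ Des G' j i}}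
      = insert {none} ((fun C : Set N => some '' C) ''
        {C : Set N | ∃ i : N, C = {j : N | Des G i j ∧ Des G j i}}) := by
    ext C
    simp only [Set.mem_ofPred_eq, Set.mem_insert_iff, Set.mem_image]
    constructor
    · rintro ⟨i, rfl⟩
      rcases i with _ | x
      · left
        ext z
        rcases z with _ | z
        · simp [e.top]
        · simp [e.strict]
      · right
        refine ⟨_, ⟨x, rfl⟩, ?_⟩
        ext z
        rcases z with _ | z
        · simp [e.strict]
        · simp [e.old]
    · rintro (rfl | ⟨_, ⟨x, rfl⟩, rfl⟩)
      · refine ⟨none, ?_⟩
        ext z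
        rcases z with _ | z
        · simp [e.top]
        · simp [e.strict]
      · refine ⟨some x, ?_⟩
        ext z
        rcases z with _ | z
        · simp [e.strict]
        · simp [e.old]
  rw [hset, Set.ncard_insert_of_notMem (hs := Set.toFinite _), Set.ncard_image_of_injective]
  · exact Function.Injective.image_injective (Option.some_injective N)
  · rintro ⟨C, _, hC⟩
    have h2 : none ∈ ((fun C : Set N => (some '' C : Set (Option N))) C) := by
      rw [hC]; rfl
    simp at h2

lemma card_split (S : Finset (Option N)) (P : Option N → Prop) [DecidablePred P] :
    (S.filter P).card = (if none ∈ S ∧ P none then 1 else 0)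
      + ((core S).filter (fun x => P (some x))).card := by
  have h1 : (S.filter P) = univ.filter (fun z => z ∈ S ∧ P z) := by
    ext z; simp
  have h2 : ((core S).filter (fun x => P (some x)))
      = univ.filter (fun x => some x ∈ S ∧ P (some x)) := by
    ext z; simp [mem_core]
  rw [h1, h2, Finset.card_filter, Finset.card_filter, Fintype.sum_option]

lemma Ext.psum_none {G : SimpleGame N} {G' : SimpleGame (Option N)} (e : Ext G G')
    (S : Finset (Option N)) : psum G' S none = if none ∈ S then 1 else 0 := by
  classical
  unfold psum
  rw [card_split, Finset.filter_false_of_mem (s := core S) (fun x _ => e.strict x)]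
  simp [e.top]

lemma Ext.psum_some {G : SimpleGame N} {G' : SimpleGame (Option N)} (e : Ext G G')
    (S : Finset (Option N)) (x : N) :
    psum G' S (some x) = (if none ∈ S then 1 else 0) + psum G (core S) x := by
  classical
  unfold psum
  rw [card_split, Finset.filter_congr (s := core S) (fun y _ => e.old y x)]
  simp only [e.top, and_true]

lemma Ext.typ_none {G : SimpleGame N} {G' : SimpleGame (Option N)} (e : Ext G G')
    (S : Finset (Option N)) : typ G' S none = if none ∈ S then 1 else 0 := by
  classical
  unfold typ
  rw [card_split, Finset.filter_false_of_mem (s := core S) (fun x _ h => e.strict x h.1)]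
  simp [e.top]

lemma Ext.typ_some {G : SimpleGame N} {G' : SimpleGame (Option N)} (e : Ext G G')
    (S : Finset (Option N)) (x : N) : typ G' S (some x) = typ G (core S) x := by
  classical
  unfold typ
  rw [card_split, Finset.filter_congr (s := core S)
    (fun y _ => and_congr (e.old y x) (e.old x y))]
  simp [e.strict]

/-- A type vector extended to the enlarged player set. -/
def extf (c : ℕ) (f : N → ℕ) : Option N → ℕ
  | none => c
  | some x => f x

omit [Fintype N] [DecidableEq N] in
lemma extf_inj (c : ℕ) : Function.Injective (extf c : (N → ℕ) → _) := by
  intro f g h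
  ext x
  exact congrFun h (some x)

lemma Ext.typ_eq {G : SimpleGame N} {G' : SimpleGame (Option N)} (e : Ext G G')
    (S : Finset (Option N)) :
    typ G' S = extf (if none ∈ S then 1 else 0) (typ G (core S)) := by
  funext z
  rcases z with _ | x
  · rw [e.typ_none]; rfl
  · rw [e.typ_some]; rfl

lemma psum_pos (G : SimpleGame N) (S : Finset N) (x : N) (hx : x ∈ S) : 0 < psum G S x := by
  classical
  unfold psum
  exact Finset.card_pos.2 ⟨x, Finset.mem_filter.2 ⟨hx, des_refl G x⟩⟩

lemma psum_empty (G : SimpleGame N) (x : N) : psum G ∅ x = 0 := by
  simp [psum]

lemma typ_pos (G : SimpleGame N) (S : Finset N) (x : N) (hx : x ∈ S) : 0 < typ G S x := by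
  classical
  unfold typ
  exact Finset.card_pos.2 ⟨x, Finset.mem_filter.2 ⟨hx, des_refl G x, des_refl G x⟩⟩

lemma typ_empty (G : SimpleGame N) (x : N) : typ G ∅ x = 0 := by
  simp [typ]

lemma smw_veto (G : SimpleGame N) (hv : NoVeto G) (S : Finset (Option N)) :
    SMW (veto G) S ↔ (none ∈ S ∧ SMW G (core S)) := by
  have e := ext_veto G hv
  constructor
  · rintro ⟨hw, hmin⟩
    rw [veto_win] at hw
    refine ⟨hw.1, hw.2, ?_⟩
    intro T hT hne hwT
    refine hmin (upI T) ?_ ?_ ?_
    · intro i
      rcases i with _ | x
      · rw [e.psum_none, e.psum_none]; simp [none_mem_upI, hw.1]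
      · rw [e.psum_some, e.psum_some, core_upI]
        simp only [none_mem_upI, hw.1, if_true]
        have := hT x
        omega
    · intro heq
      rw [e.typ_eq, e.typ_eq, core_upI] at heq
      simp only [none_mem_upI, hw.1, if_true] at heq
      exact hne (extf_inj 1 heq)
    · rw [veto_win]
      exact ⟨none_mem_upI T, by rwa [core_upI]⟩
  · rintro ⟨hn, hS, hmin⟩
    refine ⟨by rw [veto_win]; exact ⟨hn, hS⟩, ?_⟩
    intro T hT hne hw
    rw [veto_win] at hw
    refine hmin (core T) ?_ ?_ hw.2
    · intro x
      have := hT (some x)
      rw [e.psum_some, e.psum_some] at this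
      simp only [hn, hw.1, if_true] at this
      omega
    · intro heq
      apply hne
      rw [e.typ_eq, e.typ_eq, heq]
      simp only [hn, hw.1, if_true]

lemma smw_pass (G : SimpleGame N) (hG : Complete G) (hp : NoPass G) (S : Finset (Option N)) :
    SMW (pass G) S ↔ (S = {none} ∨ (none ∉ S ∧ SMW G (core S))) := by
  have e := ext_pass G hp
  constructor
  · rintro ⟨hw, hmin⟩
    by_cases hn : none ∈ S
    · left
      by_contra hne
      refine hmin {none} ?_ ?_ (by rw [pass_win]; left; simp)
      · intro i
        rcases i with _ | x
        · rw [e.psum_none, e.psum_none]; simp [hn]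
        · rw [e.psum_some, e.psum_some, core_single_none, psum_empty]
          simp only [Finset.mem_singleton, if_true, hn]
          omega
      · intro heq
        apply hne
        ext z
        rcases z with _ | x
        · simp [hn]
        · have h1 := congrFun heq (some x)
          rw [e.typ_some, e.typ_some, core_single_none, typ_empty] at h1
          have : some x ∉ S := by
            intro hx
            have := typ_pos G (core S) x (mem_core.2 hx)
            omega
          simp [this]
    · right
      rw [pass_win] at hw
      rcases hw with hw | hw
      · exact absurd hw hn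
      · refine ⟨hn, hw, ?_⟩
        intro T hT hne hwT
        refine hmin (upO T) ?_ ?_ ?_
        · intro i
          rcases i with _ | x
          · rw [e.psum_none, e.psum_none]; simp [none_notMem_upO]
          · rw [e.psum_some, e.psum_some, core_upO]
            simp only [none_notMem_upO, hn, if_false]
            have := hT x
            omega
        · intro heq
          rw [e.typ_eq, e.typ_eq, core_upO] at heq
          simp only [none_notMem_upO, hn, if_false] at heq
          exact hne (extf_inj 0 heq)
        · rw [pass_win]
          right
          rwa [core_upO]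
  · rintro (rfl | ⟨hn, hS, hmin⟩)
    · refine ⟨by rw [pass_win]; left; simp, ?_⟩
      intro T hT hne hw
      have a1 := hT none
      rw [e.psum_none, e.psum_none] at a1
      simp only [Finset.mem_singleton, if_true] at a1
      have hc : ∀ x ∈ core T, (if none ∈ T then 1 else 0) + psum G (core T) x ≤ 1 := by
        intro x _
        have := hT (some x)
        rw [e.psum_some, e.psum_some, core_single_none, psum_empty] at this
        simpa using this
      rw [pass_win] at hw
      by_cases hn : none ∈ T
      · apply hne
        congr 1
        ext z
        rcases z with _ | x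
        · simp [hn]
        · have : some x ∉ T := by
            intro hx
            have h1 := hc x (mem_core.2 hx)
            have h2 := psum_pos G (core T) x (mem_core.2 hx)
            rw [if_pos hn] at h1
            omega
          simp [this]
      · rcases hw with hw | hw
        · exact hn hw
        · -- the core of T wins, but it has at most one member
          have hne' : (core T).Nonempty := by
            rw [Finset.nonempty_iff_ne_empty]
            intro h
            rw [h] at hw
            exact G.empty hw
          -- take a least desirable member
          classical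
          have hcard : (core T).card ≤ 1 := by
            by_contra hlt
            -- every member of the core has at most one at least as desirable member
            have hall : ∀ x ∈ core T, psum G (core T) x ≤ 1 := by
              intro x hx
              have h1 := hc x hx
              rw [if_neg hn] at h1
              omega
            obtain ⟨x, hx, y, hy, hxy⟩ := Finset.one_lt_card.1 (not_le.1 hlt)
            have hx1 := hall x hx
            have hy1 := hall y hy
            rcases hG x y with h | h
            · have : 1 < psum G (core T) y := by
                unfold psum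
                exact Finset.one_lt_card.2 ⟨x, Finset.mem_filter.2 ⟨hx, h⟩, y,
                  Finset.mem_filter.2 ⟨hy, des_refl G y⟩, hxy⟩
              omega
            · have : 1 < psum G (core T) x := by
                unfold psum
                exact Finset.one_lt_card.2 ⟨x, Finset.mem_filter.2 ⟨hx, des_refl G x⟩, y,
                  Finset.mem_filter.2 ⟨hy, h⟩, hxy⟩
              omega
          obtain ⟨x, hx⟩ := hne'
          have : core T = {x} := by
            ext z
            constructor
            · intro hz
              rw [Finset.mem_singleton]
              exact Finset.card_le_one.1 hcard z hz x hx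
            · intro hz
              rw [Finset.mem_singleton] at hz
              rw [hz]; exact hx
          rw [this] at hw
          exact hp x hw
    · refine ⟨by rw [pass_win]; right; exact hS, ?_⟩
      intro T hT hne hw
      have a1 := hT none
      rw [e.psum_none, e.psum_none] at a1
      simp only [hn, if_false] at a1
      have hnT : none ∉ T := by
        intro h
        simp [h] at a1
      rw [pass_win] at hw
      rcases hw with hw | hw
      · exact hnT hw
      · refine hmin (core T) ?_ ?_ hw
        · intro x
          have := hT (some x)
          rw [e.psum_some, e.psum_some] at this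
          simp only [hn, hnT, if_false] at this
          omega
        · intro heq
          apply hne
          rw [e.typ_eq, e.typ_eq, heq]
          simp only [hn, hnT, if_false]

lemma finite_smw (G : SimpleGame N) :
    {f : N → ℕ | ∃ S : Finset N, SMW G S ∧ f = typ G S}.Finite := by
  apply Set.Finite.subset (Set.finite_range (typ G))
  rintro f ⟨S, _, rfl⟩
  exact ⟨S, rfl⟩

lemma numSMW_veto (G : SimpleGame N) (hv : NoVeto G) : numSMW (veto G) = numSMW G := by
  have e := ext_veto G hv
  unfold numSMW
  have hset : {f : Option N → ℕ | ∃ S, SMW (veto G) S ∧ f = typ (veto G) S}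
      = extf 1 '' {f : N → ℕ | ∃ S : Finset N, SMW G S ∧ f = typ G S} := by
    ext f
    simp only [Set.mem_ofPred_eq, Set.mem_image]
    constructor
    · rintro ⟨S, hS, rfl⟩
      rw [smw_veto G hv] at hS
      refine ⟨typ G (core S), ⟨core S, hS.2, rfl⟩, ?_⟩
      rw [e.typ_eq, if_pos hS.1]
    · rintro ⟨g, ⟨S, hS, rfl⟩, rfl⟩
      refine ⟨upI S, (smw_veto G hv _).2 ⟨none_mem_upI S, by rwa [core_upI]⟩, ?_⟩
      rw [e.typ_eq, if_pos (none_mem_upI S), core_upI]
  rw [hset, Set.ncard_image_of_injective _ (extf_inj 1)]

lemma numSMW_pass (G : SimpleGame N) (hG : Complete G) (hp : NoPass G) :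
    numSMW (pass G) = numSMW G + 1 := by
  have e := ext_pass G hp
  unfold numSMW
  have hset : {f : Option N → ℕ | ∃ S, SMW (pass G) S ∧ f = typ (pass G) S}
      = insert (typ (pass G) {none})
        (extf 0 '' {f : N → ℕ | ∃ S : Finset N, SMW G S ∧ f = typ G S}) := by
    ext f
    simp only [Set.mem_ofPred_eq, Set.mem_insert_iff, Set.mem_image]
    constructor
    · rintro ⟨S, hS, rfl⟩
      rw [smw_pass G hG hp] at hS
      rcases hS with rfl | ⟨h1, h3⟩
      · left; rfl
      · right
        refine ⟨typ G (core S), ⟨core S, h3, rfl⟩, ?_⟩
        rw [e.typ_eq, if_neg h1]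
    · rintro (rfl | ⟨g, ⟨S, hS, rfl⟩, rfl⟩)
      · exact ⟨{none}, (smw_pass G hG hp _).2 (Or.inl rfl), rfl⟩
      · refine ⟨upO S, (smw_pass G hG hp _).2 (Or.inr ⟨none_notMem_upO S, ?_⟩), ?_⟩
        · rwa [core_upO]
        · rw [e.typ_eq, if_neg (none_notMem_upO S), core_upO]
  rw [hset, Set.ncard_insert_of_notMem (hs := Set.Finite.image _ (finite_smw G)),
    Set.ncard_image_of_injective _ (extf_inj 0)]
  rintro ⟨g, _, hg⟩
  have := congrFun hg none
  rw [e.typ_none] at this
  simp [extf] at this

lemma tr_veto (G : SimpleGame N) (k : ℕ) : TradeRobust (veto G) k ↔ TradeRobust G k := by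
  constructor
  · intro h j hj hjk X Y hX hY htr
    refine h j hj hjk (fun i => upI (X i)) (fun i => upI (Y i)) ?_ ?_ ?_
    · intro i
      rw [veto_win, core_upI]
      exact ⟨none_mem_upI _, hX i⟩
    · intro i hw
      rw [veto_win, core_upI] at hw
      exact hY i hw.2
    · intro z
      rcases z with _ | x
      · simp [none_mem_upI]
      · simp only [some_mem_upI]
        exact htr x
  · intro h j hj hjk X Y hX hY htr
    have hnX : ∀ i, none ∈ X i := fun i => ((veto_win G _).1 (hX i)).1
    have hnY : ∀ i, none ∈ Y i := by
      have h1 := htr none
      have h2 : (univ.filter (fun i => none ∈ X i)) = univ := by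
        ext i
        simp [hnX i]
      rw [h2] at h1
      have h3 : univ.filter (fun i => none ∈ Y i) = univ := by
        apply Finset.eq_univ_of_card
        rw [← h1]
        rfl
      intro i
      have : i ∈ univ.filter (fun i => none ∈ Y i) := by
        rw [h3]; exact Finset.mem_univ i
      simpa using this
    refine h j hj hjk (fun i => core (X i)) (fun i => core (Y i))
      (fun i => ((veto_win G _).1 (hX i)).2) ?_ ?_
    · intro i hw
      exact hY i ((veto_win G _).2 ⟨hnY i, hw⟩)
    · intro x
      simp only [mem_core]
      exact htr (some x)

lemma tr_pass (G : SimpleGame N) (k : ℕ) : TradeRobust (pass G) k ↔ TradeRobust G k := by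
  constructor
  · intro h j hj hjk X Y hX hY htr
    refine h j hj hjk (fun i => upO (X i)) (fun i => upO (Y i)) ?_ ?_ ?_
    · intro i
      rw [pass_win, core_upO]
      exact Or.inr (hX i)
    · intro i hw
      rw [pass_win, core_upO] at hw
      rcases hw with hw | hw
      · exact none_notMem_upO _ hw
      · exact hY i hw
    · intro z
      rcases z with _ | x
      · simp [none_notMem_upO]
      · simp only [some_mem_upO]
        exact htr x
  · intro h j hj hjk X Y hX hY htr
    have hnY : ∀ i, none ∉ Y i := fun i hi => hY i ((pass_win G _).2 (Or.inl hi))
    have hnX : ∀ i, none ∉ X i := by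
      have h1 := htr none
      have h2 : (univ.filter (fun i => none ∈ Y i)).card = 0 := by
        rw [Finset.card_eq_zero, Finset.filter_eq_empty_iff]
        intro i _
        exact hnY i
      rw [h2, Finset.card_eq_zero, Finset.filter_eq_empty_iff] at h1
      intro i
      exact h1 (Finset.mem_univ i)
    refine h j hj hjk (fun i => core (X i)) (fun i => core (Y i)) ?_ ?_ ?_
    · intro i
      rcases (pass_win G _).1 (hX i) with h1 | h1
      · exact absurd h1 (hnX i)
      · exact h1
    · intro i hw
      exact hY i ((pass_win G _).2 (Or.inr hw))
    · intro x
      simp only [mem_core]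
      exact htr (some x)

lemma noPass_veto (G : SimpleGame N) : NoPass (veto G) := by
  intro z hz
  rw [veto_win] at hz
  rcases z with _ | x
  · rw [core_single_none] at hz
    exact G.empty hz.2
  · simp at hz

lemma noVeto_pass (G : SimpleGame N) : NoVeto (pass G) := by
  intro z
  rcases z with _ | x
  · refine ⟨upO univ, none_notMem_upO _, ?_⟩
    rw [pass_win, core_upO]
    exact Or.inr G.full
  · exact ⟨{none}, by simp, by rw [pass_win]; left; simp⟩

end Pool.Agent.V11155.TradeGames
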