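import Pool.Agent.V11155.TradeBases

/-!
Every `t ≥ 4` is unbounded: for every `k ≥ 2` there is a complete simple game with exactly `t`
types of voters which is `k`-trade robust but not `(k+1)`-trade robust.
-/

namespace Pool.Agent.V11155.Unbounded

open Finset Pool.Agent.V11155.TradeGames Pool.Agent.V11155.LevelGames
open Pool.Agent.V11155.TradeBases

/-- There are suitable games without vetoers and suitable games without passers. -/
def Both (t k : ℕ) : Prop :=
  (∃ (N : Type) (_ : Fintype N) (_ : DecidableEq N) (G : SimpleGame N),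
    Complete G ∧ NoVeto G ∧ numTypes G = t ∧ TradeRobust G k ∧ ¬ TradeRobust G (k + 1)) ∧
  (∃ (N : Type) (_ : Fintype N) (_ : DecidableEq N) (G : SimpleGame N),
    Complete G ∧ NoPass G ∧ numTypes G = t ∧ TradeRobust G k ∧ ¬ TradeRobust G (k + 1))

lemma both_succ {t k : ℕ} (h : Both t k) : Both (t + 1) k := by
  obtain ⟨⟨N, i1, i2, G, h1, h2, h3, h4, h5⟩, ⟨M, j1, j2, H, g1, g2, g3, g4, g5⟩⟩ := h
  constructor
  · refine ⟨Option M, inferInstance, inferInstance, pass H, (ext_pass H g2).complete g1,
      noVeto_pass H, ?_, (tr_pass H k).2 g4, fun h => g5 ((tr_pass H (k + 1)).1 h)⟩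
    rw [(ext_pass H g2).numTypes, g3]
  · refine ⟨Option N, inferInstance, inferInstance, veto G, (ext_veto G h2).complete h1,
      noPass_veto G, ?_, (tr_veto G k).2 h4, fun h => h5 ((tr_veto G (k + 1)).1 h)⟩
    rw [(ext_veto G h2).numTypes, h3]

lemma both_three : Both 3 2 :=
  ⟨⟨Fin 11, inferInstance, inferInstance, game D3, complete_game D3, noVeto3, numTypes_game D3,
    tr3, not_tr3⟩,
  ⟨Fin 11, inferInstance, inferInstance, game D3, complete_game D3, noPass3, numTypes_game D3,
    tr3, not_tr3⟩⟩

lemma both_four (k : ℕ) (hk : 2 ≤ k) : Both 4 k := by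
  rcases Nat.lt_or_ge k 3 with h | h
  · have : k = 2 := by omega
    subst this
    exact both_succ both_three
  · obtain ⟨m, rfl⟩ := Nat.exists_eq_add_of_le' h
    exact ⟨⟨P4 m, inferInstance, inferInstance, game (D4 m), complete_game (D4 m), noVeto4 m,
      numTypes_game (D4 m), tr4 m, not_tr4 m⟩,
    ⟨P4 m, inferInstance, inferInstance, game (D4 m), complete_game (D4 m), noPass4 m,
      numTypes_game (D4 m), tr4 m, not_tr4 m⟩⟩

/-- Suitable games with at least four types. -/
theorem both (t : ℕ) (ht : 4 ≤ t) (k : ℕ) (hk : 2 ≤ k) : Both t k := by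
  induction t, ht using Nat.le_induction with
  | base => exact both_four k hk
  | succ t _ ih => exact both_succ ih

end Pool.Agent.V11155.Unbounded
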